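import Pool.Agent.H42.Station

/-!
Ergodicity of the group action on independent identically distributed conductances.
-/

open MeasureTheory ProbabilityTheory Filter
open scoped BigOperators ENNReal Topology symmDiff

namespace Pool.Agent.H42

set_option linter.unusedSectionVars false

variable {a n : ℕ} [NeZero a]
variable {ρ : Measure ℝ} [IsProbabilityMeasure ρ]

lemma iIndep_coord' : iIndepFun (fun (s : Sym2 (Vert a n)) (e : Sym2 (Vert a n) → ℝ) => e s)
    (iid a n ρ) :=
  iIndepFun_infinitePi (X := fun _ r => r) (fun _ => measurable_id)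

/-- Some group element moves a finite set of pairs off itself. -/
lemma exists_disjoint (I : Finset (Sym2 (Vert a n))) :
    ∃ g : Gam a, ∀ s ∈ I, s.map (mv g) ∉ I := by
  classical
  let F : Finset (Gam a) := I.biUnion fun s => (s.toFinset).image Prod.fst
  let D : Finset (Gam a) := (F ×ˢ F).image fun p => p.1 * p.2⁻¹
  obtain ⟨g, hg⟩ := Infinite.exists_notMem_finset D
  refine ⟨g, fun s hs hs' => hg ?_⟩
  induction s with
  | _ x y =>
    have hx : x.1 ∈ F := by
      simp only [F, Finset.mem_biUnion, Finset.mem_image]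
      exact ⟨_, hs, x, by simp, rfl⟩
    have hx' : g * x.1 ∈ F := by
      simp only [F, Finset.mem_biUnion, Finset.mem_image]
      exact ⟨_, hs', mv g x, by simp, rfl⟩
    simp only [D, Finset.mem_image, Finset.mem_product]
    exact ⟨(g * x.1, x.1), ⟨hx', hx⟩, by simp⟩

lemma cylinder_indep (I : Finset (Sym2 (Vert a n))) {S : Set (I → ℝ)} (hS : MeasurableSet S)
    {g : Gam a} (hg : ∀ s ∈ I, s.map (mv g) ∉ I) :
    (iid a n ρ) (MeasureTheory.cylinder I S ∩ sh g ⁻¹' (MeasureTheory.cylinder I S)) =
      (iid a n ρ) (MeasureTheory.cylinder I S) * (iid a n ρ) (MeasureTheory.cylinder I S) := by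
  classical
  let J : Finset (Sym2 (Vert a n)) := I.image (Sym2.map (mv g))
  have hIJ : Disjoint I J := by
    rw [Finset.disjoint_left]
    intro s hs hsJ
    obtain ⟨t, ht, rfl⟩ := Finset.mem_image.1 hsJ
    exact hg t ht hs
  have hind := (iIndep_coord' (a := a) (n := n) (ρ := ρ)).indepFun_finset I J hIJ
    (fun s => measurable_pi_apply s)
  let r : (J → ℝ) → (I → ℝ) := fun f i => f ⟨(i : Sym2 (Vert a n)).map (mv g),
    Finset.mem_image_of_mem _ i.2⟩
  have hr : Measurable r := measurable_pi_iff.2 fun i => measurable_pi_apply _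
  have h1 := hind.measure_inter_preimage_eq_mul S (r ⁻¹' S) hS (hr hS)
  have e1 : (fun (e : Sym2 (Vert a n) → ℝ) (i : I) => e i) ⁻¹' S =
      MeasureTheory.cylinder I S := rfl
  have e2 : (fun (e : Sym2 (Vert a n) → ℝ) (i : J) => e i) ⁻¹' (r ⁻¹' S) =
      sh g ⁻¹' (MeasureTheory.cylinder I S) := rfl
  rw [e1, e2] at h1
  rw [h1]
  congr 1
  exact (measurePreserving_sh ρ g).measure_preimage
    (hS.cylinder).nullMeasurableSet

lemma invariant_set (A : Set (Sym2 (Vert a n) → ℝ)) (hA : MeasurableSet A)
    (hinv : ∀ g : Gam a, sh g ⁻¹' A =ᵐ[iid a n ρ] A) :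
    (iid a n ρ).real A = 0 ∨ (iid a n ρ).real A = 1 := by
  set P := iid a n ρ with hP
  have hdense := Measure.MeasureDense.of_generateFrom_isSetAlgebra_finite P
    (𝒜 := measurableCylinders (fun _ : Sym2 (Vert a n) => ℝ))
    isSetAlgebra_measurableCylinders generateFrom_measurableCylinders.symm
  have key : ∀ δ : ℝ, 0 < δ → |P.real A - P.real A * P.real A| ≤ 4 * δ := by
    intro δ hδ
    obtain ⟨B, hB, hBA⟩ := hdense.approx A hA (measure_ne_top _ _) δ hδ
    obtain ⟨I, S, hS, rfl⟩ := (mem_measurableCylinders _).1 hB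
    obtain ⟨g, hg⟩ := exists_disjoint I
    have hind := cylinder_indep (ρ := ρ) I hS hg
    set B : Set (Sym2 (Vert a n) → ℝ) :=
      MeasureTheory.cylinder (α := fun _ : Sym2 (Vert a n) => ℝ) I S with hBdef
    have hBm : MeasurableSet B := hS.cylinder
    have hδ' : P.real (A ∆ B) < δ := by
      rw [Measure.real]
      exact (ENNReal.toReal_lt_of_lt_ofReal hBA)
    -- shifted versions
    have hshm := measurePreserving_sh (n := n) ρ g
    have hAs : P.real ((sh g ⁻¹' A) ∆ (sh g ⁻¹' B)) < δ := by
      rw [← Set.preimage_symmDiff, Measure.real]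
      have := hshm.measure_preimage (hA.symmDiff hBm).nullMeasurableSet
      change P _ = P _ at this
      rw [this]
      exact hδ'
    have h1 : P.real A = P.real (A ∩ sh g ⁻¹' A) := by
      have : (A ∩ sh g ⁻¹' A : Set _) =ᵐ[P] A := by
        have := (ae_eq_refl A).inter (hinv g)
        simpa using this
      exact (measureReal_congr this).symm
    have h2 : P.real (B ∩ sh g ⁻¹' B) = P.real B * P.real B := by
      simp only [Measure.real]
      rw [← ENNReal.toReal_mul, ← hind]
    have h3 : |P.real A - P.real B| ≤ P.real (A ∆ B) :=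
      abs_measureReal_sub_le_measureReal_symmDiff hA.nullMeasurableSet hBm.nullMeasurableSet
    have h4 : |P.real (A ∩ sh g ⁻¹' A) - P.real (B ∩ sh g ⁻¹' B)| ≤
        P.real (A ∆ B) + P.real ((sh g ⁻¹' A) ∆ (sh g ⁻¹' B)) := by
      refine (abs_measureReal_sub_le_measureReal_symmDiff
        (hA.inter (measurable_sh g hA)).nullMeasurableSet (hBm.inter (measurable_sh g hBm)).nullMeasurableSet).trans ?_
      refine (measureReal_mono ?_).trans (measureReal_union_le _ _)
      intro x hx
      simp only [Set.mem_symmDiff, Set.mem_inter_iff, Set.mem_union] at hx ⊢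
      tauto
    have hA01 : 0 ≤ P.real A ∧ P.real A ≤ 1 := ⟨measureReal_nonneg, measureReal_le_one⟩
    have hB01 : 0 ≤ P.real B ∧ P.real B ≤ 1 := ⟨measureReal_nonneg, measureReal_le_one⟩
    rw [h2, ← h1] at h4
    rw [abs_le] at h3 h4 ⊢
    constructor <;> nlinarith [h3.1, h3.2, h4.1, h4.2, hA01.1, hA01.2, hB01.1, hB01.2]
  have h0 : P.real A - P.real A * P.real A = 0 := by
    by_contra hne
    have hpos : 0 < |P.real A - P.real A * P.real A| := abs_pos.2 hne
    have := key (|P.real A - P.real A * P.real A| / 8) (by positivity)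
    linarith
  have h1 : P.real A * (1 - P.real A) = 0 := by linarith
  rcases mul_eq_zero.1 h1 with h | h
  · exact Or.inl h
  · right; linarith

/-- Functions of the environment invariant under the group are constant. -/
lemma invariant_fun {κ : (Sym2 (Vert a n) → ℝ) → ℝ} (hκ : Measurable κ)
    (hinv : ∀ g : Gam a, ∀ᵐ e ∂(iid a n ρ), κ (sh g e) = κ e) :
    ∃ k : ℝ, ∀ᵐ e ∂(iid a n ρ), κ e = k := by
  have := exists_eventuallyEq_const_of_forall_separating (l := ae (iid a n ρ)) (f := κ)
    MeasurableSet ?_
  · exact this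
  · intro U hU
    have h := invariant_set (ρ := ρ) (κ ⁻¹' U) (hκ hU) (fun g => by
      filter_upwards [hinv g] with e he
      apply propext
      change κ (sh g e) ∈ U ↔ κ e ∈ U
      rw [he])
    rcases h with h | h
    · right
      rw [measureReal_eq_zero_iff] at h
      exact measure_eq_zero_iff_ae_notMem.1 h
    · left
      have h2 : (iid a n ρ).real (κ ⁻¹' U)ᶜ = 0 := by
        rw [probReal_compl_eq_one_sub (hκ hU), h, sub_self]
      rw [measureReal_eq_zero_iff] at h2
      have := measure_eq_zero_iff_ae_notMem.1 h2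
      filter_upwards [this] with e he
      simpa using he

end Pool.Agent.H42
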