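import Pool.Agent.H42.Walk

/-!
Cylinder sets: partitions, uniqueness of measures, the one-step Markov property.
-/

open MeasureTheory ProbabilityTheory
open scoped BigOperators ENNReal

namespace Pool.Agent.H42

set_option linter.unusedSectionVars false

variable {V : Type} [MeasurableSpace V] [DiscreteMeasurableSpace V] [Countable V]

/-- Extension of a finite path. -/
def ex {k : ℕ} (x : Fin (k + 1) → V) : ℕ → V := fun i => x ⟨min i k, by omega⟩

lemma ex_of_le {k : ℕ} (x : Fin (k + 1) → V) {i : ℕ} (h : i ≤ k) :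
    ex x i = x ⟨i, by omega⟩ := by
  simp [ex, h]

lemma mem_cyl_ex {k : ℕ} (x : Fin (k + 1) → V) (p : Can V) :
    p ∈ cyl k (ex x) ↔ (fun i : Fin (k + 1) => p.2 i) = x := by
  constructor
  · intro h
    funext i
    have := h i.1 (by omega)
    rw [this, ex_of_le x (by omega)]
  · intro h i hi
    rw [ex_of_le x hi, ← h]

lemma iUnion_cyl (k : ℕ) : (⋃ x : Fin (k + 1) → V, cyl k (ex x)) = (Set.univ : Set (Can V)) := by
  ext p
  simp [mem_cyl_ex]

lemma cyl_disjoint (k : ℕ) :
    Pairwise (Function.onFun Disjoint fun x : Fin (k + 1) → V => cyl k (ex x)) := by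
  intro x y hxy
  refine Set.disjoint_left.2 fun p hx hy => hxy ?_
  rw [mem_cyl_ex] at hx hy
  rw [← hx, ← hy]

lemma lintegral_eq_tsum_cyl (M : Measure (Can V)) (k : ℕ) (f : Can V → ℝ≥0∞) :
    ∫⁻ p, f p ∂M = ∑' x : Fin (k + 1) → V, ∫⁻ p in cyl k (ex x), f p ∂M := by
  rw [← lintegral_iUnion (fun x => measurableSet_cyl k (ex x)) (cyl_disjoint k), iUnion_cyl,
    Measure.restrict_univ]

/-- The generating family. -/
def cylFam : Set (Set (Can V)) :=
  {S | ∃ A : Set (Sym2 V → ℝ), MeasurableSet A ∧ ∃ (m : ℕ) (y : ℕ → V),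
    S = {p | p.1 ∈ A} ∩ cyl m y}

lemma isPiSystem_cylFam : IsPiSystem (cylFam (V := V)) := by
  rintro S ⟨A, hA, m, y, rfl⟩ T ⟨B, hB, m', y', rfl⟩ ⟨q, ⟨hq1, hq2⟩, hq3, hq4⟩
  rcases le_total m m' with h | h
  · refine ⟨A ∩ B, hA.inter hB, m', y', ?_⟩
    ext p
    constructor
    · rintro ⟨⟨h1, h2⟩, h3, h4⟩
      exact ⟨⟨h1, h3⟩, h4⟩
    · rintro ⟨⟨h1, h3⟩, h4⟩
      refine ⟨⟨h1, fun i hi => ?_⟩, h3, h4⟩
      rw [h4 i (hi.trans h), ← hq4 i (hi.trans h), hq2 i hi]
  · refine ⟨A ∩ B, hA.inter hB, m, y, ?_⟩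
    ext p
    constructor
    · rintro ⟨⟨h1, h2⟩, h3, h4⟩
      exact ⟨⟨h1, h3⟩, h2⟩
    · rintro ⟨⟨h1, h3⟩, h2⟩
      refine ⟨⟨h1, h2⟩, h3, fun i hi => ?_⟩
      rw [h2 i (hi.trans h), ← hq2 i (hi.trans h), hq4 i hi]

lemma generateFrom_cylFam :
    (inferInstance : MeasurableSpace (Can V)) = MeasurableSpace.generateFrom (cylFam (V := V)) := by
  apply le_antisymm
  · have h1 : MeasurableSpace.comap (Prod.fst : Can V → _) inferInstance ≤
        MeasurableSpace.generateFrom (cylFam (V := V)) := by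
      rintro S ⟨A, hA, rfl⟩
      have : Prod.fst ⁻¹' A = ⋃ x : Fin 1 → V, ({p : Can V | p.1 ∈ A} ∩ cyl 0 (ex x)) := by
        rw [← Set.inter_iUnion, iUnion_cyl, Set.inter_univ]; rfl
      rw [this]
      exact MeasurableSet.iUnion fun x =>
        MeasurableSpace.measurableSet_generateFrom ⟨A, hA, 0, ex x, rfl⟩
    have h2 : MeasurableSpace.comap (Prod.snd : Can V → _) inferInstance ≤
        MeasurableSpace.generateFrom (cylFam (V := V)) := by
      rw [MeasurableSpace.comap_le_iff_le_map]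
      refine iSup_le fun k => ?_
      rw [← MeasurableSpace.comap_le_iff_le_map]
      rintro S ⟨T, ⟨B, hB, rfl⟩, rfl⟩
      have : Prod.snd ⁻¹' ((fun b : ℕ → V => b k) ⁻¹' B) =
          ⋃ x : {x : Fin (k + 1) → V // x (Fin.last k) ∈ B},
            ({p : Can V | p.1 ∈ Set.univ} ∩ cyl k (ex x.1)) := by
        ext p
        simp only [Set.mem_preimage, Set.mem_univ, Set.ofPred_true, Set.univ_inter, Set.mem_iUnion,
          mem_cyl_ex, Subtype.exists, exists_prop]
        constructor
        · intro h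
          exact ⟨fun i : Fin (k + 1) => p.2 i, by simpa using h, rfl⟩
        · rintro ⟨x, hx, hx'⟩
          rw [← hx'] at hx
          simpa using hx
      rw [this]
      exact MeasurableSet.iUnion fun x =>
        MeasurableSpace.measurableSet_generateFrom ⟨Set.univ, MeasurableSet.univ, k, ex x.1, rfl⟩
    exact sup_le h1 h2
  · apply MeasurableSpace.generateFrom_le
    rintro S ⟨A, hA, m, y, rfl⟩
    exact (measurable_fst hA).inter (measurableSet_cyl m y)

lemma ext_cyl {M N : Measure (Can V)} [IsFiniteMeasure M]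
    (h : ∀ A : Set (Sym2 V → ℝ), MeasurableSet A → ∀ (m : ℕ) (y : ℕ → V),
      M ({p | p.1 ∈ A} ∩ cyl m y) = N ({p | p.1 ∈ A} ∩ cyl m y)) : M = N := by
  refine ext_of_generate_finite _ generateFrom_cylFam isPiSystem_cylFam ?_ ?_
  · rintro S ⟨A, hA, m, y, rfl⟩
    exact h A hA m y
  · have key : ∀ R : Measure (Can V), R Set.univ =
        ∑' x : Fin 1 → V, R ({p | p.1 ∈ Set.univ} ∩ cyl 0 (ex x)) := by
      intro R
      simp only [Set.mem_univ, Set.ofPred_true, Set.univ_inter]
      rw [← measure_iUnion (cyl_disjoint 0) (fun x => measurableSet_cyl 0 (ex x)), iUnion_cyl]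
    rw [key M, key N]
    exact tsum_congr fun x => h _ MeasurableSet.univ _ _

variable {G : SimpleGraph V} {P : Measure (Sym2 V → ℝ)} {W : Finset V} {L : Measure (Can V)}

open Classical in
/-- Path following `x` up to time `k`, then at `y`. -/
noncomputable def upd (x : ℕ → V) (k : ℕ) (y : V) : ℕ → V := fun i => if i ≤ k then x i else y

lemma cyl_upd (x : ℕ → V) (k : ℕ) (y : V) :
    cyl (k + 1) (upd x k y) = cyl k x ∩ {p : Can V | p.2 (k + 1) = y} := by
  ext p
  constructor
  · intro h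
    refine ⟨fun i hi => ?_, ?_⟩
    · rw [h i (by omega)]; simp [upd, hi]
    · have := h (k + 1) le_rfl
      simpa [upd] using this
  · rintro ⟨h1, h2⟩ i hi
    rcases Nat.lt_or_ge k i with hk | hk
    · have : i = k + 1 := by omega
      subst this
      simpa [upd] using h2
    · rw [h1 i hk]; simp [upd, hk]

lemma pw_upd (x : ℕ → V) (k : ℕ) (y : V) (e : Sym2 V → ℝ) :
    pw G (k + 1) (upd x k y) e = pw G k x e * ENNReal.ofReal (stepProb G e (x k) y) := by
  unfold pw
  rw [Finset.prod_range_succ]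
  congr 1
  · refine Finset.prod_congr rfl fun i hi => ?_
    rw [Finset.mem_range] at hi
    have h1 : i ≤ k := by omega
    have h2 : i + 1 ≤ k := by omega
    simp [upd, h1, h2]
  · simp [upd]

lemma measurableSet_coord (k : ℕ) (y : V) : MeasurableSet {p : Can V | p.2 k = y} :=
  ((measurable_pi_apply k).comp measurable_snd) (MeasurableSet.singleton _)

lemma lintegral_split_coord (M : Measure (Can V)) (k : ℕ) (f : Can V → ℝ≥0∞) :
    ∫⁻ p, f p ∂M = ∑' y : V, ∫⁻ p in {p | p.2 k = y}, f p ∂M := by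
  rw [← lintegral_iUnion (fun y => measurableSet_coord k y)]
  · have : (⋃ y : V, {p : Can V | p.2 k = y}) = Set.univ := by
      ext p; simp
    rw [this, Measure.restrict_univ]
  · intro x y hxy
    refine Set.disjoint_left.2 fun p hx hy => hxy ?_
    rw [← show p.2 k = x from hx, ← show p.2 k = y from hy]

lemma lintegral_succ (hfin : ∀ x, (G.neighborSet x).Finite) (hL : IsWalkLaw G P W L)
    (F : (Sym2 V → ℝ) → V → ℝ≥0∞) (hF : ∀ y, Measurable fun e => F e y) (k : ℕ) :
    ∫⁻ p, F p.1 (p.2 (k + 1)) ∂(star G L) =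
      ∫⁻ p, ∑' y, ENNReal.ofReal (stepProb G p.1 (p.2 k) y) * F p.1 y ∂(star G L) := by
  rw [lintegral_eq_tsum_cyl _ k, lintegral_eq_tsum_cyl _ k]
  refine tsum_congr fun x => ?_
  have hs : ∀ x y, Measurable fun e => ENNReal.ofReal (stepProb G e x y) :=
    fun x y => (measurable_stepProb G hfin x y).ennreal_ofReal
  have ht : ∀ x, Measurable fun e => ENNReal.ofReal (totalCond G e x) :=
    fun x => (measurable_totalCond G hfin x).ennreal_ofReal
  have hmT : Measurable fun e => ∑' y, ENNReal.ofReal (stepProb G e (ex x k) y) * F e y :=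
    Measurable.tsum fun y => (hs _ y).mul (hF y)
  have h1 : ∫⁻ p in cyl k (ex x), ∑' y, ENNReal.ofReal (stepProb G p.1 (p.2 k) y) * F p.1 y
      ∂(star G L) = ∫⁻ p in cyl k (ex x),
        (fun e => ∑' y, ENNReal.ofReal (stepProb G e (ex x k) y) * F e y) p.1 ∂(star G L) := by
    refine setLIntegral_congr_fun (measurableSet_cyl k _) ?_
    intro p hp
    have : p.2 k = ex x k := hp k le_rfl
    simp only [this]
  have h2 : ∫⁻ p in cyl k (ex x), F p.1 (p.2 (k + 1)) ∂(star G L) =
      ∑' y, ∫⁻ p in cyl (k + 1) (upd (ex x) k y), F p.1 y ∂(star G L) := by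
    rw [lintegral_split_coord _ (k + 1)]
    refine tsum_congr fun y => ?_
    rw [Measure.restrict_restrict (measurableSet_coord _ _), cyl_upd, Set.inter_comm]
    refine setLIntegral_congr_fun ((measurableSet_cyl k _).inter (measurableSet_coord _ _)) ?_
    intro p hp
    have : p.2 (k + 1) = y := hp.2
    simp only [this]
  rw [h1, h2, lintegral_star_cyl hfin hL k (ex x)
    (f := fun e => ∑' y, ENNReal.ofReal (stepProb G e (ex x k) y) * F e y) hmT]
  have h3 : ∀ y, ∫⁻ p in cyl (k + 1) (upd (ex x) k y), F p.1 y ∂(star G L) =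
      w0 W (ex x 0) * ∫⁻ e, F e y * (ENNReal.ofReal (totalCond G e (ex x 0)) *
        (pw G k (ex x) e * ENNReal.ofReal (stepProb G e (ex x k) y))) ∂P := by
    intro y
    rw [lintegral_star_cyl hfin hL (k + 1) (upd (ex x) k y) (f := fun e => F e y) (hF y)]
    have : upd (ex x) k y 0 = ex x 0 := by simp [upd]
    rw [this]
    simp only [pw_upd]
  simp only [h3]
  rw [ENNReal.tsum_mul_left, ← lintegral_tsum]
  · congr 1
    refine lintegral_congr fun e => ?_
    rw [← ENNReal.tsum_mul_right]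
    refine tsum_congr fun y => ?_
    ring
  · intro y
    exact ((hF y).mul ((ht _).mul ((measurable_pw G hfin k _).mul (hs _ y)))).aemeasurable

end Pool.Agent.H42
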