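import Pool.Agent.H42.Drift2

/-!
Distances in the graph.
-/

open scoped BigOperators

namespace Pool.Agent.H42

set_option linter.unusedSectionVars false

variable {a n : ℕ} [NeZero a] [NeZero n]

lemma adj_hub_thinAt (g : Gam a) (s : Bool) (i j : Fin a) :
    (gr a n).Adj (g, Cell.hub s i) (g, thinAt s i j) :=
  adj_hub.2 ⟨Sum.inr (Sum.inl j), rfl⟩

lemma adj_thinAt_hub (g : Gam a) (s : Bool) (i j : Fin a) :
    (gr a n).Adj (g, thinAt s i j) (g, Cell.hub (!s) j) := by
  cases s
  · exact adj_thin.2 (Or.inr rfl)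
  · exact adj_thin.2 (Or.inl rfl)

lemma adj_port (g : Gam a) (s : Bool) (i r : Fin a) :
    (gr a n).Adj (g, Cell.hub s i) (portCell g s i r, Cell.hub (!s) i) :=
  adj_hub.2 ⟨Sum.inr (Sum.inr r), rfl⟩

lemma reach_opp (g : Gam a) (s : Bool) (i j : Fin a) :
    (gr a n).Reachable (g, Cell.hub s i) (g, Cell.hub (!s) j) :=
  (adj_hub_thinAt g s i j).reachable.trans (adj_thinAt_hub g s i j).reachable

lemma reach_hub (g : Gam a) (s s' : Bool) (i j : Fin a) :
    (gr a n).Reachable (g, Cell.hub s i) (g, Cell.hub s' j) := by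
  by_cases h : s' = !s
  · rw [h]; exact reach_opp g s i j
  · have : s' = !(!s) := by cases s <;> cases s' <;> simp_all
    rw [this]
    exact (reach_opp g s i j).trans (reach_opp g (!s) j j)

lemma reach_cell (g : Gam a) (u : Cell a n) :
    (gr a n).Reachable (g, Cell.hub false 0) (g, u) := by
  cases u with
  | center s =>
    refine (reach_hub g false s 0 0).trans ?_
    refine SimpleGraph.Reachable.trans (v := (g, Cell.fat s 0 0)) ?_ ?_
    · exact (SimpleGraph.Adj.reachable (adj_hub.2 ⟨Sum.inl 0, rfl⟩))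
    · exact (SimpleGraph.Adj.reachable (adj_fat.2 (Or.inl rfl)))
  | hub s i => exact reach_hub g false s 0 i
  | fat s i k =>
    refine (reach_hub g false s 0 i).trans ?_
    exact (SimpleGraph.Adj.reachable (adj_hub.2 ⟨Sum.inl k, rfl⟩))
  | thin i j =>
    refine (reach_hub g false false 0 i).trans ?_
    exact (adj_hub_thinAt g false i j).reachable

lemma reach_mul (g : Gam a) : ∀ h : Gam a,
    (gr a n).Reachable (h, Cell.hub false 0) (h * g, Cell.hub false 0) := by
  induction g using FreeGroup.induction_on with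
  | C1 => intro h; simp
  | of x =>
    intro h
    refine (reach_hub h false false 0 x.1).trans ?_
    refine (adj_port h false x.1 x.2).reachable.trans ?_
    have : portCell h false x.1 x.2 = h * FreeGroup.of x := by simp [portCell]
    rw [this]
    exact reach_hub _ _ _ _ _
  | inv_of x ih =>
    intro h
    have := ih (h * (FreeGroup.of x)⁻¹)
    simpa using this.symm
  | mul x y hx hy =>
    intro h
    have := (hx h).trans (hy (h * x))
    rwa [mul_assoc] at this

lemma gr_connected : (gr a n).Connected := by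
  rw [SimpleGraph.connected_iff_exists_forall_reachable]
  refine ⟨(1, Cell.hub false 0), ?_⟩
  rintro ⟨g, u⟩
  have := reach_mul (n := n) g 1
  rw [one_mul] at this
  exact this.trans (reach_cell g u)

/-- Distance inside a cell from the entry hub. -/
def dcell (h : Bool × Fin a) : Cell a n → ℝ
  | Cell.center s => if s = h.1 then 2 else 4
  | Cell.hub s i => if h.1 = s then (if h.2 = i then 0 else 4) else 2
  | Cell.fat s i _ => if h = (s, i) then 1 else 3
  | Cell.thin i j => if (h = (false, i) ∨ h = (true, j)) then 1 else 3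

/-- Lower bound function for distances. -/
noncomputable def lamb (x : Vert a n) : ℝ := Dlen 1 x.1 + dcell (inHub x.1) x.2

lemma wt_eq (h : Bool × Fin a) (s : Bool) (i : Fin a) :
    wt 1 h (s, i) = 1 + dcell (n := n) h (Cell.hub s i) := by
  simp only [wt, dcell]
  split_ifs <;> norm_num

lemma lamb_edge {x y : Vert a n} (h : EdgeRel a n x y) : |lamb x - lamb y| ≤ 1 := by
  cases h with
  | cf g s i k =>
    simp only [lamb, dcell]
    generalize inHub g = h
    obtain ⟨s0, i0⟩ := h
    simp only [Prod.mk.injEq]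
    split_ifs <;> simp_all <;> norm_num [abs_le]
  | fh g s i k =>
    simp only [lamb, dcell]
    generalize inHub g = h
    obtain ⟨s0, i0⟩ := h
    simp only [Prod.mk.injEq]
    split_ifs <;> simp_all <;> norm_num [abs_le]
  | t0 g i j =>
    simp only [lamb, dcell]
    generalize inHub g = h
    obtain ⟨s0, i0⟩ := h
    simp only [Prod.mk.injEq]
    split_ifs <;> simp_all <;> norm_num [abs_le]
  | t1 g i j =>
    simp only [lamb, dcell]
    generalize inHub g = h
    obtain ⟨s0, i0⟩ := h
    simp only [Prod.mk.injEq]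
    split_ifs <;> simp_all <;> norm_num [abs_le]
  | port g i r =>
    have hp : portCell g false i r = g * FreeGroup.of (i, r) := by simp [portCell]
    rw [← hp]
    rcases port_cases 1 g false i r with ⟨h1, h2⟩ | ⟨h1, h2⟩
    · simp only [lamb, h1, h2]
      rw [wt_eq (n := n)]
      simp [dcell]
    · simp only [lamb, h1, h2]
      rw [wt_eq (n := n)]
      simp [dcell]

lemma lamb_adj {x y : Vert a n} (h : (gr a n).Adj x y) : |lamb x - lamb y| ≤ 1 := by
  rcases h with h | h
  · exact lamb_edge h
  · rw [abs_sub_comm]; exact lamb_edge h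

lemma lamb_walk {x y : Vert a n} (p : (gr a n).Walk x y) : |lamb x - lamb y| ≤ p.length := by
  induction p with
  | nil => simp
  | cons h p ih =>
    rw [SimpleGraph.Walk.length_cons]
    have := lamb_adj h
    push_cast
    calc |_ - _| ≤ |lamb _ - lamb _| + |lamb _ - lamb _| := abs_sub_le _ _ _
      _ ≤ 1 + _ := add_le_add this ih
      _ = _ := by ring

lemma lamb_dist (x y : Vert a n) : |lamb x - lamb y| ≤ (gr a n).dist x y := by
  obtain ⟨p, hp⟩ := (gr_connected.preconnected x y).exists_walk_length_eq_dist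
  rw [← hp]
  exact lamb_walk p

lemma dcell_nonneg (h : Bool × Fin a) (u : Cell a n) : 0 ≤ dcell h u := by
  cases u <;> simp only [dcell] <;> split_ifs <;> norm_num

lemma dcell_le (h : Bool × Fin a) (u : Cell a n) : dcell h u ≤ 4 := by
  cases u <;> simp only [dcell] <;> split_ifs <;> norm_num

lemma Dlen_one (w0 : ℝ) : Dlen w0 (1 : Gam a) = 0 := by
  simp [Dlen, DR]

lemma dist_lower (u : Cell a n) (y : Vert a n) :
    Dlen 1 y.1 - 4 ≤ (gr a n).dist ((1 : Gam a), u) y := by
  have h := lamb_dist ((1 : Gam a), u) y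
  have h' := abs_le.1 h
  have h1 := dcell_nonneg (inHub y.1) y.2
  have h2 := dcell_le (inHub (1 : Gam a)) u
  have h3 := Dlen_one (a := a) 1
  simp only [lamb] at h'
  linarith [h'.1, h'.2]

lemma dist_opp (g : Gam a) (s : Bool) (i j : Fin a) :
    (gr a n).dist (g, Cell.hub s i) (g, Cell.hub (!s) j) ≤ 2 := by
  have := SimpleGraph.dist_le (SimpleGraph.Walk.cons (adj_hub_thinAt (n := n) g s i j)
    (SimpleGraph.Walk.cons (adj_thinAt_hub g s i j) SimpleGraph.Walk.nil))
  simpa using this

lemma dist_hub (g : Gam a) (s s' : Bool) (i j : Fin a) :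
    (gr a n).dist (g, Cell.hub s i) (g, Cell.hub s' j) ≤ 4 := by
  by_cases h : s' = !s
  · rw [h]; exact (dist_opp g s i j).trans (by norm_num)
  · have : s' = !(!s) := by cases s <;> cases s' <;> simp_all
    rw [this]
    exact (gr_connected.dist_triangle (v := (g, Cell.hub (!s) j))).trans
      (add_le_add (dist_opp g s i j) (dist_opp g (!s) j j))

lemma dist_adj {x y : Vert a n} (h : (gr a n).Adj x y) : (gr a n).dist x y ≤ 1 :=
  SimpleGraph.dist_le (SimpleGraph.Walk.cons h SimpleGraph.Walk.nil)

lemma dist_cell (g : Gam a) (s : Bool) (i : Fin a) (u : Cell a n) :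
    (gr a n).dist (g, Cell.hub s i) (g, u) ≤ 6 := by
  cases u with
  | center s' =>
    have h1 := dist_hub (n := n) g s s' i 0
    have h2 : (gr a n).dist (g, Cell.hub s' 0) (g, Cell.fat s' 0 0) ≤ 1 :=
      dist_adj (adj_hub.2 ⟨Sum.inl 0, rfl⟩)
    have h3 : (gr a n).dist (g, Cell.fat s' 0 0) (g, Cell.center s') ≤ 1 :=
      dist_adj (adj_fat.2 (Or.inl rfl))
    have t1 := gr_connected.dist_triangle (G := gr a n) (u := (g, Cell.hub s i))
      (v := (g, Cell.hub s' 0)) (w := (g, Cell.center s'))
    have t2 := gr_connected.dist_triangle (G := gr a n) (u := (g, Cell.hub s' 0))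
      (v := (g, Cell.fat s' 0 0)) (w := (g, Cell.center s'))
    omega
  | hub s' j => exact (dist_hub g s s' i j).trans (by norm_num)
  | fat s' j k =>
    have h1 := dist_hub (n := n) g s s' i j
    have h2 : (gr a n).dist (g, Cell.hub s' j) (g, Cell.fat s' j k) ≤ 1 :=
      dist_adj (adj_hub.2 ⟨Sum.inl k, rfl⟩)
    have t1 := gr_connected.dist_triangle (G := gr a n) (u := (g, Cell.hub s i))
      (v := (g, Cell.hub s' j)) (w := (g, Cell.fat s' j k))
    omega
  | thin i' j' =>
    have h1 := dist_hub (n := n) g s false i i'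
    have h2 : (gr a n).dist (g, Cell.hub false i') (g, Cell.thin i' j') ≤ 1 :=
      dist_adj (adj_hub_thinAt g false i' j')
    have t1 := gr_connected.dist_triangle (G := gr a n) (u := (g, Cell.hub s i))
      (v := (g, Cell.hub false i')) (w := (g, Cell.thin i' j'))
    omega

lemma wt5_hub (g : Gam a) (h : Bool × Fin a) (s : Bool) (i : Fin a) :
    ((gr a n).dist (g, Cell.hub h.1 h.2) (g, Cell.hub s i) : ℝ) + 1 ≤ wt 5 h (s, i) := by
  simp only [wt]
  split_ifs with h1 h2
  · have := dist_hub (n := n) g h.1 s h.2 i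
    have : ((gr a n).dist (g, Cell.hub h.1 h.2) (g, Cell.hub s i) : ℝ) ≤ 4 := by exact_mod_cast this
    linarith
  · have := dist_hub (n := n) g h.1 s h.2 i
    have : ((gr a n).dist (g, Cell.hub h.1 h.2) (g, Cell.hub s i) : ℝ) ≤ 4 := by exact_mod_cast this
    linarith
  · have hs : s = !h.1 := by
      cases hh : h.1 <;> cases s <;> simp_all
    rw [hs]
    have := dist_opp (n := n) g h.1 h.2 i
    have : ((gr a n).dist (g, Cell.hub h.1 h.2) (g, Cell.hub (!h.1) i) : ℝ) ≤ 2 := by
      exact_mod_cast this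
    linarith

lemma dist_entry_aux (w : List (Letter a)) : ∀ g : Gam a, g.toWord.reverse = w →
    ((gr a n).dist ((1 : Gam a), Cell.hub false 0)
      (g, Cell.hub (inHub g).1 (inHub g).2) : ℝ) ≤ Dlen 5 g := by
  induction w with
  | nil =>
    intro g hg
    have : g = 1 := by
      rw [← FreeGroup.toWord_eq_nil_iff]
      simpa using hg
    subst this
    simp [inHub, headHub, Dlen, DR]
  | cons l w ih =>
    intro g hg
    set g' := g * FreeGroup.mk [(l.1, !l.2)] with hg'
    have hpc : g = portCell g' (!l.2) l.1.1 l.1.2 := by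
      rw [portCell_eq, hg', mul_assoc, FreeGroup.mul_mk]
      have : FreeGroup.mk ([(l.1, !l.2)] ++ [((l.1.1, l.1.2), !(!l.2))]) = (1 : Gam a) := by
        have := FreeGroup.Red.Step.not (L₁ := []) (L₂ := []) (x := l.1) (b := !l.2)
        exact Quot.sound this
      rw [this, mul_one]
    have hw' : g'.toWord.reverse = w := mul_letter_back g l w hg
    have hin : inHub g = (l.2, l.1.1) := by
      unfold inHub; rw [hg]; rfl
    have hD : Dlen 5 g = Dlen 5 g' + wt 5 (inHub g') (!l.2, l.1.1) := by
      unfold Dlen inHub; rw [hg, hw']; rfl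
    have h1 := ih g' hw'
    have h2 := wt5_hub (n := n) g' (inHub g') (!l.2) l.1.1
    have h3 : (gr a n).dist (g', Cell.hub (!l.2) l.1.1) (g, Cell.hub l.2 l.1.1) ≤ 1 := by
      have := adj_port (n := n) g' (!l.2) l.1.1 l.1.2
      rw [← hpc, Bool.not_not] at this
      exact dist_adj this
    have h3' : ((gr a n).dist (g', Cell.hub (!l.2) l.1.1) (g, Cell.hub l.2 l.1.1) : ℝ) ≤ 1 := by
      exact_mod_cast h3
    have t1 := gr_connected.dist_triangle (G := gr a n) (u := ((1 : Gam a), Cell.hub false 0))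
      (v := (g', Cell.hub (inHub g').1 (inHub g').2)) (w := (g, Cell.hub l.2 l.1.1))
    have t2 := gr_connected.dist_triangle (G := gr a n)
      (u := (g', Cell.hub (inHub g').1 (inHub g').2))
      (v := (g', Cell.hub (!l.2) l.1.1)) (w := (g, Cell.hub l.2 l.1.1))
    have t1' : ((gr a n).dist ((1 : Gam a), Cell.hub false 0) (g, Cell.hub l.2 l.1.1) : ℝ) ≤
      (gr a n).dist ((1 : Gam a), Cell.hub false 0) (g', Cell.hub (inHub g').1 (inHub g').2)
      + (gr a n).dist (g', Cell.hub (inHub g').1 (inHub g').2) (g, Cell.hub l.2 l.1.1) := by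
      exact_mod_cast t1
    have t2' : ((gr a n).dist (g', Cell.hub (inHub g').1 (inHub g').2)
        (g, Cell.hub l.2 l.1.1) : ℝ) ≤
      (gr a n).dist (g', Cell.hub (inHub g').1 (inHub g').2) (g', Cell.hub (!l.2) l.1.1)
      + (gr a n).dist (g', Cell.hub (!l.2) l.1.1) (g, Cell.hub l.2 l.1.1) := by
      exact_mod_cast t2
    rw [hin, hD]
    simp only
    linarith

lemma dist_upper (u : Cell a n) (y : Vert a n) :
    ((gr a n).dist ((1 : Gam a), u) y : ℝ) ≤ Dlen 5 y.1 + 12 := by
  obtain ⟨g, v⟩ := y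
  have h1 := dist_entry_aux (n := n) _ g rfl
  have h2 := dist_cell (1 : Gam a) false 0 u
  have h3 := dist_cell g (inHub g).1 (inHub g).2 v
  have t1 := gr_connected.dist_triangle (G := gr a n) (u := ((1 : Gam a), u))
      (v := ((1 : Gam a), Cell.hub false 0)) (w := (g, v))
  have t2 := gr_connected.dist_triangle (G := gr a n) (u := ((1 : Gam a), Cell.hub false 0))
      (v := (g, Cell.hub (inHub g).1 (inHub g).2)) (w := (g, v))
  rw [SimpleGraph.dist_comm] at h2
  have h2' : ((gr a n).dist ((1 : Gam a), u) ((1 : Gam a), Cell.hub false 0) : ℝ) ≤ 6 := by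
    exact_mod_cast h2
  have h3' : ((gr a n).dist (g, Cell.hub (inHub g).1 (inHub g).2) (g, v) : ℝ) ≤ 6 := by
    exact_mod_cast h3
  have t1' : ((gr a n).dist ((1 : Gam a), u) (g, v) : ℝ) ≤
    (gr a n).dist ((1 : Gam a), u) ((1 : Gam a), Cell.hub false 0)
    + (gr a n).dist ((1 : Gam a), Cell.hub false 0) (g, v) := by exact_mod_cast t1
  have t2' : ((gr a n).dist ((1 : Gam a), Cell.hub false 0) (g, v) : ℝ) ≤
    (gr a n).dist ((1 : Gam a), Cell.hub false 0) (g, Cell.hub (inHub g).1 (inHub g).2)
    + (gr a n).dist (g, Cell.hub (inHub g).1 (inHub g).2) (g, v) := by exact_mod_cast t2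
  simp only
  linarith

end Pool.Agent.H42
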