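import Pool.Agent.H42.Entry

/-!
Test functions and their Laplacians.
-/

open scoped BigOperators

namespace Pool.Agent.H42

variable {a n : ℕ}

/-- Weighted Laplacian. -/
noncomputable def Lap (c : Sym2 (Vert a n) → ℝ) (F : Vert a n → ℝ) (x : Vert a n) : ℝ :=
  ∑ᶠ y ∈ (gr a n).neighborSet x, c s(x, y) * (F y - F x)

/-- Conductance of two edges in series. -/
noncomputable def par (x y : ℝ) : ℝ := x * y / (x + y)

/-- Total conductance of the ports of a hub. -/
noncomputable def kap (c : Sym2 (Vert a n) → ℝ) (g : Gam a) (s : Bool) (i : Fin a) : ℝ :=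
  ∑ r, c s((g, Cell.hub s i), (portCell g s i r, Cell.hub (!s) i))

/-- Total effective conductance of the thin connections of a hub. -/
noncomputable def cth (c : Sym2 (Vert a n) → ℝ) (g : Gam a) (s : Bool) (i : Fin a) : ℝ :=
  ∑ j, par (c s((g, Cell.hub s i), (g, thinAt s i j))) (c s((g, thinAt s i j), (g, Cell.hub (!s) j)))

/-- Values of the test function on the two sides of a cell. -/
noncomputable def sv (t : ℝ) (s0 s : Bool) : ℝ := if s = s0 then 5 - 2 * t else 3 + 2 * t

variable [NeZero a]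

set_option linter.unusedSectionVars false

/-- The main test function. -/
noncomputable def tF (w0 t : ℝ) (c : Sym2 (Vert a n) → ℝ) : Vert a n → ℝ
  | (g, Cell.center s) => Dlen w0 g + sv t (inHub g).1 s
  | (g, Cell.hub s _) => Dlen w0 g + sv t (inHub g).1 s
  | (g, Cell.fat s _ _) => Dlen w0 g + sv t (inHub g).1 s
  | (g, Cell.thin i j) => Dlen w0 g +
      (c s((g, Cell.hub false i), (g, Cell.thin i j)) * sv t (inHub g).1 false
        + c s((g, Cell.thin i j), (g, Cell.hub true j)) * sv t (inHub g).1 true)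
      / (c s((g, Cell.hub false i), (g, Cell.thin i j))
        + c s((g, Cell.thin i j), (g, Cell.hub true j)))

/-- The correction controlling visits to entry hubs. -/
noncomputable def tH (τ : ℝ) (c : Sym2 (Vert a n) → ℝ) : Vert a n → ℝ
  | (_, Cell.center _) => 0
  | (g, Cell.hub s i) => if inHub g = (s, i) then τ else 0
  | (g, Cell.fat s i k) => if inHub g = (s, i) then
      τ * c s((g, Cell.fat s i k), (g, Cell.hub s i)) /
        (c s((g, Cell.center s), (g, Cell.fat s i k)) + c s((g, Cell.fat s i k), (g, Cell.hub s i)))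
      else 0
  | (_, Cell.thin _ _) => 0

/-- Bounds on the conductances. -/
def Good (ε K : ℝ) (c : Sym2 (Vert a n) → ℝ) : Prop := ∀ e, ε ≤ c e ∧ c e ≤ K

section lap
variable (c : Sym2 (Vert a n) → ℝ) (F : Vert a n → ℝ)

lemma lap_center (g : Gam a) (s : Bool) :
    Lap c F (g, Cell.center s) = ∑ i, ∑ k, c s((g, Cell.center s), (g, Cell.fat s i k)) *
      (F (g, Cell.fat s i k) - F (g, Cell.center s)) := by
  unfold Lap; rw [nsum_center]

lemma lap_hub (g : Gam a) (s : Bool) (i : Fin a) :
    Lap c F (g, Cell.hub s i) =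
      ∑ k, c s((g, Cell.hub s i), (g, Cell.fat s i k)) * (F (g, Cell.fat s i k) - F (g, Cell.hub s i))
      + (∑ j, c s((g, Cell.hub s i), (g, thinAt s i j)) * (F (g, thinAt s i j) - F (g, Cell.hub s i))
      + ∑ r, c s((g, Cell.hub s i), (portCell g s i r, Cell.hub (!s) i)) *
        (F (portCell g s i r, Cell.hub (!s) i) - F (g, Cell.hub s i))) := by
  unfold Lap; rw [nsum_hub]

lemma lap_fat (g : Gam a) (s : Bool) (i : Fin a) (k : Fin n) :
    Lap c F (g, Cell.fat s i k) =
      c s((g, Cell.fat s i k), (g, Cell.center s)) * (F (g, Cell.center s) - F (g, Cell.fat s i k))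
      + c s((g, Cell.fat s i k), (g, Cell.hub s i)) * (F (g, Cell.hub s i) - F (g, Cell.fat s i k)) := by
  unfold Lap; rw [nsum_fat]

lemma lap_thin (g : Gam a) (i j : Fin a) :
    Lap c F (g, Cell.thin i j) =
      c s((g, Cell.thin i j), (g, Cell.hub false i)) * (F (g, Cell.hub false i) - F (g, Cell.thin i j))
      + c s((g, Cell.thin i j), (g, Cell.hub true j)) * (F (g, Cell.hub true j) - F (g, Cell.thin i j)) := by
  unfold Lap; rw [nsum_thin]

end lap

section F
variable {ε K : ℝ} {c : Sym2 (Vert a n) → ℝ} (w0 t : ℝ)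

lemma tF_thinAt (g : Gam a) (s : Bool) (i j : Fin a) :
    tF w0 t c (g, thinAt s i j) = Dlen w0 g +
      (c s((g, Cell.hub s i), (g, thinAt s i j)) * sv t (inHub g).1 s
        + c s((g, thinAt s i j), (g, Cell.hub (!s) j)) * sv t (inHub g).1 (!s))
      / (c s((g, Cell.hub s i), (g, thinAt s i j))
        + c s((g, thinAt s i j), (g, Cell.hub (!s) j))) := by
  cases s
  · simp [thinAt, tF]
  · simp only [thinAt, tF, if_true, Bool.not_true]
    rw [Sym2.eq_swap (a := (g, Cell.hub false j)), Sym2.eq_swap (a := (g, Cell.hub true i))]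
    rw [add_comm (c s((g, Cell.thin j i), (g, Cell.hub false j)) * _), add_comm
      (c s((g, Cell.thin j i), (g, Cell.hub false j)))]

lemma lap_tF_center (g : Gam a) (s : Bool) : Lap c (tF w0 t c) (g, Cell.center s) = 0 := by
  rw [lap_center]; simp [tF]

lemma lap_tF_fat (g : Gam a) (s : Bool) (i : Fin a) (k : Fin n) :
    Lap c (tF w0 t c) (g, Cell.fat s i k) = 0 := by
  rw [lap_fat]; simp [tF]

lemma lap_tF_thin (hε : 0 < ε) (hc : Good ε K c) (g : Gam a) (i j : Fin a) :
    Lap c (tF w0 t c) (g, Cell.thin i j) = 0 := by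
  rw [lap_thin]
  rw [Sym2.eq_swap (a := (g, Cell.thin i j)) (b := (g, Cell.hub false i))]
  simp only [tF]
  have h1 : 0 < c s((g, Cell.hub false i), (g, Cell.thin i j)) := lt_of_lt_of_le hε (hc _).1
  have h2 : 0 < c s((g, Cell.thin i j), (g, Cell.hub true j)) := lt_of_lt_of_le hε (hc _).1
  field_simp
  ring

lemma lap_tF_hub (hε : 0 < ε) (hc : Good ε K c) (g : Gam a) (s : Bool) (i : Fin a) :
    Lap c (tF w0 t c) (g, Cell.hub s i) =
      cth c g s i * (sv t (inHub g).1 (!s) - sv t (inHub g).1 s)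
      + ∑ r, c s((g, Cell.hub s i), (portCell g s i r, Cell.hub (!s) i)) *
        (tF w0 t c (portCell g s i r, Cell.hub (!s) i) - tF w0 t c (g, Cell.hub s i)) := by
  rw [lap_hub]
  have h1 : ∑ k, c s((g, Cell.hub s i), (g, Cell.fat s i k)) *
      (tF w0 t c (g, Cell.fat s i k) - tF w0 t c (g, Cell.hub s i)) = 0 := by
    simp [tF]
  have h2 : ∑ j, c s((g, Cell.hub s i), (g, thinAt s i j)) *
      (tF w0 t c (g, thinAt s i j) - tF w0 t c (g, Cell.hub s i))
      = cth c g s i * (sv t (inHub g).1 (!s) - sv t (inHub g).1 s) := by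
    rw [cth, Finset.sum_mul]
    refine Finset.sum_congr rfl fun j _ => ?_
    rw [tF_thinAt]
    have h1 : 0 < c s((g, Cell.hub s i), (g, thinAt s i j)) := lt_of_lt_of_le hε (hc _).1
    have h2 : 0 < c s((g, thinAt s i j), (g, Cell.hub (!s) j)) := lt_of_lt_of_le hε (hc _).1
    simp only [tF, par]
    field_simp
    ring
  rw [h1, h2, zero_add]

/-- The generic drift coefficient. -/
noncomputable def Aco (t : ℝ) (s0 s : Bool) : ℝ := if s = s0 then 5 else 5 - 4 * t

lemma port_diff_generic {g : Gam a} {s : Bool} {i : Fin a} (h : inHub g ≠ (s, i)) (r : Fin a) :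
    tF w0 t c (portCell g s i r, Cell.hub (!s) i) - tF w0 t c (g, Cell.hub s i)
      = Aco t (inHub g).1 s := by
  rcases port_cases w0 g s i r with ⟨h1, h2⟩ | ⟨h1, h2⟩
  · simp only [tF, h2, h1, sv, wt, Aco, if_true]
    by_cases hs : s = (inHub g).1
    · have hi : ¬ (inHub g).2 = i := by
        intro hi; apply h; rw [← hi, hs]
      rw [if_pos hs, if_pos hs.symm, if_neg hi, if_pos hs]; ring
    · rw [if_neg hs, if_neg (fun h => hs h.symm), if_neg hs]; ring
  · exact absurd h1 h

lemma port_diff_lower (ht : 0 ≤ t) (ht' : t ≤ 1) {g : Gam a} {s : Bool} {i : Fin a}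
    (h : inHub g = (s, i)) (r : Fin a) :
    Aco t (inHub g).1 s - 10 ≤
    tF 1 t c (portCell g s i r, Cell.hub (!s) i) - tF 1 t c (g, Cell.hub s i) := by
  rcases port_cases 1 g s i r with ⟨h1, h2⟩ | ⟨h1, h2⟩
  · simp only [tF, h2, h1, sv, wt, Aco, if_true, h]
    linarith
  · simp only [tF, h2, sv, wt, Aco, h, if_true]
    split_ifs <;> first | linarith | simp_all

lemma port_diff_upper (ht : 0 ≤ t) (ht' : t ≤ 1) (g : Gam a) (s : Bool) (i : Fin a) (r : Fin a) :
    tF 5 t c (portCell g s i r, Cell.hub (!s) i) - tF 5 t c (g, Cell.hub s i)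
      ≤ Aco t (inHub g).1 s := by
  by_cases h : inHub g = (s, i)
  · rcases port_cases 5 g s i r with ⟨h1, h2⟩ | ⟨h1, h2⟩
    · simp only [tF, h2, h1, sv, wt, Aco, if_true, h]
      linarith
    · simp only [tF, h2, sv, wt, Aco, h, if_true]
      split_ifs <;> first | linarith | simp_all
  · exact (port_diff_generic 5 t h r).le

end F

end Pool.Agent.H42
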