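import Pool.Agent.H42.Drift

/-!
Drift inequalities for the test functions.
-/

open scoped BigOperators

namespace Pool.Agent.H42

variable {a n : ℕ} [NeZero a]

set_option linter.unusedSectionVars false

section
variable {ε K : ℝ} {c : Sym2 (Vert a n) → ℝ}

lemma kap_nonneg (hε : 0 < ε) (hc : Good ε K c) (g : Gam a) (s : Bool) (i : Fin a) :
    0 ≤ kap c g s i :=
  Finset.sum_nonneg fun _ _ => (lt_of_lt_of_le hε (hc _).1).le

lemma kap_le (hc : Good ε K c) (g : Gam a) (s : Bool) (i : Fin a) :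
    kap c g s i ≤ a * K := by
  refine (Finset.sum_le_sum fun r _ => (hc _).2).trans ?_
  simp

lemma lap_tF_hub_lower {t : ℝ} (ht : 0 ≤ t) (ht' : t ≤ 1) (hε : 0 < ε) (hc : Good ε K c)
    (g : Gam a) (s : Bool) (i : Fin a) :
    cth c g s i * (sv t (inHub g).1 (!s) - sv t (inHub g).1 s) + Aco t (inHub g).1 s * kap c g s i
      - (if inHub g = (s, i) then 10 * kap c g s i else 0)
      ≤ Lap c (tF 1 t c) (g, Cell.hub s i) := by
  rw [lap_tF_hub 1 t hε hc]
  by_cases h : inHub g = (s, i)
  · rw [if_pos h]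
    have : (Aco t (inHub g).1 s - 10) * kap c g s i ≤
        ∑ r, c s((g, Cell.hub s i), (portCell g s i r, Cell.hub (!s) i)) *
        (tF 1 t c (portCell g s i r, Cell.hub (!s) i) - tF 1 t c (g, Cell.hub s i)) := by
      rw [kap, Finset.mul_sum]
      refine Finset.sum_le_sum fun r _ => ?_
      rw [mul_comm]
      exact mul_le_mul_of_nonneg_left (port_diff_lower t ht ht' h r)
        (lt_of_lt_of_le hε (hc _).1).le
    linarith
  · rw [if_neg h]
    have : Aco t (inHub g).1 s * kap c g s i =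
        ∑ r, c s((g, Cell.hub s i), (portCell g s i r, Cell.hub (!s) i)) *
        (tF 1 t c (portCell g s i r, Cell.hub (!s) i) - tF 1 t c (g, Cell.hub s i)) := by
      rw [kap, Finset.mul_sum]
      refine Finset.sum_congr rfl fun r _ => ?_
      rw [port_diff_generic 1 t h r, mul_comm]
    linarith

lemma lap_tF_hub_upper {t : ℝ} (ht : 0 ≤ t) (ht' : t ≤ 1) (hε : 0 < ε) (hc : Good ε K c)
    (g : Gam a) (s : Bool) (i : Fin a) :
    Lap c (tF 5 t c) (g, Cell.hub s i) ≤
    cth c g s i * (sv t (inHub g).1 (!s) - sv t (inHub g).1 s) + Aco t (inHub g).1 s * kap c g s i := by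
  rw [lap_tF_hub 5 t hε hc]
  have : ∑ r, c s((g, Cell.hub s i), (portCell g s i r, Cell.hub (!s) i)) *
        (tF 5 t c (portCell g s i r, Cell.hub (!s) i) - tF 5 t c (g, Cell.hub s i)) ≤
        Aco t (inHub g).1 s * kap c g s i := by
    rw [kap, Finset.mul_sum]
    refine Finset.sum_le_sum fun r _ => ?_
    rw [mul_comm (Aco t (inHub g).1 s)]
    exact mul_le_mul_of_nonneg_left (port_diff_upper t ht ht' g s i r)
      (lt_of_lt_of_le hε (hc _).1).le
  linarith

lemma tH_nonneg {τ : ℝ} (hτ : 0 ≤ τ) (hε : 0 < ε) (hc : Good ε K c) (x : Vert a n) :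
    0 ≤ tH τ c x := by
  obtain ⟨g, u⟩ := x
  cases u with
  | center s => simp [tH]
  | hub s i => simp only [tH]; split_ifs <;> simp [hτ]
  | fat s i k =>
    simp only [tH]
    split_ifs
    · have h1 : 0 < c s((g, Cell.center s), (g, Cell.fat s i k)) := lt_of_lt_of_le hε (hc _).1
      have h2 : 0 < c s((g, Cell.fat s i k), (g, Cell.hub s i)) := lt_of_lt_of_le hε (hc _).1
      positivity
    · exact le_rfl
  | thin i j => simp [tH]

lemma tH_le {τ : ℝ} (hτ : 0 ≤ τ) (hε : 0 < ε) (hc : Good ε K c) (x : Vert a n) :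
    tH τ c x ≤ τ := by
  obtain ⟨g, u⟩ := x
  cases u with
  | center s => simpa [tH] using hτ
  | hub s i => simp only [tH]; split_ifs <;> simp [hτ]
  | fat s i k =>
    simp only [tH]
    split_ifs
    · have h1 : 0 < c s((g, Cell.center s), (g, Cell.fat s i k)) := lt_of_lt_of_le hε (hc _).1
      have h2 : 0 < c s((g, Cell.fat s i k), (g, Cell.hub s i)) := lt_of_lt_of_le hε (hc _).1
      rw [div_le_iff₀ (by positivity)]
      nlinarith
    · exact hτ
  | thin i j => simpa [tH] using hτ

lemma lap_tH_fat {τ : ℝ} (hε : 0 < ε) (hc : Good ε K c) (g : Gam a) (s : Bool) (i : Fin a)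
    (k : Fin n) : Lap c (tH τ c) (g, Cell.fat s i k) = 0 := by
  rw [lap_fat]
  rw [Sym2.eq_swap (a := (g, Cell.fat s i k)) (b := (g, Cell.center s))]
  simp only [tH]
  split_ifs
  · have h1 : 0 < c s((g, Cell.center s), (g, Cell.fat s i k)) := lt_of_lt_of_le hε (hc _).1
    have h2 : 0 < c s((g, Cell.fat s i k), (g, Cell.hub s i)) := lt_of_lt_of_le hε (hc _).1
    field_simp
    ring
  · simp

lemma lap_tH_thin {τ : ℝ} (hτ : 0 ≤ τ) (hε : 0 < ε) (hc : Good ε K c) (g : Gam a) (i j : Fin a) :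
    Lap c (tH τ c) (g, Cell.thin i j) ≤ 2 * K * τ := by
  rw [lap_thin]
  have h0 : tH τ c (g, Cell.thin i j) = 0 := rfl
  rw [h0, sub_zero, sub_zero]
  have h1 := tH_le hτ hε hc (g, Cell.hub false i)
  have h2 := tH_le hτ hε hc (g, Cell.hub true j)
  have h1' := tH_nonneg hτ hε hc (g, Cell.hub false i)
  have h2' := tH_nonneg hτ hε hc (g, Cell.hub true j)
  have e1 := hc s((g, Cell.thin i j), (g, Cell.hub false i))
  have e2 := hc s((g, Cell.thin i j), (g, Cell.hub true j))
  have a1 : c s((g, Cell.thin i j), (g, Cell.hub false i)) * tH τ c (g, Cell.hub false i)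
      ≤ K * τ := mul_le_mul e1.2 h1 h1' (by linarith)
  have a2 : c s((g, Cell.thin i j), (g, Cell.hub true j)) * tH τ c (g, Cell.hub true j)
      ≤ K * τ := mul_le_mul e2.2 h2 h2' (by linarith)
  linarith

lemma lap_tH_center {τ : ℝ} (hτ : 0 ≤ τ) (hε : 0 < ε) (hc : Good ε K c) (g : Gam a) (s : Bool) :
    Lap c (tH τ c) (g, Cell.center s) ≤ n * K * τ := by
  rw [lap_center]
  have h0 : tH τ c (g, Cell.center s) = 0 := rfl
  have hK : 0 ≤ K := by
    have := hc s((g, Cell.center s), (g, Cell.center s))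
    linarith
  have : ∀ i, ∑ k, c s((g, Cell.center s), (g, Cell.fat s i k)) *
      (tH τ c (g, Cell.fat s i k) - tH τ c (g, Cell.center s)) ≤
      if (inHub g).2 = i then n * K * τ else 0 := by
    intro i
    split_ifs with hi
    · refine (Finset.sum_le_sum (g := fun _ => K * τ) fun k _ => ?_).trans ?_
      · rw [h0, sub_zero]
        exact mul_le_mul (hc _).2 (tH_le hτ hε hc _) (tH_nonneg hτ hε hc _) hK
      · simp [mul_assoc]
    · apply le_of_eq
      refine Finset.sum_eq_zero fun k _ => ?_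
      have : inHub g ≠ (s, i) := fun h => hi (by rw [h])
      simp [tH, this]
  refine (Finset.sum_le_sum fun i _ => this i).trans ?_
  simp

lemma lap_tH_hub_out {τ : ℝ} (hτ : 0 ≤ τ) (hε : 0 < ε) (hc : Good ε K c) (g : Gam a) (s : Bool)
    (i : Fin a) (h : inHub g ≠ (s, i)) :
    Lap c (tH τ c) (g, Cell.hub s i) ≤ a * K * τ := by
  rw [lap_hub]
  have h0 : tH τ c (g, Cell.hub s i) = 0 := by simp [tH, h]
  have hK : 0 ≤ K := by
    have := hc s((g, Cell.center s), (g, Cell.center s))
    linarith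
  have h1 : ∑ k, c s((g, Cell.hub s i), (g, Cell.fat s i k)) *
      (tH τ c (g, Cell.fat s i k) - tH τ c (g, Cell.hub s i)) = 0 := by
    refine Finset.sum_eq_zero fun k _ => ?_
    simp [tH, h]
  have h2 : ∑ j, c s((g, Cell.hub s i), (g, thinAt s i j)) *
      (tH τ c (g, thinAt s i j) - tH τ c (g, Cell.hub s i)) = 0 := by
    refine Finset.sum_eq_zero fun j _ => ?_
    cases s <;> simp [tH, h, thinAt]
  have h3 : ∑ r, c s((g, Cell.hub s i), (portCell g s i r, Cell.hub (!s) i)) *
        (tH τ c (portCell g s i r, Cell.hub (!s) i) - tH τ c (g, Cell.hub s i)) ≤ a * K * τ := by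
    refine (Finset.sum_le_sum (g := fun _ => K * τ) fun k _ => ?_).trans ?_
    · rw [h0, sub_zero]
      exact mul_le_mul (hc _).2 (tH_le hτ hε hc _) (tH_nonneg hτ hε hc _) hK
    · simp [mul_assoc]
  rw [h1, h2]
  linarith

lemma lap_tH_hub_in {τ : ℝ} (hτ : 0 ≤ τ) (hε : 0 < ε) (hc : Good ε K c) (g : Gam a) (s : Bool)
    (i : Fin a) (h : inHub g = (s, i)) :
    Lap c (tH τ c) (g, Cell.hub s i) ≤ - (n * (ε / 2) * τ) := by
  rw [lap_hub]
  have h0 : tH τ c (g, Cell.hub s i) = τ := by simp [tH, h]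
  have h1 : ∑ k, c s((g, Cell.hub s i), (g, Cell.fat s i k)) *
      (tH τ c (g, Cell.fat s i k) - tH τ c (g, Cell.hub s i)) ≤ - (n * (ε / 2) * τ) := by
    refine (Finset.sum_le_sum (g := fun _ => - (ε / 2 * τ)) fun k _ => ?_).trans ?_
    · rw [h0]
      rw [Sym2.eq_swap (a := (g, Cell.hub s i))]
      simp only [tH, h, if_true]
      set x := c s((g, Cell.center s), (g, Cell.fat s i k)) with hx
      set y := c s((g, Cell.fat s i k), (g, Cell.hub s i)) with hy
      have hx' : ε ≤ x := (hc _).1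
      have hy' : ε ≤ y := (hc _).1
      have hx0 : 0 < x := by linarith
      have hy0 : 0 < y := by linarith
      have : y * (τ * y / (x + y) - τ) = - (x * y / (x + y)) * τ := by
        field_simp; ring
      rw [this]
      have : ε / 2 ≤ x * y / (x + y) := by
        rw [le_div_iff₀ (by positivity)]
        nlinarith
      nlinarith
    · simp [mul_assoc]
  have h2 : ∑ j, c s((g, Cell.hub s i), (g, thinAt s i j)) *
      (tH τ c (g, thinAt s i j) - tH τ c (g, Cell.hub s i)) ≤ 0 := by
    refine Finset.sum_nonpos fun j _ => ?_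
    rw [h0]
    have := tH_le hτ hε hc (g, thinAt s i j)
    have h' := (hc s((g, Cell.hub s i), (g, thinAt s i j))).1
    exact mul_nonpos_of_nonneg_of_nonpos (by linarith) (by linarith)
  have h3 : ∑ r, c s((g, Cell.hub s i), (portCell g s i r, Cell.hub (!s) i)) *
        (tH τ c (portCell g s i r, Cell.hub (!s) i) - tH τ c (g, Cell.hub s i)) ≤ 0 := by
    refine Finset.sum_nonpos fun r _ => ?_
    rw [h0]
    have := tH_le hτ hε hc (portCell g s i r, Cell.hub (!s) i)
    have h' := (hc s((g, Cell.hub s i), (portCell g s i r, Cell.hub (!s) i))).1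
    exact mul_nonpos_of_nonneg_of_nonpos (by linarith) (by linarith)
  linarith

end

/-- The combined test function. -/
noncomputable def tG (t τ : ℝ) (c : Sym2 (Vert a n) → ℝ) (x : Vert a n) : ℝ :=
  tF 1 t c x - 10 * tH τ c x

/-- Lower bound for the drift, equivariant under the group. -/
noncomputable def Phi (t τ K cb κ2 : ℝ) (c : Sym2 (Vert a n) → ℝ) : Vert a n → ℝ
  | (_, Cell.center _) => - (10 * (n * K * τ))
  | (g, Cell.hub s i) => (5 - 2 * t) * (a * cb) - 5 * |kap c g s i - a * cb|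
      - 2 * |cth c g s i - a * κ2| - 10 * (a * K * τ)
  | (_, Cell.fat _ _ _) => 0
  | (_, Cell.thin _ _) => - (20 * K * τ)

lemma lap_sub_smul (c : Sym2 (Vert a n) → ℝ) (F H : Vert a n → ℝ) (r : ℝ) (x : Vert a n) :
    Lap c (fun y => F y - r * H y) x = Lap c F x - r * Lap c H x := by
  unfold Lap
  have hfin := neighborSet_finite x
  rw [finsum_mem_eq_finite_toFinset_sum _ hfin, finsum_mem_eq_finite_toFinset_sum _ hfin,
    finsum_mem_eq_finite_toFinset_sum _ hfin, Finset.mul_sum, ← Finset.sum_sub_distrib]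
  refine Finset.sum_congr rfl fun y _ => ?_
  ring

/-- Key identity: in the mean the drift is the same on both sides. -/
lemma mean_identity {t cb κ2 : ℝ} (hbal : κ2 * (1 - 2 * t) = cb * t) (s0 s : Bool) (A : ℝ) :
    (A * κ2) * (sv t s0 (!s) - sv t s0 s) + Aco t s0 s * (A * cb) = (5 - 2 * t) * (A * cb) := by
  cases s0 <;> cases s <;> simp [sv, Aco]
  all_goals first
    | linear_combination (-2 * A) * hbal
    | linear_combination (2 * A) * hbal

lemma phi_le_lap {ε K t τ cb κ2 : ℝ} {c : Sym2 (Vert a n) → ℝ} (ht : 0 ≤ t) (ht' : t ≤ 1 / 2)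
    (hε : 0 < ε) (hc : Good ε K c) (hτ : 0 ≤ τ) (hbal : κ2 * (1 - 2 * t) = cb * t)
    (hcond : a * K ≤ n * (ε / 2) * τ) (x : Vert a n) :
    Phi t τ K cb κ2 c x ≤ Lap c (tG t τ c) x := by
  have hlap : Lap c (tG t τ c) x = Lap c (tF 1 t c) x - 10 * Lap c (tH τ c) x :=
    lap_sub_smul _ _ _ _ _
  rw [hlap]
  obtain ⟨g, u⟩ := x
  have hK : 0 ≤ K := by
    have := hc s((g, u), (g, u))
    linarith
  cases u with
  | center s =>
    rw [lap_tF_center]
    have := lap_tH_center hτ hε hc g s
    simp only [Phi]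
    linarith
  | fat s i k =>
    rw [lap_tF_fat, lap_tH_fat hε hc]
    simp [Phi]
  | thin i j =>
    rw [lap_tF_thin 1 t hε hc]
    have := lap_tH_thin hτ hε hc g i j
    simp only [Phi]
    linarith
  | hub s i =>
    have h1 := lap_tF_hub_lower ht (by linarith) hε hc g s i
    have hid := mean_identity hbal (inHub g).1 s (a : ℝ)
    have hA : 0 ≤ Aco t (inHub g).1 s ∧ Aco t (inHub g).1 s ≤ 5 := by
      unfold Aco; split_ifs <;> constructor <;> linarith
    have hS : |sv t (inHub g).1 (!s) - sv t (inHub g).1 s| ≤ 2 := by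
      unfold sv
      rw [abs_le]
      cases s <;> cases (inHub g).1 <;> simp <;> constructor <;> linarith
    have e1 : -(5 * |kap c g s i - a * cb|) ≤
        Aco t (inHub g).1 s * (kap c g s i - a * cb) := by
      have := neg_abs_le (Aco t (inHub g).1 s * (kap c g s i - a * cb))
      rw [abs_mul, abs_of_nonneg hA.1] at this
      have := mul_le_mul_of_nonneg_right hA.2 (abs_nonneg (kap c g s i - a * cb))
      linarith
    have e2 : -(2 * |cth c g s i - a * κ2|) ≤
        (cth c g s i - a * κ2) * (sv t (inHub g).1 (!s) - sv t (inHub g).1 s) := by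
      have := neg_abs_le ((cth c g s i - a * κ2) * (sv t (inHub g).1 (!s) - sv t (inHub g).1 s))
      rw [abs_mul] at this
      have := mul_le_mul_of_nonneg_left hS (abs_nonneg (cth c g s i - a * κ2))
      linarith
    simp only [Phi]
    by_cases h : inHub g = (s, i)
    · have h2 := lap_tH_hub_in hτ hε hc g s i h
      have h3 := kap_le hc g s i
      rw [if_pos h] at h1
      have h4 : 0 ≤ 10 * (a * K * τ) := by positivity
      nlinarith
    · have h2 := lap_tH_hub_out hτ hε hc g s i h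
      rw [if_neg h] at h1
      nlinarith

end Pool.Agent.H42
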