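import Pool.Agent.H42.Graph

/-!
Entry hubs and the length bookkeeping along reduced words.
-/

namespace Pool.Agent.H42

variable {a : ℕ}

/-- Letters of words in the generators and their inverses. -/
abbrev Letter (a : ℕ) : Type := (Fin a × Fin a) × Bool

lemma portCell_eq (g : Gam a) (s : Bool) (i r : Fin a) :
    portCell g s i r = g * FreeGroup.mk [((i, r), !s)] := by
  cases s
  · simp [portCell, FreeGroup.of]
  · simp [portCell, FreeGroup.of, FreeGroup.inv_mk, FreeGroup.invRev]

lemma mul_letter (g : Gam a) (l : Letter a) :
    (g.toWord.reverse = (l.1, !l.2) :: (g * FreeGroup.mk [l]).toWord.reverse) ∨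
    ((g * FreeGroup.mk [l]).toWord.reverse = l :: g.toWord.reverse) := by
  by_cases h : ∃ w, g.toWord = w ++ [(l.1, !l.2)]
  · left
    obtain ⟨w, hw⟩ := h
    have hred : FreeGroup.IsReduced w := by
      have := FreeGroup.isReduced_toWord (x := g)
      rw [hw] at this
      exact (List.isChain_append.1 this).1
    have hg : g = FreeGroup.mk (w ++ [(l.1, !l.2)]) := by
      rw [← hw, FreeGroup.mk_toWord]
    have : g * FreeGroup.mk [l] = FreeGroup.mk w := by
      rw [hg, FreeGroup.mul_mk, List.append_assoc]
      apply Quot.sound
      have := FreeGroup.Red.Step.not_rev (L₁ := w) (L₂ := []) (x := l.1) (b := l.2)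
      simpa using this
    rw [this, FreeGroup.toWord_mk, hred.reduce_eq, hw]
    simp
  · right
    have hred : FreeGroup.IsReduced (g.toWord ++ [l]) := by
      refine List.isChain_append.2 ⟨FreeGroup.isReduced_toWord, by simp, ?_⟩
      intro x hx y hy hxy
      simp only [List.head?_cons, Option.mem_def, Option.some.injEq] at hy
      subst hy
      by_contra hne
      apply h
      obtain ⟨w, hw⟩ : ∃ w, g.toWord = w ++ [x] := by
        have := List.mem_getLast?_eq_getLast hx
        obtain ⟨h1, h2⟩ := this
        refine ⟨g.toWord.dropLast, ?_⟩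
        rw [h2]
        exact (List.dropLast_append_getLast h1).symm
      refine ⟨w, ?_⟩
      rw [hw]
      congr 2
      have : x.2 = !l.2 := by
        cases hx2 : x.2 <;> cases hl2 : l.2 <;> simp_all
      ext
      · simp [hxy]
      · simp [hxy]
      · simp [this]
    have : (g * FreeGroup.mk [l]).toWord = g.toWord ++ [l] := by
      rw [FreeGroup.toWord_mul, FreeGroup.toWord_mk, FreeGroup.reduce_singleton,
        hred.reduce_eq]
    rw [this]
    simp

lemma mul_letter_back (g : Gam a) (l : Letter a) (w : List (Letter a))
    (h : g.toWord.reverse = l :: w) :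
    (g * FreeGroup.mk [(l.1, !l.2)]).toWord.reverse = w := by
  have hw : g.toWord = w.reverse ++ [l] := by
    rw [← List.reverse_reverse g.toWord, h]; simp
  have hred : FreeGroup.IsReduced w.reverse := by
    have := FreeGroup.isReduced_toWord (x := g)
    rw [hw] at this
    exact (List.isChain_append.1 this).1
  have hg : g = FreeGroup.mk (w.reverse ++ [l]) := by
    rw [← hw, FreeGroup.mk_toWord]
  have : g * FreeGroup.mk [(l.1, !l.2)] = FreeGroup.mk w.reverse := by
    rw [hg, FreeGroup.mul_mk, List.append_assoc]
    apply Quot.sound
    have := FreeGroup.Red.Step.not (L₁ := w.reverse) (L₂ := []) (x := l.1) (b := l.2)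
    simpa using this
  rw [this, FreeGroup.toWord_mk, hred.reduce_eq]
  simp

variable [NeZero a]

/-- The hub through which the last letter of a (reversed) word enters; a default hub for the empty
word. -/
def headHub : List (Letter a) → Bool × Fin a
  | [] => (false, 0)
  | l :: _ => (l.2, l.1.1)

/-- Length gained between entering at hub `h` and entering the next cell from hub `o`;
`w0` is the value used when `o = h`. -/
def wt (w0 : ℝ) (h o : Bool × Fin a) : ℝ :=
  if h.1 = o.1 then (if h.2 = o.2 then w0 else 5) else 3

/-- Accumulated length of a reversed word. -/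
def DR (w0 : ℝ) : List (Letter a) → ℝ
  | [] => 0
  | l :: w => DR w0 w + wt w0 (headHub w) (!l.2, l.1.1)

/-- Entry hub of a cell. -/
def inHub (g : Gam a) : Bool × Fin a := headHub g.toWord.reverse

/-- Accumulated length of a cell. -/
def Dlen (w0 : ℝ) (g : Gam a) : ℝ := DR w0 g.toWord.reverse

/-- A port leads either forward or back to the parent cell. -/
lemma port_cases (w0 : ℝ) (g : Gam a) (s : Bool) (i r : Fin a) :
    (inHub (portCell g s i r) = (!s, i) ∧
      Dlen w0 (portCell g s i r) = Dlen w0 g + wt w0 (inHub g) (s, i)) ∨
    (inHub g = (s, i) ∧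
      Dlen w0 g = Dlen w0 (portCell g s i r) + wt w0 (inHub (portCell g s i r)) (!s, i)) := by
  rw [portCell_eq]
  rcases mul_letter g ((i, r), !s) with h | h
  · right
    constructor
    · unfold inHub
      rw [h]
      simp [headHub]
    · unfold Dlen inHub
      rw [h]
      simp [DR]
  · left
    constructor
    · unfold inHub
      rw [h]
      simp [headHub]
    · unfold Dlen inHub
      rw [h]
      simp [DR]

end Pool.Agent.H42
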