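import Pool.Agent.H42.Station
import Pool.Agent.H42.Drift2

/-!
Growth of test functions along the walk.
-/

open MeasureTheory ProbabilityTheory
open scoped BigOperators ENNReal

namespace Pool.Agent.H42

set_option linter.unusedSectionVars false

variable {a n : ℕ} [NeZero a] [NeZero n]
variable {ρ : Measure ℝ} [IsProbabilityMeasure ρ] {L : Measure (Can (Vert a n))}

lemma tsum_step {e : Sym2 (Vert a n) → ℝ} (he : Pos e) {F : Vert a n → ℝ} (hF : ∀ x, 0 ≤ F x)
    (x : Vert a n) :
    ∑' y, ENNReal.ofReal (stepProb (gr a n) e x y) * ENNReal.ofReal (F y) =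
      ENNReal.ofReal (F x + Lap e F x / totalCond (gr a n) e x) := by
  have hfin := neighborSet_finite x
  have hp := totalCond_pos neighborSet_finite neighborSet_nonempty he x
  rw [tsum_eq_sum (s := hfin.toFinset)]
  · have h1 : ∀ y ∈ hfin.toFinset,
        ENNReal.ofReal (stepProb (gr a n) e x y) * ENNReal.ofReal (F y) =
        ENNReal.ofReal (e s(x, y) / totalCond (gr a n) e x * F y) := by
      intro y hy
      have h : (gr a n).Adj x y := by simpa using hy
      rw [← ENNReal.ofReal_mul]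
      · simp [stepProb, h]
      · simp only [stepProb, h, if_true]
        exact (div_pos (he _) hp).le
    rw [Finset.sum_congr rfl h1, ← ENNReal.ofReal_sum_of_nonneg]
    · congr 1
      unfold Lap
      rw [finsum_mem_eq_finite_toFinset_sum _ hfin]
      have h2 : totalCond (gr a n) e x = ∑ y ∈ hfin.toFinset, e s(x, y) := by
        unfold totalCond
        rw [finsum_mem_eq_finite_toFinset_sum _ hfin]
      rw [eq_comm, ← sub_eq_zero]
      have h3 : ∑ y ∈ hfin.toFinset, e s(x, y) * (F y - F x) =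
          ∑ y ∈ hfin.toFinset, e s(x, y) * F y - totalCond (gr a n) e x * F x := by
        rw [h2, Finset.sum_mul, ← Finset.sum_sub_distrib]
        refine Finset.sum_congr rfl fun y _ => by ring
      rw [h3]
      have h4 : ∑ y ∈ hfin.toFinset, e s(x, y) / totalCond (gr a n) e x * F y =
          (∑ y ∈ hfin.toFinset, e s(x, y) * F y) / totalCond (gr a n) e x := by
        rw [Finset.sum_div]
        refine Finset.sum_congr rfl fun y _ => by ring
      rw [h4]
      field_simp
      ring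
    · intro y hy
      exact mul_nonneg (div_pos (he _) hp).le (hF y)
  · intro y hy
    have h : ¬ (gr a n).Adj x y := by simpa using hy
    simp [stepProb, h]

lemma measurable_coord {D : (Sym2 (Vert a n) → ℝ) → Vert a n → ℝ≥0∞}
    (hm : ∀ x, Measurable fun e => D e x) (k : ℕ) :
    Measurable fun p : Can (Vert a n) => D p.1 (p.2 k) := by
  have : (fun p : Can (Vert a n) => D p.1 (p.2 k)) =
    (fun q : (Sym2 (Vert a n) → ℝ) × Vert a n => D q.1 q.2) ∘
      (fun p : Can (Vert a n) => (p.1, p.2 k)) := rfl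
  rw [this]
  exact (measurable_from_prod_countable_left hm).comp (by fun_prop)

lemma growth_lower (hρ : ∀ᵐ r ∂ρ, 0 < r)
    (hL : IsWalkLaw (gr a n) (iid a n ρ) (base a n) L) [IsFiniteMeasure (star (gr a n) L)]
    {F D : (Sym2 (Vert a n) → ℝ) → Vert a n → ℝ} (hF0 : ∀ᵐ e ∂(iid a n ρ), ∀ x, 0 ≤ F e x)
    (hFm : ∀ x, Measurable fun e => F e x) (hD : Inv D)
    (hDm : ∀ x, Measurable fun e => D e x)
    (hLap : ∀ᵐ e ∂(iid a n ρ), ∀ x, D e x ≤ Lap e (F e) x) (k : ℕ) :
    k * ∫⁻ p, ENNReal.ofReal (D p.1 (p.2 0) / totalCond (gr a n) p.1 (p.2 0)) ∂(star (gr a n) L) ≤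
      ∫⁻ p, ENNReal.ofReal (F p.1 (p.2 k)) ∂(star (gr a n) L) +
      k * ∫⁻ p, ENNReal.ofReal (-(D p.1 (p.2 0) / totalCond (gr a n) p.1 (p.2 0)))
        ∂(star (gr a n) L) := by
  have hfin : ∀ x : Vert a n, ((gr a n).neighborSet x).Finite := neighborSet_finite
  have hmF : ∀ x, Measurable fun e => ENNReal.ofReal (F e x) := fun x => (hFm x).ennreal_ofReal
  have hmD : ∀ x, Measurable fun e => ENNReal.ofReal (D e x / totalCond (gr a n) e x) :=
    fun x => ((hDm x).div (measurable_totalCond _ hfin x)).ennreal_ofReal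
  have hmD' : ∀ x, Measurable fun e => ENNReal.ofReal (-(D e x / totalCond (gr a n) e x)) :=
    fun x => ((hDm x).div (measurable_totalCond _ hfin x)).neg.ennreal_ofReal
  have hI : Inv fun (e : Sym2 (Vert a n) → ℝ) x =>
      ENNReal.ofReal (D e x / totalCond (gr a n) e x) := by
    intro g c x
    simp only [hD g c x, totalCond_sh, mv_mv, mul_inv_cancel, mv_one]
  have hI' : Inv fun (e : Sym2 (Vert a n) → ℝ) x =>
      ENNReal.ofReal (-(D e x / totalCond (gr a n) e x)) := by
    intro g c x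
    simp only [hD g c x, totalCond_sh, mv_mv, mul_inv_cancel, mv_one]
  induction k with
  | zero => simp
  | succ k ih =>
    have h1 := lintegral_succ hfin hL (fun e x => ENNReal.ofReal (F e x)) hmF k
    have h2 : ∫⁻ p, (ENNReal.ofReal (F p.1 (p.2 k)) +
        ENNReal.ofReal (D p.1 (p.2 k) / totalCond (gr a n) p.1 (p.2 k))) ∂(star (gr a n) L) ≤
        ∫⁻ p, (∑' y, ENNReal.ofReal (stepProb (gr a n) p.1 (p.2 k) y) * ENNReal.ofReal (F p.1 y) +
        ENNReal.ofReal (-(D p.1 (p.2 k) / totalCond (gr a n) p.1 (p.2 k)))) ∂(star (gr a n) L) := by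
      refine lintegral_mono_ae ?_
      filter_upwards [ae_star hfin hL (ae_pos (V := Vert a n) ρ hρ), ae_star hfin hL hF0,
        ae_star hfin hL hLap] with p hp hp0 hp1
      rw [tsum_step hp hp0]
      have hpc := totalCond_pos hfin neighborSet_nonempty hp (p.2 k)
      have h3 : D p.1 (p.2 k) / totalCond (gr a n) p.1 (p.2 k) ≤
          Lap p.1 (F p.1) (p.2 k) / totalCond (gr a n) p.1 (p.2 k) :=
        div_le_div_of_nonneg_right (hp1 _) hpc.le
      set d := D p.1 (p.2 k) / totalCond (gr a n) p.1 (p.2 k)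
      set l := Lap p.1 (F p.1) (p.2 k) / totalCond (gr a n) p.1 (p.2 k)
      have hF1 := hp0 (p.2 k)
      rcases le_total 0 d with hd | hd
      · rw [ENNReal.ofReal_of_nonpos (p := -d) (by linarith), add_zero,
          ← ENNReal.ofReal_add hF1 hd]
        exact ENNReal.ofReal_le_ofReal (by linarith)
      · rw [ENNReal.ofReal_of_nonpos hd, add_zero]
        refine le_trans ?_ ENNReal.ofReal_add_le
        exact ENNReal.ofReal_le_ofReal (by linarith)
    rw [lintegral_add_left (measurable_coord hmF k), lintegral_add_right _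
      (measurable_coord hmD' k), ← h1, lintegral_inv hρ hL hI hmD k,
      lintegral_inv hρ hL hI' hmD' k] at h2
    push_cast
    rw [add_mul, add_mul, one_mul, one_mul]
    calc _ ≤ (∫⁻ p, ENNReal.ofReal (F p.1 (p.2 k)) ∂(star (gr a n) L) +
      k * ∫⁻ p, ENNReal.ofReal (-(D p.1 (p.2 0) / totalCond (gr a n) p.1 (p.2 0)))
        ∂(star (gr a n) L)) + ∫⁻ p, ENNReal.ofReal (D p.1 (p.2 0) /
          totalCond (gr a n) p.1 (p.2 0)) ∂(star (gr a n) L) := by gcongr
      _ = (∫⁻ p, ENNReal.ofReal (F p.1 (p.2 k)) ∂(star (gr a n) L) +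
        ∫⁻ p, ENNReal.ofReal (D p.1 (p.2 0) /
          totalCond (gr a n) p.1 (p.2 0)) ∂(star (gr a n) L)) +
          k * ∫⁻ p, ENNReal.ofReal (-(D p.1 (p.2 0) / totalCond (gr a n) p.1 (p.2 0)))
        ∂(star (gr a n) L) := by ring
      _ ≤ _ := by
        refine (add_le_add_left h2 _).trans (le_of_eq ?_)
        ring

lemma growth_upper (hρ : ∀ᵐ r ∂ρ, 0 < r)
    (hL : IsWalkLaw (gr a n) (iid a n ρ) (base a n) L) [IsFiniteMeasure (star (gr a n) L)]
    {F D : (Sym2 (Vert a n) → ℝ) → Vert a n → ℝ} (hF0 : ∀ᵐ e ∂(iid a n ρ), ∀ x, 0 ≤ F e x)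
    (hFm : ∀ x, Measurable fun e => F e x) (hD : Inv D)
    (hDm : ∀ x, Measurable fun e => D e x)
    (hLap : ∀ᵐ e ∂(iid a n ρ), ∀ x, Lap e (F e) x ≤ D e x) (k : ℕ) :
      ∫⁻ p, ENNReal.ofReal (F p.1 (p.2 k)) ∂(star (gr a n) L) ≤
      ∫⁻ p, ENNReal.ofReal (F p.1 (p.2 0)) ∂(star (gr a n) L) +
      k * ∫⁻ p, ENNReal.ofReal (D p.1 (p.2 0) / totalCond (gr a n) p.1 (p.2 0))
        ∂(star (gr a n) L) := by
  have hfin : ∀ x : Vert a n, ((gr a n).neighborSet x).Finite := neighborSet_finite
  have hmF : ∀ x, Measurable fun e => ENNReal.ofReal (F e x) := fun x => (hFm x).ennreal_ofReal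
  have hmD : ∀ x, Measurable fun e => ENNReal.ofReal (D e x / totalCond (gr a n) e x) :=
    fun x => ((hDm x).div (measurable_totalCond _ hfin x)).ennreal_ofReal
  have hI : Inv fun (e : Sym2 (Vert a n) → ℝ) x =>
      ENNReal.ofReal (D e x / totalCond (gr a n) e x) := by
    intro g c x
    simp only [hD g c x, totalCond_sh, mv_mv, mul_inv_cancel, mv_one]
  induction k with
  | zero => simp
  | succ k ih =>
    have h1 := lintegral_succ hfin hL (fun e x => ENNReal.ofReal (F e x)) hmF k
    rw [h1]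
    have h2 : ∫⁻ p, ∑' y, ENNReal.ofReal (stepProb (gr a n) p.1 (p.2 k) y) *
          ENNReal.ofReal (F p.1 y) ∂(star (gr a n) L) ≤
        ∫⁻ p, (ENNReal.ofReal (F p.1 (p.2 k)) +
        ENNReal.ofReal (D p.1 (p.2 k) / totalCond (gr a n) p.1 (p.2 k))) ∂(star (gr a n) L) := by
      refine lintegral_mono_ae ?_
      filter_upwards [ae_star hfin hL (ae_pos (V := Vert a n) ρ hρ), ae_star hfin hL hF0,
        ae_star hfin hL hLap] with p hp hp0 hp1
      rw [tsum_step hp hp0]
      have hpc := totalCond_pos hfin neighborSet_nonempty hp (p.2 k)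
      have h3 : Lap p.1 (F p.1) (p.2 k) / totalCond (gr a n) p.1 (p.2 k) ≤
          D p.1 (p.2 k) / totalCond (gr a n) p.1 (p.2 k) :=
        div_le_div_of_nonneg_right (hp1 _) hpc.le
      refine le_trans ?_ ENNReal.ofReal_add_le
      exact ENNReal.ofReal_le_ofReal (by linarith)
    refine h2.trans ?_
    rw [lintegral_add_left (measurable_coord hmF k), lintegral_inv hρ hL hI hmD k]
    push_cast
    rw [add_mul, one_mul, ← add_assoc]
    gcongr

/-- Integral of an invariant function divided by the total conductance at time zero. -/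
lemma lintegral_div_totalCond (hρ : ∀ᵐ r ∂ρ, 0 < r)
    (hL : IsWalkLaw (gr a n) (iid a n ρ) (base a n) L)
    {D : (Sym2 (Vert a n) → ℝ) → Vert a n → ℝ}
    (hDm : ∀ x, Measurable fun e => D e x) :
    ∫⁻ p, ENNReal.ofReal (D p.1 (p.2 0) / totalCond (gr a n) p.1 (p.2 0)) ∂(star (gr a n) L) =
      (Fintype.card (Cell a n) : ℝ≥0∞)⁻¹ *
        ∑ u : Cell a n, ∫⁻ e, ENNReal.ofReal (D e (1, u)) ∂(iid a n ρ) := by
  have hfin : ∀ x : Vert a n, ((gr a n).neighborSet x).Finite := neighborSet_finite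
  have hmD : ∀ x, Measurable fun e => ENNReal.ofReal (D e x / totalCond (gr a n) e x) :=
    fun x => ((hDm x).div (measurable_totalCond _ hfin x)).ennreal_ofReal
  rw [lintegral_star_coord_zero hfin hL hmD, card_base, ← Finset.mul_sum]
  congr 1
  rw [base, Finset.sum_map]
  refine Finset.sum_congr rfl fun u _ => ?_
  refine lintegral_congr_ae ?_
  filter_upwards [ae_pos (V := Vert a n) ρ hρ] with e he
  have hp := totalCond_pos hfin neighborSet_nonempty he ((1 : Gam a), u)
  have h1 : (Function.Embedding.mk (fun u : Cell a n => ((1 : Gam a), u))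
    (fun u v h => by simpa using h)) u = ((1 : Gam a), u) := rfl
  rw [h1, mul_comm, ← ENNReal.ofReal_mul hp.le]
  congr 1
  field_simp

end Pool.Agent.H42
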