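import Pool.Agent.H42.PhiInt
import Pool.Agent.H42.Growth

/-!
Mean displacement: lower bound for random conductances, upper bound for simple random walk.
-/

open MeasureTheory ProbabilityTheory Filter
open scoped BigOperators ENNReal Topology

namespace Pool.Agent.H42

set_option linter.unusedSectionVars false

section general

variable {V : Type} [MeasurableSpace V] [DiscreteMeasurableSpace V] [Countable V]
variable {G : SimpleGraph V} {P : Measure (Sym2 V → ℝ)} {W : Finset V} {L : Measure (Can V)}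

lemma ae_adj (hfin : ∀ x, (G.neighborSet x).Finite) (hL : IsWalkLaw G P W L) :
    ∀ᵐ p ∂(star G L), ∀ k, G.Adj (p.2 k) (p.2 (k + 1)) := by
  rw [ae_all_iff]
  intro k
  rw [ae_iff]
  have : {p : Can V | ¬ G.Adj (p.2 k) (p.2 (k + 1))} ⊆
      ⋃ x : {x : Fin (k + 1 + 1) → V // ¬ G.Adj (ex x k) (ex x (k + 1))},
        ({p : Can V | p.1 ∈ Set.univ} ∩ cyl (k + 1) (ex x.1)) := by
    intro p hp
    simp only [Set.mem_iUnion]
    refine ⟨⟨fun i => p.2 i, ?_⟩, trivial, (mem_cyl_ex _ p).2 rfl⟩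
    have hc : p ∈ cyl (k + 1) (ex fun i : Fin (k + 1 + 1) => p.2 i) := (mem_cyl_ex _ p).2 rfl
    rw [← hc k (by omega), ← hc (k + 1) le_rfl]
    exact hp
  refine measure_mono_null this ?_
  rw [measure_iUnion_null_iff]
  rintro ⟨x, hx⟩
  rw [star_cyl hfin hL MeasurableSet.univ]
  have : ∀ e, pw G (k + 1) (ex x) e = 0 := by
    intro e
    unfold pw
    refine Finset.prod_eq_zero (i := k) (by simp) ?_
    simp [stepProb, hx]
  simp [this]

lemma dist_le_of_path (hG : G.Connected) {X : ℕ → V} (h : ∀ k, G.Adj (X k) (X (k + 1)))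
    (m k : ℕ) : G.dist (X m) (X (m + k)) ≤ k := by
  induction k with
  | zero => simp
  | succ k ih =>
    refine (hG.dist_triangle (v := X (m + k))).trans ?_
    have : G.dist (X (m + k)) (X (m + (k + 1))) ≤ 1 := by
      rw [← add_assoc]
      have := SimpleGraph.dist_le (SimpleGraph.Walk.cons (h (m + k)) SimpleGraph.Walk.nil)
      simpa using this
    omega

lemma ae_coord_zero (hfin : ∀ x, (G.neighborSet x).Finite) (hL : IsWalkLaw G P W L) :
    ∀ᵐ p ∂(star G L), p.2 0 ∈ W := by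
  rw [ae_iff]
  have : {p : Can V | ¬ p.2 0 ∈ W} ⊆ ⋃ x : {x : V // x ∉ W}, {p : Can V | p.2 0 = x.1} := by
    intro p hp
    simp only [Set.mem_iUnion]
    exact ⟨⟨p.2 0, hp⟩, rfl⟩
  refine measure_mono_null this ?_
  rw [measure_iUnion_null_iff]
  rintro ⟨x, hx⟩
  exact star_coord_zero hfin hL hx

lemma measurable_dist (k l : ℕ) : Measurable fun p : Can V => (G.dist (p.2 k) (p.2 l) : ℝ) := by
  have : (fun p : Can V => (G.dist (p.2 k) (p.2 l) : ℝ)) =
      (fun q : V × V => (G.dist q.1 q.2 : ℝ)) ∘ (fun p : Can V => (p.2 k, p.2 l)) := rfl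
  rw [this]
  exact Measurable.of_discrete.comp (by fun_prop)

/-- Mean displacement after `k` steps under the biased measure. -/
noncomputable def disp (G : SimpleGraph V) (L : Measure (Can V)) (k : ℕ) : ℝ :=
  ∫ p, (G.dist (p.2 0) (p.2 k) : ℝ) ∂(star G L)

lemma integrable_dist (hG : G.Connected) (hfin : ∀ x, (G.neighborSet x).Finite)
    (hL : IsWalkLaw G P W L) [IsFiniteMeasure (star G L)] (k : ℕ) :
    Integrable (fun p : Can V => (G.dist (p.2 0) (p.2 k) : ℝ)) (star G L) := by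
  refine Integrable.of_bound (measurable_dist 0 k).aestronglyMeasurable k ?_
  filter_upwards [ae_adj hfin hL] with p hp
  rw [Real.norm_eq_abs, abs_of_nonneg (Nat.cast_nonneg _)]
  have := dist_le_of_path hG hp 0 k
  rw [zero_add] at this
  exact_mod_cast this

lemma ofReal_disp (hG : G.Connected) (hfin : ∀ x, (G.neighborSet x).Finite)
    (hL : IsWalkLaw G P W L) [IsFiniteMeasure (star G L)] (k : ℕ) :
    ENNReal.ofReal (disp G L k) =
      ∫⁻ p, ENNReal.ofReal (G.dist (p.2 0) (p.2 k) : ℝ) ∂(star G L) :=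
  ofReal_integral_eq_lintegral_ofReal (integrable_dist hG hfin hL k)
    (ae_of_all _ fun _ => Nat.cast_nonneg _)

lemma tendsto_disp (hG : G.Connected) (hfin : ∀ x, (G.neighborSet x).Finite)
    (hL : IsWalkLaw G P W L) [IsFiniteMeasure (star G L)] {v : ℝ}
    (hv : ∀ᵐ p ∂(star G L), Tendsto (fun k : ℕ => (G.dist (p.2 0) (p.2 k) : ℝ) / k) atTop (𝓝 v)) :
    Tendsto (fun k : ℕ => disp G L k / k) atTop (𝓝 (v * (star G L).real Set.univ)) := by
  have h := tendsto_integral_of_dominated_convergence (μ := star G L)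
    (F := fun (k : ℕ) p => (G.dist (p.2 0) (p.2 k) : ℝ) / k) (f := fun _ => v)
    (bound := fun _ => 1)
    (fun k => ((measurable_dist 0 k).div_const _).aestronglyMeasurable)
    (integrable_const _) ?_ hv
  · have h2 : ∀ k : ℕ, ∫ p : Can V, (G.dist (p.2 0) (p.2 k) : ℝ) / k ∂(star G L) =
        disp G L k / k := fun k => integral_div _ _
    simp only [h2, integral_const, smul_eq_mul] at h
    rwa [mul_comm]
  · intro k
    filter_upwards [ae_adj hfin hL] with p hp
    rw [Real.norm_eq_abs, abs_of_nonneg (by positivity)]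
    have := dist_le_of_path hG hp 0 k
    rw [zero_add] at this
    refine div_le_one_of_le₀ ?_ (Nat.cast_nonneg _)
    exact_mod_cast this

end general

section concrete

variable {a n : ℕ} [NeZero a] [NeZero n]
variable {ρ : Measure ℝ} [IsProbabilityMeasure ρ] {L : Measure (Can (Vert a n))} {ε K : ℝ}

instance instNECell : Nonempty (Cell a n) := ⟨Cell.center true⟩

/-- Degree of a vertex. -/
noncomputable def dg (x : Vert a n) : ℝ := (neighborSet_finite x).toFinset.card

/-- Sum of the degrees over a cell. -/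
noncomputable def degSum (a n : ℕ) : ℝ := ∑ u : Cell a n, dg ((1 : Gam a), u)

omit [NeZero a] [NeZero n] in
lemma lintegral_totalCond (hε : 0 < ε) (hρ : ∀ᵐ r ∂ρ, ε ≤ r ∧ r ≤ K) (x : Vert a n) :
    ∫⁻ e, ENNReal.ofReal (totalCond (gr a n) e x) ∂(iid a n ρ) =
      ENNReal.ofReal (cbar ρ * dg x) := by
  have h0 : (fun e : Sym2 (Vert a n) → ℝ => totalCond (gr a n) e x) =
      fun e => ∑ y ∈ (neighborSet_finite x).toFinset, e s(x, y) := by
    ext e
    unfold totalCond
    rw [finsum_mem_eq_finite_toFinset_sum _ (neighborSet_finite x)]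
  have hi : ∀ s : Sym2 (Vert a n), Integrable (fun e : Sym2 (Vert a n) → ℝ => e s)
      (iid a n ρ) := by
    intro s
    refine Integrable.of_bound (measurable_pi_apply s).aestronglyMeasurable K ?_
    filter_upwards [ae_good (a := a) (n := n) hρ] with e he
    rw [Real.norm_eq_abs, abs_of_nonneg (by linarith [(he s).1])]
    exact (he s).2
  rw [← ofReal_integral_eq_lintegral_ofReal]
  · congr 1
    rw [h0, integral_finsetSum _ fun y _ => hi _]
    simp only [integral_coord, Finset.sum_const, nsmul_eq_mul, dg]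
    ring
  · rw [h0]
    exact integrable_finsetSum _ fun y _ => hi _
  · filter_upwards [ae_good (a := a) (n := n) hρ] with e he
    unfold totalCond
    rw [finsum_mem_eq_finite_toFinset_sum _ (neighborSet_finite x)]
    exact Finset.sum_nonneg fun y _ => by linarith [(he s(x, y)).1]

lemma star_univ (hε : 0 < ε) (hρ : ∀ᵐ r ∂ρ, ε ≤ r ∧ r ≤ K)
    (hL : IsWalkLaw (gr a n) (iid a n ρ) (base a n) L) :
    star (gr a n) L Set.univ = ENNReal.ofReal
      ((Fintype.card (Cell a n) : ℝ)⁻¹ * (cbar ρ * degSum a n)) := by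
  have h := lintegral_star_coord_zero neighborSet_finite hL (f := fun _ _ => 1)
    (fun _ => measurable_const)
  simp only [lintegral_const, one_mul] at h
  rw [h, card_base, ← Finset.mul_sum, base, Finset.sum_map]
  have hc : 0 < cbar ρ := lt_of_lt_of_le hε (cbar_ge hε hρ)
  have h1 : ∀ u : Cell a n, ∫⁻ e, ENNReal.ofReal (totalCond (gr a n) e
      ((Function.Embedding.mk (fun u : Cell a n => ((1 : Gam a), u))
        (fun u v h => by simpa using h)) u)) ∂(iid a n ρ) =
      ENNReal.ofReal (cbar ρ * dg ((1 : Gam a), u)) := fun u => lintegral_totalCond hε hρ _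
  have hcard : (0 : ℝ) < Fintype.card (Cell a n) := by exact_mod_cast Fintype.card_pos
  rw [Finset.sum_congr rfl fun u _ => h1 u, ← ENNReal.ofReal_sum_of_nonneg, ← Finset.mul_sum,
    ENNReal.ofReal_mul (p := (Fintype.card (Cell a n) : ℝ)⁻¹) (by positivity),
    ENNReal.ofReal_inv_of_pos hcard, ENNReal.ofReal_natCast]
  · rfl
  · intro u _
    unfold dg
    positivity

lemma lap_add_const (c : Sym2 (Vert a n) → ℝ) (F : Vert a n → ℝ) (r : ℝ) (x : Vert a n) :
    Lap c (fun y => F y + r) x = Lap c F x := by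
  unfold Lap
  simp

lemma DR_nonneg {w0 : ℝ} (hw : 0 ≤ w0) (w : List (Letter a)) : 0 ≤ DR w0 w := by
  induction w with
  | nil => simp [DR]
  | cons l w ih =>
    simp only [DR, wt]
    split_ifs <;> linarith

lemma Dlen_nonneg {w0 : ℝ} (hw : 0 ≤ w0) (g : Gam a) : 0 ≤ Dlen w0 g := DR_nonneg hw _

lemma tF_bounds {w0 t : ℝ} (ht : 0 ≤ t) (ht' : t ≤ 1) (hε : 0 < ε)
    {c : Sym2 (Vert a n) → ℝ} (hc : Good ε K c) (x : Vert a n) :
    Dlen w0 x.1 ≤ tF w0 t c x ∧ tF w0 t c x ≤ Dlen w0 x.1 + 5 := by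
  have hsv : ∀ s0 s, 0 ≤ sv t s0 s ∧ sv t s0 s ≤ 5 := by
    intro s0 s
    unfold sv
    split_ifs <;> constructor <;> linarith
  obtain ⟨g, u⟩ := x
  cases u with
  | center s =>
    have := hsv (inHub g).1 s
    simp only [tF]
    constructor <;> linarith
  | hub s i =>
    have := hsv (inHub g).1 s
    simp only [tF]
    constructor <;> linarith
  | fat s i k =>
    have := hsv (inHub g).1 s
    simp only [tF]
    constructor <;> linarith
  | thin i j =>
    have h1 := hsv (inHub g).1 false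
    have h2 := hsv (inHub g).1 true
    have c1 : 0 < c s((g, Cell.hub false i), (g, Cell.thin i j)) := lt_of_lt_of_le hε (hc _).1
    have c2 : 0 < c s((g, Cell.thin i j), (g, Cell.hub true j)) := lt_of_lt_of_le hε (hc _).1
    simp only [tF]
    constructor
    · have : 0 ≤ (c s((g, Cell.hub false i), (g, Cell.thin i j)) * sv t (inHub g).1 false
        + c s((g, Cell.thin i j), (g, Cell.hub true j)) * sv t (inHub g).1 true)
        / (c s((g, Cell.hub false i), (g, Cell.thin i j))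
        + c s((g, Cell.thin i j), (g, Cell.hub true j))) :=
        div_nonneg (add_nonneg (mul_nonneg c1.le h1.1) (mul_nonneg c2.le h2.1))
          (by linarith)
      linarith
    · have : (c s((g, Cell.hub false i), (g, Cell.thin i j)) * sv t (inHub g).1 false
        + c s((g, Cell.thin i j), (g, Cell.hub true j)) * sv t (inHub g).1 true)
        / (c s((g, Cell.hub false i), (g, Cell.thin i j))
        + c s((g, Cell.thin i j), (g, Cell.hub true j))) ≤ 5 := by
        rw [div_le_iff₀ (by linarith)]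
        nlinarith
      linarith

lemma inv_neg {D : (Sym2 (Vert a n) → ℝ) → Vert a n → ℝ} (hD : Inv D) :
    Inv fun e x => -(D e x) := by
  intro g c x
  simp only [hD g c x]

/-- Lower bound for the mean displacement. -/
lemma disp_lower (hε : 0 < ε) (hρ : ∀ᵐ r ∂ρ, ε ≤ r ∧ r ≤ K) (hK : 0 < K)
    (hL : IsWalkLaw (gr a n) (iid a n ρ) (base a n) L) [IsFiniteMeasure (star (gr a n) L)]
    {t τ : ℝ} (ht : 0 ≤ t) (ht' : t ≤ 1 / 2) (hτ : 0 ≤ τ)
    (hbal : kser ρ * (1 - 2 * t) = cbar ρ * t) (hcond : a * K ≤ n * (ε / 2) * τ) (k : ℕ) :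
    k * ((Fintype.card (Cell a n) : ℝ)⁻¹ *
      ∑ u : Cell a n, ∫ e, Phi t τ K (cbar ρ) (kser ρ) e (1, u) ∂(iid a n ρ)) ≤
      disp (gr a n) L k + (9 + 10 * τ) * (star (gr a n) L).real Set.univ := by
  have ha : 0 < a := Nat.pos_of_ne_zero (NeZero.ne a)
  have hpos : ∀ᵐ r ∂ρ, 0 < r := by
    filter_upwards [hρ] with r hr
    linarith
  have hG : (gr a n).Connected := gr_connected
  have hgood := ae_good (a := a) (n := n) hρ
  have hg := growth_lower (L := L) hpos hL (F := fun e x => tG t τ e x + 10 * τ)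
    (D := Phi t τ K (cbar ρ) (kser ρ))
    (by
      filter_upwards [hgood] with e he x
      have h1 := (tF_bounds (w0 := 1) ht (by linarith) hε he x).1
      have h2 := tH_le hτ hε he x
      have h3 := Dlen_nonneg (w0 := 1) zero_le_one x.1
      unfold tG
      linarith)
    (fun x => by
      unfold tG
      exact ((measurable_tF 1 t x).sub ((measurable_tH τ x).const_mul 10)).add_const _)
    (inv_Phi _ _ _ _ _) (measurable_Phi _ _ _ _ _)
    (by
      filter_upwards [hgood] with e he x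
      have h1 := phi_le_lap ht ht' hε he hτ hbal hcond x
      have h2 := lap_add_const e (tG t τ e) (10 * τ) x
      exact h1.trans (le_of_eq h2.symm)) k
  have e1 := lintegral_div_totalCond hpos hL (D := Phi t τ K (cbar ρ) (kser ρ))
    (measurable_Phi _ _ _ _ _)
  have e2 := lintegral_div_totalCond hpos hL (D := fun e x => -(Phi t τ K (cbar ρ) (kser ρ) e x))
    (fun x => (measurable_Phi _ _ _ _ _ x).neg)
  simp only [neg_div] at e2
  rw [e1, e2] at hg
  have h3 : ∫⁻ p, ENNReal.ofReal (tG t τ p.1 (p.2 k) + 10 * τ) ∂(star (gr a n) L) ≤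
      ENNReal.ofReal (disp (gr a n) L k + (9 + 10 * τ) * (star (gr a n) L).real Set.univ) := by
    rw [ENNReal.ofReal_add, ofReal_disp hG neighborSet_finite hL,
      ENNReal.ofReal_mul (by positivity), ofReal_measureReal, ← lintegral_const,
      ← lintegral_add_right _ measurable_const]
    · refine lintegral_mono_ae ?_
      filter_upwards [ae_star neighborSet_finite hL hgood, ae_coord_zero neighborSet_finite hL]
        with p hp hp0
      rw [← ENNReal.ofReal_add (Nat.cast_nonneg _) (by positivity)]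
      refine ENNReal.ofReal_le_ofReal ?_
      have h1 := (tF_bounds (w0 := 1) ht (by linarith) hε hp (p.2 k)).2
      have h2 := tH_nonneg hτ hε hp (p.2 k)
      have h4 := dist_lower (p.2 0).2 (p.2 k)
      have h5 : p.2 0 = ((1 : Gam a), (p.2 0).2) := Prod.ext (mem_base.1 hp0) rfl
      rw [← h5] at h4
      unfold tG
      linarith
    · exact integral_nonneg fun _ => Nat.cast_nonneg _
    · positivity
  have hphi : ∀ u : Cell a n, Integrable (fun e => Phi t τ K (cbar ρ) (kser ρ) e (1, u))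
      (iid a n ρ) := fun u => phi_integrable ha hε hρ hK t τ _
  have hAp : ∀ u : Cell a n, ∫⁻ e, ENNReal.ofReal (Phi t τ K (cbar ρ) (kser ρ) e (1, u))
      ∂(iid a n ρ) ≠ ∞ := fun u => (hphi u).lintegral_lt_top.ne
  have hAm : ∀ u : Cell a n, ∫⁻ e, ENNReal.ofReal (-Phi t τ K (cbar ρ) (kser ρ) e (1, u))
      ∂(iid a n ρ) ≠ ∞ := fun u => (hphi u).neg.lintegral_lt_top.ne
  have hint : ∀ u : Cell a n, ∫ e, Phi t τ K (cbar ρ) (kser ρ) e (1, u) ∂(iid a n ρ) =
      (∫⁻ e, ENNReal.ofReal (Phi t τ K (cbar ρ) (kser ρ) e (1, u)) ∂(iid a n ρ)).toReal -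
      (∫⁻ e, ENNReal.ofReal (-Phi t τ K (cbar ρ) (kser ρ) e (1, u)) ∂(iid a n ρ)).toReal :=
    fun u => integral_eq_lintegral_pos_part_sub_lintegral_neg_part (hphi u)
  have hdisp0 : 0 ≤ disp (gr a n) L k := integral_nonneg fun _ => Nat.cast_nonneg _
  have hg2 := hg.trans (add_le_add_left h3 _)
  have hfin2 : ENNReal.ofReal (disp (gr a n) L k + (9 + 10 * τ) *
      (star (gr a n) L).real Set.univ) + k * ((Fintype.card (Cell a n) : ℝ≥0∞)⁻¹ *
        ∑ u : Cell a n, ∫⁻ e, ENNReal.ofReal (-Phi t τ K (cbar ρ) (kser ρ) e (1, u))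
          ∂(iid a n ρ)) ≠ ∞ := by
    refine ENNReal.add_ne_top.2 ⟨ENNReal.ofReal_ne_top, ?_⟩
    refine ENNReal.mul_ne_top (ENNReal.natCast_ne_top k) (ENNReal.mul_ne_top ?_ ?_)
    · simp
    · exact ENNReal.sum_ne_top.2 fun u _ => hAm u
  have hfin3 : (k : ℝ≥0∞) * ((Fintype.card (Cell a n) : ℝ≥0∞)⁻¹ *
        ∑ u : Cell a n, ∫⁻ e, ENNReal.ofReal (-Phi t τ K (cbar ρ) (kser ρ) e (1, u))
          ∂(iid a n ρ)) ≠ ∞ := (ENNReal.add_ne_top.1 hfin2).2
  have hr := ENNReal.toReal_mono hfin2 hg2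
  rw [ENNReal.toReal_add ENNReal.ofReal_ne_top hfin3,
    ENNReal.toReal_ofReal (by positivity)] at hr
  simp only [ENNReal.toReal_mul, ENNReal.toReal_natCast, ENNReal.toReal_inv] at hr
  rw [ENNReal.toReal_sum fun u _ => hAp u, ENNReal.toReal_sum fun u _ => hAm u] at hr
  simp only [hint, Finset.sum_sub_distrib]
  linarith

/-- Drift bound for simple random walk. -/
noncomputable def Psi (_ : Sym2 (Vert a n) → ℝ) : Vert a n → ℝ
  | (_, Cell.center _) => 0
  | (_, Cell.hub _ _) => 9 / 2 * a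
  | (_, Cell.fat _ _ _) => 0
  | (_, Cell.thin _ _) => 0

lemma inv_Psi : Inv (Psi (a := a) (n := n)) := by
  intro g c x
  obtain ⟨h, u⟩ := x
  cases u <;> rfl

lemma measurable_Psi (x : Vert a n) : Measurable fun e => Psi e x := by
  obtain ⟨h, u⟩ := x
  cases u <;> exact measurable_const

lemma psi_sum : ∑ u : Cell a n, ∫⁻ e, ENNReal.ofReal (Psi e ((1 : Gam a), u)) ∂(iid a n ρ) =
    ENNReal.ofReal (9 * a ^ 2) := by
  rw [sum_cell]
  simp only [Psi, ENNReal.ofReal_zero, lintegral_const, measure_univ, mul_one,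
    Finset.sum_const_zero, zero_add, add_zero, Finset.sum_const, Finset.card_univ,
    Fintype.card_bool, Fintype.card_fin, nsmul_eq_mul]
  rw [← ENNReal.ofReal_natCast a, ← ENNReal.ofReal_mul (by positivity), Nat.cast_ofNat,
    ← ENNReal.ofReal_ofNat 2, ← ENNReal.ofReal_mul (by positivity)]
  congr 1
  ring

/-- All conductances are one. -/
lemma lap_le_psi {e : Sym2 (Vert a n) → ℝ} (he : ∀ s, e s = 1) (x : Vert a n) :
    Lap e (tF 5 (1 / 4) e) x ≤ Psi e x := by
  have hc : Good 1 1 e := fun s => by rw [he s]; exact ⟨le_rfl, le_rfl⟩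
  obtain ⟨g, u⟩ := x
  cases u with
  | center s => rw [lap_tF_center]; exact le_rfl
  | fat s i k => rw [lap_tF_fat]; exact le_rfl
  | thin i j => rw [lap_tF_thin 5 (1 / 4) one_pos hc]; exact le_rfl
  | hub s i =>
    refine (lap_tF_hub_upper (by norm_num) (by norm_num) one_pos hc g s i).trans ?_
    have h1 : cth e g s i = a * (1 / 2) := by
      unfold cth par
      simp only [he]
      norm_num
    have h2 : kap e g s i = a * 1 := by
      unfold kap
      simp only [he]
      simp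
    have h3 := mean_identity (t := 1 / 4) (cb := 1) (κ2 := 1 / 2) (by norm_num) (inHub g).1 s
      (a : ℝ)
    rw [h1, h2, h3]
    simp only [Psi]
    norm_num

/-- Upper bound for the mean displacement of simple random walk. -/
lemma disp_upper (hL : IsWalkLaw (gr a n) (iid a n (Measure.dirac 1)) (base a n) L)
    [IsFiniteMeasure (star (gr a n) L)] (k : ℕ) :
    disp (gr a n) L k ≤ 17 * (star (gr a n) L).real Set.univ +
      k * ((Fintype.card (Cell a n) : ℝ)⁻¹ * (9 * a ^ 2)) := by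
  have hone : ∀ᵐ r ∂(Measure.dirac (1 : ℝ)), r = 1 := by simp
  have hpos : ∀ᵐ r ∂(Measure.dirac (1 : ℝ)), 0 < r := by simp
  have hG : (gr a n).Connected := gr_connected
  have h1e : ∀ᵐ e ∂(iid a n (Measure.dirac 1)), ∀ s, e s = 1 := by
    rw [ae_all_iff]
    intro s
    exact (measurePreserving_eval_infinitePi (fun _ : Sym2 (Vert a n) => Measure.dirac (1 : ℝ))
      s).quasiMeasurePreserving.ae hone
  have hgood : ∀ᵐ e ∂(iid a n (Measure.dirac 1)), Good 1 1 e := by
    filter_upwards [h1e] with e he s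
    rw [he s]; exact ⟨le_rfl, le_rfl⟩
  have hg := growth_upper (L := L) hpos hL (F := fun e x => tF 5 (1 / 4) e x)
    (D := Psi)
    (by
      filter_upwards [hgood] with e he x
      have h1 := (tF_bounds (w0 := 5) (t := 1 / 4) (by norm_num) (by norm_num) one_pos he x).1
      have h3 := Dlen_nonneg (w0 := 5) (by norm_num) x.1
      linarith)
    (fun x => measurable_tF 5 (1 / 4) x)
    inv_Psi measurable_Psi
    (by
      filter_upwards [h1e] with e he x
      exact lap_le_psi he x) k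
  rw [lintegral_div_totalCond hpos hL measurable_Psi, psi_sum] at hg
  have hcard : (0 : ℝ) < Fintype.card (Cell a n) := by exact_mod_cast Fintype.card_pos
  have hdisp0 : 0 ≤ disp (gr a n) L k := integral_nonneg fun _ => Nat.cast_nonneg _
  have h2 : ∫⁻ p, ENNReal.ofReal (tF 5 (1 / 4) p.1 (p.2 0)) ∂(star (gr a n) L) ≤
      ENNReal.ofReal (5 * (star (gr a n) L).real Set.univ) := by
    rw [ENNReal.ofReal_mul (by norm_num), ofReal_measureReal, ← lintegral_const]
    refine lintegral_mono_ae ?_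
    filter_upwards [ae_star neighborSet_finite hL hgood, ae_coord_zero neighborSet_finite hL]
      with p hp hp0
    refine ENNReal.ofReal_le_ofReal ?_
    have h1 := (tF_bounds (w0 := 5) (t := 1 / 4) (by norm_num) (by norm_num) one_pos hp (p.2 0)).2
    have h5 : (p.2 0).1 = 1 := mem_base.1 hp0
    rw [h5, Dlen_one] at h1
    linarith
  have h3 : ENNReal.ofReal (disp (gr a n) L k) ≤
      ∫⁻ p, ENNReal.ofReal (tF 5 (1 / 4) p.1 (p.2 k)) ∂(star (gr a n) L) +
      ENNReal.ofReal (12 * (star (gr a n) L).real Set.univ) := by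
    rw [ofReal_disp hG neighborSet_finite hL,
      ENNReal.ofReal_mul (by positivity), ofReal_measureReal, ← lintegral_const,
      ← lintegral_add_right _ measurable_const]
    refine lintegral_mono_ae ?_
    filter_upwards [ae_star neighborSet_finite hL hgood, ae_coord_zero neighborSet_finite hL]
      with p hp hp0
    have h1 := (tF_bounds (w0 := 5) (t := 1 / 4) (by norm_num) (by norm_num) one_pos hp (p.2 k)).1
    have h6 := Dlen_nonneg (w0 := 5) (by norm_num) (p.2 k).1
    rw [← ENNReal.ofReal_add (by linarith) (by positivity)]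
    refine ENNReal.ofReal_le_ofReal ?_
    have h4 := dist_upper (p.2 0).2 (p.2 k)
    have h5 : p.2 0 = ((1 : Gam a), (p.2 0).2) := Prod.ext (mem_base.1 hp0) rfl
    rw [← h5] at h4
    linarith
  have h4 := h3.trans (add_le_add_left (hg.trans (add_le_add_left h2 _)) _)
  have e1 : (k : ℝ≥0∞) * ((Fintype.card (Cell a n) : ℝ≥0∞)⁻¹ * ENNReal.ofReal (9 * a ^ 2)) =
      ENNReal.ofReal (k * ((Fintype.card (Cell a n) : ℝ)⁻¹ * (9 * a ^ 2))) := by
    rw [ENNReal.ofReal_mul (p := (k : ℝ)) (by positivity),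
      ENNReal.ofReal_mul (p := (Fintype.card (Cell a n) : ℝ)⁻¹) (by positivity),
      ENNReal.ofReal_inv_of_pos hcard, ENNReal.ofReal_natCast, ENNReal.ofReal_natCast]
  rw [e1, ← ENNReal.ofReal_add (by positivity) (by positivity),
    ← ENNReal.ofReal_add (by positivity) (by positivity),
    ENNReal.ofReal_le_ofReal_iff (by positivity)] at h4
  linarith

lemma star_isFinite (hε : 0 < ε) (hρ : ∀ᵐ r ∂ρ, ε ≤ r ∧ r ≤ K)
    (hL : IsWalkLaw (gr a n) (iid a n ρ) (base a n) L) : IsFiniteMeasure (star (gr a n) L) :=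
  ⟨by rw [star_univ hε hρ hL]; exact ENNReal.ofReal_lt_top⟩

lemma dg_nonneg (x : Vert a n) : 0 ≤ dg x := Nat.cast_nonneg _

lemma degSum_pos : 0 < degSum a n := by
  unfold degSum
  refine Finset.sum_pos (fun u _ => ?_) Finset.univ_nonempty
  unfold dg
  have : 0 < (neighborSet_finite ((1 : Gam a), u)).toFinset.card := by
    rw [Finset.card_pos, Set.Finite.toFinset_nonempty]
    exact neighborSet_nonempty _
  exact_mod_cast this

lemma star_real (hε : 0 < ε) (hρ : ∀ᵐ r ∂ρ, ε ≤ r ∧ r ≤ K)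
    (hL : IsWalkLaw (gr a n) (iid a n ρ) (base a n) L) :
    (star (gr a n) L).real Set.univ = (Fintype.card (Cell a n) : ℝ)⁻¹ * (cbar ρ * degSum a n) := by
  rw [Measure.real, star_univ hε hρ hL, ENNReal.toReal_ofReal]
  have h1 := cbar_ge hε hρ
  have h2 := (degSum_pos (a := a) (n := n)).le
  exact mul_nonneg (by positivity) (mul_nonneg (by linarith) h2)

/-- Lower bound for the speed with random conductances. -/
lemma speed_lower (hε : 0 < ε) (hρ : ∀ᵐ r ∂ρ, ε ≤ r ∧ r ≤ K) (hK : 0 < K)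
    (hL : IsWalkLaw (gr a n) (iid a n ρ) (base a n) L)
    {t τ : ℝ} (ht : 0 ≤ t) (ht' : t ≤ 1 / 2) (hτ : 0 ≤ τ)
    (hbal : kser ρ * (1 - 2 * t) = cbar ρ * t) (hcond : a * K ≤ n * (ε / 2) * τ) {v : ℝ}
    (hv : ∀ᵐ p ∂(star (gr a n) L),
      Tendsto (fun k : ℕ => ((gr a n).dist (p.2 0) (p.2 k) : ℝ) / k) atTop (𝓝 v)) :
    2 * a * ((5 - 2 * t) * (a * cbar ρ) - 7 * (Real.sqrt a * K) - 10 * (a * K * τ))
      - 20 * (n * K * τ) - 20 * a ^ 2 * K * τ ≤ v * (cbar ρ * degSum a n) := by
  have ha : 0 < a := Nat.pos_of_ne_zero (NeZero.ne a)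
  have := star_isFinite hε hρ hL
  have hG : (gr a n).Connected := gr_connected
  have h1 := tendsto_disp hG neighborSet_finite hL hv
  set S := ∑ u : Cell a n, ∫ e, Phi t τ K (cbar ρ) (kser ρ) e (1, u) ∂(iid a n ρ) with hS
  set C := (9 + 10 * τ) * (star (gr a n) L).real Set.univ with hC
  have hcard : (0 : ℝ) < Fintype.card (Cell a n) := by exact_mod_cast Fintype.card_pos
  have h2 : Tendsto (fun k : ℕ => disp (gr a n) L k / k + C / k) atTop
      (𝓝 (v * (star (gr a n) L).real Set.univ + 0)) :=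
    h1.add (tendsto_const_div_atTop_nhds_zero_nat C)
  rw [add_zero] at h2
  have h3 : (Fintype.card (Cell a n) : ℝ)⁻¹ * S ≤ v * (star (gr a n) L).real Set.univ := by
    refine ge_of_tendsto h2 ?_
    filter_upwards [eventually_gt_atTop 0] with k hk
    have h4 := disp_lower hε hρ hK hL ht ht' hτ hbal hcond k
    have hk' : (0 : ℝ) < k := by exact_mod_cast hk
    rw [← add_div, le_div_iff₀ hk', mul_comm _ (k : ℝ)]
    exact h4
  rw [star_real hε hρ hL] at h3
  have h5 := phi_sum (n := n) ha hε hρ hK t τ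
  refine h5.trans ?_
  have h6 : v * ((Fintype.card (Cell a n) : ℝ)⁻¹ * (cbar ρ * degSum a n)) =
      (Fintype.card (Cell a n) : ℝ)⁻¹ * (v * (cbar ρ * degSum a n)) := by ring
  rw [h6] at h3
  exact le_of_mul_le_mul_left h3 (by positivity)

/-- Upper bound for the speed of simple random walk. -/
lemma speed_upper (hL : IsWalkLaw (gr a n) (iid a n (Measure.dirac 1)) (base a n) L) {v : ℝ}
    (hv : ∀ᵐ p ∂(star (gr a n) L),
      Tendsto (fun k : ℕ => ((gr a n).dist (p.2 0) (p.2 k) : ℝ) / k) atTop (𝓝 v)) :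
    v * degSum a n ≤ 9 * a ^ 2 := by
  have hρ : ∀ᵐ r ∂(Measure.dirac (1 : ℝ)), 1 ≤ r ∧ r ≤ 1 := by simp
  have := star_isFinite one_pos hρ hL
  have hG : (gr a n).Connected := gr_connected
  have h1 := tendsto_disp hG neighborSet_finite hL hv
  set C := 17 * (star (gr a n) L).real Set.univ with hC
  have hcard : (0 : ℝ) < Fintype.card (Cell a n) := by exact_mod_cast Fintype.card_pos
  have h2 : Tendsto (fun k : ℕ => disp (gr a n) L k / k - C / k) atTop
      (𝓝 (v * (star (gr a n) L).real Set.univ - 0)) :=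
    h1.sub (tendsto_const_div_atTop_nhds_zero_nat C)
  rw [sub_zero] at h2
  have h3 : v * (star (gr a n) L).real Set.univ ≤
      (Fintype.card (Cell a n) : ℝ)⁻¹ * (9 * a ^ 2) := by
    refine le_of_tendsto h2 ?_
    filter_upwards [eventually_gt_atTop 0] with k hk
    have h4 := disp_upper hL k
    have hk' : (0 : ℝ) < k := by exact_mod_cast hk
    rw [← sub_div, div_le_iff₀ hk', mul_comm _ (k : ℝ)]
    linarith
  have hcb : cbar (Measure.dirac 1) = 1 := by simp [cbar]
  rw [star_real one_pos hρ hL, hcb, one_mul] at h3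
  have h6 : v * ((Fintype.card (Cell a n) : ℝ)⁻¹ * degSum a n) =
      (Fintype.card (Cell a n) : ℝ)⁻¹ * (v * degSum a n) := by ring
  rw [h6] at h3
  exact le_of_mul_le_mul_left h3 (by positivity)

end concrete

/-- Choice of the size of the cells. -/
lemma exists_size {ρ : Measure ℝ} [IsProbabilityMeasure ρ] {ε K : ℝ}
    (hε : 0 < ε) (hρ : ∀ᵐ r ∂ρ, ε ≤ r ∧ r ≤ K) (hK : 0 < K)
    (hnd : ∀ r, ρ ≠ Measure.dirac r) :
    ∃ a : ℕ, 3 ≤ a ∧ 9 * (a : ℝ) ^ 2 * cbar ρ <
      2 * a * ((5 - 2 * tpar ρ) * (a * cbar ρ) - 7 * (Real.sqrt a * K)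
        - 10 * (a * K * (2 * K / (a * ε))))
      - 20 * ((a * a : ℕ) * K * (2 * K / (a * ε))) - 20 * (a : ℝ) ^ 2 * K * (2 * K / (a * ε)) := by
  obtain ⟨ht, ht', -⟩ := tpar_spec hε hρ hnd
  have hcb : 0 < cbar ρ := lt_of_lt_of_le hε (cbar_ge hε hρ)
  set d := (1 - 4 * tpar ρ) * cbar ρ with hd
  have hd0 : 0 < d := by
    apply mul_pos _ hcb
    linarith
  obtain ⟨m, hm'⟩ := exists_nat_gt (max ((14 * K + 120 * K ^ 2 / ε) / d) 1)
  have hm : (14 * K + 120 * K ^ 2 / ε) / d < m := lt_of_le_of_lt (le_max_left _ _) hm'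
  have hm1 : 1 < m := by
    have : (1 : ℝ) < m := lt_of_le_of_lt (le_max_right _ _) hm'
    exact_mod_cast this
  refine ⟨(m + 1) ^ 2, by nlinarith, ?_⟩
  have hs : Real.sqrt (((m + 1) ^ 2 : ℕ) : ℝ) = m + 1 := by
    push_cast
    exact Real.sqrt_sq (by positivity)
  rw [hs]
  push_cast
  set b : ℝ := (m : ℝ) + 1 with hb
  have hb0 : 0 < b := by positivity
  have hb1 : 1 ≤ b := by
    rw [hb]
    have : (0 : ℝ) ≤ m := Nat.cast_nonneg _
    linarith
  have h1 : (14 * K + 120 * K ^ 2 / ε) < b * d := by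
    rw [div_lt_iff₀ hd0] at hm
    have : (m : ℝ) * d ≤ b * d := by
      apply mul_le_mul_of_nonneg_right _ hd0.le
      rw [hb]; linarith
    linarith
  have e1 : 10 * (b ^ 2 * K * (2 * K / (b ^ 2 * ε))) = 20 * K ^ 2 / ε := by
    field_simp
    ring
  have e2 : 20 * (b ^ 2 * b ^ 2 * K * (2 * K / (b ^ 2 * ε))) = 40 * b ^ 2 * K ^ 2 / ε := by
    field_simp
    ring
  have e3 : 20 * (b ^ 2) ^ 2 * K * (2 * K / (b ^ 2 * ε)) = 40 * b ^ 2 * K ^ 2 / ε := by
    field_simp
    ring
  rw [e1, e2, e3]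
  have h2 : b ^ 3 * (14 * K + 120 * K ^ 2 / ε) < b ^ 3 * (b * d) :=
    mul_lt_mul_of_pos_left h1 (by positivity)
  have h3 : b ^ 2 * (120 * K ^ 2 / ε) ≤ b ^ 3 * (120 * K ^ 2 / ε) := by
    apply mul_le_mul_of_nonneg_right _ (by positivity)
    nlinarith
  have h4 : 40 * b ^ 2 * K ^ 2 / ε = b ^ 2 * (120 * K ^ 2 / ε) / 3 := by ring
  rw [h4]
  have h5 : 2 * b ^ 2 * ((5 - 2 * tpar ρ) * (b ^ 2 * cbar ρ) - 7 * (b * K) - 20 * K ^ 2 / ε) =
      9 * (b ^ 2) ^ 2 * cbar ρ + b ^ 3 * (b * d) - 14 * b ^ 3 * K -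
        b ^ 2 * (120 * K ^ 2 / ε) / 3 := by
    rw [hd]
    ring
  rw [h5]
  nlinarith

end Pool.Agent.H42
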