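import Pool.Agent.H42.Bern
import Pool.Agent.H42.Speed

/-!
Shift-invariant functions on the space of environments and paths are constant.
-/

open MeasureTheory ProbabilityTheory Filter
open scoped BigOperators ENNReal Topology

namespace Pool.Agent.H42

set_option linter.unusedSectionVars false

variable {a n : ℕ} [NeZero a] [NeZero n]
variable {ρ : Measure ℝ} [IsProbabilityMeasure ρ] {L : Measure (Can (Vert a n))}

lemma lintegral_theta_phi (hρ : ∀ᵐ r ∂ρ, 0 < r)
    (hL : IsWalkLaw (gr a n) (iid a n ρ) (base a n) L) [IsFiniteMeasure (star (gr a n) L)]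
    (x0 x1 : Vert a n) (h0 : x0.1 = 1) {Y : Can (Vert a n) → ℝ≥0∞} (hY : Measurable Y)
    {φ : (Sym2 (Vert a n) → ℝ) → ℝ≥0∞} (hφ : Measurable φ) :
    ∫⁻ p in {p | p.2 0 = x0 ∧ p.2 1 = x1}, φ p.1 * Y (theta p) ∂(star (gr a n) L) =
      ∫⁻ q in {p | p.2 0 = (1, x1.2)},
        ENNReal.ofReal (stepProb (gr a n) q.1 (1, x1.2) (mv x1.1⁻¹ x0)) *
          (φ (sh x1.1⁻¹ q.1) * Y q) ∂(star (gr a n) L) := by
  have hm : Measurable fun q : Can (Vert a n) => φ (sh x1.1⁻¹ q.1) * Y q :=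
    (hφ.comp ((measurable_sh _).comp measurable_fst)).mul hY
  rw [← lintegral_theta_restrict hρ hL x0 x1 h0 hm]
  have hS : MeasurableSet {p : Can (Vert a n) | p.2 0 = x0 ∧ p.2 1 = x1} :=
    (measurableSet_coord 0 x0).inter (measurableSet_coord 1 x1)
  refine setLIntegral_congr_fun hS ?_
  rintro p ⟨-, hp⟩
  simp only [theta]
  rw [hp, sh_sh, mul_inv_cancel, sh_one]

section density

variable (L) (Y : Can (Vert a n) → ℝ≥0∞)

/-- The part of the biased measure with density `Y` and starting point `(1,u)`, projected to the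
environment. -/
noncomputable def nu (u : Cell a n) : Measure (Sym2 (Vert a n) → ℝ) :=
  (((star (gr a n) L).restrict {p | p.2 0 = ((1 : Gam a), u)}).withDensity Y).map Prod.fst

variable (ρ) in
/-- Density of `nu`. -/
noncomputable def HH (u : Cell a n) : (Sym2 (Vert a n) → ℝ) → ℝ≥0∞ :=
  (nu L Y u).rnDeriv (iid a n ρ)

variable (ρ) in
/-- Extension of the densities to all vertices. -/
noncomputable def HX (e : Sym2 (Vert a n) → ℝ) (x : Vert a n) : ℝ≥0∞ :=
  HH ρ L Y x.2 (sh x.1 e)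

lemma measurable_HH (u : Cell a n) : Measurable (HH ρ L Y u) := Measure.measurable_rnDeriv _ _

lemma measurable_HX (x : Vert a n) : Measurable fun e => HX ρ L Y e x :=
  (measurable_HH L Y x.2).comp (measurable_sh x.1)

lemma HX_base (u : Cell a n) (e : Sym2 (Vert a n) → ℝ) : HX ρ L Y e (1, u) = HH ρ L Y u e := by
  simp [HX]

lemma inv_HX : Inv (HX ρ L Y) := by
  intro g c x
  simp only [HX, mv, sh_sh]
  simp

variable {L Y}

lemma lintegral_nu (hY : Measurable Y) (u : Cell a n) {φ : (Sym2 (Vert a n) → ℝ) → ℝ≥0∞}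
    (hφ : Measurable φ) :
    ∫⁻ e, φ e ∂(nu L Y u) =
      ∫⁻ p in {p | p.2 0 = ((1 : Gam a), u)}, φ p.1 * Y p ∂(star (gr a n) L) := by
  unfold nu
  have hφ' : Measurable fun p : Can (Vert a n) => φ p.1 := hφ.comp measurable_fst
  rw [lintegral_map hφ measurable_fst, lintegral_withDensity_eq_lintegral_mul _ hY hφ']
  refine lintegral_congr fun p => ?_
  simp [mul_comm]

lemma nu_finite (hY : Measurable Y) (hY1 : ∀ p, Y p ≤ 1) [IsFiniteMeasure (star (gr a n) L)]
    (u : Cell a n) : IsFiniteMeasure (nu L Y u) := by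
  refine ⟨?_⟩
  have h := lintegral_nu (L := L) hY u (φ := 1) measurable_one
  simp only [Pi.one_apply, lintegral_const, one_mul] at h
  rw [h]
  calc _ ≤ ∫⁻ _ in {p : Can (Vert a n) | p.2 0 = ((1 : Gam a), u)}, 1 ∂(star (gr a n) L) :=
        lintegral_mono fun p => hY1 p
    _ < ∞ := by simp [measure_lt_top]

lemma nu_ac (hL : IsWalkLaw (gr a n) (iid a n ρ) (base a n) L) (hY : Measurable Y)
    (u : Cell a n) : nu L Y u ≪ iid a n ρ := by
  refine Measure.AbsolutelyContinuous.mk fun A hA hA0 => ?_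
  have h := lintegral_nu (L := L) hY u (φ := A.indicator 1) (measurable_one.indicator hA)
  rw [lintegral_indicator_one hA] at h
  rw [h]
  have h0 : ∀ᵐ p ∂(star (gr a n) L), p.1 ∉ A :=
    ae_star neighborSet_finite hL (measure_eq_zero_iff_ae_notMem.1 hA0)
  rw [lintegral_eq_zero_iff]
  · refine ae_restrict_of_ae ?_
    filter_upwards [h0] with p hp
    simp [hp]
  · exact ((measurable_one.indicator hA).comp measurable_fst).mul hY

lemma lintegral_HH (hL : IsWalkLaw (gr a n) (iid a n ρ) (base a n) L) (hY : Measurable Y)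
    (hY1 : ∀ p, Y p ≤ 1) [IsFiniteMeasure (star (gr a n) L)] (u : Cell a n)
    {φ : (Sym2 (Vert a n) → ℝ) → ℝ≥0∞} (hφ : Measurable φ) :
    ∫⁻ e, φ e * HH ρ L Y u e ∂(iid a n ρ) =
      ∫⁻ p in {p | p.2 0 = ((1 : Gam a), u)}, φ p.1 * Y p ∂(star (gr a n) L) := by
  have := nu_finite hY hY1 (L := L) u
  rw [← lintegral_nu hY u hφ]
  conv_rhs => rw [← Measure.withDensity_rnDeriv_eq _ _ (nu_ac hL hY u)]
  rw [lintegral_withDensity_eq_lintegral_mul _ (Measure.measurable_rnDeriv _ _) hφ]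
  refine lintegral_congr fun e => ?_
  simp [HH, mul_comm]

lemma measurable_lapHX (x0 : Vert a n) : Measurable fun e : Sym2 (Vert a n) → ℝ =>
    ∑' y, ENNReal.ofReal (stepProb (gr a n) e y x0) * HX ρ L Y e y :=
  Measurable.tsum fun y =>
    ((measurable_stepProb _ neighborSet_finite y x0).ennreal_ofReal).mul (measurable_HX L Y y)

lemma HH_harm (hρ : ∀ᵐ r ∂ρ, 0 < r) (hL : IsWalkLaw (gr a n) (iid a n ρ) (base a n) L)
    (hY : Measurable Y) (hY1 : ∀ p, Y p ≤ 1) [IsFiniteMeasure (star (gr a n) L)]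
    (hYinv : ∀ᵐ p ∂(star (gr a n) L), Y (theta p) = Y p) (u : Cell a n) :
    ∀ᵐ e ∂(iid a n ρ), HH ρ L Y u e =
      ∑' y, ENNReal.ofReal (stepProb (gr a n) e y (1, u)) * HX ρ L Y e y := by
  have hfin : ∀ x : Vert a n, ((gr a n).neighborSet x).Finite := neighborSet_finite
  refine ae_eq_of_forall_setLIntegral_eq_of_sigmaFinite (measurable_HH L Y u)
    (measurable_lapHX _) fun A hA _ => ?_
  set S := star (gr a n) L with hS
  have hmA : Measurable (A.indicator (1 : (Sym2 (Vert a n) → ℝ) → ℝ≥0∞)) :=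
    measurable_one.indicator hA
  have hind : ∀ f : (Sym2 (Vert a n) → ℝ) → ℝ≥0∞, ∫⁻ e in A, f e ∂(iid a n ρ) =
      ∫⁻ e, A.indicator 1 e * f e ∂(iid a n ρ) := by
    intro f
    rw [← lintegral_indicator hA]
    refine lintegral_congr fun e => ?_
    by_cases he : e ∈ A <;> simp [he]
  rw [hind, hind, lintegral_HH hL hY hY1 u hmA, lintegral_split_coord _ 1]
  have e1 : ∀ x1 : Vert a n, ∫⁻ p in {p | p.2 1 = x1}, A.indicator 1 p.1 * Y p
      ∂(S.restrict {p | p.2 0 = ((1 : Gam a), u)}) =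
      ∫⁻ e, A.indicator 1 e *
        (ENNReal.ofReal (stepProb (gr a n) e x1 (1, u)) * HX ρ L Y e x1) ∂(iid a n ρ) := by
    intro x1
    rw [Measure.restrict_restrict (measurableSet_coord _ _)]
    have hset : {p : Can (Vert a n) | p.2 1 = x1} ∩ {p | p.2 0 = ((1 : Gam a), u)} =
        {p | p.2 0 = ((1 : Gam a), u) ∧ p.2 1 = x1} := by
      ext p
      simp only [Set.mem_inter_iff, Set.mem_ofPred_eq]
      exact and_comm
    rw [hset]
    have e2 : ∫⁻ p in {p | p.2 0 = ((1 : Gam a), u) ∧ p.2 1 = x1}, A.indicator 1 p.1 * Y p ∂S =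
        ∫⁻ p in {p | p.2 0 = ((1 : Gam a), u) ∧ p.2 1 = x1},
          A.indicator 1 p.1 * Y (theta p) ∂S := by
      refine lintegral_congr_ae (ae_restrict_of_ae ?_)
      filter_upwards [hYinv] with p hp
      rw [hp]
    rw [e2, lintegral_theta_phi hρ hL (1, u) x1 rfl hY hmA]
    have hm3 : Measurable fun e : Sym2 (Vert a n) → ℝ =>
        ENNReal.ofReal (stepProb (gr a n) e (1, x1.2) (mv x1.1⁻¹ (1, u))) *
          A.indicator 1 (sh x1.1⁻¹ e) :=
      ((measurable_stepProb _ hfin _ _).ennreal_ofReal).mul (hmA.comp (measurable_sh _))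
    have e3 : ∫⁻ q in {p | p.2 0 = ((1 : Gam a), x1.2)},
        ENNReal.ofReal (stepProb (gr a n) q.1 (1, x1.2) (mv x1.1⁻¹ (1, u))) *
          (A.indicator 1 (sh x1.1⁻¹ q.1) * Y q) ∂S =
        ∫⁻ q in {p | p.2 0 = ((1 : Gam a), x1.2)},
        (fun e => ENNReal.ofReal (stepProb (gr a n) e (1, x1.2) (mv x1.1⁻¹ (1, u))) *
          A.indicator 1 (sh x1.1⁻¹ e)) q.1 * Y q ∂S := by
      refine lintegral_congr fun q => ?_
      simp only [mul_assoc]
    have hm4 : Measurable fun e : Sym2 (Vert a n) → ℝ =>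
        (ENNReal.ofReal (stepProb (gr a n) e (1, x1.2) (mv x1.1⁻¹ (1, u))) *
          A.indicator 1 (sh x1.1⁻¹ e)) * HH ρ L Y x1.2 e := hm3.mul (measurable_HH L Y _)
    rw [e3, ← lintegral_HH hL hY hY1 x1.2 hm3]
    refine (lintegral_sh (ρ := ρ) x1.1 hm4).symm.trans ?_
    refine lintegral_congr fun e => ?_
    rw [sh_sh, mul_inv_cancel, sh_one, stepProb_sh]
    have h4 : mv x1.1 ((1 : Gam a), x1.2) = x1 := by simp [mv]
    rw [h4, mv_mv, mul_inv_cancel, mv_one]
    simp only [HX]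
    ring
  rw [tsum_congr e1, ← lintegral_tsum]
  · refine lintegral_congr fun e => ?_
    rw [ENNReal.tsum_mul_left]
  · intro y
    exact (hmA.mul (((measurable_stepProb _ hfin _ _).ennreal_ofReal).mul
      (measurable_HX L Y y))).aemeasurable

/-- An almost sure property of the environment at the cell of the identity holds at all cells. -/
lemma ae_all_cells {q : (Sym2 (Vert a n) → ℝ) → Cell a n → Prop}
    (h : ∀ u, ∀ᵐ e ∂(iid a n ρ), q e u) :
    ∀ᵐ e ∂(iid a n ρ), ∀ x : Vert a n, q (sh x.1 e) x.2 := by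
  rw [ae_all_iff]
  rintro ⟨g, u⟩
  exact (measurePreserving_sh (n := n) ρ g).quasiMeasurePreserving.ae (h u)

lemma HX_harm (hρ : ∀ᵐ r ∂ρ, 0 < r) (hL : IsWalkLaw (gr a n) (iid a n ρ) (base a n) L)
    (hY : Measurable Y) (hY1 : ∀ p, Y p ≤ 1) [IsFiniteMeasure (star (gr a n) L)]
    (hYinv : ∀ᵐ p ∂(star (gr a n) L), Y (theta p) = Y p) :
    ∀ᵐ e ∂(iid a n ρ), ∀ x, HX ρ L Y e x =
      ∑' y, ENNReal.ofReal (stepProb (gr a n) e y x) * HX ρ L Y e y := by
  filter_upwards [ae_all_cells fun u => HH_harm hρ hL hY hY1 hYinv u] with e he x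
  have h := he x
  have h1 : HX ρ L Y e x = HH ρ L Y x.2 (sh x.1 e) := rfl
  rw [h1, h, ← (mvE (n := n) x.1⁻¹).tsum_eq]
  refine tsum_congr fun y => ?_
  have h2 : (mvE (n := n) x.1⁻¹) y = mv x.1⁻¹ y := rfl
  rw [h2, inv_HX L Y x.1 e y, stepProb_sh, mv_mv, mul_inv_cancel, mv_one]
  have h3 : mv x.1 ((1 : Gam a), x.2) = x := by simp [mv]
  rw [h3]

lemma HX_le (hL : IsWalkLaw (gr a n) (iid a n ρ) (base a n) L)
    (hY : Measurable Y) (hY1 : ∀ p, Y p ≤ 1) [IsFiniteMeasure (star (gr a n) L)] :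
    ∀ᵐ e ∂(iid a n ρ), ∀ x, HX ρ L Y e x ≤
      (Fintype.card (Cell a n) : ℝ≥0∞)⁻¹ * ENNReal.ofReal (totalCond (gr a n) e x) := by
  have hfin : ∀ x : Vert a n, ((gr a n).neighborSet x).Finite := neighborSet_finite
  have key : ∀ u : Cell a n, ∀ᵐ e ∂(iid a n ρ), HH ρ L Y u e ≤
      (Fintype.card (Cell a n) : ℝ≥0∞)⁻¹ * ENNReal.ofReal (totalCond (gr a n) e (1, u)) := by
    intro u
    refine ae_le_of_forall_setLIntegral_le_of_sigmaFinite (measurable_HH L Y u) fun A hA _ => ?_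
    have hmA : Measurable (A.indicator (1 : (Sym2 (Vert a n) → ℝ) → ℝ≥0∞)) :=
      measurable_one.indicator hA
    have hind : ∀ f : (Sym2 (Vert a n) → ℝ) → ℝ≥0∞, ∫⁻ e in A, f e ∂(iid a n ρ) =
        ∫⁻ e, A.indicator 1 e * f e ∂(iid a n ρ) := by
      intro f
      rw [← lintegral_indicator hA]
      refine lintegral_congr fun e => ?_
      by_cases he : e ∈ A <;> simp [he]
    rw [hind, lintegral_HH hL hY hY1 u hmA]
    have h1 : ∫⁻ p in {p | p.2 0 = ((1 : Gam a), u)}, A.indicator 1 p.1 * Y p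
        ∂(star (gr a n) L) ≤ ∫⁻ p in {p | p.2 0 = ((1 : Gam a), u)}, A.indicator 1 p.1
        ∂(star (gr a n) L) := by
      refine lintegral_mono fun p => ?_
      exact (mul_le_mul' (le_refl (A.indicator (1 : (Sym2 (Vert a n) → ℝ) → ℝ≥0∞) p.1))
        (hY1 p)).trans (le_of_eq (mul_one _))
    refine h1.trans (le_of_eq ?_)
    have hset : {p : Can (Vert a n) | p.2 0 = ((1 : Gam a), u)} = cyl 0 (fun _ => (1, u)) := by
      ext p; simp [cyl]
    rw [hset, lintegral_star_cyl hfin hL 0 (fun _ => ((1 : Gam a), u)) hmA]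
    have hb : ((1 : Gam a), u) ∈ base a n := mem_base.2 rfl
    simp only [w0, hb, if_true, card_base, pw, Finset.range_zero, Finset.prod_empty, mul_one]
    rw [lintegral_const_mul _ ((measurable_totalCond _ hfin _).ennreal_ofReal), ← hind]
  filter_upwards [ae_all_cells key] with e he x
  have h := he x
  rw [totalCond_sh] at h
  have h3 : mv x.1 ((1 : Gam a), x.2) = x := by simp [mv]
  rw [h3] at h
  exact h

variable (ρ L Y) in
/-- Normalised density. -/
noncomputable def hE (e : Sym2 (Vert a n) → ℝ) (x : Vert a n) : ℝ≥0∞ :=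
  HX ρ L Y e x /
    ((Fintype.card (Cell a n) : ℝ≥0∞)⁻¹ * ENNReal.ofReal (totalCond (gr a n) e x))

lemma inv_hE : Inv (hE ρ L Y) := by
  intro g c x
  simp only [hE, inv_HX L Y g c x, totalCond_sh, mv_mv, mul_inv_cancel, mv_one]

lemma measurable_hE (x : Vert a n) : Measurable fun e => hE ρ L Y e x :=
  (measurable_HX L Y x).div (measurable_const.mul
    (measurable_totalCond _ neighborSet_finite x).ennreal_ofReal)

variable (ρ L Y) in
/-- Real version. -/
noncomputable def hR (e : Sym2 (Vert a n) → ℝ) (x : Vert a n) : ℝ := (hE ρ L Y e x).toReal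

lemma inv_hR : Inv (hR ρ L Y) := by
  intro g c x
  simp only [hR, inv_hE (ρ := ρ) (L := L) (Y := Y) g c x]

lemma measurable_hR (x : Vert a n) : Measurable fun e => hR ρ L Y e x :=
  (measurable_hE x).ennreal_toReal

lemma hE_spec (hρ : ∀ᵐ r ∂ρ, 0 < r) (hL : IsWalkLaw (gr a n) (iid a n ρ) (base a n) L)
    (hY : Measurable Y) (hY1 : ∀ p, Y p ≤ 1) [IsFiniteMeasure (star (gr a n) L)]
    (hYinv : ∀ᵐ p ∂(star (gr a n) L), Y (theta p) = Y p) :
    ∀ᵐ e ∂(iid a n ρ), Pos e ∧ (∀ x, hE ρ L Y e x ≤ 1) ∧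
      (∀ x, ∑' y, ENNReal.ofReal (stepProb (gr a n) e x y) * hE ρ L Y e y = hE ρ L Y e x) ∧
      (∀ x, HX ρ L Y e x = (Fintype.card (Cell a n) : ℝ≥0∞)⁻¹ *
        ENNReal.ofReal (totalCond (gr a n) e x) * hE ρ L Y e x) := by
  filter_upwards [ae_pos (V := Vert a n) ρ hρ, HX_le hL hY hY1,
    HX_harm hρ hL hY hY1 hYinv] with e he h1 h2
  have hpos : ∀ x, 0 < totalCond (gr a n) e x :=
    fun x => totalCond_pos neighborSet_finite neighborSet_nonempty he x
  have hc0 : (Fintype.card (Cell a n) : ℝ≥0∞)⁻¹ ≠ 0 :=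
    ENNReal.inv_ne_zero.2 (ENNReal.natCast_ne_top _)
  have hc1 : (Fintype.card (Cell a n) : ℝ≥0∞)⁻¹ ≠ ∞ := by
    simp [Fintype.card_ne_zero]
  have hw0 : ∀ x, (Fintype.card (Cell a n) : ℝ≥0∞)⁻¹ *
      ENNReal.ofReal (totalCond (gr a n) e x) ≠ 0 := fun x =>
    mul_ne_zero hc0 (ENNReal.ofReal_pos.2 (hpos x)).ne'
  have hw1 : ∀ x, (Fintype.card (Cell a n) : ℝ≥0∞)⁻¹ *
      ENNReal.ofReal (totalCond (gr a n) e x) ≠ ∞ := fun x =>
    ENNReal.mul_ne_top hc1 ENNReal.ofReal_ne_top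
  have hX : ∀ x, HX ρ L Y e x = (Fintype.card (Cell a n) : ℝ≥0∞)⁻¹ *
        ENNReal.ofReal (totalCond (gr a n) e x) * hE ρ L Y e x := by
    intro x
    unfold hE
    rw [ENNReal.mul_div_cancel (hw0 x) (hw1 x)]
  refine ⟨he, fun x => ?_, fun x => ?_, hX⟩
  · exact ENNReal.div_le_of_le_mul (by rw [one_mul]; exact h1 x)
  · have h3 := h2 x
    rw [hX x] at h3
    have h4 : ∑' y, ENNReal.ofReal (stepProb (gr a n) e y x) * HX ρ L Y e y =
        (Fintype.card (Cell a n) : ℝ≥0∞)⁻¹ * ENNReal.ofReal (totalCond (gr a n) e x) *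
        ∑' y, ENNReal.ofReal (stepProb (gr a n) e x y) * hE ρ L Y e y := by
      rw [← ENNReal.tsum_mul_left]
      refine tsum_congr fun y => ?_
      rw [hX y]
      have h5 : ENNReal.ofReal (totalCond (gr a n) e y) * ENNReal.ofReal (stepProb (gr a n) e y x)
          = ENNReal.ofReal (totalCond (gr a n) e x) *
            ENNReal.ofReal (stepProb (gr a n) e x y) := by
        rw [← ENNReal.ofReal_mul (hpos y).le, ← ENNReal.ofReal_mul (hpos x).le,
          reversible neighborSet_finite neighborSet_nonempty he]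
      calc _ = (Fintype.card (Cell a n) : ℝ≥0∞)⁻¹ * (ENNReal.ofReal (totalCond (gr a n) e y) *
            ENNReal.ofReal (stepProb (gr a n) e y x)) * hE ρ L Y e y := by ring
        _ = _ := by rw [h5]; ring
    rw [h4] at h3
    exact ((ENNReal.mul_right_inj (hw0 x) (hw1 x)).1 h3).symm

omit [NeZero a] [NeZero n] in
lemma lap_eq_sum (e : Sym2 (Vert a n) → ℝ) (F : Vert a n → ℝ) (x : Vert a n) :
    Lap e F x = ∑ y ∈ (neighborSet_finite x).toFinset, e s(x, y) * (F y - F x) := by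
  unfold Lap
  rw [finsum_mem_eq_finite_toFinset_sum _ (neighborSet_finite x)]

lemma step_nonneg {e : Sym2 (Vert a n) → ℝ} (he : Pos e) {F : Vert a n → ℝ} (hF : ∀ x, 0 ≤ F x)
    (x : Vert a n) : 0 ≤ F x + Lap e F x / totalCond (gr a n) e x := by
  have hp := totalCond_pos neighborSet_finite neighborSet_nonempty he x
  have h2 : totalCond (gr a n) e x = ∑ y ∈ (neighborSet_finite x).toFinset, e s(x, y) := by
    unfold totalCond
    rw [finsum_mem_eq_finite_toFinset_sum _ (neighborSet_finite x)]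
  have h1 : F x + Lap e F x / totalCond (gr a n) e x =
      (∑ y ∈ (neighborSet_finite x).toFinset, e s(x, y) * F y) / totalCond (gr a n) e x := by
    rw [eq_div_iff hp.ne', add_mul, div_mul_cancel₀ _ hp.ne', lap_eq_sum]
    conv_lhs => rw [h2]
    rw [Finset.mul_sum, ← Finset.sum_add_distrib]
    refine Finset.sum_congr rfl fun y _ => by ring
  rw [h1]
  exact div_nonneg (Finset.sum_nonneg fun y _ => mul_nonneg (he _).le (hF y)) hp.le

variable (ρ L Y) in
/-- Local energy. -/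
noncomputable def QE (e : Sym2 (Vert a n) → ℝ) (x : Vert a n) : ℝ≥0∞ :=
  ∑' y, ENNReal.ofReal (stepProb (gr a n) e x y) *
    ENNReal.ofReal ((hR ρ L Y e y - hR ρ L Y e x) ^ 2)

lemma inv_QE : Inv (QE ρ L Y) := by
  intro g c x
  unfold QE
  rw [← (mvE (n := n) g⁻¹).tsum_eq]
  refine tsum_congr fun y => ?_
  have h2 : (mvE (n := n) g⁻¹) y = mv g⁻¹ y := rfl
  rw [h2, inv_hR (ρ := ρ) (L := L) (Y := Y) g c y, inv_hR (ρ := ρ) (L := L) (Y := Y) g c x,
    stepProb_sh, mv_mv, mul_inv_cancel, mv_one, mv_mv, mul_inv_cancel, mv_one]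

lemma measurable_QE (x : Vert a n) : Measurable fun e => QE ρ L Y e x :=
  Measurable.tsum fun y =>
    ((measurable_stepProb _ neighborSet_finite x y).ennreal_ofReal).mul
      (((measurable_hR y).sub (measurable_hR x)).pow_const 2).ennreal_ofReal

lemma QE_add (hρ : ∀ᵐ r ∂ρ, 0 < r) (hL : IsWalkLaw (gr a n) (iid a n ρ) (base a n) L)
    (hY : Measurable Y) (hY1 : ∀ p, Y p ≤ 1) [IsFiniteMeasure (star (gr a n) L)]
    (hYinv : ∀ᵐ p ∂(star (gr a n) L), Y (theta p) = Y p) :
    ∀ᵐ e ∂(iid a n ρ), ∀ x, QE ρ L Y e x + ENNReal.ofReal (hR ρ L Y e x ^ 2) =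
      ∑' y, ENNReal.ofReal (stepProb (gr a n) e x y) * ENNReal.ofReal (hR ρ L Y e y ^ 2) := by
  filter_upwards [hE_spec hρ hL hY hY1 hYinv] with e he x
  obtain ⟨hpos, hle, hharm, -⟩ := he
  have hp := totalCond_pos neighborSet_finite neighborSet_nonempty hpos x
  have hR0 : ∀ y, 0 ≤ hR ρ L Y e y := fun y => ENNReal.toReal_nonneg
  have hRE : ∀ y, ENNReal.ofReal (hR ρ L Y e y) = hE ρ L Y e y := fun y =>
    ENNReal.ofReal_toReal ((hle y).trans_lt ENNReal.one_lt_top).ne
  -- the Laplacian vanishes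
  have h1 : Lap e (hR ρ L Y e) x = 0 := by
    have h2 := tsum_step hpos hR0 x
    simp only [hRE] at h2
    rw [hharm x, ← hRE x] at h2
    have h3 := (ENNReal.ofReal_eq_ofReal_iff (hR0 x) (step_nonneg hpos hR0 x)).1 h2
    have h4 : Lap e (hR ρ L Y e) x / totalCond (gr a n) e x = 0 := by linarith
    rcases div_eq_zero_iff.1 h4 with h | h
    · exact h
    · exact absurd h hp.ne'
  unfold QE
  have hsq : ∀ y, 0 ≤ (hR ρ L Y e y - hR ρ L Y e x) ^ 2 := fun y => sq_nonneg _
  have hsq' : ∀ y, 0 ≤ hR ρ L Y e y ^ 2 := fun y => sq_nonneg _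
  rw [tsum_step hpos (F := fun y => (hR ρ L Y e y - hR ρ L Y e x) ^ 2) hsq x,
    tsum_step hpos (F := fun y => hR ρ L Y e y ^ 2) hsq' x,
    ← ENNReal.ofReal_add (step_nonneg hpos hsq x) (hsq' x)]
  congr 1
  have h2 : Lap e (fun y => (hR ρ L Y e y - hR ρ L Y e x) ^ 2) x =
      Lap e (fun y => hR ρ L Y e y ^ 2) x - 2 * hR ρ L Y e x * Lap e (hR ρ L Y e) x := by
    rw [lap_eq_sum, lap_eq_sum, lap_eq_sum, Finset.mul_sum, ← Finset.sum_sub_distrib]
    refine Finset.sum_congr rfl fun y _ => by ring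
  rw [h2, h1]
  ring

lemma QE_zero (hρ : ∀ᵐ r ∂ρ, 0 < r) (hL : IsWalkLaw (gr a n) (iid a n ρ) (base a n) L)
    (hY : Measurable Y) (hY1 : ∀ p, Y p ≤ 1) [IsFiniteMeasure (star (gr a n) L)]
    (hYinv : ∀ᵐ p ∂(star (gr a n) L), Y (theta p) = Y p) :
    ∀ᵐ e ∂(iid a n ρ), ∀ x, QE ρ L Y e x = 0 := by
  have hfin : ∀ x : Vert a n, ((gr a n).neighborSet x).Finite := neighborSet_finite
  have hspec := hE_spec hρ hL hY hY1 hYinv
  have hm : ∀ x, Measurable fun e => ENNReal.ofReal (hR ρ L Y e x ^ 2) := fun x =>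
    ((measurable_hR x).pow_const 2).ennreal_ofReal
  have hI : Inv fun (e : Sym2 (Vert a n) → ℝ) x => ENNReal.ofReal (hR ρ L Y e x ^ 2) := by
    intro g c x
    simp only [inv_hR (ρ := ρ) (L := L) (Y := Y) g c x]
  have h1 : ∫⁻ p, ENNReal.ofReal (hR ρ L Y p.1 (p.2 1) ^ 2) ∂(star (gr a n) L) =
      ∫⁻ p, (QE ρ L Y p.1 (p.2 0) + ENNReal.ofReal (hR ρ L Y p.1 (p.2 0) ^ 2))
        ∂(star (gr a n) L) := by
    rw [lintegral_succ hfin hL (fun e x => ENNReal.ofReal (hR ρ L Y e x ^ 2)) hm 0]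
    refine lintegral_congr_ae ?_
    filter_upwards [ae_star hfin hL (QE_add hρ hL hY hY1 hYinv)] with p hp
    exact (hp (p.2 0)).symm
  rw [lintegral_inv hρ hL hI hm 1, lintegral_add_left (measurable_coord measurable_QE 0)] at h1
  have hfinite : ∫⁻ p, ENNReal.ofReal (hR ρ L Y p.1 (p.2 0) ^ 2) ∂(star (gr a n) L) ≠ ∞ := by
    have : ∫⁻ p, ENNReal.ofReal (hR ρ L Y p.1 (p.2 0) ^ 2) ∂(star (gr a n) L) ≤
        ∫⁻ _, 1 ∂(star (gr a n) L) := by
      refine lintegral_mono_ae ?_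
      filter_upwards [ae_star hfin hL hspec] with p hp
      rw [← ENNReal.ofReal_one]
      refine ENNReal.ofReal_le_ofReal ?_
      have h2 : hR ρ L Y p.1 (p.2 0) ≤ 1 := by
        have := ENNReal.toReal_mono ENNReal.one_ne_top (hp.2.1 (p.2 0))
        rw [ENNReal.toReal_one] at this
        exact this
      have h3 : 0 ≤ hR ρ L Y p.1 (p.2 0) := ENNReal.toReal_nonneg
      nlinarith
    refine ne_top_of_le_ne_top ?_ this
    simp
  have h2 : ∫⁻ p, QE ρ L Y p.1 (p.2 0) ∂(star (gr a n) L) = 0 := by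
    have h3 : 0 + ∫⁻ p, ENNReal.ofReal (hR ρ L Y p.1 (p.2 0) ^ 2) ∂(star (gr a n) L) =
        ∫⁻ p, QE ρ L Y p.1 (p.2 0) ∂(star (gr a n) L) +
        ∫⁻ p, ENNReal.ofReal (hR ρ L Y p.1 (p.2 0) ^ 2) ∂(star (gr a n) L) := by
      rw [zero_add]; exact h1
    exact ((ENNReal.add_left_inj hfinite).1 h3).symm
  rw [lintegral_star_coord_zero hfin hL measurable_QE] at h2
  have h3 : ∀ u : Cell a n, ∀ᵐ e ∂(iid a n ρ), QE ρ L Y e (1, u) = 0 := by
    intro u
    have h4 := (Finset.sum_eq_zero_iff.1 h2) (1, u) (mem_base.2 rfl)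
    have hc0 : ((base a n).card : ℝ≥0∞)⁻¹ ≠ 0 :=
      ENNReal.inv_ne_zero.2 (ENNReal.natCast_ne_top _)
    have h5 := (mul_eq_zero.1 h4).resolve_left hc0
    have hm5 : Measurable fun e : Sym2 (Vert a n) → ℝ => QE ρ L Y e (1, u) *
        ENNReal.ofReal (totalCond (gr a n) e (1, u)) :=
      (measurable_QE _).mul (measurable_totalCond _ hfin _).ennreal_ofReal
    filter_upwards [(lintegral_eq_zero_iff hm5).1 h5, ae_pos (V := Vert a n) ρ hρ] with e he hpos
    have hp := totalCond_pos hfin neighborSet_nonempty hpos ((1 : Gam a), u)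
    exact (mul_eq_zero.1 he).resolve_right (ENNReal.ofReal_pos.2 hp).ne'
  filter_upwards [ae_all_cells h3] with e he x
  have h := he x
  have h6 : ((1 : Gam a), x.2) = mv x.1⁻¹ x := by simp [mv]
  rw [h6, inv_QE x.1 e x] at h
  exact h

lemma eq_of_QE_zero {e : Sym2 (Vert a n) → ℝ} (he : Pos e) {x y : Vert a n}
    (hQ : QE ρ L Y e x = 0) (hxy : (gr a n).Adj x y) : hR ρ L Y e y = hR ρ L Y e x := by
  unfold QE at hQ
  rw [ENNReal.tsum_eq_zero] at hQ
  have h := hQ y
  have hp := totalCond_pos neighborSet_finite neighborSet_nonempty he x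
  have h1 : ENNReal.ofReal (stepProb (gr a n) e x y) ≠ 0 := by
    refine (ENNReal.ofReal_pos.2 ?_).ne'
    simp only [stepProb, hxy, if_true]
    exact div_pos (he _) hp
  have h2 := (mul_eq_zero.1 h).resolve_left h1
  rw [ENNReal.ofReal_eq_zero] at h2
  have h3 : (hR ρ L Y e y - hR ρ L Y e x) ^ 2 = 0 := le_antisymm h2 (sq_nonneg _)
  have h4 := pow_eq_zero_iff (two_ne_zero) |>.1 h3
  linarith

/-- The density is a constant multiple of the total conductance. -/
lemma HH_const (hρ : ∀ᵐ r ∂ρ, 0 < r) (hL : IsWalkLaw (gr a n) (iid a n ρ) (base a n) L)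
    (hY : Measurable Y) (hY1 : ∀ p, Y p ≤ 1) [IsFiniteMeasure (star (gr a n) L)]
    (hYinv : ∀ᵐ p ∂(star (gr a n) L), Y (theta p) = Y p) :
    ∃ k : ℝ, 0 ≤ k ∧ ∀ᵐ e ∂(iid a n ρ), ∀ u : Cell a n, HH ρ L Y u e =
      ENNReal.ofReal k * ((Fintype.card (Cell a n) : ℝ≥0∞)⁻¹ *
        ENNReal.ofReal (totalCond (gr a n) e (1, u))) := by
  have hspec := hE_spec hρ hL hY hY1 hYinv
  have hQ := QE_zero hρ hL hY hY1 hYinv
  set o : Vert a n := (1, Cell.center true) with ho
  have hcst : ∀ᵐ e ∂(iid a n ρ), ∀ x, hR ρ L Y e x = hR ρ L Y e o := by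
    filter_upwards [hspec, hQ] with e he hq x
    have hreach : (gr a n).Reachable x o := gr_connected.preconnected x o
    obtain ⟨w⟩ := hreach
    have hw : ∀ (x y : Vert a n), (gr a n).Walk x y → hR ρ L Y e x = hR ρ L Y e y := by
      intro x y w
      induction w with
      | nil => rfl
      | cons h w ih => rw [← ih]; exact (eq_of_QE_zero he.1 (hq _) h).symm
    exact hw _ _ w
  obtain ⟨k, hk⟩ := invariant_fun (ρ := ρ) (κ := fun e => hR ρ L Y e o) (measurable_hR o) (by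
    intro g
    filter_upwards [hcst] with e he
    have h1 := inv_hR (ρ := ρ) (L := L) (Y := Y) g e (mv g o)
    have h2 : mv g⁻¹ (mv g o) = o := by simp
    rw [h2] at h1
    rw [h1, he (mv g o)])
  refine ⟨k, ?_, ?_⟩
  · obtain ⟨e, he⟩ := hk.exists
    rw [← he]
    exact ENNReal.toReal_nonneg
  · filter_upwards [hspec, hcst, hk] with e he h1 h2 u
    obtain ⟨hpos, hle, -, hX⟩ := he
    have h3 := hX (1, u)
    rw [HX_base] at h3
    have h4 : hE ρ L Y e (1, u) = ENNReal.ofReal k := by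
      rw [← h2, ← h1 (1, u)]
      exact (ENNReal.ofReal_toReal ((hle _).trans_lt ENNReal.one_lt_top).ne).symm
    rw [h3, h4, mul_comm]

/-- Integrals over cylinders of an invariant function. -/
lemma cyl_const (hρ : ∀ᵐ r ∂ρ, 0 < r) (hL : IsWalkLaw (gr a n) (iid a n ρ) (base a n) L)
    (hY : Measurable Y) (hY1 : ∀ p, Y p ≤ 1) [IsFiniteMeasure (star (gr a n) L)]
    (hYinv : ∀ᵐ p ∂(star (gr a n) L), Y (theta p) = Y p) {k : ℝ}
    (hk : ∀ᵐ e ∂(iid a n ρ), ∀ u : Cell a n, HH ρ L Y u e =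
      ENNReal.ofReal k * ((Fintype.card (Cell a n) : ℝ≥0∞)⁻¹ *
        ENNReal.ofReal (totalCond (gr a n) e (1, u)))) (m : ℕ) :
    ∀ (y : ℕ → Vert a n) (φ : (Sym2 (Vert a n) → ℝ) → ℝ≥0∞), Measurable φ →
      ∫⁻ p in cyl m y, φ p.1 * Y p ∂(star (gr a n) L) =
        ENNReal.ofReal k * ∫⁻ p in cyl m y, φ p.1 ∂(star (gr a n) L) := by
  have hfin : ∀ x : Vert a n, ((gr a n).neighborSet x).Finite := neighborSet_finite
  have hnull : ∀ (m : ℕ) (y : ℕ → Vert a n), (y 0).1 ≠ 1 →
      star (gr a n) L (cyl m y) = 0 := fun m y hy =>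
    measure_mono_null (fun p hp => hp 0 (Nat.zero_le _)) (star_not_base hL hy)
  induction m with
  | zero =>
    intro y φ hφ
    by_cases hy : (y 0).1 = 1
    · have hset : cyl 0 y = {p : Can (Vert a n) | p.2 0 = (1, (y 0).2)} := by
        ext p
        have : y 0 = (1, (y 0).2) := Prod.ext hy rfl
        simp only [cyl, Nat.le_zero, Set.mem_ofPred_eq, forall_eq]
        rw [← this]
      rw [hset, ← lintegral_HH hL hY hY1 (y 0).2 hφ]
      have h1 : ∫⁻ e, φ e * HH ρ L Y (y 0).2 e ∂(iid a n ρ) =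
          ∫⁻ e, ENNReal.ofReal k * (φ e * ((Fintype.card (Cell a n) : ℝ≥0∞)⁻¹ *
        ENNReal.ofReal (totalCond (gr a n) e (1, (y 0).2)))) ∂(iid a n ρ) := by
        refine lintegral_congr_ae ?_
        filter_upwards [hk] with e he
        rw [he (y 0).2]
        ring
      rw [h1, lintegral_const_mul' _ _ ENNReal.ofReal_ne_top]
      congr 1
      have hset2 : {p : Can (Vert a n) | p.2 0 = ((1 : Gam a), (y 0).2)} =
          cyl 0 (fun _ => (1, (y 0).2)) := by
        ext p; simp [cyl]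
      rw [hset2, lintegral_star_cyl hfin hL 0 (fun _ => ((1 : Gam a), (y 0).2)) hφ]
      have hb : ((1 : Gam a), (y 0).2) ∈ base a n := mem_base.2 rfl
      simp only [w0, hb, if_true, card_base, pw, Finset.range_zero, Finset.prod_empty, mul_one]
      rw [← lintegral_const_mul' _ _ (by simp [Fintype.card_ne_zero])]
      refine lintegral_congr fun e => ?_
      ring
    · rw [Measure.restrict_eq_zero.2 (hnull 0 y hy)]
      simp
  | succ m ih =>
    intro y φ hφ
    by_cases hy : (y 0).1 = 1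
    · set g := (y 1).1 with hg
      set z : ℕ → Vert a n := fun i => mv g⁻¹ (y (i + 1)) with hz
      have hz0 : z 0 = (1, (y 1).2) := by simp [hz, hg, mv]
      have hcyl : cyl (m + 1) y = {p : Can (Vert a n) | p.2 0 = y 0 ∧ p.2 1 = y 1} ∩
          theta ⁻¹' (cyl m z) := by
        ext p
        simp only [cyl, theta, Set.mem_inter_iff, Set.mem_ofPred_eq, Set.mem_preimage]
        constructor
        · intro h
          have h1 : p.2 1 = y 1 := h 1 (by omega)
          refine ⟨⟨h 0 (by omega), h1⟩, fun i hi => ?_⟩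
          rw [h1, h (i + 1) (by omega)]
        · rintro ⟨⟨h0, h1⟩, h2⟩ i hi
          cases i with
          | zero => exact h0
          | succ i =>
            have := h2 i (by omega)
            rw [h1] at this
            exact mv_injective g⁻¹ this
      -- reduction for a general function
      have red : ∀ Z : Can (Vert a n) → ℝ≥0∞, Measurable Z →
          (∀ᵐ p ∂(star (gr a n) L), Z (theta p) = Z p) →
          ∫⁻ p in cyl (m + 1) y, φ p.1 * Z p ∂(star (gr a n) L) =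
          ∫⁻ q in cyl m z, (ENNReal.ofReal (stepProb (gr a n) q.1 (1, (y 1).2)
            (mv g⁻¹ (y 0))) * φ (sh g⁻¹ q.1)) * Z q ∂(star (gr a n) L) := by
        intro Z hZ hZinv
        have hcm : MeasurableSet (cyl m z) := measurableSet_cyl m z
        have hS2 : MeasurableSet {p : Can (Vert a n) | p.2 0 = y 0 ∧ p.2 1 = y 1} :=
          (measurableSet_coord 0 (y 0)).inter (measurableSet_coord 1 (y 1))
        have e1 : ∫⁻ p in cyl (m + 1) y, φ p.1 * Z p ∂(star (gr a n) L) =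
            ∫⁻ p in {p : Can (Vert a n) | p.2 0 = y 0 ∧ p.2 1 = y 1},
              φ p.1 * ((cyl m z).indicator Z) (theta p) ∂(star (gr a n) L) := by
          rw [hcyl, Set.inter_comm, ← Measure.restrict_restrict (measurable_theta hcm),
            ← lintegral_indicator (measurable_theta hcm)]
          refine lintegral_congr_ae (ae_restrict_of_ae ?_)
          filter_upwards [hZinv] with p hp
          by_cases h : theta p ∈ cyl m z
          · have h' : p ∈ theta ⁻¹' (cyl m z) := h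
            rw [Set.indicator_of_mem h', Set.indicator_of_mem h, hp]
          · have h' : p ∉ theta ⁻¹' (cyl m z) := h
            rw [Set.indicator_of_notMem h', Set.indicator_of_notMem h, mul_zero]
        rw [e1, lintegral_theta_phi hρ hL (y 0) (y 1) hy (hZ.indicator hcm) hφ]
        have e2 : ∀ q : Can (Vert a n), ENNReal.ofReal (stepProb (gr a n) q.1 (1, (y 1).2)
            (mv (y 1).1⁻¹ (y 0))) * (φ (sh (y 1).1⁻¹ q.1) * (cyl m z).indicator Z q) =
            (cyl m z).indicator (fun q => (ENNReal.ofReal (stepProb (gr a n) q.1 (1, (y 1).2)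
            (mv g⁻¹ (y 0))) * φ (sh g⁻¹ q.1)) * Z q) q := by
          intro q
          by_cases h : q ∈ cyl m z
          · rw [Set.indicator_of_mem h, Set.indicator_of_mem h, ← mul_assoc]
          · rw [Set.indicator_of_notMem h, Set.indicator_of_notMem h, mul_zero, mul_zero]
        simp only [e2]
        rw [lintegral_indicator hcm, Measure.restrict_restrict hcm]
        congr 2
        apply Set.inter_eq_left.2
        intro p hp
        rw [Set.mem_ofPred_eq, hp 0 (Nat.zero_le _), hz0]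
      have r1 := red Y hY hYinv
      have r2 := red (fun _ => 1) measurable_const (ae_of_all _ fun _ => rfl)
      simp only [mul_one] at r2
      have hmφ : Measurable fun e : Sym2 (Vert a n) → ℝ => ENNReal.ofReal
          (stepProb (gr a n) e (1, (y 1).2) (mv g⁻¹ (y 0))) * φ (sh g⁻¹ e) :=
        ((measurable_stepProb _ hfin _ _).ennreal_ofReal).mul (hφ.comp (measurable_sh _))
      rw [r1, r2]
      exact ih z (fun e => ENNReal.ofReal
          (stepProb (gr a n) e (1, (y 1).2) (mv g⁻¹ (y 0))) * φ (sh g⁻¹ e)) hmφ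
    · rw [Measure.restrict_eq_zero.2 (hnull (m + 1) y hy)]
      simp

/-- Invariant functions are constant. -/
theorem invariant_const (hρ : ∀ᵐ r ∂ρ, 0 < r)
    (hL : IsWalkLaw (gr a n) (iid a n ρ) (base a n) L)
    (hY : Measurable Y) (hY1 : ∀ p, Y p ≤ 1) [IsFiniteMeasure (star (gr a n) L)]
    (hYinv : ∀ᵐ p ∂(star (gr a n) L), Y (theta p) = Y p) :
    ∃ k : ℝ, 0 ≤ k ∧ ∀ᵐ p ∂(star (gr a n) L), Y p = ENNReal.ofReal k := by
  obtain ⟨k, hk0, hk⟩ := HH_const hρ hL hY hY1 hYinv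
  refine ⟨k, hk0, ?_⟩
  have hwd : IsFiniteMeasure ((star (gr a n) L).withDensity Y) := by
    refine ⟨?_⟩
    rw [withDensity_apply _ MeasurableSet.univ, Measure.restrict_univ]
    calc _ ≤ ∫⁻ _, 1 ∂(star (gr a n) L) := lintegral_mono fun p => hY1 p
      _ < ∞ := by simp [measure_lt_top]
  have h : (star (gr a n) L).withDensity Y =
      (star (gr a n) L).withDensity (fun _ => ENNReal.ofReal k) := by
    refine ext_cyl fun A hA m y => ?_
    have hA' : MeasurableSet {p : Can (Vert a n) | p.1 ∈ A} := measurable_fst hA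
    have hS : MeasurableSet ({p : Can (Vert a n) | p.1 ∈ A} ∩ cyl m y) :=
      hA'.inter (measurableSet_cyl m y)
    have h1 := cyl_const hρ hL hY hY1 hYinv hk m y (A.indicator 1)
      (measurable_one.indicator hA)
    rw [withDensity_apply _ hS, withDensity_apply _ hS]
    have e1 : ∀ Z : Can (Vert a n) → ℝ≥0∞,
        ∫⁻ p in {p : Can (Vert a n) | p.1 ∈ A} ∩ cyl m y, Z p ∂(star (gr a n) L) =
        ∫⁻ p in cyl m y, A.indicator 1 p.1 * Z p ∂(star (gr a n) L) := by
      intro Z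
      rw [← Measure.restrict_restrict hA', ← lintegral_indicator hA']
      refine lintegral_congr fun p => ?_
      by_cases hp : p.1 ∈ A
      · have hp' : p ∈ {p : Can (Vert a n) | p.1 ∈ A} := hp
        rw [Set.indicator_of_mem hp', Set.indicator_of_mem hp, Pi.one_apply, one_mul]
      · have hp' : p ∉ {p : Can (Vert a n) | p.1 ∈ A} := hp
        rw [Set.indicator_of_notMem hp', Set.indicator_of_notMem hp, zero_mul]
    rw [e1, e1, h1, mul_comm, ← lintegral_mul_const]
    exact (measurable_one.indicator hA).comp measurable_fst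
  have h2 := (withDensity_eq_iff hY.aemeasurable aemeasurable_const (by
    refine ne_top_of_le_ne_top ?_ (lintegral_mono fun p => hY1 p)
    simp)).1 h
  exact h2

end density

end Pool.Agent.H42
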