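import Pool.Agent.H42.Station

/-!
Construction of the walk among random conductances.
-/

open MeasureTheory ProbabilityTheory
open scoped BigOperators ENNReal

namespace Pool.Agent.H42.Exist

set_option linter.unusedSectionVars false

variable {V : Type} [Encodable V]
variable {G : SimpleGraph V}

/-- Nonnegative version of the step probability. -/
noncomputable def sp (G : SimpleGraph V) (e : Sym2 V → ℝ) (x y : V) : ℝ :=
  max (stepProb G e x y) 0

lemma sp_nonneg (e : Sym2 V → ℝ) (x y : V) : 0 ≤ sp G e x y := le_max_right _ _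

open Classical in
/-- Cumulative step probabilities. -/
noncomputable def cm (G : SimpleGraph V) (hfin : ∀ x, (G.neighborSet x).Finite)
    (e : Sym2 V → ℝ) (x y : V) : ℝ :=
  ∑ z ∈ (hfin x).toFinset.filter (fun z => Encodable.encode z < Encodable.encode y), sp G e x z

variable (hfin : ∀ x, (G.neighborSet x).Finite)

/-- The interval assigned to the step from `x` to `y`. -/
def Iv (G : SimpleGraph V) (hfin : ∀ x, (G.neighborSet x).Finite)
    (e : Sym2 V → ℝ) (x y : V) : Set ℝ :=
  {r | G.Adj x y ∧ cm G hfin e x y ≤ r ∧ r < cm G hfin e x y + sp G e x y}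

lemma cm_nonneg (e : Sym2 V → ℝ) (x y : V) : 0 ≤ cm G hfin e x y :=
  Finset.sum_nonneg fun _ _ => sp_nonneg _ _ _

lemma cm_add_le {e : Sym2 V → ℝ} {x y y' : V} (hy : G.Adj x y)
    (h : Encodable.encode y < Encodable.encode y') :
    cm G hfin e x y + sp G e x y ≤ cm G hfin e x y' := by
  classical
  unfold cm
  rw [add_comm, ← Finset.sum_insert (s := (hfin x).toFinset.filter
    (fun z => Encodable.encode z < Encodable.encode y)) (a := y) (by simp)]
  refine Finset.sum_le_sum_of_subset_of_nonneg ?_ fun _ _ _ => sp_nonneg _ _ _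
  intro z hz
  simp only [Finset.mem_insert, Finset.mem_filter, Set.Finite.mem_toFinset,
    SimpleGraph.mem_neighborSet] at hz ⊢
  rcases hz with rfl | hz
  · exact ⟨hy, h⟩
  · exact ⟨hz.1, hz.2.trans h⟩

lemma Iv_unique {e : Sym2 V → ℝ} {x y y' : V} {r : ℝ} (h : r ∈ Iv G hfin e x y)
    (h' : r ∈ Iv G hfin e x y') : y = y' := by
  rcases lt_trichotomy (Encodable.encode y) (Encodable.encode y') with hlt | heq | hgt
  · have := cm_add_le hfin (e := e) h.1 hlt
    exact absurd h'.2.1 (by linarith [h.2.2])
  · exact Encodable.encode_injective heq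
  · have := cm_add_le hfin (e := e) h'.1 hgt
    exact absurd h.2.1 (by linarith [h'.2.2])

open Classical in
/-- The step function. -/
noncomputable def stp (G : SimpleGraph V) (hfin : ∀ x, (G.neighborSet x).Finite)
    (e : Sym2 V → ℝ) (x : V) (r : ℝ) : V :=
  if h : ∃ y, r ∈ Iv G hfin e x y then h.choose else x

lemma stp_eq {e : Sym2 V → ℝ} {x y : V} {r : ℝ} (hy : G.Adj x y) :
    stp G hfin e x r = y ↔ r ∈ Iv G hfin e x y := by
  unfold stp
  constructor
  · intro h
    split_ifs at h with h1
    · rw [← h]; exact h1.choose_spec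
    · subst h; exact absurd hy (G.loopless.irrefl _)
  · intro h
    have h1 : ∃ y, r ∈ Iv G hfin e x y := ⟨y, h⟩
    rw [dif_pos h1]
    exact Iv_unique hfin h1.choose_spec h

lemma stp_cases (e : Sym2 V → ℝ) (x : V) (r : ℝ) :
    G.Adj x (stp G hfin e x r) ∨ stp G hfin e x r = x := by
  unfold stp
  split_ifs with h1
  · exact Or.inl h1.choose_spec.1
  · exact Or.inr rfl

/-- The uniform law on the unit interval. -/
noncomputable def uni : Measure ℝ := volume.restrict (Set.Ico 0 1)

instance : IsProbabilityMeasure uni := ⟨by simp [uni]⟩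

lemma measurable_cm (x y : V) : Measurable fun e : Sym2 V → ℝ => cm G hfin e x y := by
  unfold cm sp
  exact Finset.measurable_sum _ fun z _ => (measurable_stepProb G hfin x z).max measurable_const

lemma measurableSet_Iv (x y : V) :
    MeasurableSet {q : (Sym2 V → ℝ) × ℝ | q.2 ∈ Iv G hfin q.1 x y} := by
  unfold Iv
  have h1 : Measurable fun q : (Sym2 V → ℝ) × ℝ => cm G hfin q.1 x y :=
    (measurable_cm hfin x y).comp measurable_fst
  have h2 : Measurable fun q : (Sym2 V → ℝ) × ℝ => sp G q.1 x y :=
    ((measurable_stepProb G hfin x y).max measurable_const).comp measurable_fst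
  by_cases h : G.Adj x y
  · simp only [h, true_and, Set.mem_ofPred_eq]
    exact (measurableSet_le h1 measurable_snd).inter
      (measurableSet_lt measurable_snd (h1.add h2))
  · simp [h]

lemma measurableSet_Iv' (e : Sym2 V → ℝ) (x y : V) : MeasurableSet (Iv G hfin e x y) := by
  have := (measurableSet_Iv hfin x y).preimage (measurable_prodMk_left (x := e))
  exact this

variable [MeasurableSpace V] [DiscreteMeasurableSpace V]

lemma measurable_stp (x : V) :
    Measurable fun q : (Sym2 V → ℝ) × ℝ => stp G hfin q.1 x q.2 := by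
  refine measurable_to_countable' fun y => ?_
  by_cases h : G.Adj x y
  · have : (fun q : (Sym2 V → ℝ) × ℝ => stp G hfin q.1 x q.2) ⁻¹' {y} =
        {q | q.2 ∈ Iv G hfin q.1 x y} := by
      ext q
      simp only [Set.mem_preimage, Set.mem_singleton_iff, Set.mem_ofPred_eq]
      exact stp_eq hfin h
    rw [this]
    exact measurableSet_Iv hfin x y
  · by_cases hx : y = x
    · subst hx
      have : (fun q : (Sym2 V → ℝ) × ℝ => stp G hfin q.1 y q.2) ⁻¹' {y} =
          ⋂ z : V, {q | q.2 ∈ Iv G hfin q.1 y z}ᶜ := by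
        ext q
        simp only [Set.mem_preimage, Set.mem_singleton_iff, Set.mem_iInter, Set.mem_compl_iff,
          Set.mem_ofPred_eq]
        constructor
        · intro h1 z hz
          have := (stp_eq hfin hz.1).2 hz
          rw [h1] at this
          subst this
          exact G.loopless.irrefl _ hz.1
        · intro h1
          unfold stp
          rw [dif_neg (fun ⟨z, hz⟩ => h1 z hz)]
      rw [this]
      exact MeasurableSet.iInter fun z => (measurableSet_Iv hfin y z).compl
    · have : (fun q : (Sym2 V → ℝ) × ℝ => stp G hfin q.1 x q.2) ⁻¹' {y} = ∅ := by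
        ext q
        simp only [Set.mem_preimage, Set.mem_singleton_iff, Set.mem_empty_iff_false, iff_false]
        intro h1
        rcases stp_cases hfin q.1 x q.2 with h2 | h2
        · rw [h1] at h2; exact h h2
        · rw [h1] at h2; exact hx h2
      rw [this]
      exact MeasurableSet.empty

lemma sum_sp (hne : ∀ x, (G.neighborSet x).Nonempty) {e : Sym2 V → ℝ} (he : Pos e) (x : V) :
    ∑ y ∈ (hfin x).toFinset, sp G e x y = 1 ∧ ∀ y, sp G e x y = stepProb G e x y := by
  have hp := totalCond_pos hfin hne he x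
  have h0 : ∀ y, sp G e x y = stepProb G e x y := by
    intro y
    unfold sp
    refine max_eq_left ?_
    unfold stepProb
    split_ifs
    · exact (div_pos (he _) hp).le
    · exact le_rfl
  refine ⟨?_, h0⟩
  simp only [h0]
  have : ∀ y ∈ (hfin x).toFinset, stepProb G e x y = e s(x, y) / totalCond G e x := by
    intro y hy
    have : G.Adj x y := by simpa using hy
    simp [stepProb, this]
  rw [Finset.sum_congr rfl this, ← Finset.sum_div]
  rw [div_eq_one_iff_eq hp.ne']
  unfold totalCond
  rw [finsum_mem_eq_finite_toFinset_sum _ (hfin x)]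

lemma uni_Iv (hne : ∀ x, (G.neighborSet x).Nonempty) {e : Sym2 V → ℝ} (he : Pos e) {x y : V}
    (hy : G.Adj x y) : uni (Iv G hfin e x y) = ENNReal.ofReal (stepProb G e x y) := by
  classical
  obtain ⟨h1, h2⟩ := sum_sp hfin hne he x
  have h3 : cm G hfin e x y + sp G e x y ≤ 1 := by
    rw [← h1]
    unfold cm
    rw [add_comm, ← Finset.sum_insert (s := (hfin x).toFinset.filter
      (fun z => Encodable.encode z < Encodable.encode y)) (a := y) (by simp)]
    refine Finset.sum_le_sum_of_subset_of_nonneg ?_ fun _ _ _ => sp_nonneg _ _ _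
    intro z hz
    simp only [Finset.mem_insert, Finset.mem_filter, Set.Finite.mem_toFinset,
      SimpleGraph.mem_neighborSet] at hz ⊢
    rcases hz with rfl | hz
    · exact hy
    · exact hz.1
  have h4 := cm_nonneg hfin e x y
  have h5 : Iv G hfin e x y = Set.Ico (cm G hfin e x y) (cm G hfin e x y + sp G e x y) := by
    ext r
    simp [Iv, hy]
  have h6 : Set.Ico (cm G hfin e x y) (cm G hfin e x y + sp G e x y) ∩ Set.Ico 0 1 =
      Set.Ico (cm G hfin e x y) (cm G hfin e x y + sp G e x y) := by
    apply Set.inter_eq_left.2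
    intro r hr
    exact ⟨h4.trans hr.1, hr.2.trans_le h3⟩
  unfold uni
  rw [h5, Measure.restrict_apply measurableSet_Ico, h6, Real.volume_Ico, add_sub_cancel_left,
    h2 y]

lemma uni_stp (hne : ∀ x, (G.neighborSet x).Nonempty) {e : Sym2 V → ℝ} (he : Pos e) (x y : V) :
    uni {r | stp G hfin e x r = y} = ENNReal.ofReal (stepProb G e x y) := by
  by_cases hy : G.Adj x y
  · have : {r | stp G hfin e x r = y} = Iv G hfin e x y := by
      ext r
      exact stp_eq hfin hy
    rw [this, uni_Iv hfin hne he hy]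
  · have h0 : stepProb G e x y = 0 := by simp [stepProb, hy]
    rw [h0, ENNReal.ofReal_zero]
    have hm : ∀ z, MeasurableSet (Iv G hfin e x z) := fun z => measurableSet_Iv' hfin e x z
    have h1 : uni (⋃ z ∈ (hfin x).toFinset, Iv G hfin e x z) = 1 := by
      rw [measure_biUnion_finset]
      · have : ∀ z ∈ (hfin x).toFinset, uni (Iv G hfin e x z) = ENNReal.ofReal (sp G e x z) := by
          intro z hz
          rw [uni_Iv hfin hne he (by simpa using hz), (sum_sp hfin hne he x).2 z]
        rw [Finset.sum_congr rfl this, ← ENNReal.ofReal_sum_of_nonneg fun _ _ => sp_nonneg _ _ _,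
          (sum_sp hfin hne he x).1, ENNReal.ofReal_one]
      · intro z _ z' _ hzz'
        refine Set.disjoint_left.2 fun r hr hr' => hzz' (Iv_unique hfin hr hr')
      · exact fun z _ => hm z
    have h2 : uni (⋃ z ∈ (hfin x).toFinset, Iv G hfin e x z)ᶜ = 0 := by
      rw [prob_compl_eq_one_sub (Finset.measurableSet_biUnion _ fun z _ => hm z),
        h1, tsub_self]
    refine measure_mono_null ?_ h2
    intro r hr
    simp only [Set.mem_compl_iff, Set.mem_iUnion, not_exists]
    intro z hz hrz
    have hz' : G.Adj x z := by simpa using hz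
    have h3 := (stp_eq hfin hz').2 hrz
    rw [Set.mem_ofPred_eq] at hr
    rw [hr] at h3
    subst h3
    exact hy hz'

/-- The path driven by a sequence of uniform variables. -/
noncomputable def path (G : SimpleGraph V) (hfin : ∀ x, (G.neighborSet x).Finite)
    (w : V) (q : (Sym2 V → ℝ) × (ℕ → ℝ)) : ℕ → V
  | 0 => w
  | k + 1 => stp G hfin q.1 (path G hfin w q k) (q.2 k)

lemma measurable_path_coord (w : V) (k : ℕ) : Measurable fun q => path G hfin w q k := by
  induction k with
  | zero => exact measurable_const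
  | succ k ih =>
    have h1 : Measurable fun z : ((Sym2 V → ℝ) × ℝ) × V => stp G hfin z.1.1 z.2 z.1.2 :=
      measurable_from_prod_countable_left fun x => measurable_stp hfin x
    have h2 : Measurable fun q : (Sym2 V → ℝ) × (ℕ → ℝ) =>
        (((q.1, q.2 k), path G hfin w q k) : ((Sym2 V → ℝ) × ℝ) × V) := by
      exact ((measurable_fst.prodMk ((measurable_pi_apply k).comp measurable_snd))).prodMk ih
    exact h1.comp h2

/-- The environment and the path. -/
noncomputable def envPath (G : SimpleGraph V) (hfin : ∀ x, (G.neighborSet x).Finite)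
    (w : V) (q : (Sym2 V → ℝ) × (ℕ → ℝ)) : Can V := (q.1, path G hfin w q)

lemma measurable_envPath (w : V) : Measurable (envPath G hfin w) :=
  measurable_fst.prodMk (measurable_pi_iff.2 fun k => measurable_path_coord hfin w k)

lemma path_iff (w : V) (q : (Sym2 V → ℝ) × (ℕ → ℝ)) (m : ℕ) (x : ℕ → V) :
    (∀ i ≤ m, path G hfin w q i = x i) ↔
      (w = x 0 ∧ ∀ i ∈ Finset.range m, stp G hfin q.1 (x i) (q.2 i) = x (i + 1)) := by
  constructor
  · intro h
    refine ⟨h 0 (Nat.zero_le _), fun i hi => ?_⟩
    rw [Finset.mem_range] at hi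
    have h1 := h (i + 1) (by omega)
    rw [← h i (by omega)]
    exact h1
  · rintro ⟨h0, h⟩ i
    induction i with
    | zero => intro _; exact h0
    | succ i ih =>
      intro hi
      have h1 := h i (Finset.mem_range.2 (by omega))
      rw [← ih (by omega)] at h1
      exact h1

open Classical in
lemma law_path (P : Measure (Sym2 V → ℝ)) [IsProbabilityMeasure P]
    (hne : ∀ x, (G.neighborSet x).Nonempty) (hpos : ∀ᵐ e ∂P, Pos e) (w : V)
    {A : Set (Sym2 V → ℝ)} (hA : MeasurableSet A) (m : ℕ) (x : ℕ → V) :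
    ((P.prod (Measure.infinitePi fun _ : ℕ => uni)).map (envPath G hfin w))
      ({p | p.1 ∈ A} ∩ cyl m x) = (if w = x 0 then 1 else 0) *
        ∫⁻ e in A, pw G m x e ∂P := by
  classical
  have hA' : MeasurableSet {p : Can V | p.1 ∈ A} := measurable_fst hA
  rw [Measure.map_apply (measurable_envPath hfin w) (hA'.inter (measurableSet_cyl m x))]
  have hset : envPath G hfin w ⁻¹' ({p | p.1 ∈ A} ∩ cyl m x) =
      {q | q.1 ∈ A ∧ (w = x 0 ∧ ∀ i ∈ Finset.range m,
        stp G hfin q.1 (x i) (q.2 i) = x (i + 1))} := by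
    ext q
    simp only [Set.mem_preimage, Set.mem_inter_iff, envPath, Set.mem_ofPred_eq, cyl]
    rw [path_iff]
  have hmeas : MeasurableSet (envPath G hfin w ⁻¹' ({p | p.1 ∈ A} ∩ cyl m x)) :=
    measurable_envPath hfin w (hA'.inter (measurableSet_cyl m x))
  rw [Measure.prod_apply hmeas, hset]
  by_cases hw : w = x 0
  · have h1 : ∀ᵐ e ∂P, (Measure.infinitePi fun _ : ℕ => uni) (Prod.mk e ⁻¹'
        {q : (Sym2 V → ℝ) × (ℕ → ℝ) | q.1 ∈ A ∧ (w = x 0 ∧ ∀ i ∈ Finset.range m,
        stp G hfin q.1 (x i) (q.2 i) = x (i + 1))}) = A.indicator (pw G m x) e := by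
      filter_upwards [hpos] with e he
      by_cases heA : e ∈ A
      · rw [Set.indicator_of_mem heA]
        have h2 : Prod.mk e ⁻¹' {q : (Sym2 V → ℝ) × (ℕ → ℝ) | q.1 ∈ A ∧ (w = x 0 ∧
            ∀ i ∈ Finset.range m, stp G hfin q.1 (x i) (q.2 i) = x (i + 1))} =
            Set.pi (Finset.range m) (fun i => {r | stp G hfin e (x i) r = x (i + 1)}) := by
          ext u
          simp [heA, hw]
        rw [h2, Measure.infinitePi_pi]
        · unfold pw
          refine Finset.prod_congr rfl fun i _ => ?_
          exact uni_stp hfin hne he _ _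
        · intro i _
          have h3 := (measurable_stp hfin (x i)).comp (measurable_prodMk_left (x := e))
          exact h3 (MeasurableSet.singleton (x (i + 1)))
      · rw [Set.indicator_of_notMem heA]
        have h2 : Prod.mk e ⁻¹' {q : (Sym2 V → ℝ) × (ℕ → ℝ) | q.1 ∈ A ∧ (w = x 0 ∧
            ∀ i ∈ Finset.range m, stp G hfin q.1 (x i) (q.2 i) = x (i + 1))} = ∅ := by
          ext u
          simp [heA]
        rw [h2, measure_empty]
    rw [lintegral_congr_ae h1, lintegral_indicator hA, if_pos hw, one_mul]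
  · have h1 : {q : (Sym2 V → ℝ) × (ℕ → ℝ) | q.1 ∈ A ∧ (w = x 0 ∧ ∀ i ∈ Finset.range m,
        stp G hfin q.1 (x i) (q.2 i) = x (i + 1))} = ∅ := by
      ext q
      simp [hw]
    rw [h1, if_neg hw]
    simp

include hfin in
/-- Existence of the walk. -/
theorem exists_walkLaw (P : Measure (Sym2 V → ℝ)) [IsProbabilityMeasure P]
    (hne : ∀ x, (G.neighborSet x).Nonempty) (hpos : ∀ᵐ e ∂P, Pos e) (W : Finset V) :
    ∃ L : Measure (Can V), IsWalkLaw G P W L := by
  classical
  refine ⟨(W.card : ℝ≥0∞)⁻¹ • ∑ w ∈ W,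
    (P.prod (Measure.infinitePi fun _ : ℕ => uni)).map (envPath G hfin w), ?_⟩
  intro A hA m x
  rw [Measure.smul_apply, Measure.finsetSum_apply]
  simp only [law_path hfin P hne hpos _ hA m x]
  rw [← Finset.sum_mul]
  unfold w0
  by_cases hx : x 0 ∈ W
  · rw [if_pos hx]
    have : ∑ w ∈ W, (if w = x 0 then (1 : ℝ≥0∞) else 0) = 1 := by
      rw [Finset.sum_ite_eq' W (x 0)]
      simp [hx]
    rw [this, one_mul, smul_eq_mul]
  · rw [if_neg hx]
    have : ∑ w ∈ W, (if w = x 0 then (1 : ℝ≥0∞) else 0) = 0 := by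
      rw [Finset.sum_ite_eq' W (x 0)]
      simp [hx]
    rw [this]
    simp

end Pool.Agent.H42.Exist
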