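import Pool.Agent.H42.Growth

/-!
Geometric properties of the graph: mass transport, expansion.
-/

open scoped BigOperators ENNReal

namespace Pool.Agent.H42

set_option linter.unusedSectionVars false

variable {a n : ℕ}

/-- Translation as an automorphism. -/
def mvIso (g : Gam a) : gr a n ≃g gr a n where
  toEquiv := mvE g
  map_rel_iff' := adj_mv g _ _

lemma mvIso_apply (g : Gam a) (x : Vert a n) : mvIso g x = mv g x := rfl

/-- Mass transport principle. -/
lemma mass_transport (f : Vert a n → Vert a n → ℝ≥0∞)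
    (hf : ∀ (φ : gr a n ≃g gr a n) x y, f (φ x) (φ y) = f x y) :
    ∑ x ∈ base a n, ∑' y, f x y = ∑ x ∈ base a n, ∑' y, f y x := by
  have hf' : ∀ (g : Gam a) x y, f (mv g x) (mv g y) = f x y := fun g x y => hf (mvIso g) x y
  simp only [base, Finset.sum_map]
  have h1 : ∀ u : Cell a n, ∑' y : Vert a n, f ((1 : Gam a), u) y =
      ∑ v : Cell a n, ∑' g : Gam a, f (1, u) (g, v) := by
    intro u
    rw [ENNReal.tsum_prod', ENNReal.tsum_comm, tsum_fintype]
  have h2 : ∀ u : Cell a n, ∑' y : Vert a n, f y ((1 : Gam a), u) =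
      ∑ v : Cell a n, ∑' g : Gam a, f (g, v) (1, u) := by
    intro u
    rw [ENNReal.tsum_prod', ENNReal.tsum_comm, tsum_fintype]
  have h3 : ∀ u v : Cell a n, ∑' g : Gam a, f (1, u) (g, v) = ∑' g : Gam a, f (g, u) (1, v) := by
    intro u v
    rw [← (Equiv.inv (Gam a)).tsum_eq]
    refine tsum_congr fun g => ?_
    rw [← hf' g (1, u)]
    simp [mv]
  calc ∑ u : Cell a n, ∑' y : Vert a n, f ((1 : Gam a), u) y
      = ∑ u : Cell a n, ∑ v : Cell a n, ∑' g : Gam a, f (g, u) (1, v) := by
        refine Finset.sum_congr rfl fun u _ => ?_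
        rw [h1]
        exact Finset.sum_congr rfl fun v _ => h3 u v
    _ = ∑ v : Cell a n, ∑ u : Cell a n, ∑' g : Gam a, f (g, u) (1, v) := Finset.sum_comm
    _ = ∑ u : Cell a n, ∑' y : Vert a n, f y ((1 : Gam a), u) := by
        refine Finset.sum_congr rfl fun u _ => ?_
        rw [h2]

lemma quasi_transitive (x : Vert a n) : ∃ φ : gr a n ≃g gr a n, φ x ∈ base a n := by
  refine ⟨mvIso x.1⁻¹, ?_⟩
  rw [mem_base, mvIso_apply, mv_fst, inv_mul_cancel]

lemma base_nonempty : (base a n).Nonempty := ⟨(1, Cell.center true), mem_base.2 rfl⟩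

lemma degree_bound : ∃ D : ℕ, ∀ x : Vert a n, ((gr a n).neighborSet x).ncard ≤ D := by
  refine ⟨∑ u : Cell a n, ((gr a n).neighborSet ((1 : Gam a), u)).ncard, fun x => ?_⟩
  have h : (gr a n).neighborSet x = mv x.1 '' (gr a n).neighborSet ((1 : Gam a), x.2) := by
    ext y
    simp only [SimpleGraph.mem_neighborSet, Set.mem_image]
    have hx : x = mv x.1 (1, x.2) := by simp [mv]
    constructor
    · intro hy
      refine ⟨mv x.1⁻¹ y, ?_, by simp⟩
      rw [← adj_mv x.1, ← hx]
      simpa using hy
    · rintro ⟨z, hz, rfl⟩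
      conv_lhs => rw [hx]
      exact (adj_mv x.1 _ z).2 hz
  rw [h, Set.ncard_image_of_injective _ (mv_injective _)]
  exact Finset.single_le_sum (f := fun u : Cell a n =>
    ((gr a n).neighborSet ((1 : Gam a), u)).ncard) (fun _ _ => Nat.zero_le _)
    (Finset.mem_univ x.2)

section cheeger

variable (a n) in
/-- Expansion parameter. -/
noncomputable def eta : ℝ := (a - 2) / (2 * n + a + 1)

/-- The function with uniformly positive Laplacian. -/
noncomputable def Fch : Vert a n → ℝ
  | (g, Cell.center _) => g.toWord.length - 3 * eta a n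
  | (g, Cell.hub _ _) => g.toWord.length
  | (g, Cell.fat _ _ _) => g.toWord.length - 2 * eta a n
  | (g, Cell.thin _ _) => g.toWord.length - eta a n

lemma eta_pos (ha : 3 ≤ a) : 0 < eta a n := by
  unfold eta
  have : (3 : ℝ) ≤ a := by exact_mod_cast ha
  apply div_pos
  · linarith
  · positivity

lemma eta_le (_ : 3 ≤ a) : eta a n ≤ 1 := by
  unfold eta
  rw [div_le_one (by positivity)]
  have : (0 : ℝ) ≤ n := Nat.cast_nonneg n
  linarith

/-- Length change through a port. -/
lemma port_length [NeZero a] (g : Gam a) (s : Bool) (i : Fin a) : ∃ r0 : Fin a, ∀ r,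
    (1 : ℝ) - (if r = r0 then 2 else 0) ≤
      (portCell g s i r).toWord.length - g.toWord.length := by
  refine ⟨(g.toWord.reverse.head?.map (fun l => l.1.2)).getD 0, fun r => ?_⟩
  rw [portCell_eq]
  rcases mul_letter g ((i, r), !s) with h | h
  · have h1 : g.toWord.length = (g * FreeGroup.mk [((i, r), !s)]).toWord.length + 1 := by
      have := congrArg List.length h
      simpa using this
    rw [h]
    simp only [List.head?_cons, Option.map_some, Option.getD_some, if_true]
    rw [h1]
    push_cast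
    linarith
  · have h1 : (g * FreeGroup.mk [((i, r), !s)]).toWord.length = g.toWord.length + 1 := by
      have := congrArg List.length h
      simpa using this
    rw [h1]
    push_cast
    split_ifs <;> linarith

lemma port_length_abs [NeZero a] (g : Gam a) (s : Bool) (i r : Fin a) :
    |((portCell g s i r).toWord.length : ℝ) - g.toWord.length| ≤ 1 := by
  rw [portCell_eq]
  rcases mul_letter g ((i, r), !s) with h | h
  · have h1 : g.toWord.length = (g * FreeGroup.mk [((i, r), !s)]).toWord.length + 1 := by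
      have := congrArg List.length h
      simpa using this
    rw [h1]
    push_cast
    rw [abs_le]
    constructor <;> linarith
  · have h1 : (g * FreeGroup.mk [((i, r), !s)]).toWord.length = g.toWord.length + 1 := by
      have := congrArg List.length h
      simpa using this
    rw [h1]
    push_cast
    rw [abs_le]
    constructor <;> linarith

lemma lap_Fch [NeZero a] [NeZero n] (ha : 3 ≤ a) (x : Vert a n) :
    eta a n ≤ Lap (fun _ => 1) Fch x := by
  have he := eta_pos (n := n) ha
  have ha' : (3 : ℝ) ≤ a := by exact_mod_cast ha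
  have hn : (1 : ℝ) ≤ n := by
    have : 1 ≤ n := Nat.one_le_iff_ne_zero.2 (NeZero.ne n)
    exact_mod_cast this
  obtain ⟨g, u⟩ := x
  cases u with
  | center s =>
    rw [lap_center]
    simp only [Fch, one_mul]
    have : ∑ i : Fin a, ∑ k : Fin n, ((g.toWord.length : ℝ) - 2 * eta a n -
        (g.toWord.length - 3 * eta a n)) = a * (n * eta a n) := by
      simp only [Finset.sum_const, Finset.card_univ, Fintype.card_fin, nsmul_eq_mul]
      ring
    rw [this]
    nlinarith [mul_nonneg (by linarith : (0 : ℝ) ≤ a - 1) he.le,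
      mul_nonneg (by linarith : (0 : ℝ) ≤ n - 1) he.le,
      mul_nonneg (mul_nonneg (by linarith : (0 : ℝ) ≤ a) (by linarith : (0 : ℝ) ≤ n - 1)) he.le]
  | fat s i k =>
    rw [lap_fat]
    simp only [Fch, one_mul]
    linarith
  | thin i j =>
    rw [lap_thin]
    simp only [Fch, one_mul]
    linarith
  | hub s i =>
    rw [lap_hub]
    have h1 : ∑ k : Fin n, (1 : ℝ) * (Fch (n := n) (g, Cell.fat s i k) - Fch (n := n) (g, Cell.hub s i)) =
        - (2 * n * eta a n) := by
      simp only [Fch, one_mul, Finset.sum_const, Finset.card_univ, Fintype.card_fin,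
        nsmul_eq_mul]
      ring
    have h2 : ∑ j : Fin a, (1 : ℝ) * (Fch (n := n) (g, thinAt s i j) - Fch (n := n) (g, Cell.hub s i)) =
        - (a * eta a n) := by
      have : ∀ j : Fin a, (1 : ℝ) * (Fch (n := n) (g, thinAt s i j) - Fch (n := n) (g, Cell.hub s i)) =
          - eta a n := by
        intro j
        cases s <;> simp [thinAt, Fch]
      simp only [this, Finset.sum_const, Finset.card_univ, Fintype.card_fin, nsmul_eq_mul]
      ring
    have h3 : (a : ℝ) - 2 ≤ ∑ r : Fin a, (1 : ℝ) *
        (Fch (n := n) (portCell g s i r, Cell.hub (!s) i) - Fch (n := n) (g, Cell.hub s i)) := by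
      obtain ⟨r0, hr0⟩ := port_length g s i
      have : ∑ r : Fin a, ((1 : ℝ) - (if r = r0 then 2 else 0)) = a - 2 := by
        rw [Finset.sum_sub_distrib]
        simp
      rw [← this]
      refine Finset.sum_le_sum fun r _ => ?_
      rw [one_mul]
      exact hr0 r
    rw [h1, h2]
    have h4 : eta a n * (2 * n + a + 1) = a - 2 := by
      unfold eta
      field_simp
    linarith

lemma Fch_lip [NeZero a] (ha : 3 ≤ a) {x y : Vert a n} (h : (gr a n).Adj x y) :
    Fch y - Fch x ≤ 4 := by
  have he := eta_pos (n := n) ha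
  have he' := eta_le (n := n) ha
  obtain ⟨g, u⟩ := x
  cases u with
  | center s =>
    obtain ⟨p, rfl⟩ := adj_center.1 h
    simp only [Fch]; linarith
  | fat s i k =>
    rcases adj_fat.1 h with rfl | rfl <;> simp only [Fch] <;> linarith
  | thin i j =>
    rcases adj_thin.1 h with rfl | rfl <;> simp only [Fch] <;> linarith
  | hub s i =>
    obtain ⟨p, rfl⟩ := adj_hub.1 h
    rcases p with k | j | r
    · simp only [Fch, hubNb]; linarith
    · cases s <;> simp only [Fch, hubNb, thinAt, if_true] <;> first | linarith | (simp; linarith)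
    · have := (abs_le.1 (port_length_abs g s i r)).2
      simp only [Fch, hubNb]; linarith

/-- Positive edge expansion. -/
lemma cheeger [NeZero a] [NeZero n] (ha : 3 ≤ a) (S : Finset (Vert a n)) :
    eta a n / 4 * S.card ≤
      {p : Vert a n × Vert a n | p.1 ∈ S ∧ p.2 ∉ S ∧ (gr a n).Adj p.1 p.2}.ncard := by
  classical
  set N : Vert a n → Finset (Vert a n) := fun x => (neighborSet_finite x).toFinset with hN
  have hNm : ∀ x y, y ∈ N x ↔ (gr a n).Adj x y := by
    intro x y
    simp [hN]
  have h1 : eta a n * S.card ≤ ∑ x ∈ S, Lap (fun _ => 1) Fch x := by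
    rw [mul_comm, ← nsmul_eq_mul, ← Finset.sum_const]
    exact Finset.sum_le_sum fun x _ => lap_Fch ha x
  have h2 : ∀ x : Vert a n, Lap (fun _ => 1) Fch x =
      ∑ y ∈ (N x).filter (fun y => y ∈ S), (Fch y - Fch x) +
      ∑ y ∈ (N x).filter (fun y => y ∉ S), (Fch y - Fch x) := by
    intro x
    unfold Lap
    rw [finsum_mem_eq_finite_toFinset_sum _ (neighborSet_finite x), Finset.sum_filter_add_sum_filter_not]
    simp only [one_mul]
    rfl
  have h3 : ∑ x ∈ S, ∑ y ∈ (N x).filter (fun y => y ∈ S), (Fch y - Fch x) = 0 := by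
    have e1 : ∀ x ∈ S, ∑ y ∈ (N x).filter (fun y => y ∈ S), (Fch y - Fch x) =
        ∑ y ∈ S, if (gr a n).Adj x y then (Fch y - Fch x) else 0 := by
      intro x _
      rw [← Finset.sum_filter]
      refine Finset.sum_congr ?_ fun _ _ => rfl
      ext y
      simp only [Finset.mem_filter, hNm]
      exact and_comm
    rw [Finset.sum_congr rfl e1]
    set T := ∑ x ∈ S, ∑ y ∈ S, if (gr a n).Adj x y then (Fch y - Fch x) else 0 with hT
    have e2 : T = -T := by
      conv_lhs => rw [hT, Finset.sum_comm]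
      rw [hT, ← Finset.sum_neg_distrib]
      refine Finset.sum_congr rfl fun y _ => ?_
      rw [← Finset.sum_neg_distrib]
      refine Finset.sum_congr rfl fun x _ => ?_
      by_cases h : (gr a n).Adj x y
      · rw [if_pos h, if_pos h.symm]; ring
      · rw [if_neg h, if_neg fun h' => h h'.symm]; ring
    linarith
  have h4 : ∑ x ∈ S, ∑ y ∈ (N x).filter (fun y => y ∉ S), (Fch y - Fch x) ≤
      4 * ∑ x ∈ S, (((N x).filter (fun y => y ∉ S)).card : ℝ) := by
    rw [Finset.mul_sum]
    refine Finset.sum_le_sum fun x _ => ?_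
    refine (Finset.sum_le_sum (g := fun _ => (4 : ℝ)) fun y hy => ?_).trans ?_
    · exact Fch_lip ha ((hNm x y).1 (Finset.mem_filter.1 hy).1)
    · rw [Finset.sum_const, nsmul_eq_mul, mul_comm]
  have h5 : {p : Vert a n × Vert a n | p.1 ∈ S ∧ p.2 ∉ S ∧ (gr a n).Adj p.1 p.2} =
      ((S.sigma fun x => (N x).filter (fun y => y ∉ S)).image
        (fun q => ((q.1, q.2) : Vert a n × Vert a n)) : Finset (Vert a n × Vert a n)) := by
    ext p
    simp only [Set.mem_ofPred_eq, Finset.coe_image, Set.mem_image, Finset.mem_coe,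
      Finset.mem_sigma, Finset.mem_filter, hNm, Sigma.exists]
    constructor
    · rintro ⟨h1, h2, h3⟩
      exact ⟨p.1, p.2, ⟨h1, h3, h2⟩, rfl⟩
    · rintro ⟨x, y, ⟨h1, h3, h2⟩, rfl⟩
      exact ⟨h1, h2, h3⟩
  have h6 : (({p : Vert a n × Vert a n | p.1 ∈ S ∧ p.2 ∉ S ∧ (gr a n).Adj p.1 p.2}.ncard : ℕ) : ℝ)
      = ∑ x ∈ S, (((N x).filter (fun y => y ∉ S)).card : ℝ) := by
    rw [h5, Set.ncard_coe_finset, Finset.card_image_of_injective, Finset.card_sigma]
    · push_cast
      rfl
    · rintro ⟨x, y⟩ ⟨x', y'⟩ h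
      simp only [Prod.mk.injEq] at h
      obtain ⟨rfl, rfl⟩ := h
      rfl
  rw [h6]
  have h7 : ∑ x ∈ S, Lap (fun _ => 1) Fch x =
      ∑ x ∈ S, ∑ y ∈ (N x).filter (fun y => y ∈ S), (Fch y - Fch x) +
      ∑ x ∈ S, ∑ y ∈ (N x).filter (fun y => y ∉ S), (Fch y - Fch x) := by
    rw [← Finset.sum_add_distrib]
    exact Finset.sum_congr rfl fun x _ => h2 x
  linarith

end cheeger

end Pool.Agent.H42
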