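import Pool.Agent.H42.SpeedEx
import Pool.Agent.H42.Exist
import Pool.Agent.H42.Props

/-!
Assembly: the speeds of the two walks.
-/

open MeasureTheory ProbabilityTheory Filter
open scoped BigOperators ENNReal Topology

namespace Pool.Agent.H42

set_option linter.unusedSectionVars false

section general

variable {V : Type} [MeasurableSpace V] [DiscreteMeasurableSpace V] [Countable V]
variable {G : SimpleGraph V} {P : Measure (Sym2 V → ℝ)} {W : Finset V} {L : Measure (Can V)}

lemma walkLaw_finite [IsProbabilityMeasure P] (hL : IsWalkLaw G P W L) : IsFiniteMeasure L := by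
  refine ⟨?_⟩
  have h := lintegral_split_coord L 0 (fun _ => 1)
  simp only [lintegral_const, one_mul, Measure.restrict_apply, MeasurableSet.univ,
    Set.univ_inter] at h
  rw [h]
  have h1 : ∀ y : V, L {p | p.2 0 = y} = w0 W y := by
    intro y
    have h2 := hL Set.univ MeasurableSet.univ 0 (fun _ => y)
    have h3 : ({p : Can V | p.1 ∈ Set.univ} ∩ cyl 0 fun _ => y) = {p | p.2 0 = y} := by
      ext p; simp [cyl]
    rw [h3] at h2
    rw [h2]
    simp [pw]
  simp only [h1]
  rw [tsum_eq_sum (s := W)]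
  · refine ENNReal.sum_lt_top.2 fun y hy => ?_
    have : W.card ≠ 0 := Finset.card_ne_zero_of_mem hy
    simp only [w0, hy, if_true]
    exact ENNReal.inv_lt_top.2 (by exact_mod_cast Nat.pos_of_ne_zero this)
  · intro y hy
    simp [w0, hy]

lemma ae_walk (hL : IsWalkLaw G P W L)
    {q : (Sym2 V → ℝ) → Prop} (h : ∀ᵐ e ∂P, q e) : ∀ᵐ p ∂L, q p.1 := by
  obtain ⟨A, hA, hAm, hA0⟩ := exists_measurable_superset_of_null (ae_iff.1 h)
  rw [ae_iff]
  refine measure_mono_null (t := {p : Can V | p.1 ∈ A}) (fun p hp => hA hp) ?_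
  have : {p : Can V | p.1 ∈ A} = ⋃ x : Fin 1 → V, ({p : Can V | p.1 ∈ A} ∩ cyl 0 (ex x)) := by
    rw [← Set.inter_iUnion, iUnion_cyl, Set.inter_univ]
  rw [this, measure_iUnion_null_iff]
  intro x
  rw [hL A hAm, Measure.restrict_eq_zero.2 hA0]
  simp

lemma ae_of_ae_star (hfin : ∀ x, (G.neighborSet x).Finite)
    (hne : ∀ x, (G.neighborSet x).Nonempty) (hL : IsWalkLaw G P W L)
    (hpos : ∀ᵐ e ∂P, Pos e) {q : Can V → Prop} (h : ∀ᵐ p ∂(star G L), q p) : ∀ᵐ p ∂L, q p := by
  have hac : L ≪ star G L := by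
    refine withDensity_absolutelyContinuous' (measurable_bias hfin).aemeasurable ?_
    filter_upwards [ae_walk hL hpos] with p hp
    exact (ENNReal.ofReal_pos.2 (totalCond_pos hfin hne hp _)).ne'
  exact hac.ae_le h

end general

variable {a n : ℕ} [NeZero a] [NeZero n] {ρ : Measure ℝ} [IsProbabilityMeasure ρ] {ε K : ℝ}

lemma measurable_real {Ω : Type} [MeasurableSpace Ω] {μ : Measure Ω}
    {c : Ω → Sym2 (Vert a n) → ℝ} {X : ℕ → Ω → Vert a n} {W : Finset (Vert a n)}
    (h : IsRCMWalk (gr a n) ρ W μ c X) :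
    Measurable fun ω => ((c ω, fun k => X k ω) : Can (Vert a n)) := by
  refine h.measurable_cond.prodMk (measurable_pi_iff.2 fun k => ?_)
  exact measurable_to_countable' fun x => h.measurable_walk k x

lemma walkLaw_real {Ω : Type} [MeasurableSpace Ω] {μ : Measure Ω}
    {c : Ω → Sym2 (Vert a n) → ℝ} {X : ℕ → Ω → Vert a n} {W : Finset (Vert a n)}
    (h : IsRCMWalk (gr a n) ρ W μ c X) :
    IsWalkLaw (gr a n) (iid a n ρ) W
      (μ.map fun ω => ((c ω, fun k => X k ω) : Can (Vert a n))) := by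
  intro A hA m x
  have hA' : MeasurableSet {p : Can (Vert a n) | p.1 ∈ A} := measurable_fst hA
  rw [Measure.map_apply (measurable_real h) (hA'.inter (measurableSet_cyl m x))]
  exact h.law A hA m x

/-- The speed exists and is the limit under the biased law. -/
theorem hasSpeed_of (hε : 0 < ε) (hρ : ∀ᵐ r ∂ρ, ε ≤ r ∧ r ≤ K) :
    ∃ (v : ℝ) (L : Measure (Can (Vert a n))), HasSpeed (gr a n) ρ (base a n) v ∧
      IsWalkLaw (gr a n) (iid a n ρ) (base a n) L ∧
      ∀ᵐ p ∂(star (gr a n) L),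
        Tendsto (fun k : ℕ => ((gr a n).dist (p.2 0) (p.2 k) : ℝ) / k) atTop (𝓝 v) := by
  have hpos : ∀ᵐ r ∂ρ, 0 < r := by
    filter_upwards [hρ] with r hr
    linarith
  have hpos' : ∀ᵐ e ∂(iid a n ρ), Pos e := ae_pos (V := Vert a n) ρ hpos
  let _ : Encodable (Vert a n) := Encodable.ofCountable _
  obtain ⟨L, hL⟩ := Exist.exists_walkLaw (G := gr a n) neighborSet_finite (iid a n ρ)
    neighborSet_nonempty hpos' (base a n)
  have hfinite := star_isFinite hε hρ hL
  have hLfin := walkLaw_finite hL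
  obtain ⟨v, hv⟩ := exists_speed hpos hL
  refine ⟨v, L, ⟨?_, ?_⟩, hL, hv⟩
  · refine ⟨Can (Vert a n), inferInstance, L, Prod.fst, fun k p => p.2 k, ?_⟩
    refine ⟨measurable_fst, fun k x => measurableSet_coord k x, fun A hA m x => ?_⟩
    exact hL A hA m x
  · intro Ω _ μ c X hX
    have hv' := ae_of_ae_star neighborSet_finite neighborSet_nonempty hL hpos' hv
    have hLX := walkLaw_real hX
    have heq : L = μ.map fun ω => ((c ω, fun k => X k ω) : Can (Vert a n)) := by
      refine ext_cyl fun A hA m y => ?_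
      rw [hL A hA m y, hLX A hA m y]
    rw [heq] at hv'
    exact ae_of_ae_map (measurable_real hX).aemeasurable hv'

/-- Main theorem: slowdown fails. -/
theorem main (hε : 0 < ε) (hρ : ∀ᵐ r ∂ρ, ε ≤ r ∧ r ≤ K) (hnd : ∀ r, ρ ≠ Measure.dirac r) :
    ∃ (V : Type) (G : SimpleGraph V) (W : Finset V),
      Countable V ∧ Infinite V ∧ G.Connected ∧ W.Nonempty ∧
      (∀ x, (G.neighborSet x).Finite) ∧
      (∃ D : ℕ, ∀ x, (G.neighborSet x).ncard ≤ D) ∧
      (∀ x, ∃ φ : G ≃g G, φ x ∈ W) ∧ IsUnimodular G W ∧ HasExpansion G ∧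
      ∃ vs vc : ℝ, HasSpeed G (Measure.dirac 1) W vs ∧ HasSpeed G ρ W vc ∧ vs < vc := by
  have hK : 0 < K := by
    obtain ⟨r, hr⟩ := hρ.exists
    linarith
  obtain ⟨a, ha, hsize⟩ := exists_size hε hρ hK hnd
  have ha0 : 0 < a := by omega
  have : NeZero a := ⟨ha0.ne'⟩
  have : NeZero (a * a) := ⟨(Nat.mul_pos ha0 ha0).ne'⟩
  have haR : (0 : ℝ) < a := by exact_mod_cast ha0
  have hone : ∀ᵐ r ∂(Measure.dirac (1 : ℝ)), 1 ≤ r ∧ r ≤ 1 := by simp
  obtain ⟨vs, Ls, hvs, hLs, hvs'⟩ := hasSpeed_of (a := a) (n := a * a) one_pos hone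
  obtain ⟨vc, Lc, hvc, hLc, hvc'⟩ := hasSpeed_of (a := a) (n := a * a) hε hρ
  obtain ⟨ht, ht', hbal⟩ := tpar_spec hε hρ hnd
  have h1 := speed_upper hLs hvs'
  have h2 := speed_lower hε hρ hK hLc ht (by linarith) (τ := 2 * K / (a * ε)) (by positivity)
    hbal (by
      push_cast
      apply le_of_eq
      field_simp) hvc'
  have hcb : 0 < cbar ρ := lt_of_lt_of_le hε (cbar_ge hε hρ)
  have hdeg : 0 < degSum a (a * a) := degSum_pos
  refine ⟨Vert a (a * a), gr a (a * a), base a (a * a), inferInstance, ?_, gr_connected,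
    base_nonempty, neighborSet_finite, degree_bound, quasi_transitive, mass_transport,
    ⟨eta a (a * a) / 4, by have := eta_pos (n := a * a) ha; linarith, cheeger ha⟩,
    vs, vc, hvs, hvc, ?_⟩
  · have : Infinite (Gam a) := inferInstance
    exact Prod.infinite_of_left
  · by_contra hlt
    push Not at hlt
    have h3 : vc * (cbar ρ * degSum a (a * a)) ≤ vs * (cbar ρ * degSum a (a * a)) :=
      mul_le_mul_of_nonneg_right hlt (by positivity)
    have h4 : vs * (cbar ρ * degSum a (a * a)) = cbar ρ * (vs * degSum a (a * a)) := by ring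
    have h5 : cbar ρ * (vs * degSum a (a * a)) ≤ cbar ρ * (9 * a ^ 2) :=
      mul_le_mul_of_nonneg_left h1 hcb.le
    linarith

end Pool.Agent.H42
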