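import Mathlib

/-!
The counterexample graph: cells glued along the Cayley tree of a free group.
-/

open scoped BigOperators

namespace Pool.Agent.H42

/-- Vertices of a cell: two centres, `2a` hubs, `2an` vertices of degree two joining the hubs to
their centre, and `a^2` vertices of degree two joining hubs of different sides. -/
inductive Cell (a n : ℕ) : Type
  | center (s : Bool) : Cell a n
  | hub (s : Bool) (i : Fin a) : Cell a n
  | fat (s : Bool) (i : Fin a) (k : Fin n) : Cell a n
  | thin (i j : Fin a) : Cell a n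
  deriving DecidableEq, Fintype

/-- The group indexing the cells. -/
abbrev Gam (a : ℕ) : Type := FreeGroup (Fin a × Fin a)

/-- The vertex set. -/
abbrev Vert (a n : ℕ) : Type := Gam a × Cell a n

/-- Oriented edges. -/
inductive EdgeRel (a n : ℕ) : Vert a n → Vert a n → Prop
  | cf (g : Gam a) (s : Bool) (i : Fin a) (k : Fin n) :
      EdgeRel a n (g, Cell.center s) (g, Cell.fat s i k)
  | fh (g : Gam a) (s : Bool) (i : Fin a) (k : Fin n) :
      EdgeRel a n (g, Cell.fat s i k) (g, Cell.hub s i)
  | t0 (g : Gam a) (i j : Fin a) :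
      EdgeRel a n (g, Cell.hub false i) (g, Cell.thin i j)
  | t1 (g : Gam a) (i j : Fin a) :
      EdgeRel a n (g, Cell.thin i j) (g, Cell.hub true j)
  | port (g : Gam a) (i r : Fin a) :
      EdgeRel a n (g, Cell.hub false i) (g * FreeGroup.of (i, r), Cell.hub true i)

/-- The graph. -/
def gr (a n : ℕ) : SimpleGraph (Vert a n) where
  Adj x y := EdgeRel a n x y ∨ EdgeRel a n y x
  symm := ⟨fun _ _ h => Or.symm h⟩
  loopless := ⟨by
    have key : ∀ x y : Vert a n, EdgeRel a n x y → x ≠ y := by
      intro x y h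
      cases h <;> simp
    intro x h
    rcases h with h | h <;> exact key _ _ h rfl⟩

variable {a n : ℕ}

/-- The vertex joining hub `i` of side `s` to hub `j` of the other side. -/
def thinAt (s : Bool) (i j : Fin a) : Cell a n :=
  if s then Cell.thin j i else Cell.thin i j

/-- The cell reached from cell `g` through port `r` of hub `(s,i)`. -/
def portCell (g : Gam a) (s : Bool) (i r : Fin a) : Gam a :=
  if s then g * (FreeGroup.of (i, r))⁻¹ else g * FreeGroup.of (i, r)

lemma adj_center {g : Gam a} {s : Bool} {y : Vert a n} :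
    (gr a n).Adj (g, Cell.center s) y ↔ ∃ p : Fin a × Fin n, y = (g, Cell.fat s p.1 p.2) := by
  constructor
  · rintro (h | h)
    · cases h with
      | cf _ _ i k => exact ⟨(i, k), rfl⟩
    · cases h
  · rintro ⟨p, rfl⟩
    exact Or.inl (EdgeRel.cf _ _ _ _)

lemma adj_fat {g : Gam a} {s : Bool} {i : Fin a} {k : Fin n} {y : Vert a n} :
    (gr a n).Adj (g, Cell.fat s i k) y ↔ y = (g, Cell.center s) ∨ y = (g, Cell.hub s i) := by
  constructor
  · rintro (h | h)
    · cases h with
      | fh _ _ _ _ => exact Or.inr rfl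
    · cases h with
      | cf _ _ _ _ => exact Or.inl rfl
  · rintro (rfl | rfl)
    · exact Or.inr (EdgeRel.cf _ _ _ _)
    · exact Or.inl (EdgeRel.fh _ _ _ _)

lemma adj_thin {g : Gam a} {i j : Fin a} {y : Vert a n} :
    (gr a n).Adj (g, Cell.thin i j) y ↔ y = (g, Cell.hub false i) ∨ y = (g, Cell.hub true j) := by
  constructor
  · rintro (h | h)
    · cases h with
      | t1 _ _ _ => exact Or.inr rfl
    · cases h with
      | t0 _ _ _ => exact Or.inl rfl
  · rintro (rfl | rfl)
    · exact Or.inr (EdgeRel.t0 _ _ _)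
    · exact Or.inl (EdgeRel.t1 _ _ _)

/-- The neighbours of a hub. -/
def hubNb (g : Gam a) (s : Bool) (i : Fin a) : Fin n ⊕ (Fin a ⊕ Fin a) → Vert a n
  | Sum.inl k => (g, Cell.fat s i k)
  | Sum.inr (Sum.inl j) => (g, thinAt s i j)
  | Sum.inr (Sum.inr r) => (portCell g s i r, Cell.hub (!s) i)

lemma adj_hub {g : Gam a} {s : Bool} {i : Fin a} {y : Vert a n} :
    (gr a n).Adj (g, Cell.hub s i) y ↔ ∃ p, y = hubNb g s i p := by
  constructor
  · rintro (h | h)
    · cases h with
      | t0 _ _ j => exact ⟨Sum.inr (Sum.inl j), rfl⟩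
      | port _ _ r => exact ⟨Sum.inr (Sum.inr r), rfl⟩
    · generalize hx : (g, Cell.hub s i) = x at h
      cases h with
      | cf _ _ _ _ => simp at hx
      | fh g' s' i' k =>
        simp only [Prod.mk.injEq, Cell.hub.injEq] at hx
        obtain ⟨rfl, rfl, rfl⟩ := hx
        exact ⟨Sum.inl k, rfl⟩
      | t0 _ _ _ => simp at hx
      | t1 g' i' j' =>
        simp only [Prod.mk.injEq, Cell.hub.injEq] at hx
        obtain ⟨rfl, rfl, rfl⟩ := hx
        exact ⟨Sum.inr (Sum.inl i'), rfl⟩
      | port g' i' r =>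
        simp only [Prod.mk.injEq, Cell.hub.injEq] at hx
        obtain ⟨rfl, rfl, rfl⟩ := hx
        exact ⟨Sum.inr (Sum.inr r), by simp [hubNb, portCell]⟩
  · rintro ⟨p, rfl⟩
    rcases p with k | j | r
    · exact Or.inr (EdgeRel.fh _ _ _ _)
    · cases s
      · exact Or.inl (EdgeRel.t0 _ _ _)
      · exact Or.inr (EdgeRel.t1 _ _ _)
    · cases s
      · exact Or.inl (EdgeRel.port _ _ _)
      · refine Or.inr ?_
        have := EdgeRel.port (n := n) (g * (FreeGroup.of (i, r))⁻¹) i r
        simpa [hubNb, portCell] using this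

lemma hubNb_injective (g : Gam a) (s : Bool) (i : Fin a) :
    Function.Injective (hubNb (n := n) g s i) := by
  intro p q h
  rcases p with k | j | r <;> rcases q with k' | j' | r' <;> cases s <;>
    simp_all [hubNb, thinAt, portCell, FreeGroup.of_injective.eq_iff]

section sums
variable (f : Vert a n → ℝ)

lemma nsum_center (g : Gam a) (s : Bool) :
    ∑ᶠ y ∈ (gr a n).neighborSet (g, Cell.center s), f y
      = ∑ i, ∑ k, f (g, Cell.fat s i k) := by
  have h : (gr a n).neighborSet (g, Cell.center s)
      = Set.range (fun p : Fin a × Fin n => ((g, Cell.fat s p.1 p.2) : Vert a n)) := by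
    ext y
    simp only [SimpleGraph.mem_neighborSet, adj_center, Set.mem_range]
    constructor <;> rintro ⟨p, hp⟩ <;> exact ⟨p, hp.symm⟩
  rw [h, finsum_mem_range, finsum_eq_sum_of_fintype, Fintype.sum_prod_type]
  rintro ⟨i, k⟩ ⟨i', k'⟩ h
  simpa using h

lemma nsum_hub (g : Gam a) (s : Bool) (i : Fin a) :
    ∑ᶠ y ∈ (gr a n).neighborSet (g, Cell.hub s i), f y
      = ∑ k, f (g, Cell.fat s i k) + (∑ j, f (g, thinAt s i j)
        + ∑ r, f (portCell g s i r, Cell.hub (!s) i)) := by
  have h : (gr a n).neighborSet (g, Cell.hub s i) = Set.range (hubNb (n := n) g s i) := by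
    ext y
    simp only [SimpleGraph.mem_neighborSet, adj_hub, Set.mem_range]
    constructor <;> rintro ⟨p, hp⟩ <;> exact ⟨p, hp.symm⟩
  rw [h, finsum_mem_range (hubNb_injective g s i), finsum_eq_sum_of_fintype,
    Fintype.sum_sum_type, Fintype.sum_sum_type]
  rfl

lemma nsum_fat (g : Gam a) (s : Bool) (i : Fin a) (k : Fin n) :
    ∑ᶠ y ∈ (gr a n).neighborSet (g, Cell.fat s i k), f y
      = f (g, Cell.center s) + f (g, Cell.hub s i) := by
  have h : (gr a n).neighborSet (g, Cell.fat s i k)
      = {(g, Cell.center s), (g, Cell.hub s i)} := by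
    ext y
    simp [SimpleGraph.mem_neighborSet, adj_fat]
  rw [h, finsum_mem_pair (by simp)]

lemma nsum_thin (g : Gam a) (i j : Fin a) :
    ∑ᶠ y ∈ (gr a n).neighborSet (g, Cell.thin i j), f y
      = f (g, Cell.hub false i) + f (g, Cell.hub true j) := by
  have h : (gr a n).neighborSet (g, Cell.thin i j)
      = {(g, Cell.hub false i), (g, Cell.hub true j)} := by
    ext y
    simp [SimpleGraph.mem_neighborSet, adj_thin]
  rw [h, finsum_mem_pair (by simp)]

end sums

lemma neighborSet_finite (x : Vert a n) : ((gr a n).neighborSet x).Finite := by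
  obtain ⟨g, u⟩ := x
  cases u with
  | center s =>
    refine (Set.finite_range (fun p : Fin a × Fin n =>
      ((g, Cell.fat s p.1 p.2) : Vert a n))).subset ?_
    intro y hy
    obtain ⟨p, rfl⟩ := adj_center.1 hy
    exact ⟨p, rfl⟩
  | hub s i =>
    refine (Set.finite_range (hubNb (n := n) g s i)).subset ?_
    intro y hy
    obtain ⟨p, rfl⟩ := adj_hub.1 hy
    exact ⟨p, rfl⟩
  | fat s i k =>
    refine (Set.toFinite {(g, Cell.center s), (g, Cell.hub s i)}).subset ?_
    intro y hy
    simpa using adj_fat.1 hy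
  | thin i j =>
    refine (Set.toFinite {(g, Cell.hub false i), (g, Cell.hub true j)}).subset ?_
    intro y hy
    simpa using adj_thin.1 hy

end Pool.Agent.H42
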