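import Mathlib

/-!
# Homomorphisms from congruence subgroups of `GL_2` to affine groups, built from a Euclidean function

`Dat O` collects what is used of a Euclidean ring `O` with a root of unity `w` and `s = 1 - w`;
`F` is the function of the note (think 2649, MP_0edd48_al), `LX` its key property.
-/

set_option autoImplicit false
set_option linter.unusedVariables false
set_option linter.unusedSimpArgs false
set_option linter.unusedSectionVars false

namespace Pool.Agent.H42.IADetF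

open Matrix (det_fin_two one_apply_eq one_apply_ne det_mul mul_apply)
open scoped Matrix

/-- the data: a norm, a unit `w`, the modulus `s`, the character `e` -/
structure Dat (O : Type) [CommRing O] where
  N : O → ℕ
  w : O
  w' : O
  s : O
  e : O → Oˣ
  ww : w * w' = 1
  N0 : N 0 = 0
  Nw : ∀ x, N (w * x) = N x
  eadd : ∀ a b, e (a + b) = e a * e b
  ew : ∀ a, e (w * a) = e a
  cov : ∀ x y, ¬ (s ∣ x ↔ s ∣ y) → y ≠ 0 → ∃ α, N (x + s * α * y) < N y
  ne : ∀ x y, ¬ (s ∣ x ↔ s ∣ y) → N x ≠ N y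
  sw : s ∣ w - 1
  un : ∀ a, IsUnit a → s ∣ a - 1 → ∃ i : ℕ, a = w ^ i
  su : ¬ s ∣ 1

namespace Dat

variable {O : Type} [CommRing O] (E : Dat O)

open Classical in
/-- the Euclidean function -/
noncomputable def F : O → O → O
  | x, y => if h : ∃ α, E.N (x + E.s * α * y) < E.N y then
      ((E.e h.choose)⁻¹ : Oˣ) * (1 - F y (x + E.s * h.choose * y)) else 0
termination_by x y => E.N y
decreasing_by exact h.choose_spec

/-- the key property at `y` -/
def LX (y : O) : Prop := ∀ x1 x2 β, E.N x1 < E.N y → E.N x2 < E.N y → x1 = x2 + E.s * β * y →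
  1 - E.F y x1 = (E.e β : O) * (1 - E.F y x2)

open Classical in
theorem F_eq (x y : O) : E.F x y = if h : ∃ α, E.N (x + E.s * α * y) < E.N y then
      ((E.e h.choose)⁻¹ : Oˣ) * (1 - E.F y (x + E.s * h.choose * y)) else 0 := by
  rw [F]

theorem F_zero (x : O) : E.F x 0 = 0 := by
  rw [E.F_eq, dif_neg]
  rintro ⟨α, h⟩
  rw [E.N0] at h
  omega

theorem e_zero : E.e 0 = 1 := by
  have h := E.eadd 0 0
  rw [add_zero] at h
  exact (mul_eq_left.1 h.symm)

theorem e_neg (a : O) : E.e (-a) = (E.e a)⁻¹ := by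
  have h := E.eadd a (-a)
  rw [add_neg_cancel, E.e_zero] at h
  exact (eq_inv_of_mul_eq_one_right h.symm)

theorem ei (a : O) (z : O) : (E.e a : O) * (((E.e a)⁻¹ : Oˣ) * z) = z := by
  rw [← mul_assoc, Units.mul_inv, one_mul]

theorem ie (a : O) (z : O) : (((E.e a)⁻¹ : Oˣ) : O) * ((E.e a : O) * z) = z := by
  rw [← mul_assoc, Units.inv_mul, one_mul]

theorem reduce {y : O} (hL : E.LX y) {x α : O} (h : E.N (x + E.s * α * y) < E.N y) :
    E.F x y = ((E.e α)⁻¹ : Oˣ) * (1 - E.F y (x + E.s * α * y)) := by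
  have hex : ∃ α, E.N (x + E.s * α * y) < E.N y := ⟨α, h⟩
  rw [E.F_eq x y, dif_pos hex]
  have h1 := hL (x + E.s * α * y) (x + E.s * hex.choose * y) (α - hex.choose) h hex.choose_spec
    (by ring)
  have e2 : E.e (α - hex.choose) = E.e α * (E.e hex.choose)⁻¹ := by
    rw [sub_eq_add_neg, E.eadd, E.e_neg]
  rw [h1, e2, Units.val_mul, mul_assoc (E.e α : O), E.ie]

theorem none {x y : O} (h : ¬ ∃ α, E.N (x + E.s * α * y) < E.N y) : E.F x y = 0 := by
  rw [E.F_eq, dif_neg h]

theorem shift {y : O} (hL : E.LX y) (x γ : O) : E.F (x + E.s * γ * y) y = (E.e γ : O) * E.F x y := by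
  by_cases h : ∃ α, E.N (x + E.s * α * y) < E.N y
  · obtain ⟨α, hα⟩ := h
    rw [E.reduce hL hα]
    have e1 : x + E.s * γ * y + E.s * (α - γ) * y = x + E.s * α * y := by ring
    have h2 : E.N (x + E.s * γ * y + E.s * (α - γ) * y) < E.N y := by rw [e1]; exact hα
    rw [E.reduce hL h2, e1, sub_eq_add_neg, E.eadd, E.e_neg, mul_inv, inv_inv]
    push_cast
    ring
  · rw [E.none h, E.none, mul_zero]
    rintro ⟨α, hα⟩
    apply h
    refine ⟨γ + α, ?_⟩
    have e1 : x + E.s * (γ + α) * y = x + E.s * γ * y + E.s * α * y := by ring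
    rw [e1]
    exact hα

theorem swap_lt {x y : O} (hL : E.LX y) (h : E.N x < E.N y) : E.F x y = 1 - E.F y x := by
  have h1 : E.N (x + E.s * 0 * y) < E.N y := by
    have : x + E.s * 0 * y = x := by ring
    rw [this]
    exact h
  rw [E.reduce hL h1, E.e_zero]
  have : x + E.s * 0 * y = x := by ring
  rw [this]
  simp

variable (hL : ∀ y, E.LX y)

include hL

theorem swap {x y : O} (h : ¬ (E.s ∣ x ↔ E.s ∣ y)) : E.F x y = 1 - E.F y x := by
  rcases lt_or_gt_of_ne (E.ne x y h) with h1 | h1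
  · exact E.swap_lt (hL y) h1
  · rw [E.swap_lt (hL x) h1]
    ring

theorem F_w : ∀ (n : ℕ) (y : O), E.N y = n → ∀ x, E.F (E.w * x) y = E.F x y ∧
    E.F x (E.w * y) = E.F x y := by
  intro n
  induction n using Nat.strong_induction_on with
  | _ n ih =>
    intro y hy x
    have w1 := E.ww
    by_cases h : ∃ α, E.N (x + E.s * α * y) < E.N y
    · obtain ⟨α, hα⟩ := h
      have hlt : E.N (x + E.s * α * y) < n := by rw [← hy]; exact hα
      constructor
      · have e1 : E.w * x + E.s * (E.w * α) * y = E.w * (x + E.s * α * y) := by ring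
        have h2 : E.N (E.w * x + E.s * (E.w * α) * y) < E.N y := by rw [e1, E.Nw]; exact hα
        rw [E.reduce (hL y) h2, e1, E.ew, (ih _ hlt _ rfl y).2, E.reduce (hL y) hα]
      · have e1 : x + E.s * (E.w' * α) * (E.w * y) = x + E.s * α * y := by
          linear_combination (E.s * α * y) * w1
        have h2 : E.N (x + E.s * (E.w' * α) * (E.w * y)) < E.N (E.w * y) := by
          rw [e1, E.Nw]; exact hα
        have e2 : E.e (E.w' * α) = E.e α := by
          rw [← E.ew (E.w' * α)]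
          congr 1
          linear_combination α * w1
        rw [E.reduce (hL _) h2, e1, e2, (ih _ hlt _ rfl y).1, E.reduce (hL y) hα]
    · have h1 : ¬ ∃ α, E.N (E.w * x + E.s * α * y) < E.N y := by
        rintro ⟨α, hα⟩
        apply h
        refine ⟨E.w' * α, ?_⟩
        rw [← E.Nw]
        have e1 : E.w * (x + E.s * (E.w' * α) * y) = E.w * x + E.s * α * y := by
          linear_combination (E.s * α * y) * w1
        rw [e1]
        exact hα
      have h2 : ¬ ∃ α, E.N (x + E.s * α * (E.w * y)) < E.N (E.w * y) := by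
        rintro ⟨α, hα⟩
        apply h
        refine ⟨α * E.w, ?_⟩
        rw [E.Nw] at hα
        have e1 : x + E.s * (α * E.w) * y = x + E.s * α * (E.w * y) := by ring
        rw [e1]
        exact hα
      rw [E.none h, E.none h1, E.none h2]
      exact ⟨rfl, rfl⟩

theorem F_pow (i j : ℕ) (x y : O) : E.F (E.w ^ i * x) (E.w ^ j * y) = E.F x y := by
  have h1 : ∀ i x y, E.F (E.w ^ i * x) y = E.F x y := by
    intro i
    induction i with
    | zero => intro x y; rw [pow_zero, one_mul]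
    | succ n ih =>
      intro x y
      rw [pow_succ, mul_assoc, ih, (E.F_w hL _ y rfl x).1]
  have h2 : ∀ j x y, E.F x (E.w ^ j * y) = E.F x y := by
    intro j
    induction j with
    | zero => intro x y; rw [pow_zero, one_mul]
    | succ n ih =>
      intro x y
      rw [pow_succ, mul_assoc, ih, (E.F_w hL _ y rfl x).2]
  rw [h1, h2]

omit hL in
theorem adm_of {a b c d : O} (ha : E.s ∣ a - 1) (hb : E.s ∣ b) (hc : E.s ∣ c) (hd : E.s ∣ d - 1)
    {x y : O} (h : ¬ (E.s ∣ x ↔ E.s ∣ y)) : ¬ (E.s ∣ a * x + b * y ↔ E.s ∣ c * x + d * y) := by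
  have h1 : E.s ∣ a * x + b * y ↔ E.s ∣ x := by
    have e1 : a * x + b * y = x + ((a - 1) * x + b * y) := by ring
    rw [e1]
    exact dvd_add_left (dvd_add (ha.mul_right x) (hb.mul_right y))
  have h2 : E.s ∣ c * x + d * y ↔ E.s ∣ y := by
    have e1 : c * x + d * y = y + (c * x + (d - 1) * y) := by ring
    rw [e1]
    exact dvd_add_left (dvd_add (hc.mul_right x) (hd.mul_right y))
  rw [h1, h2]
  exact h

/-- every good matrix acts on the values of `F` by an affine map -/
theorem affine : ∀ (n : ℕ) (a b c d : O), E.N a + E.N c ≤ n → IsUnit (a * d - b * c) →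
    E.s ∣ a - 1 → E.s ∣ b → E.s ∣ c → E.s ∣ d - 1 →
    ∃ (u : Oˣ) (τ : O), ∀ x y, ¬ (E.s ∣ x ↔ E.s ∣ y) →
      E.F (a * x + b * y) (c * x + d * y) = u * E.F x y + τ := by
  intro n
  induction n with
  | zero =>
    intro a b c d hn hu ha hb hc hd
    exfalso
    have hac : ¬ (E.s ∣ a ↔ E.s ∣ c) := by
      intro h
      have h1 := h.2 hc
      have h2 := dvd_sub h1 ha
      rw [sub_sub_cancel] at h2
      exact E.su h2
    exact E.ne a c hac (by omega)
  | succ n ih =>
    intro a b c d hn hu ha hb hc hd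
    have hna : ¬ E.s ∣ a := by
      intro h
      have h2 := dvd_sub h ha
      rw [sub_sub_cancel] at h2
      exact E.su h2
    by_cases hc0 : c = 0
    · subst hc0
      rw [mul_zero, sub_zero] at hu
      obtain ⟨hua, hud⟩ := (Commute.all a d).isUnit_mul_iff.1 hu
      obtain ⟨i, hi⟩ := E.un a hua ha
      obtain ⟨j, hj⟩ := E.un d hud hd
      obtain ⟨b', hb'⟩ := hb
      have wi : ∀ i : ℕ, E.w ^ i * E.w' ^ i = 1 := fun i => by rw [← mul_pow, E.ww, one_pow]
      refine ⟨E.e (E.w' ^ i * b'), 0, fun x y _ => ?_⟩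
      have e1 : a * x + b * y = E.w ^ i * (x + E.s * (E.w' ^ i * b') * y) := by
        rw [hi, hb']
        linear_combination -(E.s * b' * y) * wi i
      rw [e1, zero_mul, zero_add, hj, E.F_pow hL, E.shift (hL y), add_zero]
    · have hac : ¬ (E.s ∣ a ↔ E.s ∣ c) := fun h => hna (h.2 hc)
      rcases lt_or_gt_of_ne (E.ne a c hac) with hlt | hlt
      · -- reduce `c` by `a`
        have ha0 : a ≠ 0 := by
          rintro rfl
          exact hna (dvd_zero _)
        obtain ⟨α, hα⟩ := E.cov c a (fun h => hac h.symm) ha0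
        obtain ⟨u, τ, h⟩ := ih a b (c + E.s * α * a) (d + E.s * α * b) (by omega)
          (by
            have e1 : a * (d + E.s * α * b) - b * (c + E.s * α * a) = a * d - b * c := by ring
            rw [e1]; exact hu) ha hb
          (dvd_add hc ((Dvd.intro _ rfl : E.s ∣ E.s * (α * a)) |> fun h => by rwa [mul_assoc]))
          (by
            have e1 : d + E.s * α * b - 1 = (d - 1) + E.s * (α * b) := by ring
            rw [e1]; exact dvd_add hd (Dvd.intro _ rfl))
        refine ⟨(E.e α)⁻¹ * u, 1 - ((E.e α)⁻¹ : Oˣ) * (1 - τ), fun x y hxy => ?_⟩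
        have h1 := h x y hxy
        have hadm := E.adm_of ha hb hc hd hxy
        have e1 : (c + E.s * α * a) * x + (d + E.s * α * b) * y =
            (c * x + d * y) + E.s * α * (a * x + b * y) := by ring
        rw [e1] at h1
        have hadm2 : ¬ (E.s ∣ a * x + b * y ↔
            E.s ∣ (c * x + d * y) + E.s * α * (a * x + b * y)) := by
          have h3 : E.s ∣ (c * x + d * y) + E.s * α * (a * x + b * y) ↔ E.s ∣ c * x + d * y := by
            rw [mul_assoc]
            exact dvd_add_left (Dvd.intro _ rfl)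
          rw [h3]
          exact hadm
        rw [E.swap hL hadm2, E.shift (hL _)] at h1
        rw [E.swap hL hadm]
        have h4 : E.F (c * x + d * y) (a * x + b * y) =
            ((E.e α)⁻¹ : Oˣ) * (1 - (u * E.F x y + τ)) := by
          rw [← h1, sub_sub_cancel, E.ie]
        rw [h4]
        push_cast
        ring
      · -- reduce `a` by `c`
        obtain ⟨α, hα⟩ := E.cov a c hac hc0
        obtain ⟨u, τ, h⟩ := ih (a + E.s * α * c) (b + E.s * α * d) c d (by omega)
          (by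
            have e1 : (a + E.s * α * c) * d - (b + E.s * α * d) * c = a * d - b * c := by ring
            rw [e1]; exact hu)
          (by
            have e1 : a + E.s * α * c - 1 = (a - 1) + E.s * (α * c) := by ring
            rw [e1]; exact dvd_add ha (Dvd.intro _ rfl))
          (dvd_add hb ((Dvd.intro _ rfl : E.s ∣ E.s * (α * d)) |> fun h => by rwa [mul_assoc]))
          hc hd
        refine ⟨(E.e α)⁻¹ * u, ((E.e α)⁻¹ : Oˣ) * τ, fun x y hxy => ?_⟩
        have h1 := h x y hxy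
        have e1 : (a + E.s * α * c) * x + (b + E.s * α * d) * y =
            (a * x + b * y) + E.s * α * (c * x + d * y) := by ring
        rw [e1, E.shift (hL _)] at h1
        have h4 : E.F (a * x + b * y) (c * x + d * y) =
            ((E.e α)⁻¹ : Oˣ) * (u * E.F x y + τ) := by
          rw [← h1, E.ie]
        rw [h4]
        push_cast
        ring

omit hL in
/-- an affine bijection -/
def aff (u : Oˣ) (τ : O) : Equiv.Perm O where
  toFun z := u * z + τ
  invFun z := (u⁻¹ : Oˣ) * (z - τ)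
  left_inv z := by simp
  right_inv z := by simp

/-- good matrices -/
def Good (M : Matrix (Fin 2) (Fin 2) O) : Prop :=
  IsUnit M.det ∧ ∀ i j, E.s ∣ M i j - (1 : Matrix (Fin 2) (Fin 2) O) i j

/-- `M` acts by the affine map `(u, τ)` -/
def Act (M : Matrix (Fin 2) (Fin 2) O) (p : Oˣ × O) : Prop :=
  ∀ x y, ¬ (E.s ∣ x ↔ E.s ∣ y) →
    E.F (M 0 0 * x + M 0 1 * y) (M 1 0 * x + M 1 1 * y) = p.1 * E.F x y + p.2

omit hL in
theorem Good.ent {M : Matrix (Fin 2) (Fin 2) O} (h : E.Good M) : E.s ∣ M 0 0 - 1 ∧ E.s ∣ M 0 1 ∧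
    E.s ∣ M 1 0 ∧ E.s ∣ M 1 1 - 1 := by
  have h00 := h.2 0 0
  have h01 := h.2 0 1
  have h10 := h.2 1 0
  have h11 := h.2 1 1
  simp only [one_apply_eq, ne_eq, zero_ne_one, one_ne_zero, not_false_eq_true, one_apply_ne,
    sub_zero] at h00 h01 h10 h11
  exact ⟨h00, h01, h10, h11⟩

theorem Good.act {M : Matrix (Fin 2) (Fin 2) O} (h : E.Good M) : ∃ p, E.Act M p := by
  obtain ⟨h1, h2, h3, h4⟩ := Good.ent E h
  have hu := h.1
  rw [det_fin_two] at hu
  obtain ⟨u, τ, hh⟩ := E.affine hL _ _ _ _ _ le_rfl hu h1 h2 h3 h4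
  exact ⟨(u, τ), hh⟩


omit hL in
theorem adm10 : ¬ (E.s ∣ (1 : O) ↔ E.s ∣ (0 : O)) := fun h => E.su (h.2 (dvd_zero _))

omit hL in
theorem adm01 : ¬ (E.s ∣ (0 : O) ↔ E.s ∣ (1 : O)) := fun h => E.su (h.1 (dvd_zero _))

theorem F_zero_one : E.F 0 1 = 1 := by
  rw [E.swap hL E.adm01, E.F_zero, sub_zero]

theorem act_unique {M : Matrix (Fin 2) (Fin 2) O} {p q : Oˣ × O} (hp : E.Act M p)
    (hq : E.Act M q) : p = q := by
  have h1 := (hp 1 0 E.adm10).symm.trans (hq 1 0 E.adm10)
  have h2 := (hp 0 1 E.adm01).symm.trans (hq 0 1 E.adm01)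
  rw [E.F_zero] at h1
  rw [E.F_zero_one hL] at h2
  have h3 : p.2 = q.2 := by simpa using h1
  have h4 : (p.1 : O) = q.1 := by
    rw [h3] at h2
    simpa using h2
  exact Prod.ext (Units.ext h4) h3

open Classical in
/-- the affine map of a matrix -/
noncomputable def psi (M : Matrix (Fin 2) (Fin 2) O) : Equiv.Perm O :=
  if h : ∃ p, E.Act M p then aff h.choose.1 h.choose.2 else 1

theorem psi_eq {M : Matrix (Fin 2) (Fin 2) O} {p : Oˣ × O} (hp : E.Act M p) :
    E.psi M = aff p.1 p.2 := by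
  have h : ∃ p, E.Act M p := ⟨p, hp⟩
  unfold psi
  rw [dif_pos h, E.act_unique hL h.choose_spec hp]

omit hL in
theorem Good.mul {M M' : Matrix (Fin 2) (Fin 2) O} (h : E.Good M) (h' : E.Good M') :
    E.Good (M * M') := by
  refine ⟨by rw [det_mul]; exact h.1.mul h'.1, fun i j => ?_⟩
  have e1 : (M * M') i j - (1 : Matrix (Fin 2) (Fin 2) O) i j =
      ((M - 1) * M') i j + (M' i j - (1 : Matrix (Fin 2) (Fin 2) O) i j) := by
    rw [Matrix.sub_mul, Matrix.one_mul, Matrix.sub_apply]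
    ring
  rw [e1]
  refine dvd_add ?_ (h'.2 i j)
  rw [Matrix.mul_apply]
  exact Finset.dvd_sum fun k _ => Dvd.dvd.mul_right (h.2 i k) _

theorem psi_mul {M M' : Matrix (Fin 2) (Fin 2) O} (h : E.Good M) (h' : E.Good M') :
    E.psi (M * M') = E.psi M * E.psi M' := by
  obtain ⟨p, hp⟩ := Good.act E hL h
  obtain ⟨q, hq⟩ := Good.act E hL h'
  obtain ⟨a1, a2, a3, a4⟩ := Good.ent E h'
  have hpq : E.Act (M * M') (p.1 * q.1, p.1 * q.2 + p.2) := by
    intro x y hxy
    have k1 := hp _ _ (E.adm_of a1 a2 a3 a4 hxy)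
    rw [hq x y hxy] at k1
    have e1 : (M * M') 0 0 * x + (M * M') 0 1 * y =
        M 0 0 * (M' 0 0 * x + M' 0 1 * y) + M 0 1 * (M' 1 0 * x + M' 1 1 * y) := by
      simp only [mul_apply, Fin.sum_univ_two]
      ring
    have e2 : (M * M') 1 0 * x + (M * M') 1 1 * y =
        M 1 0 * (M' 0 0 * x + M' 0 1 * y) + M 1 1 * (M' 1 0 * x + M' 1 1 * y) := by
      simp only [mul_apply, Fin.sum_univ_two]
      ring
    rw [e1, e2, k1]
    push_cast
    ring
  rw [E.psi_eq hL hpq, E.psi_eq hL hp, E.psi_eq hL hq]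
  ext z
  simp only [aff, Equiv.Perm.coe_mul, Function.comp_apply, Equiv.coe_fn_mk, Units.val_mul]
  ring

theorem psi_diag (i j : ℕ) : E.psi !![E.w ^ i, 0; 0, E.w ^ j] = 1 := by
  have hp : E.Act !![E.w ^ i, 0; 0, E.w ^ j] (1, 0) := by
    intro x y _
    simp [E.F_pow hL]
  rw [E.psi_eq hL hp]
  ext z
  simp [aff]

theorem psi_upper (α z : O) : E.psi !![1, E.s * α; 0, 1] z = E.e α * z := by
  have hp : E.Act !![1, E.s * α; 0, 1] (E.e α, 0) := by
    intro x y _
    have := E.shift (hL y) x α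
    simpa using this
  rw [E.psi_eq hL hp]
  simp [aff]

theorem psi_lower (α z : O) : E.psi !![1, 0; E.s * α, 1] z = 1 + E.e α * (z - 1) := by
  have hp : E.Act !![1, 0; E.s * α, 1] (E.e α, 1 - E.e α) := by
    intro x y hxy
    have h1 := E.shift (hL x) y α
    have e1 : y + E.s * α * x = E.s * α * x + y := by ring
    have hadm : ¬ (E.s ∣ x ↔ E.s ∣ E.s * α * x + y) := by
      have h3 : E.s ∣ E.s * α * x + y ↔ E.s ∣ y := by
        rw [mul_assoc]
        exact dvd_add_right (Dvd.intro _ rfl)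
      rw [h3]
      exact hxy
    have h2 : E.F x (E.s * α * x + y) = (E.e α : O) * E.F x y + (1 - E.e α) := by
      rw [E.swap hL hadm, ← e1, h1, E.swap hL (fun h => hxy h.symm)]
      ring
    simpa using h2
  rw [E.psi_eq hL hp]
  simp only [aff, Equiv.coe_fn_mk]
  ring

theorem exists_psi : ∃ ψ : Matrix (Fin 2) (Fin 2) O → Equiv.Perm O,
    (∀ M N, E.Good M → E.Good N → ψ (M * N) = ψ M * ψ N) ∧
    (∀ i j : ℕ, ψ !![E.w ^ i, 0; 0, E.w ^ j] = 1) ∧
    (∀ α z, ψ !![1, E.s * α; 0, 1] z = E.e α * z) ∧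
    (∀ α z, ψ !![1, 0; E.s * α, 1] z = 1 + E.e α * (z - 1)) :=
  ⟨E.psi, fun _ _ h h' => E.psi_mul hL h h', E.psi_diag hL, E.psi_upper hL, E.psi_lower hL⟩

end Dat

/-! ## Eisenstein integers -/

/-- `ω² = -1 - ω` -/
abbrev O := QuadraticAlgebra ℤ (-1) (-1)

/-- the cube root of unity -/
def ω : O := ⟨0, 1⟩

/-- the prime above `3` -/
def s : O := 1 - ω

open QuadraticAlgebra (re_mul im_mul re_add im_add re_sub im_sub re_neg im_neg re_C im_C)

private lemma re1 : (1 : O).re = 1 := rfl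
private lemma im1 : (1 : O).im = 0 := rfl
private lemma reω : ω.re = 0 := rfl
private lemma imω : ω.im = 1 := rfl
private lemma res : s.re = 1 := rfl
private lemma ims : s.im = -1 := rfl

/-- the norm -/
def nm (z : O) : ℤ := z.re ^ 2 - z.re * z.im + z.im ^ 2

/-- the conjugate -/
def cj (z : O) : O := ⟨z.re - z.im, -z.im⟩

theorem nm_nonneg (z : O) : 0 ≤ nm z := by
  unfold nm
  nlinarith [sq_nonneg (2 * z.re - z.im), sq_nonneg z.im]

theorem nm_mul (x y : O) : nm (x * y) = nm x * nm y := by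
  unfold nm
  simp only [re_mul, im_mul]
  ring

theorem nm_cj (x : O) : nm (cj x) = nm x := by
  unfold nm cj
  simp only
  ring

theorem mul_cj (x : O) : x * cj x = QuadraticAlgebra.C (nm x) := by
  ext
  · simp only [re_mul, cj, nm, re_C]
    ring
  · simp only [im_mul, cj, im_C]
    ring

theorem nm_eq_zero {x : O} (h : nm x = 0) : x = 0 := by
  unfold nm at h
  have h1 : x.im = 0 := by nlinarith [sq_nonneg (2 * x.re - x.im), sq_nonneg x.im]
  rw [h1] at h
  have h2 : x.re = 0 := by nlinarith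
  exact QuadraticAlgebra.ext h2 h1

theorem nm_zero : nm 0 = 0 := rfl
theorem nm_s : nm s = 3 := rfl
theorem nm_ω : nm ω = 1 := rfl
theorem nm_neg (x : O) : nm (-x) = nm x := by
  unfold nm
  simp only [re_neg, im_neg]
  ring

theorem nm_pos {x : O} (h : x ≠ 0) : 0 < nm x :=
  lt_of_le_of_ne (nm_nonneg x) fun e => h (nm_eq_zero e.symm)

instance : NoZeroDivisors O := ⟨fun {x y} h => by
  have h1 : nm x * nm y = 0 := by rw [← nm_mul, h, nm_zero]
  rcases mul_eq_zero.1 h1 with h2 | h2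
  · exact Or.inl (nm_eq_zero h2)
  · exact Or.inr (nm_eq_zero h2)⟩

instance : Nontrivial O := ⟨0, 1, fun h => by
  have := congrArg QuadraticAlgebra.re h
  simp [re1] at this⟩

instance : IsDomain O := NoZeroDivisors.to_isDomain O

theorem s_ne_zero : s ≠ 0 := fun h => by
  have := congrArg QuadraticAlgebra.re h
  simp [res] at this

theorem s_mul_eq_zero {x : O} (h : s * x = 0) : x = 0 := (mul_eq_zero.1 h).resolve_left s_ne_zero

theorem s_dvd (x : O) : s ∣ x ↔ 3 ∣ x.re + x.im := by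
  constructor
  · rintro ⟨y, rfl⟩
    refine ⟨y.im, ?_⟩
    simp only [re_mul, im_mul, res, ims]
    ring
  · rintro ⟨k, hk⟩
    refine ⟨⟨x.re - k, k⟩, ?_⟩
    ext
    · simp only [re_mul, res, ims]
      ring
    · simp only [im_mul, res, ims]
      linarith

theorem three_dvd_nm (x : O) : 3 ∣ nm x ↔ s ∣ x := by
  rw [s_dvd]
  have e1 : nm x = (x.re + x.im) ^ 2 - 3 * (x.re * x.im) := by unfold nm; ring
  rw [e1]
  constructor
  · intro h
    have h2 : (3 : ℤ) ∣ (x.re + x.im) ^ 2 := by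
      have := dvd_add h (Dvd.intro (x.re * x.im) rfl : (3 : ℤ) ∣ 3 * (x.re * x.im))
      rwa [sub_add_cancel] at this
    exact Int.prime_three.dvd_of_dvd_pow h2
  · intro h
    exact dvd_sub (dvd_pow h (by norm_num)) (Dvd.intro _ rfl)

theorem nm_ne {x y : O} (h : ¬ (s ∣ x ↔ s ∣ y)) : nm x ≠ nm y := by
  intro e
  apply h
  rw [← three_dvd_nm, ← three_dvd_nm, e]

private lemma tri_aux (a b M : ℤ) (hM : 0 < M) (hb : 0 ≤ b) (hba : b ≤ a) (ha : a ≤ M) :
    3 * (a ^ 2 - a * b + b ^ 2) ≤ M ^ 2 ∨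
      3 * ((a - M) ^ 2 - (a - M) * b + b ^ 2) ≤ M ^ 2 ∨
      3 * ((a - M) ^ 2 - (a - M) * (b - M) + (b - M) ^ 2) ≤ M ^ 2 := by
  by_contra hcon
  push Not at hcon
  obtain ⟨h0, h1, h2⟩ := hcon
  have g0 := mul_nonneg (by linarith : 0 ≤ M - a)
    (by linarith : 0 ≤ 3 * (a ^ 2 - a * b + b ^ 2) - M ^ 2 - 1)
  have g1 := mul_nonneg (by linarith : 0 ≤ a - b)
    (by linarith : 0 ≤ 3 * ((a - M) ^ 2 - (a - M) * b + b ^ 2) - M ^ 2 - 1)
  have g2 := mul_nonneg (by linarith : 0 ≤ b)
    (by linarith : 0 ≤ 3 * ((a - M) ^ 2 - (a - M) * (b - M) + (b - M) ^ 2) - M ^ 2 - 1)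
  have g3 := mul_nonneg hM.le (sq_nonneg ((M - a) - (a - b)))
  have g4 := mul_nonneg hM.le (sq_nonneg ((a - b) - b))
  have g5 := mul_nonneg hM.le (sq_nonneg ((M - a) - b))
  nlinarith

private lemma hex_aux (a b M : ℤ) (hM : 0 < M) : ∃ i j : ℤ,
    3 * ((a + M * i) ^ 2 - (a + M * i) * (b + M * j) + (b + M * j) ^ 2) ≤ M ^ 2 := by
  have ha := Int.emod_nonneg a hM.ne'
  have hb := Int.emod_nonneg b hM.ne'
  have ha' := Int.emod_lt_of_pos a hM
  have hb' := Int.emod_lt_of_pos b hM
  have ea : a % M = a + M * (-(a / M)) := by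
    have := Int.emod_add_mul_ediv a M
    linarith
  have eb : b % M = b + M * (-(b / M)) := by
    have := Int.emod_add_mul_ediv b M
    linarith
  rcases le_total (b % M) (a % M) with h | h
  · rcases tri_aux (a % M) (b % M) M hM hb h ha'.le with k | k | k
    · refine ⟨-(a / M), -(b / M), ?_⟩
      rw [← ea, ← eb]
      exact k
    · refine ⟨-(a / M) - 1, -(b / M), ?_⟩
      have e1 : a + M * (-(a / M) - 1) = a % M - M := by rw [ea]; ring
      rw [e1, ← eb]
      exact k
    · refine ⟨-(a / M) - 1, -(b / M) - 1, ?_⟩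
      have e1 : a + M * (-(a / M) - 1) = a % M - M := by rw [ea]; ring
      have e2 : b + M * (-(b / M) - 1) = b % M - M := by rw [eb]; ring
      rw [e1, e2]
      exact k
  · rcases tri_aux (b % M) (a % M) M hM ha h hb'.le with k | k | k
    · refine ⟨-(a / M), -(b / M), ?_⟩
      rw [← ea, ← eb]
      linarith
    · refine ⟨-(a / M), -(b / M) - 1, ?_⟩
      have e2 : b + M * (-(b / M) - 1) = b % M - M := by rw [eb]; ring
      rw [e2, ← ea]
      linarith
    · refine ⟨-(a / M) - 1, -(b / M) - 1, ?_⟩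
      have e1 : a + M * (-(a / M) - 1) = a % M - M := by rw [ea]; ring
      have e2 : b + M * (-(b / M) - 1) = b % M - M := by rw [eb]; ring
      rw [e1, e2]
      linarith

theorem covering {x y : O} (h : ¬ (s ∣ x ↔ s ∣ y)) (hy : y ≠ 0) :
    ∃ α, nm (x + s * α * y) < nm y := by
  have hpos := nm_pos hy
  have hD : nm (s * y) = 3 * nm y := by rw [nm_mul, nm_s]
  set M := 3 * nm y with hM
  obtain ⟨i, j, hij⟩ := hex_aux (x * cj (s * y)).re (x * cj (s * y)).im M (by linarith)
  refine ⟨⟨i, j⟩, ?_⟩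
  have e1 : (x + s * ⟨i, j⟩ * y) * cj (s * y) = x * cj (s * y) + ⟨i, j⟩ * QuadraticAlgebra.C M := by
    rw [← hD, ← mul_cj]
    ring
  have e2 : nm (x + s * ⟨i, j⟩ * y) * M = nm (x * cj (s * y) + ⟨i, j⟩ * QuadraticAlgebra.C M) := by
    rw [← e1, nm_mul, nm_cj, hD]
  have e3 : nm (x * cj (s * y) + ⟨i, j⟩ * QuadraticAlgebra.C M) =
      ((x * cj (s * y)).re + M * i) ^ 2 -
      ((x * cj (s * y)).re + M * i) * ((x * cj (s * y)).im + M * j) +
        ((x * cj (s * y)).im + M * j) ^ 2 := by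
    unfold nm
    simp only [re_add, im_add, re_mul (⟨i, j⟩ : O), im_mul (⟨i, j⟩ : O), re_C, im_C]
    ring
  have e4 : 3 * (nm (x + s * ⟨i, j⟩ * y) * M) ≤ M ^ 2 := by
    rw [e2, e3]
    exact hij
  have hle : nm (x + s * ⟨i, j⟩ * y) ≤ nm y := by
    by_contra hcon
    push Not at hcon
    nlinarith
  refine lt_of_le_of_ne hle (nm_ne ?_)
  have h3 : s ∣ x + s * ⟨i, j⟩ * y ↔ s ∣ x := by
    rw [mul_assoc]
    exact dvd_add_left (Dvd.intro _ rfl)
  rw [h3]
  exact h

/-- `ω` as a unit -/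
def W : Oˣ where
  val := ω
  inv := ⟨-1, -1⟩
  val_inv := by ext <;> simp [re_mul, im_mul, reω, imω, re1, im1]
  inv_val := by ext <;> simp [re_mul, im_mul, reω, imω, re1, im1]

theorem W_cube : W ^ 3 = 1 := by
  refine Units.ext ?_
  rw [Units.val_pow_eq_pow_val]
  show ω ^ 3 = 1
  ext <;> simp [pow_succ, re_mul, im_mul, reω, imω, re1, im1]

/-- the character -/
def e (α : O) : Oˣ := W ^ (α.re + α.im)

theorem W_add_three (k l : ℤ) : W ^ (k + 3 * l) = W ^ k := by
  rw [_root_.zpow_add, _root_.zpow_mul]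
  have : W ^ (3 : ℤ) = 1 := by exact_mod_cast W_cube
  rw [this, _root_.one_zpow, mul_one]

theorem e_add (a b : O) : e (a + b) = e a * e b := by
  unfold e
  rw [← _root_.zpow_add]
  congr 1
  simp only [re_add, im_add]
  ring

theorem e_ω (a : O) : e (ω * a) = e a := by
  unfold e
  rw [← W_add_three (a.re + a.im) (-a.im)]
  congr 1
  simp only [re_mul, im_mul, reω, imω]
  ring

theorem e_cj (a : O) : e (cj a) = e a := by
  unfold e cj
  rw [← W_add_three (a.re + a.im) (-a.im)]
  congr 1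
  simp only
  ring

theorem e_root {a : O} (h : ¬ s ∣ a) : ((e a : O)) ^ 2 + (e a : O) + 1 = 0 := by
  rw [s_dvd] at h
  have h3 : (a.re + a.im) % 3 = 1 ∨ (a.re + a.im) % 3 = 2 := by omega
  have e1 : a.re + a.im = (a.re + a.im) % 3 + 3 * ((a.re + a.im) / 3) := by omega
  unfold e
  rw [e1, W_add_three]
  rcases h3 with h3 | h3
  · rw [h3, zpow_one]
    show ω ^ 2 + ω + 1 = 0
    ext <;> simp [pow_succ, re_mul, im_mul, reω, imω, re1, im1]
  · rw [h3]
    have : W ^ (2 : ℤ) = W ^ (2 : ℕ) := by norm_cast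
    rw [this, Units.val_pow_eq_pow_val]
    show (ω ^ 2) ^ 2 + ω ^ 2 + 1 = 0
    ext <;> simp [pow_succ, re_mul, im_mul, reω, imω, re1, im1]

theorem isUnit_nm {a : O} (h : IsUnit a) : nm a = 1 := by
  obtain ⟨b, hb⟩ := h.exists_right_inv
  have h1 : nm a * nm b = 1 := by rw [← nm_mul, hb]; rfl
  have h2 := nm_nonneg a
  exact Int.eq_one_of_mul_eq_one_right h2 h1

theorem unit_pow (a : O) (h : IsUnit a) (h1 : s ∣ a - 1) : ∃ i : ℕ, a = ω ^ i := by
  have hn := isUnit_nm h
  rw [s_dvd] at h1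
  simp only [re_sub, im_sub, re1, im1] at h1
  unfold nm at hn
  have b1 : a.im ≤ 1 := by nlinarith [sq_nonneg (2 * a.re - a.im)]
  have b2 : -1 ≤ a.im := by nlinarith [sq_nonneg (2 * a.re - a.im)]
  have b3 : a.re ≤ 1 := by nlinarith [sq_nonneg (2 * a.im - a.re)]
  have b4 : -1 ≤ a.re := by nlinarith [sq_nonneg (2 * a.im - a.re)]
  obtain ⟨p, q⟩ := a
  simp only at *
  interval_cases p <;> interval_cases q <;> first | omega | skip
  · refine ⟨2, ?_⟩
    ext <;> simp [pow_succ, re_mul, im_mul, reω, imω, re1, im1]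
  · refine ⟨1, ?_⟩
    rw [pow_one]; rfl
  · refine ⟨0, ?_⟩
    rw [pow_zero]; rfl

/-- the Eisenstein data -/
def eis : Dat O where
  N z := (nm z).toNat
  w := ω
  w' := ω ^ 2
  s := s
  e := e
  ww := by
    have := congrArg Units.val W_cube
    rw [Units.val_pow_eq_pow_val] at this
    have h2 : ω ^ 3 = 1 := this
    rw [← pow_succ']
    exact h2
  N0 := rfl
  Nw x := by rw [nm_mul, nm_ω, one_mul]
  eadd := e_add
  ew := e_ω
  cov x y h hy := by
    obtain ⟨α, hα⟩ := covering h hy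
    refine ⟨α, ?_⟩
    have := nm_nonneg (x + s * α * y)
    omega
  ne x y h := by
    have h1 := nm_ne h
    have := nm_nonneg x
    have := nm_nonneg y
    omega
  sw := ⟨-1, by unfold s; ring⟩
  un := unit_pow
  su := by
    rw [s_dvd]
    simp [re1, im1]

private lemma N_lt {x y : O} : eis.N x < eis.N y ↔ nm x < nm y := by
  have := nm_nonneg x
  have := nm_nonneg y
  show (nm x).toNat < (nm y).toNat ↔ _
  omega

theorem eis_LX : ∀ (n : ℕ) (y : O), eis.N y = n → eis.LX y := by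
  intro n
  induction n using Nat.strong_induction_on with
  | _ n ih =>
    intro y hy x1 x2 β h1 h2 h12
    have ih' : ∀ z : O, nm z < nm y → eis.LX z := fun z hz =>
      ih _ (by rw [← hy]; exact N_lt.2 hz) z rfl
    rw [N_lt] at h1 h2
    have h12' : x1 = x2 + s * β * y := h12
    have n1 := nm_nonneg x1
    have n2 := nm_nonneg x2
    have nβ := nm_nonneg β
    -- the parallelogram
    have p0 : nm (x1 - x2) = 2 * nm x1 + 2 * nm x2 - nm (x1 + x2) := by
      unfold nm
      simp only [re_add, im_add, re_sub, im_sub]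
      ring
    have p1 : nm (x1 - x2) = 3 * nm β * nm y := by
      have : x1 - x2 = s * β * y := by rw [h12']; ring
      rw [this, nm_mul, nm_mul, nm_s]
    have p2 := nm_nonneg (x1 + x2)
    have hβ1 : nm β ≤ 1 := by
      by_contra hcon
      push Not at hcon
      nlinarith
    rcases Int.lt_or_eq_of_le hβ1 with hβ | hβ
    · have hβ0 : β = 0 := nm_eq_zero (by omega)
      subst hβ0
      have : x1 = x2 := by rw [h12']; ring
      rw [this, eis.e_zero]
      simp
    · -- `β` is a unit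
      have hβc : β * cj β = 1 := by
        rw [mul_cj, hβ]
        rfl
      have hs : s * s * ω ^ 2 = -3 := by
        ext <;> simp [pow_succ, re_mul, im_mul, reω, imω, res, ims, re1, im1] <;> rfl
      set α1 : O := ω ^ 2 * cj β with hα1
      have eα : e α1 = e β := by
        rw [hα1, pow_two, mul_assoc, e_ω, e_ω, e_cj]
      have ksb : s * β * (s * α1) = -3 := by
        rw [hα1]
        linear_combination (s * s * ω ^ 2) * hβc + hs
      set y1 := y + s * α1 * x1 with hy1
      set y2 := y + s * (-α1) * x2 with hy2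
      have i1 : x1 + s * β * y1 = -(x1 + x2) := by
        rw [hy1]
        linear_combination x1 * ksb - h12'
      have i2 : x2 + s * (-β) * y2 = -(x1 + x2) := by
        rw [hy2]
        linear_combination x2 * ksb + h12'
      have i3 : y2 = y1 + s * α1 * (-(x1 + x2)) := by
        rw [hy1, hy2]
        ring
      have q1 : 3 * nm y1 = 2 * nm x1 - nm x2 + 2 * nm (x1 + x2) := by
        have a1 : s * β * y1 = -(x1 + x2) - x1 := by linear_combination i1
        have a2 : nm (s * β * y1) = 3 * nm y1 := by rw [nm_mul, nm_mul, nm_s, hβ]; ring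
        rw [← a2, a1]
        unfold nm
        simp only [re_add, im_add, re_sub, im_sub, re_neg, im_neg]
        ring
      have q2 : 3 * nm y2 = 2 * nm x2 - nm x1 + 2 * nm (x1 + x2) := by
        have a1 : s * (-β) * y2 = -(x1 + x2) - x2 := by linear_combination i2
        have a2 : nm (s * (-β) * y2) = 3 * nm y2 := by
          rw [nm_mul, nm_mul, nm_s, nm_neg, hβ]; ring
        rw [← a2, a1]
        unfold nm
        simp only [re_add, im_add, re_sub, im_sub, re_neg, im_neg]
        ring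
      rw [hβ] at p1
      have hm : nm (-(x1 + x2)) = nm (x1 + x2) := nm_neg _
      have r1 : nm y1 < nm x1 := by linarith
      have r2 : nm y2 < nm x2 := by linarith
      have r3 : nm (x1 + x2) < nm y1 := by linarith
      have r4 : nm (x1 + x2) < nm y2 := by linarith
      -- the reductions
      have c1 : eis.F y x1 = ((e α1)⁻¹ : Oˣ) * (1 - eis.F x1 y1) :=
        eis.reduce (ih' x1 h1) (N_lt.2 r1)
      have c2 : eis.F x1 y1 = ((e β)⁻¹ : Oˣ) * (1 - eis.F y1 (-(x1 + x2))) := by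
        have := eis.reduce (ih' y1 (by linarith)) (x := x1) (α := β)
          (N_lt.2 (show nm (x1 + s * β * y1) < nm y1 by rw [i1, hm]; exact r3))
        rw [this]
        show ((e β)⁻¹ : Oˣ) * (1 - eis.F y1 (x1 + s * β * y1)) = _
        rw [i1]
      have c3 : eis.F y x2 = ((e (-α1))⁻¹ : Oˣ) * (1 - eis.F x2 y2) :=
        eis.reduce (ih' x2 h2) (N_lt.2 r2)
      have c4 : eis.F x2 y2 = ((e (-β))⁻¹ : Oˣ) * (1 - eis.F y2 (-(x1 + x2))) := by
        have := eis.reduce (ih' y2 (by linarith)) (x := x2) (α := -β)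
          (N_lt.2 (show nm (x2 + s * (-β) * y2) < nm y2 by rw [i2, hm]; exact r4))
        rw [this]
        show ((e (-β))⁻¹ : Oˣ) * (1 - eis.F y2 (x2 + s * (-β) * y2)) = _
        rw [i2]
      have c5 : eis.F y2 (-(x1 + x2)) = (e α1 : O) * eis.F y1 (-(x1 + x2)) := by
        rw [i3]
        exact eis.shift (ih' _ (by rw [hm]; linarith)) y1 α1
      have en : ∀ a : O, e (-a) = (e a)⁻¹ := eis.e_neg
      rw [en, inv_inv, eα] at c3
      rw [en, inv_inv] at c4
      rw [eα] at c1 c5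
      have hroot : ((e β : O)) ^ 2 + (e β : O) + 1 = 0 := by
        refine e_root fun hd => ?_
        rw [← three_dvd_nm, hβ] at hd
        norm_num at hd
      have hinv : (((e β)⁻¹ : Oˣ) : O) = -1 - (e β : O) := by
        have h3 : (((e β)⁻¹ : Oˣ) : O) * (e β : O) = 1 := Units.inv_mul _
        linear_combination (((e β)⁻¹ : Oˣ) : O) * hroot - ((e β : O) + 1) * h3
      show 1 - eis.F y x1 = (e β : O) * (1 - eis.F y x2)
      rw [c1, c2, c3, c4, c5, hinv]
      linear_combination ((-(e β : O) + 3) +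
        eis.F y1 (-(x1 + x2)) * ((e β : O) ^ 2 - (e β : O) - 1)) * hroot

/-- good matrices over the Eisenstein integers -/
def Good (M : Matrix (Fin 2) (Fin 2) O) : Prop :=
  IsUnit M.det ∧ ∀ i j, s ∣ M i j - (1 : Matrix (Fin 2) (Fin 2) O) i j

/-- **Module F.** -/
theorem exists_psi : ∃ ψ : Matrix (Fin 2) (Fin 2) O → Equiv.Perm O,
    (∀ M N, Good M → Good N → ψ (M * N) = ψ M * ψ N) ∧
    (∀ i j : ℕ, ψ !![ω ^ i, 0; 0, ω ^ j] = 1) ∧
    (∀ z, ψ !![1, s; 0, 1] z = ω * z) ∧ (∀ z, ψ !![1, 0; s, 1] z = 1 + ω * (z - 1)) := by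
  obtain ⟨ψ, h1, h2, h3, h4⟩ := eis.exists_psi (fun y => eis_LX _ y rfl)
  have he : (e 1 : O) = ω := by
    have : e 1 = W ^ (1 : ℤ) := rfl
    rw [this, zpow_one]
    rfl
  refine ⟨ψ, h1, h2, fun z => ?_, fun z => ?_⟩
  · have : ψ !![1, s * 1; 0, 1] z = (e 1 : O) * z := h3 1 z
    rwa [mul_one, he] at this
  · have : ψ !![1, 0; s * 1, 1] z = 1 + (e 1 : O) * (z - 1) := h4 1 z
    rwa [mul_one, he] at this

/-! ## The integers -/

theorem neg_one_zpow_dvd (x : ℤ) (h : (2 : ℤ) ∣ x - 1) : ¬ (2 : ℤ) ∣ x := by omega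

/-- the integer data: `w = -1`, `s = 2`, `e α = (-1)^α` -/
def dz : Dat ℤ where
  N := Int.natAbs
  w := -1
  w' := -1
  s := 2
  e α := (-1 : ℤˣ) ^ α
  ww := by norm_num
  N0 := rfl
  Nw x := by simp
  eadd a b := _root_.zpow_add _ _ _
  ew a := by
    rcases Int.even_or_odd a with h | h
    · rw [Even.neg_one_zpow h, Even.neg_one_zpow (by simpa using h)]
    · rw [Odd.neg_one_zpow h, Odd.neg_one_zpow (by simpa using h)]
  cov x y h hy := by
    have hy' : 0 < |y| := abs_pos.2 hy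
    -- reduce `x` modulo `2 |y|` to `(-|y|, |y|]`
    have key : ∃ k : ℤ, |x + 2 * |y| * k| ≤ |y| := by
      refine ⟨-((x + |y|) / (2 * |y|)), ?_⟩
      have h1 := Int.emod_nonneg (x + |y|) (by omega : 2 * |y| ≠ 0)
      have h2 := Int.emod_lt_of_pos (x + |y|) (by omega : 0 < 2 * |y|)
      have h3 := Int.emod_add_mul_ediv (x + |y|) (2 * |y|)
      rw [abs_le]
      constructor <;> nlinarith
    obtain ⟨k, hk⟩ := key
    have key2 : ∃ α : ℤ, |x + 2 * α * y| ≤ |y| := by
      rcases abs_choice y with h4 | h4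
      · refine ⟨k, ?_⟩
        have e1 : x + 2 * k * y = x + 2 * |y| * k := by rw [h4]; ring
        rw [e1]
        exact hk
      · refine ⟨-k, ?_⟩
        have e1 : x + 2 * -k * y = x + 2 * |y| * k := by rw [h4]; ring
        rw [e1]
        exact hk
    obtain ⟨α, hα⟩ := key2
    refine ⟨α, ?_⟩
    have hne : |x + 2 * α * y| ≠ |y| := by
      intro h5
      rcases abs_eq_abs.1 h5 with h6 | h6
      · have : x = y - 2 * (α * y) := by linarith
        exact h (by constructor <;> intro h7 <;> omega)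
      · have : x = -y - 2 * (α * y) := by linarith
        exact h (by constructor <;> intro h7 <;> omega)
    have hlt := lt_of_le_of_ne hα hne
    have h8 : ((x + 2 * α * y).natAbs : ℤ) < (y.natAbs : ℤ) := by
      rw [Int.natCast_natAbs, Int.natCast_natAbs]
      exact hlt
    exact_mod_cast h8
  ne x y h h1 := h (by omega)
  sw := by norm_num
  un a ha _ := by
    rcases Int.isUnit_iff.1 ha with rfl | rfl
    · exact ⟨0, rfl⟩
    · exact ⟨1, rfl⟩
  su := by norm_num

theorem dz_LX (y : ℤ) : dz.LX y := by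
  intro x1 x2 β h1 h2 h12
  have h1' : x1.natAbs < y.natAbs := h1
  have h2' : x2.natAbs < y.natAbs := h2
  have h12' : x1 = x2 + 2 * β * y := h12
  have hβ : β = 0 := by
    by_contra hβ
    have h3 : |x1 - x2| < 2 * |y| := by
      have k0 := abs_sub x1 x2
      have k1 : (x1.natAbs : ℤ) < (y.natAbs : ℤ) := by exact_mod_cast h1'
      have k2 : (x2.natAbs : ℤ) < (y.natAbs : ℤ) := by exact_mod_cast h2'
      rw [Int.natCast_natAbs, Int.natCast_natAbs] at k1 k2
      linarith
    have h4 : x1 - x2 = 2 * β * y := by rw [h12']; ring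
    rw [h4, abs_mul, abs_mul, abs_two] at h3
    have h5 : 1 ≤ |β| := Int.one_le_abs hβ
    have h6 := abs_nonneg y
    nlinarith
  subst hβ
  have : x1 = x2 := by rw [h12']; ring
  rw [this, dz.e_zero]
  simp

/-- good matrices over the integers -/
def GoodZ (M : Matrix (Fin 2) (Fin 2) ℤ) : Prop :=
  IsUnit M.det ∧ ∀ i j, 2 ∣ M i j - (1 : Matrix (Fin 2) (Fin 2) ℤ) i j

/-- **Module F over the integers.** -/
theorem exists_psiZ : ∃ ψ : Matrix (Fin 2) (Fin 2) ℤ → Equiv.Perm ℤ,
    (∀ M N, GoodZ M → GoodZ N → ψ (M * N) = ψ M * ψ N) ∧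
    (∀ i j : ℕ, ψ !![(-1) ^ i, 0; 0, (-1) ^ j] = 1) ∧
    (∀ z, ψ !![1, 2; 0, 1] z = -z) ∧ (∀ z, ψ !![1, 0; 2, 1] z = 2 - z) := by
  obtain ⟨ψ, h1, h2, h3, h4⟩ := dz.exists_psi dz_LX
  refine ⟨ψ, h1, h2, fun z => ?_, fun z => ?_⟩
  · have h : ψ !![1, 2 * 1; 0, 1] z = (((-1 : ℤˣ) ^ (1 : ℤ) : ℤˣ) : ℤ) * z := h3 1 z
    rw [mul_one, zpow_one] at h
    rw [h]
    simp
  · have h : ψ !![1, 0; 2 * 1, 1] z = 1 + (((-1 : ℤˣ) ^ (1 : ℤ) : ℤˣ) : ℤ) * (z - 1) := h4 1 z
    rw [mul_one, zpow_one] at h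
    rw [h]
    push_cast
    ring

end Pool.Agent.H42.IADetF
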