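import Mathlib

set_option autoImplicit false

namespace Pool.Agent.H42.IADetPres3

open scoped commutatorElement

section gen

variable {G : Type*} [Group G] {P Q : G}

private lemma comm_eq (P Q : G) : ⁅P, Q⁆ = (P * Q) * (Q * (P * Q) * Q⁻¹)⁻¹ := by
  rw [commutatorElement_def]
  group

/-- if the first four conjugates of `PQ` by powers of `Q` commute with `PQ` and the polynomial
relation holds then all conjugates commute -/
theorem comm_all (h : ∀ m : ℕ, 1 ≤ m → m ≤ 4 → Commute (P * Q) (Q ^ m * (P * Q) * (Q ^ m)⁻¹))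
    (hp : ⁅P, Q⁆ * (Q * ⁅P, Q⁆ * Q⁻¹) =
      (Q ^ 3 * ⁅P, Q⁆ * (Q ^ 3)⁻¹) * (Q ^ 4 * ⁅P, Q⁆ * (Q ^ 4)⁻¹)) :
    ∀ m : ℤ, Commute (P * Q) (Q ^ m * (P * Q) * Q ^ (-m)) := by
  -- the conjugates
  let δ : ℤ → G := fun m => Q ^ m * (P * Q) * Q ^ (-m)
  have hδ : ∀ m, δ m = Q ^ m * (P * Q) * Q ^ (-m) := fun _ => rfl
  have hsh : ∀ m k, Q ^ k * δ m * Q ^ (-k) = δ (k + m) := by
    intro m k
    rw [hδ, hδ]
    have : -(k + m) = -m + -k := by ring
    rw [this, zpow_add, zpow_add]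
    group
  have h0 : δ 0 = P * Q := by rw [hδ]; simp
  have hc0 : ∀ m : ℕ, 1 ≤ m → m ≤ 4 → Commute (δ 0) (δ m) := by
    intro m h1 h2
    rw [h0, hδ]
    have := h m h1 h2
    have e : Q ^ (m : ℤ) * (P * Q) * Q ^ (-(m : ℤ)) = Q ^ m * (P * Q) * (Q ^ m)⁻¹ := by
      rw [zpow_neg, zpow_natCast]
    rw [e]
    exact this
  have hcc : ∀ (k : ℤ) (m : ℕ), 1 ≤ m → m ≤ 4 → Commute (δ k) (δ (k + m)) := by
    intro k m h1 h2
    have h3 := hc0 m h1 h2
    have h4 : Commute (Q ^ k * δ 0 * Q ^ (-k)) (Q ^ k * δ m * Q ^ (-k)) := by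
      rw [zpow_neg]
      exact (Commute.conj_iff (Q ^ k)).2 h3
    rw [hsh, hsh, add_zero] at h4
    exact h4
  -- the relation
  have hrel : δ 0 * (δ 2)⁻¹ = δ 3 * (δ 5)⁻¹ := by
    have e0 : ⁅P, Q⁆ = δ 0 * (δ 1)⁻¹ := by
      rw [comm_eq, hδ, hδ]
      simp
    have ek : ∀ k : ℕ, Q ^ k * ⁅P, Q⁆ * (Q ^ k)⁻¹ = δ k * (δ (k + 1))⁻¹ := by
      intro k
      have h1 := hsh 0 k
      have h2 := hsh 1 k
      rw [zpow_neg, zpow_natCast] at h1 h2
      rw [add_zero] at h1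
      rw [← h1, ← h2, e0]
      group
    have e1 := ek 1
    rw [pow_one] at e1
    have e3 := ek 3
    have e4 := ek 4
    rw [e1, e3, e4, e0] at hp
    have n1 : ((1 : ℕ) : ℤ) = 1 := rfl
    have n2 : (1 : ℤ) + 1 = 2 := rfl
    have n3 : ((3 : ℕ) : ℤ) = 3 := rfl
    have n4 : (3 : ℤ) + 1 = 4 := rfl
    have n5 : ((4 : ℕ) : ℤ) = 4 := rfl
    have n6 : (4 : ℤ) + 1 = 5 := rfl
    rw [n1, n2, n3, n4, n5, n6] at hp
    have a1 : δ 0 * (δ 1)⁻¹ * (δ 1 * (δ 2)⁻¹) = δ 0 * (δ 2)⁻¹ := by group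
    have a2 : δ 3 * (δ 4)⁻¹ * (δ 4 * (δ 5)⁻¹) = δ 3 * (δ 5)⁻¹ := by group
    rw [a1, a2] at hp
    exact hp
  have hrelk : ∀ k, δ k * (δ (k + 2))⁻¹ = δ (k + 3) * (δ (k + 5))⁻¹ := by
    intro k
    have h4 : Q ^ k * (δ 0 * (δ 2)⁻¹) * Q ^ (-k) = Q ^ k * (δ 3 * (δ 5)⁻¹) * Q ^ (-k) := by
      rw [hrel]
    have e : ∀ x y : G, Q ^ k * (x * y⁻¹) * Q ^ (-k) =
        (Q ^ k * x * Q ^ (-k)) * (Q ^ k * y * Q ^ (-k))⁻¹ := by
      intro x y
      rw [zpow_neg]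
      group
    rw [e, e, hsh, hsh, hsh, hsh, add_zero] at h4
    exact h4
  -- the subgroup of five conjugates
  let S : Set G := {g | ∃ i : ℕ, i ≤ 4 ∧ g = δ i}
  let A := Subgroup.closure S
  have hS : ∀ i : ℕ, i ≤ 4 → δ i ∈ A := fun i hi => Subgroup.subset_closure ⟨i, hi, rfl⟩
  have h5 : δ 5 ∈ A := by
    have h6 : δ 5 = δ 2 * (δ 0)⁻¹ * δ 3 := by
      have := hrel
      have h7 : (δ 5)⁻¹ = (δ 3)⁻¹ * (δ 0 * (δ 2)⁻¹) := by rw [this]; group
      have h8 : δ 5 = ((δ 3)⁻¹ * (δ 0 * (δ 2)⁻¹))⁻¹ := by rw [← h7, inv_inv]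
      rw [h8]
      group
    rw [h6]
    exact A.mul_mem (A.mul_mem (hS 2 (by norm_num)) (A.inv_mem (hS 0 (by norm_num))))
      (hS 3 (by norm_num))
  have hm1 : δ (-1) ∈ A := by
    have h6 := hrelk (-1)
    have e1 : (-1 : ℤ) + 2 = 1 := by norm_num
    have e2 : (-1 : ℤ) + 3 = 2 := by norm_num
    have e3 : (-1 : ℤ) + 5 = 4 := by norm_num
    rw [e1, e2, e3] at h6
    have h7 : δ (-1) = δ 2 * (δ 4)⁻¹ * δ 1 := by
      rw [← h6]
      group
    rw [h7]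
    exact A.mul_mem (A.mul_mem (hS 2 (by norm_num)) (A.inv_mem (hS 4 (by norm_num))))
      (hS 1 (by norm_num))
  have hup : ∀ x ∈ A, Q ^ (1 : ℤ) * x * Q ^ (-(1 : ℤ)) ∈ A := by
    intro x hx
    induction hx using Subgroup.closure_induction with
    | mem x hx =>
      obtain ⟨i, hi, rfl⟩ := hx
      rw [hsh]
      rcases Nat.lt_or_eq_of_le hi with hi | rfl
      · have : (1 : ℤ) + (i : ℤ) = ((i + 1 : ℕ) : ℤ) := by push_cast; ring
        rw [this]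
        exact hS (i + 1) (by omega)
      · exact h5
    | one =>
      have : Q ^ (1 : ℤ) * 1 * Q ^ (-(1 : ℤ)) = 1 := by group
      rw [this]
      exact A.one_mem
    | mul x y _ _ hx hy =>
      have : Q ^ (1 : ℤ) * (x * y) * Q ^ (-(1 : ℤ)) =
        (Q ^ (1 : ℤ) * x * Q ^ (-(1 : ℤ))) * (Q ^ (1 : ℤ) * y * Q ^ (-(1 : ℤ))) := by group
      rw [this]
      exact A.mul_mem hx hy
    | inv x _ hx =>
      have : Q ^ (1 : ℤ) * x⁻¹ * Q ^ (-(1 : ℤ)) = (Q ^ (1 : ℤ) * x * Q ^ (-(1 : ℤ)))⁻¹ := by group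
      rw [this]
      exact A.inv_mem hx
  have hdn : ∀ x ∈ A, Q ^ (-1 : ℤ) * x * Q ^ (-(-1 : ℤ)) ∈ A := by
    intro x hx
    induction hx using Subgroup.closure_induction with
    | mem x hx =>
      obtain ⟨i, hi, rfl⟩ := hx
      rw [hsh]
      rcases i with _ | i
      · exact hm1
      · have : (-1 : ℤ) + ((i + 1 : ℕ) : ℤ) = (i : ℤ) := by push_cast; ring
        rw [this]
        exact hS i (by omega)
    | one =>
      have : Q ^ (-1 : ℤ) * 1 * Q ^ (-(-1 : ℤ)) = 1 := by group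
      rw [this]
      exact A.one_mem
    | mul x y _ _ hx hy =>
      have : Q ^ (-1 : ℤ) * (x * y) * Q ^ (-(-1 : ℤ)) =
        (Q ^ (-1 : ℤ) * x * Q ^ (-(-1 : ℤ))) * (Q ^ (-1 : ℤ) * y * Q ^ (-(-1 : ℤ))) := by group
      rw [this]
      exact A.mul_mem hx hy
    | inv x _ hx =>
      have : Q ^ (-1 : ℤ) * x⁻¹ * Q ^ (-(-1 : ℤ)) = (Q ^ (-1 : ℤ) * x * Q ^ (-(-1 : ℤ)))⁻¹ := by
        group
      rw [this]
      exact A.inv_mem hx
  have hall : ∀ m : ℤ, δ m ∈ A := by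
    intro m
    induction m using Int.induction_on with
    | zero => exact hS 0 (by norm_num)
    | succ i ih =>
      have := hup _ ih
      rw [hsh] at this
      have e : (1 : ℤ) + (i : ℤ) = (i : ℤ) + 1 := by ring
      rwa [e] at this
    | pred i ih =>
      have := hdn _ ih
      rw [hsh] at this
      have e : (-1 : ℤ) + (-(i : ℤ)) = -(i : ℤ) - 1 := by ring
      rwa [e] at this
  -- `δ 0` commutes with `A`
  have hcomm : ∀ x ∈ A, Commute (δ 0) x := by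
    intro x hx
    induction hx using Subgroup.closure_induction with
    | mem x hx =>
      obtain ⟨i, hi, rfl⟩ := hx
      rcases Nat.eq_zero_or_pos i with rfl | hi0
      · exact Commute.refl _
      · exact hc0 i hi0 hi
    | one => exact Commute.one_right _
    | mul x y _ _ hx hy => exact hx.mul_right hy
    | inv x _ hx => exact hx.inv_right
  intro m
  have := hcomm _ (hall m)
  rw [h0, hδ] at this
  exact this

end gen

end Pool.Agent.H42.IADetPres3
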