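import Mathlib

/-!
The subadditive ergodic theorem for nonnegative subadditive processes of linear growth.
-/

open MeasureTheory Filter
open scoped BigOperators ENNReal Topology

namespace Pool.Agent.H42.Kingman

section seq

variable {u : ℕ → ℝ} {C : ℝ}

/-- Bounded sequences. -/
def Bd (C : ℝ) (u : ℕ → ℝ) : Prop := ∀ n, 0 ≤ u n ∧ u n ≤ C

lemma Bd.below (h : Bd C u) : IsBoundedUnder (· ≥ ·) atTop u :=
  isBoundedUnder_of ⟨0, fun n => (h n).1⟩

lemma Bd.above (h : Bd C u) : IsBoundedUnder (· ≤ ·) atTop u :=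
  isBoundedUnder_of ⟨C, fun n => (h n).2⟩

lemma Bd.cobelow (h : Bd C u) : IsCoboundedUnder (· ≥ ·) atTop u :=
  h.above.isCoboundedUnder_ge

lemma Bd.coabove (h : Bd C u) : IsCoboundedUnder (· ≤ ·) atTop u :=
  h.below.isCoboundedUnder_le

lemma Bd.liminf_nonneg (h : Bd C u) : 0 ≤ liminf u atTop :=
  le_liminf_of_le h.cobelow (Eventually.of_forall fun n => (h n).1)

lemma Bd.limsup_le (h : Bd C u) : limsup u atTop ≤ C :=
  limsup_le_of_le h.coabove (Eventually.of_forall fun n => (h n).2)

lemma Bd.liminf_le_limsup (h : Bd C u) : liminf u atTop ≤ limsup u atTop :=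
  Filter.liminf_le_limsup h.above h.below

lemma Bd.liminf_le (h : Bd C u) : liminf u atTop ≤ C := h.liminf_le_limsup.trans h.limsup_le

lemma Bd.limsup_nonneg (h : Bd C u) : 0 ≤ limsup u atTop :=
  h.liminf_nonneg.trans h.liminf_le_limsup

lemma Bd.exists_lt (h : Bd C u) {δ : ℝ} (hδ : 0 < δ) (N : ℕ) :
    ∃ n ≥ N, u n < liminf u atTop + δ := by
  have h1 : ∃ᶠ n in atTop, u n < liminf u atTop + δ :=
    frequently_lt_of_liminf_lt h.cobelow (by linarith)
  exact frequently_atTop.1 h1 N

lemma Bd.liminf_le_of (h : Bd C u) {b : ℝ} (hb : ∀ δ > 0, ∀ N, ∃ n ≥ N, u n ≤ b + δ) :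
    liminf u atTop ≤ b := by
  by_contra hlt
  push Not at hlt
  set δ := (liminf u atTop - b) / 2 with hδ
  have hδ0 : 0 < δ := by rw [hδ]; linarith
  have h1 : ∀ᶠ n in atTop, b + δ < u n :=
    eventually_lt_of_lt_liminf (by rw [hδ]; linarith) h.below
  obtain ⟨N, hN⟩ := eventually_atTop.1 h1
  obtain ⟨n, hn, hn'⟩ := hb δ hδ0 N
  linarith [hN n hn]

lemma Bd.eventually_gt (h : Bd C u) {δ : ℝ} (hδ : 0 < δ) :
    ∀ᶠ n in atTop, liminf u atTop - δ < u n :=
  eventually_lt_of_lt_liminf (by linarith) h.below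

end seq

set_option linter.unusedSectionVars false

variable {Ω : Type*} [MeasurableSpace Ω] {μ : Measure Ω} [IsFiniteMeasure μ] {T : Ω → Ω}

/-- Subadditive processes of linear growth, along the orbit of a point. -/
def SubAt (T : Ω → Ω) (g : ℕ → Ω → ℝ) (C : ℝ) (ω : Ω) : Prop :=
  (∀ j n, 0 ≤ g n (T^[j] ω) ∧ g n (T^[j] ω) ≤ C * n) ∧
    ∀ j m n, g (m + n) (T^[j] ω) ≤ g m (T^[j] ω) + g n (T^[m + j] ω)

lemma SubAt.shift {g : ℕ → Ω → ℝ} {C : ℝ} {ω : Ω} (h : SubAt T g C ω) (k : ℕ) :
    SubAt T g C (T^[k] ω) := by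
  refine ⟨fun j n => ?_, fun j m n => ?_⟩
  · have := h.1 (j + k) n
    rwa [Function.iterate_add_apply] at this
  · have := h.2 (j + k) m n
    rw [← add_assoc, Function.iterate_add_apply, Function.iterate_add_apply (m := m + j)] at this
    exact this

/-- Lower rate. -/
noncomputable def lo (g : ℕ → Ω → ℝ) (ω : Ω) : ℝ := liminf (fun n : ℕ => g n ω / n) atTop

/-- Upper rate. -/
noncomputable def hi (g : ℕ → Ω → ℝ) (ω : Ω) : ℝ := limsup (fun n : ℕ => g n ω / n) atTop

lemma SubAt.bd {g : ℕ → Ω → ℝ} {C : ℝ} (hC : 0 ≤ C) {ω : Ω} (h : SubAt T g C ω) :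
    Bd C (fun n : ℕ => g n ω / n) := by
  intro n
  have h1 := h.1 0 n
  simp only [Function.iterate_zero, id] at h1
  constructor
  · exact div_nonneg h1.1 (Nat.cast_nonneg n)
  · rcases Nat.eq_zero_or_pos n with rfl | hn
    · simpa using hC
    · rw [div_le_iff₀ (by exact_mod_cast hn)]
      exact h1.2

lemma SubAt.lo_nonneg {g : ℕ → Ω → ℝ} {C : ℝ} (hC : 0 ≤ C) {ω : Ω} (h : SubAt T g C ω) :
    0 ≤ lo g ω := (h.bd hC).liminf_nonneg

lemma SubAt.lo_le {g : ℕ → Ω → ℝ} {C : ℝ} (hC : 0 ≤ C) {ω : Ω} (h : SubAt T g C ω) :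
    lo g ω ≤ C := (h.bd hC).liminf_le

lemma SubAt.hi_nonneg {g : ℕ → Ω → ℝ} {C : ℝ} (hC : 0 ≤ C) {ω : Ω} (h : SubAt T g C ω) :
    0 ≤ hi g ω := (h.bd hC).limsup_nonneg

lemma SubAt.hi_le {g : ℕ → Ω → ℝ} {C : ℝ} (hC : 0 ≤ C) {ω : Ω} (h : SubAt T g C ω) :
    hi g ω ≤ C := (h.bd hC).limsup_le

lemma SubAt.lo_le_hi {g : ℕ → Ω → ℝ} {C : ℝ} (hC : 0 ≤ C) {ω : Ω} (h : SubAt T g C ω) :
    lo g ω ≤ hi g ω := (h.bd hC).liminf_le_limsup

lemma measurable_lo {g : ℕ → Ω → ℝ} (hg : ∀ n, Measurable (g n)) : Measurable (lo g) :=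
  Measurable.liminf fun n => (hg n).div_const _

lemma measurable_hi {g : ℕ → Ω → ℝ} (hg : ∀ n, Measurable (g n)) : Measurable (hi g) :=
  Measurable.limsup fun n => (hg n).div_const _

lemma lo_le_lo_shift {g : ℕ → Ω → ℝ} {C : ℝ} (hC : 0 ≤ C) {ω : Ω} (h : SubAt T g C ω) :
    lo g ω ≤ lo g (T ω) := by
  have hb := h.bd hC
  have h' : SubAt T g C (T ω) := h.shift 1
  have hb' := h'.bd hC
  refine hb.liminf_le_of fun δ hδ N => ?_
  obtain ⟨M, hM⟩ := exists_nat_gt (2 * C / δ)
  obtain ⟨n, hn, hn'⟩ := hb'.exists_lt (half_pos hδ) (max (max N M) 1)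
  have hn1 : 1 ≤ n := (le_max_right _ _).trans hn
  have hnM : M ≤ n := ((le_max_right _ _).trans (le_max_left _ _)).trans hn
  have hnN : N ≤ n := ((le_max_left _ _).trans (le_max_left _ _)).trans hn
  refine ⟨1 + n, by omega, ?_⟩
  have h1 := h.2 0 1 n
  have h2 := (h.1 0 1).2
  simp only [Function.iterate_zero, id, Nat.cast_one, mul_one] at h1 h2
  rw [show T^[1 + 0] ω = T ω from rfl] at h1
  have hnpos : (0 : ℝ) < n := by exact_mod_cast hn1
  have hl0 := hb'.liminf_nonneg
  rw [div_lt_iff₀ hnpos] at hn'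
  change g n (T ω) < (lo g (T ω) + δ / 2) * n at hn'
  change 0 ≤ lo g (T ω) at hl0
  change g (1 + n) ω / ((1 + n : ℕ) : ℝ) ≤ lo g (T ω) + δ
  have hp : (0 : ℝ) < ((1 + n : ℕ) : ℝ) := by positivity
  rw [div_le_iff₀ hp]
  push_cast
  have h3 : C ≤ δ / 2 * n := by
    rw [div_lt_iff₀ hδ] at hM
    have : (M : ℝ) ≤ n := by exact_mod_cast hnM
    nlinarith
  nlinarith

lemma lo_invariant (hT : MeasurePreserving T μ μ) {g : ℕ → Ω → ℝ} {C : ℝ} (hC : 0 ≤ C)
    (hg : ∀ n, Measurable (g n)) (h : ∀ᵐ ω ∂μ, SubAt T g C ω) :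
    ∀ᵐ ω ∂μ, ∀ j, lo g (T^[j] ω) = lo g ω := by
  have hm := measurable_lo hg
  have hint : Integrable (lo g) μ := by
    refine Integrable.of_bound hm.aestronglyMeasurable C ?_
    filter_upwards [h] with ω hω
    rw [Real.norm_eq_abs, abs_of_nonneg (hω.lo_nonneg hC)]
    exact hω.lo_le hC
  have hint' : Integrable (fun ω => lo g (T ω)) μ := hT.integrable_comp_of_integrable hint
  have heq : ∫ ω, lo g (T ω) ∂μ = ∫ ω, lo g ω ∂μ := by
    have := integral_map (μ := μ) hT.measurable.aemeasurable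
      (f := lo g) (by rw [hT.map_eq]; exact hm.aestronglyMeasurable)
    rw [hT.map_eq] at this
    exact this.symm
  have h0 : ∀ᵐ ω ∂μ, lo g (T ω) = lo g ω := by
    have hle : lo g ≤ᵐ[μ] fun ω => lo g (T ω) := by
      filter_upwards [h] with ω hω
      exact lo_le_lo_shift hC hω
    have := (integral_eq_iff_of_ae_le hint hint' hle).1 heq.symm
    filter_upwards [this] with ω hω
    exact hω.symm
  have h1 : ∀ᵐ ω ∂μ, ∀ j, lo g (T (T^[j] ω)) = lo g (T^[j] ω) := by
    rw [ae_all_iff]
    intro j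
    exact (hT.iterate j).quasiMeasurePreserving.ae h0
  filter_upwards [h1] with ω hω
  intro j
  induction j with
  | zero => rfl
  | succ j ih => rw [Function.iterate_succ_apply', hω j, ih]

/-- Points whose first good time is larger than `N`. -/
def late (g : ℕ → Ω → ℝ) (δ : ℝ) (N : ℕ) : Set Ω :=
  {ω | ∀ n, 1 ≤ n → n ≤ N → (lo g ω + δ) * n < g n ω}

lemma measurableSet_late {g : ℕ → Ω → ℝ} (hg : ∀ n, Measurable (g n)) (δ : ℝ) (N : ℕ) :
    MeasurableSet (late g δ N) := by
  have : late g δ N = ⋂ n ∈ Set.Icc 1 N, {ω | (lo g ω + δ) * n < g n ω} := by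
    ext ω
    simp [late]
  rw [this]
  refine MeasurableSet.biInter (Set.to_countable _) fun n _ => ?_
  exact measurableSet_lt (((measurable_lo hg).add_const _).mul_const _) (hg n)

lemma late_tendsto {g : ℕ → Ω → ℝ} {C : ℝ} (hC : 0 ≤ C)
    (hg : ∀ n, Measurable (g n)) (h : ∀ᵐ ω ∂μ, SubAt T g C ω) {δ : ℝ} (hδ : 0 < δ) :
    Tendsto (fun N => μ.real (late g δ N)) atTop (𝓝 0) := by
  have h1 : Tendsto (fun N => μ (late g δ N)) atTop (𝓝 (μ (⋂ N, late g δ N))) := by
    refine tendsto_measure_iInter_atTop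
      (fun N => (measurableSet_late hg δ N).nullMeasurableSet) ?_ ⟨0, measure_ne_top _ _⟩
    intro N M hNM ω hω n hn1 hn2
    exact hω n hn1 (hn2.trans hNM)
  have h2 : μ (⋂ N, late g δ N) = 0 := by
    rw [measure_eq_zero_iff_ae_notMem]
    filter_upwards [h] with ω hω hmem
    obtain ⟨n, hn, hn'⟩ := (hω.bd hC).exists_lt hδ 1
    have := Set.mem_iInter.1 hmem n n hn le_rfl
    have hnpos : (0 : ℝ) < n := by exact_mod_cast hn
    rw [div_lt_iff₀ hnpos] at hn'
    change g n ω < (lo g ω + δ) * n at hn'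
    linarith
  rw [h2] at h1
  have h3 := (ENNReal.tendsto_toReal (by simp : (0 : ℝ≥0∞) ≠ ∞)).comp h1
  exact h3

lemma key_induction {g : ℕ → Ω → ℝ} {C δ : ℝ} (hC : 0 ≤ C) (hδ : 0 < δ) (N : ℕ) {ω : Ω}
    (h : SubAt T g C ω) (hinv : ∀ j, lo g (T^[j] ω) = lo g ω) (n : ℕ) :
    ∀ j, g n (T^[j] ω) ≤ n * (lo g ω + δ) +
      C * ∑ k ∈ Finset.range n, (late g δ N).indicator (fun _ => (1 : ℝ)) (T^[k + j] ω) +
      C * N := by
  have hl0 := h.lo_nonneg hC
  induction n using Nat.strong_induction_on with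
  | _ n ih =>
    intro j
    rcases Nat.lt_or_ge N n with hN | hN
    · by_cases hB : T^[j] ω ∈ late g δ N
      · obtain ⟨m, rfl⟩ : ∃ m, n = 1 + m := ⟨n - 1, by omega⟩
        have h1 := h.2 j 1 m
        have h2 := (h.1 j 1).2
        have h3 := ih m (by omega) (1 + j)
        rw [add_comm 1 m, Finset.sum_range_succ', add_comm m 1]
        have h4 : (late g δ N).indicator (fun _ => (1 : ℝ)) (T^[0 + j] ω) = 1 := by
          rw [zero_add, Set.indicator_of_mem hB]
        rw [h4]
        have h5 : ∀ k, T^[k + 1 + j] ω = T^[k + (1 + j)] ω := fun k => by rw [add_assoc]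
        simp only [h5]
        push_cast
        simp only [Nat.cast_one, mul_one] at h2
        nlinarith
      · unfold late at hB
        simp only [Set.mem_ofPred_eq, not_forall, not_lt] at hB
        obtain ⟨m, hm1, hm2, hm3⟩ := hB
        obtain ⟨l, rfl⟩ : ∃ l, n = m + l := ⟨n - m, by omega⟩
        have h1 := h.2 j m l
        have h3 := ih l (by omega) (m + j)
        rw [hinv j] at hm3
        rw [Finset.sum_range_add]
        have h5 : ∀ k, T^[m + k + j] ω = T^[k + (m + j)] ω := fun k => by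
          rw [add_comm m k, add_assoc]
        simp only [h5]
        have h6 : 0 ≤ ∑ x ∈ Finset.range m,
            (late g δ N).indicator (fun _ => (1 : ℝ)) (T^[x + j] ω) :=
          Finset.sum_nonneg fun _ _ => Set.indicator_nonneg (fun _ _ => zero_le_one) _
        have h7 := mul_nonneg hC h6
        push_cast
        nlinarith
    · have h1 := (h.1 j n).2
      have h2 : C * n ≤ C * N := mul_le_mul_of_nonneg_left (by exact_mod_cast hN) hC
      have h3 : 0 ≤ ∑ k ∈ Finset.range n,
          (late g δ N).indicator (fun _ => (1 : ℝ)) (T^[k + j] ω) :=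
        Finset.sum_nonneg fun _ _ => Set.indicator_nonneg (fun _ _ => zero_le_one) _
      have h4 := mul_nonneg hC h3
      have h5 : 0 ≤ (n : ℝ) * (lo g ω + δ) := by positivity
      linarith

/-- The integral of the lower rate is at least the linear growth rate of the integrals. -/
lemma le_integral_lo (hT : MeasurePreserving T μ μ) {g : ℕ → Ω → ℝ} {C : ℝ} (hC : 0 ≤ C)
    (hg : ∀ n, Measurable (g n)) (h : ∀ᵐ ω ∂μ, SubAt T g C ω) {Λ : ℝ}
    (hΛ : ∀ n : ℕ, Λ * n ≤ ∫ ω, g n ω ∂μ) : Λ ≤ ∫ ω, lo g ω ∂μ := by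
  have hm := measurable_lo hg
  have hint : Integrable (lo g) μ := by
    refine Integrable.of_bound hm.aestronglyMeasurable C ?_
    filter_upwards [h] with ω hω
    rw [Real.norm_eq_abs, abs_of_nonneg (hω.lo_nonneg hC)]
    exact hω.lo_le hC
  have hinv := lo_invariant hT hC hg h
  -- main estimate
  have main : ∀ δ > 0, ∀ N : ℕ, Λ ≤ ∫ ω, lo g ω ∂μ + δ * μ.real Set.univ +
      C * μ.real (late g δ N) := by
    intro δ hδ N
    have hB := measurableSet_late hg δ N
    have hI : ∀ k, Integrable (fun ω => (late g δ N).indicator (fun _ => (1 : ℝ)) (T^[k] ω)) μ :=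
      fun k => (hT.iterate k).integrable_comp_of_integrable
        ((integrable_const (1 : ℝ)).indicator hB)
    have hIv : ∀ k, ∫ ω, (late g δ N).indicator (fun _ => (1 : ℝ)) (T^[k] ω) ∂μ =
        μ.real (late g δ N) := by
      intro k
      have hTk := hT.iterate k
      have := integral_map (μ := μ) hTk.measurable.aemeasurable
        (f := (late g δ N).indicator (fun _ => (1 : ℝ)))
        (by rw [hTk.map_eq]; exact (measurable_const.indicator hB).aestronglyMeasurable)
      rw [hTk.map_eq, integral_indicator_const _ hB] at this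
      simpa using this.symm
    have est : ∀ n : ℕ, Λ * n ≤ n * (∫ ω, lo g ω ∂μ + δ * μ.real Set.univ) +
        C * (n * μ.real (late g δ N)) + C * N * μ.real Set.univ := by
      intro n
      refine (hΛ n).trans ?_
      have hgi : Integrable (g n) μ := by
        refine Integrable.of_bound (hg n).aestronglyMeasurable (C * n) ?_
        filter_upwards [h] with ω hω
        have := hω.1 0 n
        simp only [Function.iterate_zero, id] at this
        rw [Real.norm_eq_abs, abs_of_nonneg this.1]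
        exact this.2
      have hb : ∀ᵐ ω ∂μ, g n ω ≤ (n * (lo g ω + δ) + C * ∑ k ∈ Finset.range n,
          (late g δ N).indicator (fun _ => (1 : ℝ)) (T^[k] ω)) + C * N := by
        filter_upwards [h, hinv] with ω hω hω'
        have := key_induction hC hδ N hω hω' n 0
        simpa using this
      have i1 : Integrable (fun ω => (n : ℝ) * (lo g ω + δ)) μ :=
        (hint.add (integrable_const _)).const_mul _
      have i2 : Integrable (fun ω => C * ∑ k ∈ Finset.range n,
          (late g δ N).indicator (fun _ => (1 : ℝ)) (T^[k] ω)) μ :=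
        (integrable_finsetSum _ fun k _ => hI k).const_mul _
      refine (integral_mono_ae hgi ((i1.add i2).add (integrable_const _)) hb).trans ?_
      have e1 : ∫ ω, ((fun ω => (n : ℝ) * (lo g ω + δ)) + fun ω => C * ∑ k ∈ Finset.range n,
          (late g δ N).indicator (fun _ => (1 : ℝ)) (T^[k] ω)) ω + C * N ∂μ =
          ∫ ω, (n : ℝ) * (lo g ω + δ) ∂μ + ∫ ω, C * ∑ k ∈ Finset.range n,
          (late g δ N).indicator (fun _ => (1 : ℝ)) (T^[k] ω) ∂μ + ∫ _, C * (N : ℝ) ∂μ := by
        rw [integral_add (i1.add i2) (integrable_const _), integral_add' i1 i2]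
      refine (le_of_eq e1).trans ?_
      rw [integral_const_mul, integral_const_mul, integral_add hint (integrable_const _),
        integral_finsetSum _ fun k _ => hI k]
      simp only [hIv, integral_const, smul_eq_mul, Finset.sum_const, Finset.card_range,
        nsmul_eq_mul]
      linarith
    have lim : Tendsto (fun n : ℕ => (∫ ω, lo g ω ∂μ + δ * μ.real Set.univ +
        C * μ.real (late g δ N)) + (C * N * μ.real Set.univ) / n) atTop
        (𝓝 ((∫ ω, lo g ω ∂μ + δ * μ.real Set.univ + C * μ.real (late g δ N)) + 0)) :=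
      tendsto_const_nhds.add (tendsto_const_div_atTop_nhds_zero_nat _)
    rw [add_zero] at lim
    refine ge_of_tendsto lim ?_
    filter_upwards [eventually_gt_atTop 0] with n hn
    have hn' : (0 : ℝ) < n := by exact_mod_cast hn
    have := est n
    rw [← sub_le_iff_le_add', le_div_iff₀ hn']
    linarith
  have main2 : ∀ δ > 0, Λ ≤ ∫ ω, lo g ω ∂μ + δ * μ.real Set.univ := by
    intro δ hδ
    have lim : Tendsto (fun N : ℕ => ∫ ω, lo g ω ∂μ + δ * μ.real Set.univ +
      C * μ.real (late g δ N)) atTop (𝓝 (∫ ω, lo g ω ∂μ + δ * μ.real Set.univ + C * 0)) :=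
      tendsto_const_nhds.add ((late_tendsto hC hg h hδ).const_mul C)
    rw [mul_zero, add_zero] at lim
    exact ge_of_tendsto' lim fun N => main δ hδ N
  have lim : Tendsto (fun δ : ℝ => ∫ ω, lo g ω ∂μ + δ * μ.real Set.univ) (𝓝[>] 0)
      (𝓝 (∫ ω, lo g ω ∂μ + 0 * μ.real Set.univ)) :=
    ((continuous_const.add (continuous_id.mul continuous_const)).tendsto 0).mono_left
      nhdsWithin_le_nhds
  rw [zero_mul, add_zero] at lim
  refine ge_of_tendsto lim ?_
  filter_upwards [self_mem_nhdsWithin] with δ hδ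
  exact main2 δ hδ

/-- The integral of the upper rate is at most the integral of the blocks. -/
lemma integral_hi_le (hT : MeasurePreserving T μ μ) {g : ℕ → Ω → ℝ} {C : ℝ} (hC : 0 ≤ C)
    (hg : ∀ n, Measurable (g n)) (h : ∀ᵐ ω ∂μ, SubAt T g C ω) {m : ℕ} (hm : 1 ≤ m) :
    (∫ ω, hi g ω ∂μ) * m ≤ ∫ ω, g m ω ∂μ := by
  have hm0 : (0 : ℝ) < m := by exact_mod_cast hm
  -- the additive process of the block deficits
  set g' : ℕ → Ω → ℝ := fun k ω => ∑ i ∈ Finset.range k, (C * m - g m (T^[m * i] ω)) with hg'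
  have hg'm : ∀ k, Measurable (g' k) := fun k => Finset.measurable_sum _ fun i _ =>
    measurable_const.sub ((hg m).comp (hT.iterate (m * i)).measurable)
  have hit : ∀ j, (T^[m])^[j] = T^[m * j] := fun j => (Function.iterate_mul T m j).symm
  have hS : ∀ ω, SubAt T g C ω → SubAt (T^[m]) g' (C * m) ω := by
    intro ω hω
    constructor
    · intro j n
      rw [hit]
      have hb : ∀ i, 0 ≤ C * m - g m (T^[m * i] (T^[m * j] ω)) ∧
          C * m - g m (T^[m * i] (T^[m * j] ω)) ≤ C * m := by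
        intro i
        have := hω.1 (m * i + m * j) m
        rw [Function.iterate_add_apply] at this
        constructor <;> linarith [this.1, this.2]
      constructor
      · exact Finset.sum_nonneg fun i _ => (hb i).1
      · refine (Finset.sum_le_sum fun i _ => (hb i).2).trans ?_
        simp only [Finset.sum_const, Finset.card_range, nsmul_eq_mul]
        linarith
    · intro j k l
      rw [hit, hit]
      simp only [hg', Finset.sum_range_add]
      apply le_of_eq
      congr 1
      refine Finset.sum_congr rfl fun i _ => ?_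
      rw [← Function.iterate_add_apply, ← Function.iterate_add_apply]
      congr 3
      ring_nf
  have hS' : ∀ᵐ ω ∂μ, SubAt (T^[m]) g' (C * m) ω := by
    filter_upwards [h] with ω hω
    exact hS ω hω
  have hgi : Integrable (g m) μ := by
    refine Integrable.of_bound (hg m).aestronglyMeasurable (C * m) ?_
    filter_upwards [h] with ω hω
    have := hω.1 0 m
    simp only [Function.iterate_zero, id] at this
    rw [Real.norm_eq_abs, abs_of_nonneg this.1]
    exact this.2
  have hgiT : ∀ k, Integrable (fun ω => g m (T^[k] ω)) μ := fun k =>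
    (hT.iterate k).integrable_comp_of_integrable hgi
  have hgiTv : ∀ k, ∫ ω, g m (T^[k] ω) ∂μ = ∫ ω, g m ω ∂μ := by
    intro k
    have hTk := hT.iterate k
    have := integral_map (μ := μ) hTk.measurable.aemeasurable (f := g m)
      (by rw [hTk.map_eq]; exact (hg m).aestronglyMeasurable)
    rw [hTk.map_eq] at this
    exact this.symm
  have hΛ : ∀ k : ℕ, (C * m * μ.real Set.univ - ∫ ω, g m ω ∂μ) * k ≤ ∫ ω, g' k ω ∂μ := by
    intro k
    apply le_of_eq
    rw [hg']
    simp only
    have hdi : ∀ i : ℕ, Integrable (fun ω => C * m - g m (T^[m * i] ω)) μ := fun i =>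
      (integrable_const _).sub (hgiT _)
    rw [integral_finsetSum _ fun i _ => hdi i]
    have : ∀ i ∈ Finset.range k, ∫ ω, (C * m - g m (T^[m * i] ω)) ∂μ =
        C * m * μ.real Set.univ - ∫ ω, g m ω ∂μ := by
      intro i _
      rw [integral_sub (integrable_const _) (hgiT _), hgiTv]
      simp only [integral_const, smul_eq_mul]
      ring
    rw [Finset.sum_congr rfl this]
    simp only [Finset.sum_const, Finset.card_range, nsmul_eq_mul]
    ring
  have hCm : 0 ≤ C * m := by positivity
  have h1 := le_integral_lo (hT.iterate m) hCm hg'm hS' hΛ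
  -- pointwise comparison
  have h2 : ∀ ω, SubAt T g C ω → hi g ω * m ≤ C * m - lo g' ω := by
    intro ω hω
    have hb := hω.bd hC
    have hb' := (hS ω hω).bd hCm
    have hlo0 := (hS ω hω).lo_nonneg hCm
    have hlo1 := (hS ω hω).lo_le hCm
    rw [← le_div_iff₀ hm0]
    apply le_of_forall_pos_le_add
    intro δ hδ
    have hδm : 0 < δ * m / 2 := by positivity
    obtain ⟨N0, hN0⟩ := eventually_atTop.1 (hb'.eventually_gt hδm)
    refine limsup_le_of_le hb.coabove ?_
    obtain ⟨N1, hN1⟩ := exists_nat_gt (2 * (C * m) / δ)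
    filter_upwards [eventually_ge_atTop (max (max (m * (N0 + 1)) N1) 1)] with n hn
    have hn1 : 1 ≤ n := (le_max_right _ _).trans hn
    have hn2 : m * (N0 + 1) ≤ n := ((le_max_left _ _).trans (le_max_left _ _)).trans hn
    have hn3 : N1 ≤ n := ((le_max_right _ _).trans (le_max_left _ _)).trans hn
    have hn0 : (0 : ℝ) < n := by exact_mod_cast hn1
    obtain ⟨k, r, hr, rfl⟩ : ∃ k r, r < m ∧ n = m * k + r :=
      ⟨n / m, n % m, Nat.mod_lt _ hm, (Nat.div_add_mod n m).symm⟩
    have hk : N0 + 1 ≤ k := by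
      by_contra hlt
      push Not at hlt
      have : k ≤ N0 := by omega
      have h3 : m * k ≤ m * N0 := Nat.mul_le_mul_left m this
      have h4 : m * (N0 + 1) = m * N0 + m := by ring
      omega
    have hblock : ∀ k, g (m * k) ω ≤ ∑ i ∈ Finset.range k, g m (T^[m * i] ω) := by
      intro k
      induction k with
      | zero =>
        have := (hω.1 0 0).2
        simpa using this
      | succ k ih =>
        have := hω.2 0 (m * k) m
        simp only [Function.iterate_zero, id, add_zero] at this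
        rw [Finset.sum_range_succ, Nat.mul_succ]
        linarith
    have h3 := hω.2 0 (m * k) r
    simp only [Function.iterate_zero, id, add_zero] at h3
    have h4 := (hω.1 (m * k) r).2
    have h5 : C * (r : ℝ) ≤ C * m := mul_le_mul_of_nonneg_left (by exact_mod_cast hr.le) hC
    have h6 : ∑ i ∈ Finset.range k, g m (T^[m * i] ω) = C * m * k - g' k ω := by
      simp only [hg', Finset.sum_sub_distrib, Finset.sum_const, Finset.card_range, nsmul_eq_mul]
      ring
    have h7 := hN0 k (by omega)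
    have hk0 : (0 : ℝ) < k := by
      have : 0 < k := by omega
      exact_mod_cast this
    change lo g' ω - δ * m / 2 < g' k ω / k at h7
    rw [lt_div_iff₀ hk0] at h7
    have h8 := hblock k
    have h9 : 2 * (C * m) < δ * ((m * k + r : ℕ) : ℝ) := by
      rw [div_lt_iff₀ hδ] at hN1
      have : (N1 : ℝ) ≤ ((m * k + r : ℕ) : ℝ) := by exact_mod_cast hn3
      nlinarith
    rw [div_le_iff₀ hn0]
    -- final computation
    have h10 : g (m * k + r) ω ≤ (C * m - lo g' ω + δ * m / 2) * k + C * m := by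
      nlinarith
    have h11 : (C * m - lo g' ω + δ * m / 2) * k ≤
        ((C * m - lo g' ω) / m + δ / 2) * ((m * k + r : ℕ) : ℝ) := by
      have e1 : (C * m - lo g' ω + δ * m / 2) * k =
          ((C * m - lo g' ω) / m + δ / 2) * (m * k) := by
        field_simp
      rw [e1]
      apply mul_le_mul_of_nonneg_left
      · push_cast
        have : (0 : ℝ) ≤ r := Nat.cast_nonneg r
        linarith
      · have : 0 ≤ (C * m - lo g' ω) / m := div_nonneg (by linarith) hm0.le
        linarith
    nlinarith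
  have hmhi := measurable_hi hg
  have hihi : Integrable (hi g) μ := by
    refine Integrable.of_bound hmhi.aestronglyMeasurable C ?_
    filter_upwards [h] with ω hω
    rw [Real.norm_eq_abs, abs_of_nonneg (hω.hi_nonneg hC)]
    exact hω.hi_le hC
  have hilo' : Integrable (lo g') μ := by
    refine Integrable.of_bound (measurable_lo hg'm).aestronglyMeasurable (C * m) ?_
    filter_upwards [hS'] with ω hω
    rw [Real.norm_eq_abs, abs_of_nonneg (hω.lo_nonneg hCm)]
    exact hω.lo_le hCm
  have h3 : ∫ ω, hi g ω * m ∂μ ≤ ∫ ω, (C * m - lo g' ω) ∂μ := by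
    refine integral_mono_ae (hihi.mul_const _) ((integrable_const _).sub hilo') ?_
    filter_upwards [h] with ω hω
    exact h2 ω hω
  rw [integral_mul_const, integral_sub (integrable_const _) hilo'] at h3
  simp only [integral_const, smul_eq_mul] at h3
  linarith

/-- Subadditive ergodic theorem. -/
theorem tendsto_lo (hT : MeasurePreserving T μ μ) {g : ℕ → Ω → ℝ} {C : ℝ} (hC : 0 ≤ C)
    (hg : ∀ n, Measurable (g n)) (h : ∀ᵐ ω ∂μ, SubAt T g C ω) :
    ∀ᵐ ω ∂μ, Tendsto (fun n : ℕ => g n ω / n) atTop (𝓝 (lo g ω)) := by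
  have hihi : Integrable (hi g) μ := by
    refine Integrable.of_bound (measurable_hi hg).aestronglyMeasurable C ?_
    filter_upwards [h] with ω hω
    rw [Real.norm_eq_abs, abs_of_nonneg (hω.hi_nonneg hC)]
    exact hω.hi_le hC
  have hilo : Integrable (lo g) μ := by
    refine Integrable.of_bound (measurable_lo hg).aestronglyMeasurable C ?_
    filter_upwards [h] with ω hω
    rw [Real.norm_eq_abs, abs_of_nonneg (hω.lo_nonneg hC)]
    exact hω.lo_le hC
  have h1 : ∫ ω, hi g ω ∂μ ≤ ∫ ω, lo g ω ∂μ := by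
    refine le_integral_lo hT hC hg h fun n => ?_
    rcases Nat.eq_zero_or_pos n with rfl | hn
    · simp only [Nat.cast_zero, mul_zero]
      refine integral_nonneg_of_ae ?_
      filter_upwards [h] with ω hω
      exact (hω.1 0 0).1
    · exact integral_hi_le hT hC hg h hn
  have hle : lo g ≤ᵐ[μ] hi g := by
    filter_upwards [h] with ω hω
    exact hω.lo_le_hi hC
  have h2 : ∫ ω, lo g ω ∂μ = ∫ ω, hi g ω ∂μ := le_antisymm (integral_mono_ae hilo hihi hle) h1
  have h3 := (integral_eq_iff_of_ae_le hilo hihi hle).1 h2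
  filter_upwards [h, h3] with ω hω heq
  have hb := hω.bd hC
  exact tendsto_of_liminf_eq_limsup rfl heq.symm hb.above hb.below

end Pool.Agent.H42.Kingman
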