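import Pool.Agent.H42.Station
import Pool.Agent.H42.Drift2

/-!
Moment bounds for the sums of conductances.
-/

open MeasureTheory ProbabilityTheory
open scoped BigOperators ENNReal

namespace Pool.Agent.H42

set_option linter.unusedSectionVars false

lemma abs_dev {Ω : Type*} [MeasurableSpace Ω] {μ : Measure Ω} [IsProbabilityMeasure μ] {a : ℕ}
    (ha : 0 < a) {X : Fin a → Ω → ℝ} (hm : ∀ j, Measurable (X j)) {K : ℝ} (hK : 0 < K)
    (hb : ∀ j, ∀ᵐ ω ∂μ, |X j ω| ≤ K) {m : ℝ} (hmean : ∀ j, ∫ ω, X j ω ∂μ = m)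
    (hind : Pairwise fun i j => IndepFun (X i) (X j) μ) :
    Integrable (fun ω => ∑ j, X j ω) μ ∧ ∫ ω, |∑ j, X j ω - a * m| ∂μ ≤ Real.sqrt a * K := by
  have hL2 : ∀ j, MemLp (X j) 2 μ := fun j =>
    MemLp.of_bound (hm j).aestronglyMeasurable K (by simpa using hb j)
  have hint : ∀ j, Integrable (X j) μ := fun j => (hL2 j).integrable (by norm_num)
  have hSint : Integrable (fun ω => ∑ j, X j ω) μ := integrable_finsetSum _ fun j _ => hint j
  refine ⟨hSint, ?_⟩
  have hSm : Measurable (fun ω => ∑ j, X j ω) := Finset.measurable_sum _ fun j _ => hm j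
  have hSL2 : MemLp (fun ω => ∑ j, X j ω) 2 μ := memLp_finsetSum _ fun j _ => hL2 j
  have hmeanS : ∫ ω, ∑ j, X j ω ∂μ = a * m := by
    rw [integral_finsetSum _ fun j _ => hint j]
    simp [hmean]
  have hvar : Var[fun ω => ∑ j, X j ω; μ] ≤ a * K ^ 2 := by
    have h1 : Var[fun ω => ∑ j, X j ω; μ] = ∑ j, Var[X j; μ] := by
      have := IndepFun.variance_sum (X := X) (s := Finset.univ) (μ := μ) (fun j _ => hL2 j)
        (fun i _ j _ hij => hind hij)
      rw [← this]
      congr 1
      ext ω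
      simp
    rw [h1]
    have h2 : ∀ j, Var[X j; μ] ≤ K ^ 2 := by
      intro j
      refine (variance_le_expectation_sq (hm j).aestronglyMeasurable).trans ?_
      have : ∫ ω, K ^ 2 ∂μ = K ^ 2 := by simp
      rw [← this]
      refine integral_mono_ae (hL2 j).integrable_sq (integrable_const _) ?_
      filter_upwards [hb j] with ω hω
      simp only [Pi.pow_apply]
      rw [← sq_abs]
      exact pow_le_pow_left₀ (abs_nonneg _) hω 2
    refine (Finset.sum_le_sum fun j _ => h2 j).trans ?_
    simp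
  rw [variance_eq_integral hSm.aemeasurable] at hvar
  rw [hmeanS] at hvar
  have hs : 0 < Real.sqrt a := Real.sqrt_pos.2 (by exact_mod_cast ha)
  set lam := Real.sqrt a * K with hlam
  have hlam0 : 0 < lam := by positivity
  have hsub : MemLp (fun ω => ∑ j, X j ω - a * m) 2 μ := hSL2.sub (memLp_const _)
  have h3 : ∫ ω, |∑ j, X j ω - a * m| ∂μ ≤
      ∫ ω, ((∑ j, X j ω - a * m) ^ 2 / (2 * lam) + lam / 2) ∂μ := by
    refine integral_mono (hsub.integrable (by norm_num)).abs ?_ ?_
    · exact (hsub.integrable_sq.div_const _).add (integrable_const _)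
    · intro ω
      simp only
      rw [← sub_nonneg]
      have : (∑ j, X j ω - a * m) ^ 2 / (2 * lam) + lam / 2 - |∑ j, X j ω - a * m| =
          (|∑ j, X j ω - a * m| - lam) ^ 2 / (2 * lam) := by
        rw [← sq_abs (∑ j, X j ω - a * m)]
        field_simp
        ring
      rw [this]
      positivity
  refine h3.trans ?_
  rw [integral_add (hsub.integrable_sq.div_const _) (integrable_const _), integral_div]
  simp only [integral_const, probReal_univ, smul_eq_mul, one_mul]
  have h4 : (∫ ω, (∑ j, X j ω - a * m) ^ 2 ∂μ) / (2 * lam) ≤ a * K ^ 2 / (2 * lam) := by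
    gcongr
  have h5 : a * K ^ 2 / (2 * lam) = lam / 2 := by
    have : (a : ℝ) * K ^ 2 = lam ^ 2 := by
      rw [hlam, mul_pow, Real.sq_sqrt (by positivity)]
    rw [this]
    field_simp
  linarith

/-- Mean conductance. -/
noncomputable def cbar (ρ : Measure ℝ) : ℝ := ∫ r, r ∂ρ

/-- Mean conductance of two edges in series. -/
noncomputable def kser (ρ : Measure ℝ) : ℝ := ∫ p, par p.1 p.2 ∂(ρ.prod ρ)

variable {a n : ℕ} {ρ : Measure ℝ} [IsProbabilityMeasure ρ] {ε K : ℝ}

lemma ae_good (hρ : ∀ᵐ r ∂ρ, ε ≤ r ∧ r ≤ K) : ∀ᵐ e ∂(iid a n ρ), Good ε K e := by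
  unfold Good
  rw [ae_all_iff]
  intro s
  exact (measurePreserving_eval_infinitePi (fun _ : Sym2 (Vert a n) => ρ)
    s).quasiMeasurePreserving.ae hρ

lemma measurable_par : Measurable fun p : ℝ × ℝ => par p.1 p.2 := by
  unfold par
  fun_prop

lemma iIndep_coord : iIndepFun (fun (s : Sym2 (Vert a n)) (e : Sym2 (Vert a n) → ℝ) => e s)
    (iid a n ρ) :=
  iIndepFun_infinitePi (X := fun _ r => r) (fun _ => measurable_id)

lemma integral_coord (s : Sym2 (Vert a n)) : ∫ e, e s ∂(iid a n ρ) = cbar ρ := by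
  have h := measurePreserving_eval_infinitePi (fun _ : Sym2 (Vert a n) => ρ) s
  have h2 : ∫ r, r ∂((Measure.infinitePi fun _ : Sym2 (Vert a n) => ρ).map
      (Function.eval s)) = ∫ e, Function.eval s e ∂(Measure.infinitePi fun _ => ρ) :=
    integral_map (measurable_pi_apply s).aemeasurable measurable_id.aestronglyMeasurable
  rw [h.map_eq] at h2
  exact h2.symm

lemma integral_par {s t : Sym2 (Vert a n)} (h : s ≠ t) :
    ∫ e, par (e s) (e t) ∂(iid a n ρ) = kser ρ := by
  have h1 := Measure.infinitePi_map_eval_prod (P := fun _ : Sym2 (Vert a n) => ρ) h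
  unfold kser
  rw [← h1, integral_map]
  · rfl
  · exact ((measurable_pi_apply s).prodMk (measurable_pi_apply t)).aemeasurable
  · exact measurable_par.aestronglyMeasurable

lemma par_bound {x y : ℝ} (hε : 0 < ε) (hx : ε ≤ x ∧ x ≤ K) (hy : ε ≤ y ∧ y ≤ K) :
    |par x y| ≤ K := by
  unfold par
  have hx0 : 0 < x := by linarith
  have hy0 : 0 < y := by linarith
  rw [abs_of_nonneg (by positivity), div_le_iff₀ (by positivity)]
  nlinarith

lemma kap_dev (ha : 0 < a) (hε : 0 < ε) (hρ : ∀ᵐ r ∂ρ, ε ≤ r ∧ r ≤ K) (hK : 0 < K) (g : Gam a)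
    (s : Bool) (i : Fin a) :
    Integrable (fun e => kap (n := n) e g s i) (iid a n ρ) ∧
      ∫ e, |kap (n := n) e g s i - a * cbar ρ| ∂(iid a n ρ) ≤ Real.sqrt a * K := by
  have hne : ∀ r r' : Fin a, r ≠ r' →
      s((g, Cell.hub s i), (portCell g s i r, Cell.hub (!s) i)) ≠
      (s((g, Cell.hub s i), (portCell g s i r', Cell.hub (!s) i)) : Sym2 (Vert a n)) := by
    intro r r' hr h
    have h1 := Sym2.congr_right.1 h
    have := hubNb_injective (n := n) g s i (a₁ := Sum.inr (Sum.inr r))
      (a₂ := Sum.inr (Sum.inr r')) h1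
    simp only [Sum.inr.injEq] at this
    exact hr this
  exact abs_dev ha (X := fun r (e : Sym2 (Vert a n) → ℝ) =>
    e s((g, Cell.hub s i), (portCell g s i r, Cell.hub (!s) i)))
    (fun r => measurable_pi_apply _) hK
    (fun r => by
      filter_upwards [ae_good (a := a) (n := n) hρ] with e he
      have := he s((g, Cell.hub s i), (portCell g s i r, Cell.hub (!s) i))
      rw [abs_of_nonneg (by linarith)]
      exact this.2)
    (fun r => integral_coord _)
    (fun r r' hr => iIndep_coord.indepFun (hne r r' hr))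

lemma thinAt_inj {s : Bool} {i j j' : Fin a} (h : (thinAt s i j : Cell a n) = thinAt s i j') :
    j = j' := by
  cases s <;> simpa [thinAt] using h

lemma cth_dev (ha : 0 < a) (hε : 0 < ε) (hρ : ∀ᵐ r ∂ρ, ε ≤ r ∧ r ≤ K) (hK : 0 < K) (g : Gam a)
    (s : Bool) (i : Fin a) :
    Integrable (fun e => cth (n := n) e g s i) (iid a n ρ) ∧
      ∫ e, |cth (n := n) e g s i - a * kser ρ| ∂(iid a n ρ) ≤ Real.sqrt a * K := by
  have hAA : ∀ j j' : Fin a, j ≠ j' →
      s((g, Cell.hub s i), (g, thinAt s i j)) ≠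
      (s((g, Cell.hub s i), (g, thinAt s i j')) : Sym2 (Vert a n)) := by
    intro j j' hj h
    have h1 := Sym2.congr_right.1 h
    exact hj (thinAt_inj (Prod.mk.inj h1).2)
  have hAB : ∀ j j' : Fin a,
      s((g, Cell.hub s i), (g, thinAt s i j)) ≠
      (s((g, thinAt s i j'), (g, Cell.hub (!s) j')) : Sym2 (Vert a n)) := by
    intro j j' h
    rw [Sym2.eq_iff] at h
    cases s <;> simp [thinAt] at h
  have hBB : ∀ j j' : Fin a, j ≠ j' →
      s((g, thinAt s i j), (g, Cell.hub (!s) j)) ≠
      (s((g, thinAt s i j'), (g, Cell.hub (!s) j')) : Sym2 (Vert a n)) := by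
    intro j j' hj h
    rw [Sym2.eq_iff] at h
    cases s <;> simp [thinAt] at h <;> exact hj h
  exact abs_dev ha (X := fun j (e : Sym2 (Vert a n) → ℝ) =>
    par (e s((g, Cell.hub s i), (g, thinAt s i j)))
      (e s((g, thinAt s i j), (g, Cell.hub (!s) j))))
    (fun j => measurable_par.comp (f := fun e : Sym2 (Vert a n) → ℝ =>
      (e s((g, Cell.hub s i), (g, thinAt s i j)), e s((g, thinAt s i j), (g, Cell.hub (!s) j))))
      ((measurable_pi_apply _).prodMk (measurable_pi_apply _))) hK
    (fun j => by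
      filter_upwards [ae_good (a := a) (n := n) hρ] with e he
      exact par_bound hε (he _) (he _))
    (fun j => integral_par (hAB j j))
    (fun j j' hj => by
      have h := iIndep_coord (a := a) (n := n) (ρ := ρ)
      have h2 := h.indepFun_prodMk_prodMk (fun _ => measurable_pi_apply _)
        s((g, Cell.hub s i), (g, thinAt s i j)) s((g, thinAt s i j), (g, Cell.hub (!s) j))
        s((g, Cell.hub s i), (g, thinAt s i j')) s((g, thinAt s i j'), (g, Cell.hub (!s) j'))
        (hAA j j' hj) (hAB j j') (Ne.symm (hAB j' j)) (hBB j j' hj)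
      exact h2.comp measurable_par measurable_par)

end Pool.Agent.H42
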