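import Pool.Agent.H42.Moments

/-!
The integral of the drift bound, and the effect of randomness on series edges.
-/

open MeasureTheory ProbabilityTheory
open scoped BigOperators ENNReal

namespace Pool.Agent.H42

set_option linter.unusedSectionVars false

variable {ρ : Measure ℝ} [IsProbabilityMeasure ρ] {ε K : ℝ}

lemma integrable_id_of_bdd (hε : 0 < ε) (hρ : ∀ᵐ r ∂ρ, ε ≤ r ∧ r ≤ K) :
    Integrable (fun r : ℝ => r) ρ := by
  refine Integrable.of_bound measurable_id.aestronglyMeasurable K ?_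
  filter_upwards [hρ] with r hr
  rw [Real.norm_eq_abs, abs_of_nonneg (by linarith)]
  exact hr.2

lemma ae_prod_good (hρ : ∀ᵐ r ∂ρ, ε ≤ r ∧ r ≤ K) :
    ∀ᵐ p ∂(ρ.prod ρ), (ε ≤ p.1 ∧ p.1 ≤ K) ∧ (ε ≤ p.2 ∧ p.2 ≤ K) := by
  have h1 : ∀ᵐ p ∂(ρ.prod ρ), ε ≤ p.1 ∧ p.1 ≤ K :=
    (Measure.quasiMeasurePreserving_fst (μ := ρ) (ν := ρ)).ae hρ
  have h2 : ∀ᵐ p ∂(ρ.prod ρ), ε ≤ p.2 ∧ p.2 ≤ K :=
    (Measure.quasiMeasurePreserving_snd (μ := ρ) (ν := ρ)).ae hρ
  filter_upwards [h1, h2] with p hp1 hp2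
  exact ⟨hp1, hp2⟩

lemma cbar_ge (hε : 0 < ε) (hρ : ∀ᵐ r ∂ρ, ε ≤ r ∧ r ≤ K) : ε ≤ cbar ρ := by
  have : ∫ _, ε ∂ρ = ε := by simp
  rw [← this]
  refine integral_mono_ae (integrable_const _) (integrable_id_of_bdd hε hρ) ?_
  filter_upwards [hρ] with r hr
  exact hr.1

lemma kser_nonneg (hε : 0 < ε) (hρ : ∀ᵐ r ∂ρ, ε ≤ r ∧ r ≤ K) : 0 ≤ kser ρ := by
  refine integral_nonneg_of_ae ?_
  filter_upwards [ae_prod_good hρ] with p hp
  unfold par
  simp only [Pi.zero_apply]
  have h1 : 0 < p.1 := by linarith [hp.1.1]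
  have h2 : 0 < p.2 := by linarith [hp.2.1]
  positivity

lemma kser_lt (hε : 0 < ε) (hρ : ∀ᵐ r ∂ρ, ε ≤ r ∧ r ≤ K) (hnd : ∀ r, ρ ≠ Measure.dirac r) :
    kser ρ < cbar ρ / 2 := by
  have hpar : Integrable (fun p : ℝ × ℝ => par p.1 p.2) (ρ.prod ρ) := by
    refine Integrable.of_bound measurable_par.aestronglyMeasurable K ?_
    filter_upwards [ae_prod_good hρ] with p hp
    exact par_bound hε hp.1 hp.2
  have hi := integrable_id_of_bdd hε hρ
  have h1 : Integrable (fun p : ℝ × ℝ => p.1) (ρ.prod ρ) := hi.comp_fst ρ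
  have h2 : Integrable (fun p : ℝ × ℝ => p.2) (ρ.prod ρ) := hi.comp_snd ρ
  have e1 : ∫ p : ℝ × ℝ, p.1 ∂(ρ.prod ρ) = cbar ρ := by
    have := integral_fun_fst (μ := ρ) (ν := ρ) (f := fun r : ℝ => r)
    simpa [cbar] using this
  have e2 : ∫ p : ℝ × ℝ, p.2 ∂(ρ.prod ρ) = cbar ρ := by
    have := integral_fun_snd (μ := ρ) (ν := ρ) (f := fun r : ℝ => r)
    simpa [cbar] using this
  have e3 : ∫ p : ℝ × ℝ, (p.1 + p.2) / 4 ∂(ρ.prod ρ) = cbar ρ / 2 := by
    rw [integral_div, integral_add h1 h2, e1, e2]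
    ring
  have h12 : Integrable (fun p : ℝ × ℝ => (p.1 + p.2) / 4) (ρ.prod ρ) :=
    (h1.add h2).div_const 4
  have hint : Integrable (fun p : ℝ × ℝ => (p.1 + p.2) / 4 - par p.1 p.2) (ρ.prod ρ) :=
    h12.sub hpar
  have hnn : 0 ≤ᵐ[ρ.prod ρ] fun p : ℝ × ℝ => (p.1 + p.2) / 4 - par p.1 p.2 := by
    filter_upwards [ae_prod_good hρ] with p hp
    have h1 : 0 < p.1 := by linarith [hp.1.1]
    have h2 : 0 < p.2 := by linarith [hp.2.1]
    have : (p.1 + p.2) / 4 - par p.1 p.2 = (p.1 - p.2) ^ 2 / (4 * (p.1 + p.2)) := by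
      unfold par
      field_simp
      ring
    simp only [Pi.zero_apply]
    rw [this]
    positivity
  have hge : 0 ≤ ∫ p : ℝ × ℝ, ((p.1 + p.2) / 4 - par p.1 p.2) ∂(ρ.prod ρ) :=
    integral_nonneg_of_ae hnn
  have hval : ∫ p : ℝ × ℝ, ((p.1 + p.2) / 4 - par p.1 p.2) ∂(ρ.prod ρ) =
      cbar ρ / 2 - kser ρ := by
    rw [integral_sub h12 hpar, e3]
    rfl
  rcases hge.lt_or_eq with h | h
  · linarith
  · exfalso
    have h0 := (integral_eq_zero_iff_of_nonneg_ae hnn hint).1 h.symm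
    have h3 : ∀ᵐ p ∂(ρ.prod ρ), p.1 = p.2 := by
      filter_upwards [h0, ae_prod_good hρ] with p hp hp'
      have h1 : 0 < p.1 := by linarith [hp'.1.1]
      have h2 : 0 < p.2 := by linarith [hp'.2.1]
      have h4 : (p.1 + p.2) / 4 - par p.1 p.2 = (p.1 - p.2) ^ 2 / (4 * (p.1 + p.2)) := by
        unfold par
        field_simp
        ring
      simp only [Pi.zero_apply] at hp
      rw [h4, div_eq_zero_iff] at hp
      rcases hp with hp | hp
      · have := pow_eq_zero_iff (two_ne_zero) |>.1 hp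
        linarith
      · exfalso; linarith
    have h4 := Measure.ae_ae_of_ae_prod h3
    obtain ⟨x, hx⟩ := h4.exists
    apply hnd x
    have h5 : (fun y : ℝ => y) =ᵐ[ρ] fun _ => x := by
      filter_upwards [hx] with y hy
      exact hy.symm
    have h6 : ρ.map (fun y : ℝ => y) = ρ.map (fun _ : ℝ => x) := Measure.map_congr h5
    rw [Measure.map_id', Measure.map_const] at h6
    simpa using h6

/-- The parameter balancing the two sides. -/
noncomputable def tpar (ρ : Measure ℝ) : ℝ := kser ρ / (cbar ρ + 2 * kser ρ)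

lemma tpar_spec (hε : 0 < ε) (hρ : ∀ᵐ r ∂ρ, ε ≤ r ∧ r ≤ K) (hnd : ∀ r, ρ ≠ Measure.dirac r) :
    0 ≤ tpar ρ ∧ tpar ρ < 1 / 4 ∧ kser ρ * (1 - 2 * tpar ρ) = cbar ρ * tpar ρ := by
  have h1 := cbar_ge hε hρ
  have h2 := kser_nonneg hε hρ
  have h3 := kser_lt hε hρ hnd
  have h4 : 0 < cbar ρ + 2 * kser ρ := by linarith
  refine ⟨by unfold tpar; positivity, ?_, ?_⟩
  · unfold tpar
    rw [div_lt_iff₀ h4]
    linarith
  · unfold tpar
    generalize kser ρ = k at h4 ⊢
    generalize cbar ρ = c at h4 ⊢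
    have h5 : 1 - 2 * (k / (c + 2 * k)) = c / (c + 2 * k) := by
      rw [eq_div_iff h4.ne', sub_mul, mul_assoc, div_mul_cancel₀ _ h4.ne']
      ring
    rw [h5]
    ring

variable {a n : ℕ}

/-- Decomposition of a cell. -/
def cellE (a n : ℕ) : Cell a n ≃ Bool ⊕ (Bool × Fin a) ⊕ (Bool × Fin a × Fin n) ⊕ (Fin a × Fin a)
    where
  toFun
    | Cell.center s => Sum.inl s
    | Cell.hub s i => Sum.inr (Sum.inl (s, i))
    | Cell.fat s i k => Sum.inr (Sum.inr (Sum.inl (s, i, k)))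
    | Cell.thin i j => Sum.inr (Sum.inr (Sum.inr (i, j)))
  invFun
    | Sum.inl s => Cell.center s
    | Sum.inr (Sum.inl (s, i)) => Cell.hub s i
    | Sum.inr (Sum.inr (Sum.inl (s, i, k))) => Cell.fat s i k
    | Sum.inr (Sum.inr (Sum.inr (i, j))) => Cell.thin i j
  left_inv u := by cases u <;> rfl
  right_inv u := by rcases u with s | ⟨s, i⟩ | ⟨s, i, k⟩ | ⟨i, j⟩ <;> rfl

lemma sum_cell {M : Type*} [AddCommMonoid M] (f : Cell a n → M) :
    ∑ u, f u = ∑ s, f (Cell.center s) + (∑ s, ∑ i, f (Cell.hub s i) +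
      (∑ s, ∑ i, ∑ k, f (Cell.fat s i k) + ∑ i, ∑ j, f (Cell.thin i j))) := by
  rw [← (cellE a n).symm.sum_comp, Fintype.sum_sum_type, Fintype.sum_sum_type,
    Fintype.sum_sum_type, Fintype.sum_prod_type, Fintype.sum_prod_type, Fintype.sum_prod_type]
  simp only [Fintype.sum_prod_type]
  rfl

lemma mul_portCell (g h : Gam a) (s : Bool) (i r : Fin a) :
    g * portCell h s i r = portCell (g * h) s i r := by
  cases s <;> simp [portCell, mul_assoc]

lemma kap_sh (g h : Gam a) (c : Sym2 (Vert a n) → ℝ) (s : Bool) (i : Fin a) :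
    kap (sh g c) h s i = kap c (g * h) s i := by
  unfold kap
  simp only [sh_apply, mv, mul_portCell]

lemma cth_sh (g h : Gam a) (c : Sym2 (Vert a n) → ℝ) (s : Bool) (i : Fin a) :
    cth (sh g c) h s i = cth c (g * h) s i := by
  unfold cth
  simp only [sh_apply, mv]

lemma inv_Phi (t τ K cb κ2 : ℝ) : Inv (Phi (a := a) (n := n) t τ K cb κ2) := by
  intro g c x
  obtain ⟨h, u⟩ := x
  cases u with
  | center s => rfl
  | hub s i => simp [Phi, mv, kap_sh, cth_sh]
  | fat s i k => rfl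
  | thin i j => rfl

lemma measurable_kap (g : Gam a) (s : Bool) (i : Fin a) :
    Measurable fun e : Sym2 (Vert a n) → ℝ => kap e g s i := by
  unfold kap
  fun_prop

lemma measurable_cth (g : Gam a) (s : Bool) (i : Fin a) :
    Measurable fun e : Sym2 (Vert a n) → ℝ => cth e g s i := by
  unfold cth par
  fun_prop

lemma measurable_Phi (t τ K cb κ2 : ℝ) (x : Vert a n) :
    Measurable fun e => Phi t τ K cb κ2 e x := by
  obtain ⟨h, u⟩ := x
  cases u with
  | center s => exact measurable_const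
  | hub s i =>
    have h1 := measurable_kap (n := n) h s i
    have h2 := measurable_cth (n := n) h s i
    simp only [Phi]
    fun_prop
  | fat s i k => exact measurable_const
  | thin i j => exact measurable_const

lemma measurable_tF [NeZero a] (w0 t : ℝ) (x : Vert a n) :
    Measurable fun e => tF w0 t e x := by
  obtain ⟨h, u⟩ := x
  cases u with
  | center s => exact measurable_const
  | hub s i => exact measurable_const
  | fat s i k => exact measurable_const
  | thin i j =>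
    simp only [tF]
    fun_prop

lemma measurable_tH [NeZero a] (τ : ℝ) (x : Vert a n) :
    Measurable fun e => tH τ e x := by
  obtain ⟨h, u⟩ := x
  cases u with
  | center s => exact measurable_const
  | hub s i => exact measurable_const
  | fat s i k =>
    simp only [tH]
    split_ifs
    · fun_prop
    · fun_prop
  | thin i j => exact measurable_const

lemma phi_integrable (ha : 0 < a) (hε : 0 < ε) (hρ : ∀ᵐ r ∂ρ, ε ≤ r ∧ r ≤ K) (hK : 0 < K)
    (t τ : ℝ) (x : Vert a n) :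
    Integrable (fun e => Phi t τ K (cbar ρ) (kser ρ) e x) (iid a n ρ) := by
  obtain ⟨g, u⟩ := x
  cases u with
  | center s => exact integrable_const _
  | hub s i =>
    have h1 := (kap_dev (n := n) ha hε hρ hK g s i).1
    have h2 := (cth_dev (n := n) ha hε hρ hK g s i).1
    have h3 : Integrable (fun e => |kap (n := n) e g s i - a * cbar ρ|) (iid a n ρ) :=
      (h1.sub (integrable_const _)).abs
    have h4 : Integrable (fun e => |cth (n := n) e g s i - a * kser ρ|) (iid a n ρ) :=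
      (h2.sub (integrable_const _)).abs
    simp only [Phi]
    exact (((integrable_const _).sub (h3.const_mul 5)).sub (h4.const_mul 2)).sub
      (integrable_const _)
  | fat s i k => exact integrable_const _
  | thin i j => exact integrable_const _

lemma phi_hub_integral (ha : 0 < a) (hε : 0 < ε) (hρ : ∀ᵐ r ∂ρ, ε ≤ r ∧ r ≤ K) (hK : 0 < K)
    (t τ : ℝ) (g : Gam a) (s : Bool) (i : Fin a) :
    (5 - 2 * t) * (a * cbar ρ) - 7 * (Real.sqrt a * K) - 10 * (a * K * τ) ≤
      ∫ e, Phi (n := n) t τ K (cbar ρ) (kser ρ) e (g, Cell.hub s i) ∂(iid a n ρ) := by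
  have h1 := kap_dev (n := n) ha hε hρ hK g s i
  have h2 := cth_dev (n := n) ha hε hρ hK g s i
  have h3 : Integrable (fun e => |kap (n := n) e g s i - a * cbar ρ|) (iid a n ρ) :=
    (h1.1.sub (integrable_const _)).abs
  have h4 : Integrable (fun e => |cth (n := n) e g s i - a * kser ρ|) (iid a n ρ) :=
    (h2.1.sub (integrable_const _)).abs
  simp only [Phi]
  have k1 : ∫ e, 5 * |kap (n := n) e g s i - a * cbar ρ| ∂(iid a n ρ) =
      5 * ∫ e, |kap (n := n) e g s i - a * cbar ρ| ∂(iid a n ρ) := integral_const_mul _ _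
  have k2 : ∫ e, 2 * |cth (n := n) e g s i - a * kser ρ| ∂(iid a n ρ) =
      2 * ∫ e, |cth (n := n) e g s i - a * kser ρ| ∂(iid a n ρ) := integral_const_mul _ _
  rw [integral_sub, integral_sub, integral_sub, k1, k2]
  · simp only [integral_const, probReal_univ, smul_eq_mul, one_mul]
    linarith [h1.2, h2.2]
  · exact integrable_const _
  · exact h3.const_mul 5
  · exact (integrable_const _).sub (h3.const_mul 5)
  · exact h4.const_mul 2
  · exact ((integrable_const _).sub (h3.const_mul 5)).sub (h4.const_mul 2)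
  · exact integrable_const _

lemma phi_sum (ha : 0 < a) (hε : 0 < ε) (hρ : ∀ᵐ r ∂ρ, ε ≤ r ∧ r ≤ K) (hK : 0 < K)
    (t τ : ℝ) :
    2 * a * ((5 - 2 * t) * (a * cbar ρ) - 7 * (Real.sqrt a * K) - 10 * (a * K * τ))
      - 20 * (n * K * τ) - 20 * a ^ 2 * K * τ ≤
      ∑ u : Cell a n, ∫ e, Phi t τ K (cbar ρ) (kser ρ) e (1, u) ∂(iid a n ρ) := by
  rw [sum_cell]
  have h1 : ∑ s : Bool, ∫ e, Phi (a := a) (n := n) t τ K (cbar ρ) (kser ρ) e (1, Cell.center s)
      ∂(iid a n ρ) = - (20 * (n * K * τ)) := by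
    simp only [Phi, integral_const, probReal_univ, smul_eq_mul, one_mul, Fintype.sum_bool]
    ring
  have h2 : 2 * a * ((5 - 2 * t) * (a * cbar ρ) - 7 * (Real.sqrt a * K) - 10 * (a * K * τ)) ≤
      ∑ s : Bool, ∑ i : Fin a, ∫ e, Phi (n := n) t τ K (cbar ρ) (kser ρ) e (1, Cell.hub s i)
      ∂(iid a n ρ) := by
    have : ∑ s : Bool, ∑ i : Fin a, ((5 - 2 * t) * (a * cbar ρ) - 7 * (Real.sqrt a * K) -
        10 * (a * K * τ)) = 2 * a * ((5 - 2 * t) * (a * cbar ρ) - 7 * (Real.sqrt a * K) -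
        10 * (a * K * τ)) := by
      simp only [Finset.sum_const, Finset.card_univ, Fintype.card_bool, Fintype.card_fin,
        nsmul_eq_mul]
      push_cast
      ring
    rw [← this]
    exact Finset.sum_le_sum fun s _ => Finset.sum_le_sum fun i _ =>
      phi_hub_integral ha hε hρ hK t τ 1 s i
  have h3 : ∑ s : Bool, ∑ i : Fin a, ∑ k : Fin n, ∫ e, Phi t τ K (cbar ρ) (kser ρ) e
      (1, Cell.fat s i k) ∂(iid a n ρ) = 0 := by
    simp [Phi]
  have h4 : ∑ i : Fin a, ∑ j : Fin a, ∫ e, Phi (n := n) t τ K (cbar ρ) (kser ρ) e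
      (1, Cell.thin i j) ∂(iid a n ρ) = - (20 * a ^ 2 * K * τ) := by
    simp only [Phi, integral_const, probReal_univ, smul_eq_mul, one_mul, Finset.sum_const,
      Finset.card_univ, Fintype.card_fin, nsmul_eq_mul]
    ring
  rw [h1, h3, h4]
  linarith

end Pool.Agent.H42
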