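import Pool.Agent.H42.Walk
import Pool.Agent.H42.Dist

/-!
The action of the group on vertices and environments, and the environment seen from the walk.
-/

open MeasureTheory ProbabilityTheory
open scoped BigOperators ENNReal

namespace Pool.Agent.H42

set_option linter.unusedSectionVars false

variable {a n : ℕ}

instance instMSGam : MeasurableSpace (Gam a) := ⊤
instance instDMSGam : DiscreteMeasurableSpace (Gam a) := ⟨fun _ => trivial⟩
instance instMSCell : MeasurableSpace (Cell a n) := ⊤
instance instDMSCell : DiscreteMeasurableSpace (Cell a n) := ⟨fun _ => trivial⟩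
instance instCGam : Countable (Gam a) := by unfold Gam FreeGroup; infer_instance
instance instCVert : Countable (Vert a n) := inferInstance
instance instDMSVert : DiscreteMeasurableSpace (Vert a n) := inferInstance

/-- Translation of a vertex. -/
def mv (g : Gam a) (x : Vert a n) : Vert a n := (g * x.1, x.2)

@[simp] lemma mv_one (x : Vert a n) : mv 1 x = x := by simp [mv]
@[simp] lemma mv_mv (g h : Gam a) (x : Vert a n) : mv g (mv h x) = mv (g * h) x := by
  simp [mv, mul_assoc]
lemma mv_fst (g : Gam a) (x : Vert a n) : (mv g x).1 = g * x.1 := rfl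
lemma mv_snd (g : Gam a) (x : Vert a n) : (mv g x).2 = x.2 := rfl

/-- Translation as an equivalence. -/
def mvE (g : Gam a) : Vert a n ≃ Vert a n where
  toFun := mv g
  invFun := mv g⁻¹
  left_inv x := by simp
  right_inv x := by simp

lemma mv_injective (g : Gam a) : Function.Injective (mv (n := n) g) := (mvE g).injective

lemma edgeRel_mv (g : Gam a) {x y : Vert a n} (h : EdgeRel a n x y) :
    EdgeRel a n (mv g x) (mv g y) := by
  cases h with
  | cf h s i k => exact EdgeRel.cf _ _ _ _
  | fh h s i k => exact EdgeRel.fh _ _ _ _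
  | t0 h i j => exact EdgeRel.t0 _ _ _
  | t1 h i j => exact EdgeRel.t1 _ _ _
  | port h i r =>
    have := EdgeRel.port (n := n) (g * h) i r
    simpa [mv, mul_assoc] using this

lemma adj_mv (g : Gam a) (x y : Vert a n) :
    (gr a n).Adj (mv g x) (mv g y) ↔ (gr a n).Adj x y := by
  have key : ∀ (g : Gam a) (x y : Vert a n), (gr a n).Adj x y →
      (gr a n).Adj (mv g x) (mv g y) := by
    intro g x y h
    rcases h with h | h
    · exact Or.inl (edgeRel_mv g h)
    · exact Or.inr (edgeRel_mv g h)
  constructor
  · intro h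
    have := key g⁻¹ _ _ h
    simpa using this
  · exact key g x y

/-- The shift of environments. -/
def sh (g : Gam a) (c : Sym2 (Vert a n) → ℝ) : Sym2 (Vert a n) → ℝ :=
  fun e => c (e.map (mv g))

lemma sh_apply (g : Gam a) (c : Sym2 (Vert a n) → ℝ) (x y : Vert a n) :
    sh g c s(x, y) = c s(mv g x, mv g y) := by simp [sh]

@[simp] lemma sh_one (c : Sym2 (Vert a n) → ℝ) : sh 1 c = c := by
  ext e
  induction e with
  | _ x y => simp [sh]

@[simp] lemma sh_sh (g h : Gam a) (c : Sym2 (Vert a n) → ℝ) : sh g (sh h c) = sh (h * g) c := by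
  ext e
  induction e with
  | _ x y => simp [sh]

lemma measurable_sh (g : Gam a) : Measurable (sh (n := n) g) :=
  measurable_pi_iff.2 fun _ => measurable_pi_apply _

/-- Translation of unordered pairs. -/
def mvS (g : Gam a) : Sym2 (Vert a n) ≃ Sym2 (Vert a n) where
  toFun := Sym2.map (mv g)
  invFun := Sym2.map (mv g⁻¹)
  left_inv e := by
    induction e with
    | _ x y => simp
  right_inv e := by
    induction e with
    | _ x y => simp

lemma map_sh (ρ : Measure ℝ) [IsProbabilityMeasure ρ] (g : Gam a) :
    (Measure.infinitePi fun _ : Sym2 (Vert a n) => ρ).map (sh g) =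
      Measure.infinitePi fun _ : Sym2 (Vert a n) => ρ := by
  have h := Measure.infinitePi_map_piCongrLeft (X := fun _ : Sym2 (Vert a n) => ℝ)
    (μ := fun _ => ρ) (mvS (n := n) g).symm
  have h2 : (sh g : (Sym2 (Vert a n) → ℝ) → _) =
      MeasurableEquiv.piCongrLeft (fun _ : Sym2 (Vert a n) => ℝ) (mvS (n := n) g).symm := by
    ext c e
    obtain ⟨e', rfl⟩ := (mvS (n := n) g).symm.surjective e
    rw [MeasurableEquiv.coe_piCongrLeft, Equiv.piCongrLeft_apply_apply]
    simp only [sh]
    congr 1
    exact (mvS (n := n) g).apply_symm_apply e'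
  rw [h2]
  exact h

lemma measurePreserving_sh (ρ : Measure ℝ) [IsProbabilityMeasure ρ] (g : Gam a) :
    MeasurePreserving (sh g) (Measure.infinitePi fun _ : Sym2 (Vert a n) => ρ)
      (Measure.infinitePi fun _ : Sym2 (Vert a n) => ρ) :=
  ⟨measurable_sh g, map_sh ρ g⟩

lemma totalCond_sh (g : Gam a) (c : Sym2 (Vert a n) → ℝ) (x : Vert a n) :
    totalCond (gr a n) (sh g c) x = totalCond (gr a n) c (mv g x) := by
  unfold totalCond
  have h : (gr a n).neighborSet (mv g x) = mv g '' (gr a n).neighborSet x := by
    ext y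
    simp only [SimpleGraph.mem_neighborSet, Set.mem_image]
    constructor
    · intro hy
      refine ⟨mv g⁻¹ y, ?_, by simp⟩
      rw [← adj_mv g]
      simpa using hy
    · rintro ⟨z, hz, rfl⟩
      exact (adj_mv g x z).2 hz
  rw [h, finsum_mem_image (mv_injective g).injOn]
  simp only [sh_apply]

lemma stepProb_sh (g : Gam a) (c : Sym2 (Vert a n) → ℝ) (x y : Vert a n) :
    stepProb (gr a n) (sh g c) x y = stepProb (gr a n) c (mv g x) (mv g y) := by
  unfold stepProb
  rw [totalCond_sh, sh_apply]
  by_cases h : (gr a n).Adj x y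
  · rw [if_pos h, if_pos ((adj_mv g x y).2 h)]
  · rw [if_neg h, if_neg (fun h' => h ((adj_mv g x y).1 h'))]

/-- The environment and the path seen from the position at time one. -/
def theta (p : Can (Vert a n)) : Can (Vert a n) :=
  (sh (p.2 1).1 p.1, fun k => mv (p.2 1).1⁻¹ (p.2 (k + 1)))

lemma measurable_theta : Measurable (theta (a := a) (n := n)) := by
  refine Measurable.prodMk ?_ ?_
  · refine measurable_pi_iff.2 fun e => ?_
    have : (fun p : Can (Vert a n) => sh (p.2 1).1 p.1 e) =
        (fun q : (Sym2 (Vert a n) → ℝ) × Vert a n => sh q.2.1 q.1 e) ∘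
          (fun p : Can (Vert a n) => (p.1, p.2 1)) := rfl
    rw [this]
    refine Measurable.comp ?_ (by fun_prop)
    exact measurable_from_prod_countable_left fun y => (measurable_pi_apply e).comp
      (measurable_sh y.1)
  · refine measurable_pi_iff.2 fun k => ?_
    have : (fun p : Can (Vert a n) => mv (p.2 1).1⁻¹ (p.2 (k + 1))) =
        (fun q : Vert a n × Vert a n => mv q.1.1⁻¹ q.2) ∘
          (fun p : Can (Vert a n) => (p.2 1, p.2 (k + 1))) := rfl
    rw [this]
    exact (Measurable.of_discrete).comp (by fun_prop)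

end Pool.Agent.H42
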