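import Mathlib

/-!
# Random walks among random conductances on a graph with a random root

`G` is a graph on a type `V`, and `W` is a finite set of vertices. The random rooted graph is
`(G, o)`, where `o` is uniformly distributed on `W`.
-/

open MeasureTheory Filter
open scoped BigOperators ENNReal Topology

namespace Pool.Agent.H42

/-- The total conductance `∑_{z ∼ x} c({x, z})` at the vertex `x`. -/
noncomputable def totalCond {V : Type} (G : SimpleGraph V) (c : Sym2 V → ℝ) (x : V) : ℝ :=
  ∑ᶠ y ∈ G.neighborSet x, c s(x, y)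

open Classical in
/-- The probability that the random walk with conductances `c` steps from `x` to `y`: it is
`c({x, y}) / ∑_{z ∼ x} c({x, z})` if `y` is a neighbour of `x`, and `0` otherwise. -/
noncomputable def stepProb {V : Type} (G : SimpleGraph V) (c : Sym2 V → ℝ) (x y : V) : ℝ :=
  if G.Adj x y then c s(x, y) / totalCond G c x else 0

open Classical in
/-- On the probability space `(Ω, μ)`, `c` is a family of i.i.d. conductances with law `ρ`, and
`X` is the random walk on `G` with conductances `c`, started at a vertex uniformly distributed on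
`W` and independent of `c`. This is expressed by the joint law of `c` and `X 0, ..., X n`:
the probability of `c ∈ A, X 0 = x 0, ..., X n = x n` is the integral over `A`, with respect to the
product measure `ρ^{⊗ Sym2 V}`, of
`1_{x 0 ∈ W} |W|⁻¹ ∏_{i < n} stepProb G c (x i) (x (i + 1))`. -/
structure IsRCMWalk {V Ω : Type} [MeasurableSpace Ω] (G : SimpleGraph V) (ρ : Measure ℝ)
    (W : Finset V) (μ : Measure Ω) (c : Ω → Sym2 V → ℝ) (X : ℕ → Ω → V) : Prop where
  measurable_cond : Measurable c
  measurable_walk : ∀ n x, MeasurableSet {ω | X n ω = x}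
  law : ∀ A : Set (Sym2 V → ℝ), MeasurableSet A → ∀ (n : ℕ) (x : ℕ → V),
    μ {ω | c ω ∈ A ∧ ∀ i ≤ n, X i ω = x i} =
      (if x 0 ∈ W then (W.card : ℝ≥0∞)⁻¹ else 0) *
        ∫⁻ e in A, ∏ i ∈ Finset.range n, ENNReal.ofReal (stepProb G e (x i) (x (i + 1)))
          ∂(Measure.infinitePi fun _ : Sym2 V => ρ)

/-- The random walk among i.i.d. conductances with law `ρ` on `(G, o)` exists, and its speed
`lim d_G(X 0, X n) / n` exists almost surely and equals `v`. -/
def HasSpeed {V : Type} (G : SimpleGraph V) (ρ : Measure ℝ) (W : Finset V) (v : ℝ) : Prop :=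
  (∃ (Ω : Type) (_ : MeasurableSpace Ω) (μ : Measure Ω) (c : Ω → Sym2 V → ℝ) (X : ℕ → Ω → V),
    IsRCMWalk G ρ W μ c X) ∧
  ∀ (Ω : Type) [MeasurableSpace Ω] (μ : Measure Ω) (c : Ω → Sym2 V → ℝ) (X : ℕ → Ω → V),
    IsRCMWalk G ρ W μ c X →
      ∀ᵐ ω ∂μ, Tendsto (fun n : ℕ => (G.dist (X 0 ω) (X n ω) : ℝ) / n) atTop (𝓝 v)

/-- The random rooted graph `(G, o)`, with `o` uniform on `W`, satisfies the mass-transport
principle. -/
def IsUnimodular {V : Type} (G : SimpleGraph V) (W : Finset V) : Prop :=
  ∀ f : V → V → ℝ≥0∞, (∀ (φ : G ≃g G) (x y : V), f (φ x) (φ y) = f x y) →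
    ∑ x ∈ W, ∑' y, f x y = ∑ x ∈ W, ∑' y, f y x

/-- The Cheeger constant of `G` is positive: for some `h > 0`, every finite set `S` of vertices
has at least `h |S|` edges leading out of `S`. -/
def HasExpansion {V : Type} (G : SimpleGraph V) : Prop :=
  ∃ h : ℝ, 0 < h ∧ ∀ S : Finset V,
    h * S.card ≤ {p : V × V | p.1 ∈ S ∧ p.2 ∉ S ∧ G.Adj p.1 p.2}.ncard

end Pool.Agent.H42
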