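import Pool.Agent.H42.Erg
import Pool.Agent.H42.Kingman

/-!
Existence of the speed.
-/

open MeasureTheory ProbabilityTheory Filter
open scoped BigOperators ENNReal Topology

namespace Pool.Agent.H42

set_option linter.unusedSectionVars false

variable {a n : ℕ} [NeZero a] [NeZero n]
variable {ρ : Measure ℝ} [IsProbabilityMeasure ρ] {L : Measure (Can (Vert a n))}

/-- Translation as a homomorphism. -/
def mvHom (g : Gam a) : gr a n →g gr a n where
  toFun := mv g
  map_rel' := fun h => (adj_mv g _ _).2 h

lemma dist_mv_le (g : Gam a) (x y : Vert a n) :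
    (gr a n).dist (mv g x) (mv g y) ≤ (gr a n).dist x y := by
  obtain ⟨p, hp⟩ := (gr_connected.preconnected x y).exists_walk_length_eq_dist
  have h := SimpleGraph.dist_le (p.map (mvHom g))
  rw [SimpleGraph.Walk.length_map, hp] at h
  exact h

lemma dist_mv (g : Gam a) (x y : Vert a n) :
    (gr a n).dist (mv g x) (mv g y) = (gr a n).dist x y := by
  refine le_antisymm (dist_mv_le g x y) ?_
  have h := dist_mv_le g⁻¹ (mv g x) (mv g y)
  simpa using h

/-- Displacement after `k` steps. -/
noncomputable def gd (k : ℕ) (p : Can (Vert a n)) : ℝ := (gr a n).dist (p.2 0) (p.2 k)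

lemma gd_theta (j : ℕ) : ∀ (k : ℕ) (p : Can (Vert a n)),
    gd k (theta^[j] p) = (gr a n).dist (p.2 j) (p.2 (j + k)) := by
  induction j with
  | zero => intro k p; simp [gd]
  | succ j ih =>
    intro k p
    rw [Function.iterate_succ_apply, ih k (theta p)]
    simp only [theta]
    rw [dist_mv]
    have : j + k + 1 = j + 1 + k := by omega
    rw [this]

lemma subAt_gd {p : Can (Vert a n)} (hp : ∀ k, (gr a n).Adj (p.2 k) (p.2 (k + 1))) :
    Kingman.SubAt theta gd 1 p := by
  constructor
  · intro j k
    rw [gd_theta]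
    refine ⟨Nat.cast_nonneg _, ?_⟩
    have := dist_le_of_path gr_connected hp j k
    rw [one_mul]
    exact_mod_cast this
  · intro j m k
    rw [gd_theta, gd_theta, gd_theta]
    have h := gr_connected.dist_triangle (G := gr a n) (u := p.2 j) (v := p.2 (j + m))
      (w := p.2 (j + (m + k)))
    have e1 : j + (m + k) = m + j + k := by ring
    have e2 : j + m = m + j := by ring
    rw [e2] at h ⊢
    rw [e1] at h ⊢
    exact_mod_cast h

lemma measurable_gd (k : ℕ) : Measurable (gd (a := a) (n := n) k) := measurable_dist 0 k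

/-- Existence of the speed. -/
theorem exists_speed (hρ : ∀ᵐ r ∂ρ, 0 < r)
    (hL : IsWalkLaw (gr a n) (iid a n ρ) (base a n) L) [IsFiniteMeasure (star (gr a n) L)] :
    ∃ v : ℝ, ∀ᵐ p ∂(star (gr a n) L),
      Tendsto (fun k : ℕ => ((gr a n).dist (p.2 0) (p.2 k) : ℝ) / k) atTop (𝓝 v) := by
  have hT := theta_preserving hρ hL
  have hsub : ∀ᵐ p ∂(star (gr a n) L), Kingman.SubAt theta gd 1 p := by
    filter_upwards [ae_adj neighborSet_finite hL] with p hp
    exact subAt_gd hp
  have hlim := Kingman.tendsto_lo hT zero_le_one measurable_gd hsub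
  have hinv := Kingman.lo_invariant hT zero_le_one measurable_gd hsub
  have hmlo := Kingman.measurable_lo (g := gd (a := a) (n := n)) measurable_gd
  set Y : Can (Vert a n) → ℝ≥0∞ := fun p => min (ENNReal.ofReal (Kingman.lo gd p)) 1 with hY
  have hYm : Measurable Y := hmlo.ennreal_ofReal.min measurable_const
  obtain ⟨k, hk0, hk⟩ := invariant_const (Y := Y) hρ hL hYm (fun p => min_le_right _ _) (by
    filter_upwards [hinv] with p hp
    have := hp 1
    simp only [Function.iterate_one] at this
    simp only [hY, this])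
  refine ⟨k, ?_⟩
  filter_upwards [hlim, hk, hsub] with p h1 h2 h3
  have h4 := h3.lo_nonneg zero_le_one
  have h5 := h3.lo_le zero_le_one
  have h6 : Y p = ENNReal.ofReal (Kingman.lo gd p) := by
    simp only [hY]
    refine min_eq_left ?_
    rw [← ENNReal.ofReal_one]
    exact ENNReal.ofReal_le_ofReal h5
  rw [h6] at h2
  have h7 := (ENNReal.ofReal_eq_ofReal_iff h4 hk0).1 h2
  rw [← h7]
  exact h1

end Pool.Agent.H42
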