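import Pool.Agent.H42.Cyl
import Pool.Agent.H42.Shift

/-!
Stationarity of the environment seen from the walk.
-/

open MeasureTheory ProbabilityTheory
open scoped BigOperators ENNReal

namespace Pool.Agent.H42

set_option linter.unusedSectionVars false

section general

variable {V : Type} [MeasurableSpace V] [DiscreteMeasurableSpace V] [Countable V]
variable {G : SimpleGraph V} {P : Measure (Sym2 V → ℝ)} {W : Finset V} {L : Measure (Can V)}

lemma setLIntegral_star_cyl (hfin : ∀ x, (G.neighborSet x).Finite) (hL : IsWalkLaw G P W L)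
    {A : Set (Sym2 V → ℝ)} (hA : MeasurableSet A) (n : ℕ) (x : ℕ → V)
    {f : (Sym2 V → ℝ) → ℝ≥0∞} (hf : Measurable f) :
    ∫⁻ p in {p | p.1 ∈ A} ∩ cyl n x, f p.1 ∂(star G L) =
      w0 W (x 0) * ∫⁻ e in A, f e * (ENNReal.ofReal (totalCond G e (x 0)) * pw G n x e) ∂P := by
  have hA' : MeasurableSet {p : Can V | p.1 ∈ A} := measurable_fst hA
  have h := lintegral_star_cyl hfin hL n x (f := A.indicator f) (hf.indicator hA)
  have h1 : ∫⁻ p in cyl n x, A.indicator f p.1 ∂(star G L) =
      ∫⁻ p in {p | p.1 ∈ A} ∩ cyl n x, f p.1 ∂(star G L) := by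
    have : ∀ p : Can V, A.indicator f p.1 =
        (({p : Can V | p.1 ∈ A}).indicator fun p => f p.1) p := fun p => rfl
    simp only [this]
    rw [lintegral_indicator hA', Measure.restrict_restrict hA']
  rw [← h1, h]
  congr 1
  rw [← lintegral_indicator hA]
  refine lintegral_congr fun e => ?_
  by_cases he : e ∈ A <;> simp [he]

lemma star_cyl (hfin : ∀ x, (G.neighborSet x).Finite) (hL : IsWalkLaw G P W L)
    {A : Set (Sym2 V → ℝ)} (hA : MeasurableSet A) (n : ℕ) (x : ℕ → V) :
    star G L ({p | p.1 ∈ A} ∩ cyl n x) =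
      w0 W (x 0) * ∫⁻ e in A, ENNReal.ofReal (totalCond G e (x 0)) * pw G n x e ∂P := by
  have h := setLIntegral_star_cyl hfin hL hA n x (f := 1) measurable_one
  simpa using h

lemma lintegral_star_coord_zero (hfin : ∀ x, (G.neighborSet x).Finite) (hL : IsWalkLaw G P W L)
    {f : (Sym2 V → ℝ) → V → ℝ≥0∞} (hf : ∀ x, Measurable fun e => f e x) :
    ∫⁻ p, f p.1 (p.2 0) ∂(star G L) =
      ∑ x ∈ W, (W.card : ℝ≥0∞)⁻¹ * ∫⁻ e, f e x * ENNReal.ofReal (totalCond G e x) ∂P := by
  rw [lintegral_split_coord _ 0]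
  have h : ∀ x, ∫⁻ p in {p : Can V | p.2 0 = x}, f p.1 (p.2 0) ∂(star G L) =
      w0 W x * ∫⁻ e, f e x * ENNReal.ofReal (totalCond G e x) ∂P := by
    intro x
    have hc : {p : Can V | p.2 0 = x} = cyl 0 (fun _ => x) := by
      ext p; simp [cyl]
    have h1 : ∫⁻ p in {p : Can V | p.2 0 = x}, f p.1 (p.2 0) ∂(star G L) =
        ∫⁻ p in cyl 0 (fun _ => x), (fun e => f e x) p.1 ∂(star G L) := by
      rw [hc]
      refine setLIntegral_congr_fun (measurableSet_cyl _ _) ?_
      intro p hp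
      have : p.2 0 = x := hp 0 le_rfl
      simp only [this]
    rw [h1, lintegral_star_cyl hfin hL 0 (fun _ => x) (f := fun e => f e x) (hf x)]
    simp [pw]
  simp only [h]
  rw [tsum_eq_sum (s := W)]
  · refine Finset.sum_congr rfl fun x hx => ?_
    simp [w0, hx]
  · intro x hx
    simp [w0, hx]

lemma ae_star (hfin : ∀ x, (G.neighborSet x).Finite) (hL : IsWalkLaw G P W L)
    {q : (Sym2 V → ℝ) → Prop} (h : ∀ᵐ e ∂P, q e) : ∀ᵐ p ∂(star G L), q p.1 := by
  obtain ⟨A, hA, hAm, hA0⟩ := exists_measurable_superset_of_null (ae_iff.1 h)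
  rw [ae_iff]
  refine measure_mono_null (t := {p : Can V | p.1 ∈ A}) (fun p hp => hA hp) ?_
  have : {p : Can V | p.1 ∈ A} = ⋃ x : Fin 1 → V, ({p : Can V | p.1 ∈ A} ∩ cyl 0 (ex x)) := by
    rw [← Set.inter_iUnion, iUnion_cyl, Set.inter_univ]
  rw [this, measure_iUnion_null_iff]
  intro x
  rw [star_cyl hfin hL hAm]
  rw [Measure.restrict_eq_zero.2 hA0]
  simp

lemma star_coord_zero (hfin : ∀ x, (G.neighborSet x).Finite) (hL : IsWalkLaw G P W L)
    {x : V} (hx : x ∉ W) : star G L {p | p.2 0 = x} = 0 := by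
  have : {p : Can V | p.2 0 = x} = {p : Can V | p.1 ∈ Set.univ} ∩ cyl 0 (fun _ => x) := by
    ext p; simp [cyl]
  rw [this, star_cyl hfin hL MeasurableSet.univ]
  simp [w0, hx]

/-- All conductances are positive. -/
def Pos (e : Sym2 V → ℝ) : Prop := ∀ s, 0 < e s

lemma totalCond_pos (hfin : ∀ x, (G.neighborSet x).Finite) (hne : ∀ x, (G.neighborSet x).Nonempty)
    {e : Sym2 V → ℝ} (he : Pos e) (x : V) : 0 < totalCond G e x := by
  unfold totalCond
  rw [finsum_mem_eq_finite_toFinset_sum _ (hfin x)]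
  refine Finset.sum_pos (fun y _ => he _) ?_
  rw [Set.Finite.toFinset_nonempty]
  exact hne x

lemma tsum_stepProb (hfin : ∀ x, (G.neighborSet x).Finite)
    (hne : ∀ x, (G.neighborSet x).Nonempty) {e : Sym2 V → ℝ} (he : Pos e) (x : V) :
    ∑' y, ENNReal.ofReal (stepProb G e x y) = 1 := by
  have hp := totalCond_pos hfin hne he x
  rw [tsum_eq_sum (s := (hfin x).toFinset)]
  · rw [← ENNReal.ofReal_sum_of_nonneg]
    · rw [← ENNReal.ofReal_one]
      congr 1
      have : ∀ y ∈ (hfin x).toFinset, stepProb G e x y = e s(x, y) / totalCond G e x := by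
        intro y hy
        have : G.Adj x y := by simpa using hy
        simp [stepProb, this]
      rw [Finset.sum_congr rfl this, ← Finset.sum_div]
      rw [div_eq_one_iff_eq hp.ne']
      unfold totalCond
      rw [finsum_mem_eq_finite_toFinset_sum _ (hfin x)]
    · intro y hy
      have : G.Adj x y := by simpa using hy
      simp only [stepProb, this, if_true]
      exact (div_pos (he _) hp).le
  · intro y hy
    have : ¬ G.Adj x y := by simpa using hy
    simp [stepProb, this]

lemma reversible (hfin : ∀ x, (G.neighborSet x).Finite)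
    (hne : ∀ x, (G.neighborSet x).Nonempty) {e : Sym2 V → ℝ} (he : Pos e) (x y : V) :
    totalCond G e x * stepProb G e x y = totalCond G e y * stepProb G e y x := by
  have hx := totalCond_pos hfin hne he x
  have hy := totalCond_pos hfin hne he y
  by_cases h : G.Adj x y
  · have h' : G.Adj y x := h.symm
    simp only [stepProb, h, h', if_true]
    rw [mul_div_cancel₀ _ hx.ne', mul_div_cancel₀ _ hy.ne', Sym2.eq_swap]
  · have h' : ¬ G.Adj y x := fun h' => h h'.symm
    simp [stepProb, h, h']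

lemma ae_pos (ρ : Measure ℝ) [IsProbabilityMeasure ρ] (hρ : ∀ᵐ r ∂ρ, 0 < r) :
    ∀ᵐ e ∂(Measure.infinitePi fun _ : Sym2 V => ρ), Pos e := by
  unfold Pos
  rw [ae_all_iff]
  intro s
  exact (measurePreserving_eval_infinitePi (fun _ : Sym2 V => ρ) s).quasiMeasurePreserving.ae hρ

end general

section concrete

variable {a n : ℕ}

/-- The possible starting points. -/
def base (a n : ℕ) : Finset (Vert a n) :=
  Finset.univ.map ⟨fun u : Cell a n => ((1 : Gam a), u), fun u v h => by simpa using h⟩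

lemma mem_base {x : Vert a n} : x ∈ base a n ↔ x.1 = 1 := by
  obtain ⟨g, u⟩ := x
  unfold base
  rw [Finset.mem_map]
  constructor
  · rintro ⟨v, -, h⟩
    exact (Prod.mk.inj h).1.symm
  · intro h
    exact ⟨u, Finset.mem_univ _, Prod.ext (by exact h.symm) rfl⟩

lemma card_base : (base a n).card = Fintype.card (Cell a n) := by
  simp [base]

/-- The law of the conductances. -/
noncomputable def iid (a n : ℕ) (ρ : Measure ℝ) : Measure (Sym2 (Vert a n) → ℝ) :=
  Measure.infinitePi fun _ => ρ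

instance (ρ : Measure ℝ) [IsProbabilityMeasure ρ] : IsProbabilityMeasure (iid a n ρ) := by
  unfold iid; infer_instance

variable {ρ : Measure ℝ} [IsProbabilityMeasure ρ] {L : Measure (Can (Vert a n))}

lemma lintegral_sh (g : Gam a) {f : (Sym2 (Vert a n) → ℝ) → ℝ≥0∞} (hf : Measurable f) :
    ∫⁻ e, f (sh g e) ∂(iid a n ρ) = ∫⁻ e, f e ∂(iid a n ρ) :=
  (measurePreserving_sh ρ g).lintegral_comp hf

/-- Prepending a vertex. -/
def pre {V : Type} (x0 : V) (z : ℕ → V) : ℕ → V
  | 0 => x0
  | i + 1 => z i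

lemma pw_sh (g : Gam a) (m : ℕ) (y : ℕ → Vert a n) (e : Sym2 (Vert a n) → ℝ) :
    pw (gr a n) m y (sh g e) = pw (gr a n) m (fun i => mv g (y i)) e := by
  unfold pw
  simp only [stepProb_sh]

variable [NeZero a] [NeZero n]

lemma neighborSet_nonempty (x : Vert a n) : ((gr a n).neighborSet x).Nonempty := by
  obtain ⟨g, u⟩ := x
  cases u with
  | center s => exact ⟨_, adj_center.2 ⟨(0, 0), rfl⟩⟩
  | hub s i => exact ⟨_, adj_hub.2 ⟨Sum.inl 0, rfl⟩⟩
  | fat s i k => exact ⟨_, adj_fat.2 (Or.inl rfl)⟩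
  | thin i j => exact ⟨_, adj_thin.2 (Or.inl rfl)⟩

lemma map_theta_restrict (hρ : ∀ᵐ r ∂ρ, 0 < r)
    (hL : IsWalkLaw (gr a n) (iid a n ρ) (base a n) L) [IsFiniteMeasure (star (gr a n) L)]
    (x0 x1 : Vert a n) (h0 : x0.1 = 1) :
    ((star (gr a n) L).restrict {p | p.2 0 = x0 ∧ p.2 1 = x1}).map theta =
      ((star (gr a n) L).restrict {p | p.2 0 = (1, x1.2)}).withDensity
        (fun q => ENNReal.ofReal (stepProb (gr a n) q.1 (1, x1.2) (mv x1.1⁻¹ x0))) := by
  have hfin : ∀ x : Vert a n, ((gr a n).neighborSet x).Finite := neighborSet_finite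
  refine ext_cyl fun A hA m y => ?_
  have hS : MeasurableSet ({p : Can (Vert a n) | p.1 ∈ A} ∩ cyl m y) :=
    (measurable_fst hA).inter (measurableSet_cyl m y)
  rw [Measure.map_apply measurable_theta hS, withDensity_apply _ hS,
    Measure.restrict_apply (measurable_theta hS)]
  by_cases hy : y 0 = (1, x1.2)
  · have e1 : theta ⁻¹' ({p : Can (Vert a n) | p.1 ∈ A} ∩ cyl m y) ∩
        {p | p.2 0 = x0 ∧ p.2 1 = x1} =
        {p : Can (Vert a n) | p.1 ∈ sh x1.1 ⁻¹' A} ∩
          cyl (m + 1) (pre x0 fun i => mv x1.1 (y i)) := by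
      ext p
      simp only [Set.mem_inter_iff, Set.mem_preimage, Set.mem_ofPred_eq, cyl, theta]
      constructor
      · rintro ⟨⟨h1, h2⟩, h3, h4⟩
        rw [h4] at h1 h2
        refine ⟨h1, fun i hi => ?_⟩
        cases i with
        | zero => exact h3
        | succ i =>
          have := h2 i (by omega)
          simp only [pre, ← this]
          simp
      · rintro ⟨h1, h2⟩
        have h4 : p.2 1 = x1 := by
          have := h2 1 (by omega)
          rw [this]
          simp [pre, hy, mv]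
        have h3 : p.2 0 = x0 := h2 0 (by omega)
        refine ⟨⟨by rw [h4]; exact h1, fun i hi => ?_⟩, h3, h4⟩
        rw [h4, h2 (i + 1) (by omega)]
        simp [pre]
    rw [e1, star_cyl hfin hL (measurable_sh _ hA)]
    have e2 : ∫⁻ q in {p : Can (Vert a n) | p.1 ∈ A} ∩ cyl m y,
        ENNReal.ofReal (stepProb (gr a n) q.1 (1, x1.2) (mv x1.1⁻¹ x0))
        ∂((star (gr a n) L).restrict {p | p.2 0 = (1, x1.2)}) =
        w0 (base a n) (y 0) * ∫⁻ e in A,
          ENNReal.ofReal (stepProb (gr a n) e (1, x1.2) (mv x1.1⁻¹ x0)) *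
          (ENNReal.ofReal (totalCond (gr a n) e (y 0)) * pw (gr a n) m y e) ∂(iid a n ρ) := by
      rw [Measure.restrict_restrict hS]
      have : ({p : Can (Vert a n) | p.1 ∈ A} ∩ cyl m y) ∩ {p | p.2 0 = (1, x1.2)} =
          {p : Can (Vert a n) | p.1 ∈ A} ∩ cyl m y := by
        apply Set.inter_eq_left.2
        rintro p ⟨-, hp⟩
        rw [Set.mem_ofPred_eq, hp 0 (Nat.zero_le _), hy]
      rw [this]
      exact setLIntegral_star_cyl hfin hL hA m y
        (f := fun e => ENNReal.ofReal (stepProb (gr a n) e (1, x1.2) (mv x1.1⁻¹ x0)))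
        (measurable_stepProb _ hfin _ _).ennreal_ofReal
    rw [e2]
    have e3 : w0 (base a n) (pre x0 (fun i => mv x1.1 (y i)) 0) = w0 (base a n) (y 0) := by
      have h1 : x0 ∈ base a n := mem_base.2 h0
      have h2 : y 0 ∈ base a n := mem_base.2 (by rw [hy])
      simp [w0, pre, h1, h2]
    rw [e3]
    congr 1
    have e4 : ∀ e : Sym2 (Vert a n) → ℝ, ENNReal.ofReal (totalCond (gr a n) e
        (pre x0 (fun i => mv x1.1 (y i)) 0)) *
        pw (gr a n) (m + 1) (pre x0 fun i => mv x1.1 (y i)) e =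
        (fun e' => ENNReal.ofReal (totalCond (gr a n) e' (mv x1.1⁻¹ x0)) *
          (ENNReal.ofReal (stepProb (gr a n) e' (mv x1.1⁻¹ x0) (y 0)) * pw (gr a n) m y e'))
          (sh x1.1 e) := by
      intro e
      simp only [pw_sh, totalCond_sh, stepProb_sh]
      have : pw (gr a n) (m + 1) (pre x0 fun i => mv x1.1 (y i)) e =
          ENNReal.ofReal (stepProb (gr a n) e x0 (mv x1.1 (y 0))) *
          pw (gr a n) m (fun i => mv x1.1 (y i)) e := by
        unfold pw
        rw [Finset.prod_range_succ', mul_comm]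
        rfl
      rw [this]
      simp [pre]
    simp only [e4]
    have hmF : Measurable fun e' : Sym2 (Vert a n) → ℝ =>
        ENNReal.ofReal (totalCond (gr a n) e' (mv x1.1⁻¹ x0)) *
          (ENNReal.ofReal (stepProb (gr a n) e' (mv x1.1⁻¹ x0) (y 0)) * pw (gr a n) m y e') :=
      (measurable_totalCond _ hfin _).ennreal_ofReal.mul
        ((measurable_stepProb _ hfin _ _).ennreal_ofReal.mul (measurable_pw _ hfin _ _))
    have e5 := (measurePreserving_sh (n := n) ρ x1.1).setLIntegral_comp_preimage hA hmF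
    refine Eq.trans e5 ?_
    refine lintegral_congr_ae (ae_restrict_of_ae ?_)
    filter_upwards [ae_pos (V := Vert a n) ρ hρ] with e he
    rw [← mul_assoc, ← mul_assoc]
    congr 1
    rw [← ENNReal.ofReal_mul (totalCond_pos hfin neighborSet_nonempty he _).le,
      reversible hfin neighborSet_nonempty he,
      ENNReal.ofReal_mul (totalCond_pos hfin neighborSet_nonempty he _).le, hy, mul_comm]
  · have e1 : theta ⁻¹' ({p : Can (Vert a n) | p.1 ∈ A} ∩ cyl m y) ∩
        {p | p.2 0 = x0 ∧ p.2 1 = x1} = ∅ := by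
      ext p
      simp only [Set.mem_inter_iff, Set.mem_preimage, Set.mem_ofPred_eq, cyl, theta,
        Set.mem_empty_iff_false, iff_false]
      rintro ⟨⟨h1, h2⟩, h3, h4⟩
      apply hy
      rw [← h2 0 (Nat.zero_le _), zero_add, h4]
      simp [mv]
    have e2 : ({p : Can (Vert a n) | p.1 ∈ A} ∩ cyl m y) ∩ {p | p.2 0 = (1, x1.2)} = ∅ := by
      ext p
      simp only [Set.mem_inter_iff, Set.mem_ofPred_eq, cyl,
        Set.mem_empty_iff_false, iff_false]
      rintro ⟨⟨h1, h2⟩, h3⟩
      apply hy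
      rw [← h2 0 (Nat.zero_le _), h3]
    rw [e1, Measure.restrict_restrict hS, e2]
    simp

lemma lintegral_theta_restrict (hρ : ∀ᵐ r ∂ρ, 0 < r)
    (hL : IsWalkLaw (gr a n) (iid a n ρ) (base a n) L) [IsFiniteMeasure (star (gr a n) L)]
    (x0 x1 : Vert a n) (h0 : x0.1 = 1) {Y : Can (Vert a n) → ℝ≥0∞} (hY : Measurable Y) :
    ∫⁻ p in {p | p.2 0 = x0 ∧ p.2 1 = x1}, Y (theta p) ∂(star (gr a n) L) =
      ∫⁻ q in {p | p.2 0 = (1, x1.2)},
        ENNReal.ofReal (stepProb (gr a n) q.1 (1, x1.2) (mv x1.1⁻¹ x0)) * Y q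
          ∂(star (gr a n) L) := by
  have hfin : ∀ x : Vert a n, ((gr a n).neighborSet x).Finite := neighborSet_finite
  have h := map_theta_restrict hρ hL x0 x1 h0
  have hm : Measurable fun q : Can (Vert a n) =>
      ENNReal.ofReal (stepProb (gr a n) q.1 (1, x1.2) (mv x1.1⁻¹ x0)) :=
    ((measurable_stepProb _ hfin _ _).comp measurable_fst).ennreal_ofReal
  rw [← lintegral_map hY measurable_theta, h,
    lintegral_withDensity_eq_lintegral_mul _ hm hY]
  rfl

lemma lintegral_split_two (M : Measure (Can (Vert a n))) (f : Can (Vert a n) → ℝ≥0∞) :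
    ∫⁻ p, f p ∂M = ∑' x0 : Vert a n, ∑' x1 : Vert a n,
      ∫⁻ p in {p | p.2 0 = x0 ∧ p.2 1 = x1}, f p ∂M := by
  rw [lintegral_split_coord M 0]
  refine tsum_congr fun x0 => ?_
  rw [lintegral_split_coord _ 1]
  refine tsum_congr fun x1 => ?_
  rw [Measure.restrict_restrict (measurableSet_coord _ _)]
  congr 2
  ext p
  simp only [Set.mem_inter_iff, Set.mem_ofPred_eq]
  exact and_comm

lemma tsum_base {f : Vert a n → ℝ≥0∞} (hf : ∀ x : Vert a n, x.1 ≠ 1 → f x = 0) :
    ∑' x, f x = ∑ u : Cell a n, f (1, u) := by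
  rw [tsum_eq_sum (s := base a n)]
  · rw [base, Finset.sum_map]
    rfl
  · intro x hx
    exact hf x fun h => hx (mem_base.2 h)

lemma star_not_base (hL : IsWalkLaw (gr a n) (iid a n ρ) (base a n) L) {x : Vert a n}
    (hx : x.1 ≠ 1) : star (gr a n) L {p | p.2 0 = x} = 0 :=
  star_coord_zero neighborSet_finite hL fun h => hx (mem_base.1 h)

lemma lintegral_theta (hρ : ∀ᵐ r ∂ρ, 0 < r)
    (hL : IsWalkLaw (gr a n) (iid a n ρ) (base a n) L) [IsFiniteMeasure (star (gr a n) L)]
    {Y : Can (Vert a n) → ℝ≥0∞} (hY : Measurable Y) :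
    ∫⁻ p, Y (theta p) ∂(star (gr a n) L) = ∫⁻ p, Y p ∂(star (gr a n) L) := by
  have hfin : ∀ x : Vert a n, ((gr a n).neighborSet x).Finite := neighborSet_finite
  rw [lintegral_split_two, lintegral_split_coord _ 0, tsum_base, tsum_base]
  · have h1 : ∀ u : Cell a n, ∑' x1 : Vert a n,
        ∫⁻ p in {p | p.2 0 = ((1 : Gam a), u) ∧ p.2 1 = x1}, Y (theta p) ∂(star (gr a n) L) =
        ∑' v : Cell a n, ∑' g : Gam a, ∫⁻ q in {p | p.2 0 = (1, v)},
        ENNReal.ofReal (stepProb (gr a n) q.1 (1, v) (g, u)) * Y q ∂(star (gr a n) L) := by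
      intro u
      rw [ENNReal.tsum_prod', ENNReal.tsum_comm]
      refine tsum_congr fun v => ?_
      rw [← (Equiv.inv (Gam a)).tsum_eq]
      refine tsum_congr fun g => ?_
      rw [lintegral_theta_restrict hρ hL (1, u) _ rfl hY]
      simp [mv]
    simp only [h1]
    rw [← tsum_fintype (L := .unconditional _), ENNReal.tsum_comm, tsum_fintype]
    refine Finset.sum_congr rfl fun v _ => ?_
    have hm : ∀ x : Vert a n, Measurable fun q : Can (Vert a n) =>
        ENNReal.ofReal (stepProb (gr a n) q.1 (1, v) x) :=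
      fun x => ((measurable_stepProb _ hfin _ _).comp measurable_fst).ennreal_ofReal
    have h2 : ∑' u : Cell a n, ∑' g : Gam a, ∫⁻ q in {p | p.2 0 = (1, v)},
        ENNReal.ofReal (stepProb (gr a n) q.1 (1, v) (g, u)) * Y q ∂(star (gr a n) L) =
        ∑' x : Vert a n, ∫⁻ q in {p | p.2 0 = (1, v)},
        ENNReal.ofReal (stepProb (gr a n) q.1 (1, v) x) * Y q ∂(star (gr a n) L) := by
      rw [ENNReal.tsum_comm, ENNReal.tsum_prod']
    have h3 : ∀ x : Vert a n, AEMeasurable (fun q : Can (Vert a n) =>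
        ENNReal.ofReal (stepProb (gr a n) q.1 (1, v) x) * Y q)
        ((star (gr a n) L).restrict {p | p.2 0 = (1, v)}) :=
      fun x => ((hm x).mul hY).aemeasurable
    rw [h2, ← lintegral_tsum h3]
    refine lintegral_congr_ae (ae_restrict_of_ae ?_)
    filter_upwards [ae_star hfin hL (ae_pos (V := Vert a n) ρ hρ)] with q hq
    rw [ENNReal.tsum_mul_right, tsum_stepProb hfin neighborSet_nonempty hq, one_mul]
  · intro x hx
    rw [Measure.restrict_eq_zero.2 (star_not_base hL hx)]
    simp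
  · intro x hx
    rw [ENNReal.tsum_eq_zero]
    intro x1
    rw [Measure.restrict_eq_zero.2]
    · simp
    · exact measure_mono_null (fun p hp => hp.1) (star_not_base hL hx)

lemma theta_preserving (hρ : ∀ᵐ r ∂ρ, 0 < r)
    (hL : IsWalkLaw (gr a n) (iid a n ρ) (base a n) L) [IsFiniteMeasure (star (gr a n) L)] :
    MeasurePreserving theta (star (gr a n) L) (star (gr a n) L) := by
  refine ⟨measurable_theta, ?_⟩
  ext S hS
  rw [Measure.map_apply measurable_theta hS, ← lintegral_indicator_one hS,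
    ← lintegral_theta hρ hL (measurable_one.indicator hS),
    ← lintegral_indicator_one (measurable_theta hS)]
  rfl

/-- A function of environment and position invariant under translations. -/
def Inv {α : Type} (D : (Sym2 (Vert a n) → ℝ) → Vert a n → α) : Prop :=
  ∀ g c x, D (sh g c) (mv g⁻¹ x) = D c x

lemma lintegral_inv (hρ : ∀ᵐ r ∂ρ, 0 < r)
    (hL : IsWalkLaw (gr a n) (iid a n ρ) (base a n) L) [IsFiniteMeasure (star (gr a n) L)]
    {D : (Sym2 (Vert a n) → ℝ) → Vert a n → ℝ≥0∞} (hD : Inv D)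
    (hm : ∀ x, Measurable fun e => D e x) (k : ℕ) :
    ∫⁻ p, D p.1 (p.2 k) ∂(star (gr a n) L) = ∫⁻ p, D p.1 (p.2 0) ∂(star (gr a n) L) := by
  induction k with
  | zero => rfl
  | succ k ih =>
    rw [← ih]
    have hY : Measurable fun p : Can (Vert a n) => D p.1 (p.2 k) := by
      have : (fun p : Can (Vert a n) => D p.1 (p.2 k)) =
        (fun q : (Sym2 (Vert a n) → ℝ) × Vert a n => D q.1 q.2) ∘
          (fun p : Can (Vert a n) => (p.1, p.2 k)) := rfl
      rw [this]
      exact (measurable_from_prod_countable_left hm).comp (by fun_prop)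
    rw [← lintegral_theta hρ hL hY]
    refine lintegral_congr fun p => ?_
    simp only [theta]
    exact (hD _ _ _).symm

end concrete

end Pool.Agent.H42
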