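import Pool.Agent.H42.SlowDefs

/-!
Random walks among random conductances: definitions and first properties.
-/

open MeasureTheory ProbabilityTheory
open scoped BigOperators ENNReal

namespace Pool.Agent.H42

set_option linter.unusedSectionVars false

section canonical

variable {V : Type} [MeasurableSpace V] [DiscreteMeasurableSpace V] [Countable V]

/-- The canonical space of environments and paths. -/
abbrev Can (V : Type) : Type := (Sym2 V → ℝ) × (ℕ → V)

/-- Paths agreeing with `x` up to time `n`. -/
def cyl (n : ℕ) (x : ℕ → V) : Set (Can V) := {p | ∀ i ≤ n, p.2 i = x i}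

open Classical in
/-- Weight of the starting point. -/
noncomputable def w0 (W : Finset V) (x : V) : ℝ≥0∞ := if x ∈ W then (W.card : ℝ≥0∞)⁻¹ else 0

/-- Weight of a path. -/
noncomputable def pw (G : SimpleGraph V) (n : ℕ) (x : ℕ → V) (e : Sym2 V → ℝ) : ℝ≥0∞ :=
  ∏ i ∈ Finset.range n, ENNReal.ofReal (stepProb G e (x i) (x (i + 1)))

/-- The law of the environment and the walk on the canonical space. -/
def IsWalkLaw (G : SimpleGraph V) (P : Measure (Sym2 V → ℝ)) (W : Finset V)
    (L : Measure (Can V)) : Prop :=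
  ∀ A : Set (Sym2 V → ℝ), MeasurableSet A → ∀ (n : ℕ) (x : ℕ → V),
    L ({p | p.1 ∈ A} ∩ cyl n x) = w0 W (x 0) * ∫⁻ e in A, pw G n x e ∂P

omit [MeasurableSpace V] [DiscreteMeasurableSpace V] [Countable V] in
lemma measurable_totalCond (G : SimpleGraph V) (hfin : ∀ x, (G.neighborSet x).Finite) (x : V) :
    Measurable (fun c : Sym2 V → ℝ => totalCond G c x) := by
  unfold totalCond
  have : (fun c : Sym2 V → ℝ => ∑ᶠ y ∈ G.neighborSet x, c s(x, y)) =
      fun c => ∑ y ∈ (hfin x).toFinset, c s(x, y) := by
    ext c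
    exact finsum_mem_eq_finite_toFinset_sum _ (hfin x)
  rw [this]
  fun_prop

omit [MeasurableSpace V] [DiscreteMeasurableSpace V] [Countable V] in
lemma measurable_stepProb (G : SimpleGraph V) (hfin : ∀ x, (G.neighborSet x).Finite) (x y : V) :
    Measurable (fun c : Sym2 V → ℝ => stepProb G c x y) := by
  unfold stepProb
  split_ifs
  · exact (measurable_pi_apply _).div (measurable_totalCond G hfin x)
  · exact measurable_const

omit [MeasurableSpace V] [DiscreteMeasurableSpace V] [Countable V] in
lemma measurable_pw (G : SimpleGraph V) (hfin : ∀ x, (G.neighborSet x).Finite) (n : ℕ)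
    (x : ℕ → V) : Measurable (pw G n x) := by
  unfold pw
  exact Finset.measurable_prod _ fun i _ => (measurable_stepProb G hfin _ _).ennreal_ofReal

omit [Countable V] in
lemma measurableSet_cyl (n : ℕ) (x : ℕ → V) : MeasurableSet (cyl n x) := by
  have : cyl n x = ⋂ i ∈ Set.Iic n, (fun p : Can V => p.2 i) ⁻¹' {x i} := by
    ext p; simp [cyl]
  rw [this]
  refine MeasurableSet.biInter (Set.to_countable _) fun i _ => ?_
  exact ((measurable_pi_apply i).comp measurable_snd) (MeasurableSet.singleton _)

variable {G : SimpleGraph V} {P : Measure (Sym2 V → ℝ)} {W : Finset V} {L : Measure (Can V)}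

omit [Countable V] in
lemma map_restrict_cyl (hL : IsWalkLaw G P W L)
    (n : ℕ) (x : ℕ → V) :
    (L.restrict (cyl n x)).map Prod.fst = w0 W (x 0) • P.withDensity (pw G n x) := by
  ext A hA
  rw [Measure.map_apply measurable_fst hA, Measure.restrict_apply (measurable_fst hA),
    Measure.smul_apply, withDensity_apply _ hA, smul_eq_mul]
  exact hL A hA n x

omit [Countable V] in
lemma lintegral_cyl (hfin : ∀ x, (G.neighborSet x).Finite) (hL : IsWalkLaw G P W L)
    (n : ℕ) (x : ℕ → V) {f : (Sym2 V → ℝ) → ℝ≥0∞} (hf : Measurable f) :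
    ∫⁻ p in cyl n x, f p.1 ∂L = w0 W (x 0) * ∫⁻ e, f e * pw G n x e ∂P := by
  have h : ∫⁻ p in cyl n x, f p.1 ∂L = ∫⁻ e, f e ∂((L.restrict (cyl n x)).map Prod.fst) := by
    rw [lintegral_map hf measurable_fst]
  rw [h, map_restrict_cyl hL, lintegral_smul_measure, smul_eq_mul,
    lintegral_withDensity_eq_lintegral_mul _ (measurable_pw G hfin n x) hf]
  congr 1
  refine lintegral_congr fun e => ?_
  simp [mul_comm]

/-- Bias by the conductance of the starting point. -/
noncomputable def bias (G : SimpleGraph V) (p : Can V) : ℝ≥0∞ :=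
  ENNReal.ofReal (totalCond G p.1 (p.2 0))

lemma measurable_bias (hfin : ∀ x, (G.neighborSet x).Finite) : Measurable (bias (V := V) G) := by
  unfold bias
  refine ENNReal.measurable_ofReal.comp ?_
  have : (fun p : Can V => totalCond G p.1 (p.2 0)) =
      (fun q : (Sym2 V → ℝ) × V => totalCond G q.1 q.2) ∘ (fun p : Can V => (p.1, p.2 0)) := rfl
  rw [this]
  refine Measurable.comp ?_ (by fun_prop)
  exact measurable_from_prod_countable_left fun y => measurable_totalCond G hfin y

/-- The biased (stationary) measure. -/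
noncomputable def star (G : SimpleGraph V) (L : Measure (Can V)) : Measure (Can V) :=
  L.withDensity (bias G)

lemma lintegral_star_cyl (hfin : ∀ x, (G.neighborSet x).Finite) (hL : IsWalkLaw G P W L)
    (n : ℕ) (x : ℕ → V) {f : (Sym2 V → ℝ) → ℝ≥0∞} (hf : Measurable f) :
    ∫⁻ p in cyl n x, f p.1 ∂(star G L) =
      w0 W (x 0) * ∫⁻ e, f e * (ENNReal.ofReal (totalCond G e (x 0)) * pw G n x e) ∂P := by
  have hm : Measurable fun p : Can V => f p.1 := hf.comp measurable_fst
  unfold star
  rw [restrict_withDensity (measurableSet_cyl n x),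
    lintegral_withDensity_eq_lintegral_mul _ (measurable_bias hfin) hm]
  have h2 : ∫⁻ p in cyl n x, (bias G * fun p : Can V => f p.1) p ∂L =
      ∫⁻ p in cyl n x, (fun e => ENNReal.ofReal (totalCond G e (x 0)) * f e) p.1 ∂L := by
    refine setLIntegral_congr_fun (measurableSet_cyl n x) ?_
    intro p hp
    have : p.2 0 = x 0 := hp 0 (Nat.zero_le _)
    simp [bias, this]
  have hf' : Measurable fun e : Sym2 V → ℝ => ENNReal.ofReal (totalCond G e (x 0)) * f e :=
    ((measurable_totalCond G hfin (x 0)).ennreal_ofReal).mul hf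
  rw [h2, lintegral_cyl hfin hL n x (f := fun e => ENNReal.ofReal (totalCond G e (x 0)) * f e) hf']
  congr 1
  refine lintegral_congr fun e => ?_
  ring

end canonical

end Pool.Agent.H42
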